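import Mathlib

/-!
# Quadratic repulsion: random series which converge almost surely
-/

set_option autoImplicit false
set_option linter.unusedSectionVars false

open Set Filter Topology MeasureTheory ProbabilityTheory
open scoped ENNReal NNReal

noncomputable section

namespace Pool.Agent.L5helper74.QR

variable {Ω : Type} [MeasurableSpace Ω] {P : Measure Ω} {X : Type}
  [NormedAddCommGroup X] [NormedSpace ℝ X] {ξ : ℕ → Ω → ℝ} {f : ℕ → X} {φ : Ω → X}

/-- changes on a null set -/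
lemma ae_red (hξ : ∀ k, Measurable (ξ k)) (hind : iIndepFun ξ P)
    (hφ : ∀ᵐ ω ∂P, Tendsto (fun n => ∑ k ∈ Finset.range n, ξ k ω • f k) atTop (𝓝 (φ ω))) :
    ∃ (ξ' : ℕ → Ω → ℝ) (φ' : Ω → X), (∀ k, Measurable (ξ' k)) ∧ iIndepFun ξ' P ∧
      (∀ ω, Tendsto (fun n => ∑ k ∈ Finset.range n, ξ' k ω • f k) atTop (𝓝 (φ' ω))) ∧
      ∀ᵐ ω ∂P, φ' ω = φ ω ∧ ∀ k, ξ' k ω = ξ k ω := by
  classical
  obtain ⟨N, hN⟩ : ∃ N, N = toMeasurable P {ω | ¬ Tendsto (fun n => ∑ k ∈ Finset.range n,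
    ξ k ω • f k) atTop (𝓝 (φ ω))} := ⟨_, rfl⟩
  have hNm : MeasurableSet N := by rw [hN]; exact measurableSet_toMeasurable _ _
  have hN0 : P N = 0 := by
    rw [hN, measure_toMeasurable]
    exact ae_iff.1 hφ
  have hNs : ∀ ω, ω ∉ N → Tendsto (fun n => ∑ k ∈ Finset.range n, ξ k ω • f k) atTop
      (𝓝 (φ ω)) := by
    intro ω hω
    by_contra h
    apply hω
    rw [hN]
    exact subset_toMeasurable _ _ h
  have hae : ∀ᵐ ω ∂P, ω ∉ N := measure_eq_zero_iff_ae_notMem.1 hN0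
  have h1 : ∀ k, ∀ᵐ ω ∂P, Nᶜ.indicator (ξ k) ω = ξ k ω := fun k => by
    filter_upwards [hae] with ω hω
    exact indicator_of_mem (mem_compl hω) _
  refine ⟨fun k => Nᶜ.indicator (ξ k), Nᶜ.indicator φ, fun k => (hξ k).indicator hNm.compl,
    (iIndepFun_congr h1).2 hind, fun ω => ?_, ?_⟩
  · by_cases hω : ω ∈ N
    · have h2 : ω ∉ Nᶜ := fun h => h hω
      simp only [indicator_of_notMem h2, zero_smul, Finset.sum_const_zero]
      exact tendsto_const_nhds
    · have h2 : ω ∈ Nᶜ := hω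
      simp only [indicator_of_mem h2]
      exact hNs ω hω
  · filter_upwards [hae, ae_all_iff.2 h1] with ω hω h2
    exact ⟨indicator_of_mem (mem_compl hω) _, h2⟩

/-- bounded coefficients: the values of the series lie in a compact set -/
lemma cube [CompleteSpace X] (hs : Summable fun k => ‖f k‖) (R : ℝ) :
    ∃ K : Set X, IsCompact K ∧ ∀ (a : ℕ → ℝ) (y : X), (∀ k, |a k| ≤ R) →
      Tendsto (fun n => ∑ k ∈ Finset.range n, a k • f k) atTop (𝓝 y) → y ∈ K := by
  obtain ⟨S, hS⟩ : ∃ S : (ℕ → Icc (-R) R) → X, S = fun t => ∑' k, ((t k : ℝ)) • f k := ⟨_, rfl⟩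
  have hbd : ∀ (k : ℕ) (t : ℕ → Icc (-R) R), ‖((t k : ℝ)) • f k‖ ≤ R * ‖f k‖ := by
    intro k t
    rw [norm_smul]
    exact mul_le_mul_of_nonneg_right (abs_le.2 ⟨(t k).2.1, (t k).2.2⟩) (norm_nonneg _)
  have hc : Continuous S := by
    rw [hS]
    refine continuous_tsum (u := fun k => R * ‖f k‖) (fun k => ?_) (hs.mul_left R) hbd
    exact (continuous_subtype_val.comp (continuous_apply k)).smul continuous_const
  refine ⟨range S, isCompact_range hc, fun a y ha hy => ?_⟩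
  refine ⟨fun k => ⟨a k, abs_le.1 (ha k)⟩, ?_⟩
  rw [hS]
  have h1 : Summable fun k => a k • f k := by
    refine Summable.of_norm_bounded (g := fun k => R * ‖f k‖) (hs.mul_left R) fun k => ?_
    rw [norm_smul]
    exact mul_le_mul_of_nonneg_right (ha k) (norm_nonneg _)
  exact tendsto_nhds_unique h1.hasSum.tendsto_sum_nat hy

end Pool.Agent.L5helper74.QR
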