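import Pool.Agent.L5helper74.LR.Wey5

/-!
# Quadratic repulsion: quadratic relations between functions whose products do not vanish
-/

set_option autoImplicit false
set_option linter.unusedSectionVars false

open Set Filter Topology MeasureTheory
open Pool.Agent.L5helper74.LR

noncomputable section

namespace Pool.Agent.L5helper74.QR

variable {M : Type} [MeasurableSpace M] {μ : Measure M} {m : ℕ} {u : Fin (m + 1) → M → ℝ}

/-- a binary form -/
lemma bin (hP : ∀ w w' : Fin (m + 1) → ℝ,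
      (∀ᵐ x ∂μ, (∑ j, w j * u j x) * (∑ j, w' j * u j x) = 0) → w = 0 ∨ w' = 0)
    {w w' : Fin (m + 1) → ℝ} (hw : ∀ p q : ℝ, p • w + q • w' = 0 → p = 0 ∧ q = 0) {α β γ : ℝ}
    (h : ∀ᵐ x ∂μ, α * (∑ j, w j * u j x) ^ 2 +
      β * ((∑ j, w j * u j x) * (∑ j, w' j * u j x)) + γ * (∑ j, w' j * u j x) ^ 2 = 0) :
    α = 0 ∧ β = 0 ∧ γ = 0 := by
  have hlin : ∀ (p q : ℝ) (x : M), ∑ j, (p • w + q • w') j * u j x =
      p * ∑ j, w j * u j x + q * ∑ j, w' j * u j x := by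
    intro p q x
    rw [Finset.mul_sum, Finset.mul_sum, ← Finset.sum_add_distrib]
    refine Finset.sum_congr rfl fun j _ => ?_
    simp only [Pi.add_apply, Pi.smul_apply, smul_eq_mul]
    ring
  have hw' : w' ≠ 0 := fun h0 => by
    have := (hw 0 1 (by rw [h0]; simp)).2
    exact one_ne_zero this
  by_cases hα : α = 0
  · refine ⟨hα, ?_⟩
    rcases hP w' (β • w + γ • w') (by
      filter_upwards [h] with x hx
      rw [hlin, ← hx, hα]
      ring) with h0 | h0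
    · exact absurd h0 hw'
    · exact hw β γ h0
  · exfalso
    rcases le_or_gt 0 (β ^ 2 - 4 * α * γ) with hD | hD
    · obtain ⟨t, ht⟩ : ∃ t : ℝ, t ^ 2 = β ^ 2 - 4 * α * γ :=
        ⟨Real.sqrt (β ^ 2 - 4 * α * γ), Real.sq_sqrt hD⟩
      rcases hP (α • w + ((β - t) / 2) • w') ((1 : ℝ) • w + ((β + t) / (2 * α)) • w') (by
        filter_upwards [h] with x hx
        rw [hlin, hlin, ← hx]
        have h1 : (β - t) / 2 * ((β + t) / (2 * α)) = γ := by
          field_simp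
          nlinarith
        have h2 : α * ((β + t) / (2 * α)) = (β + t) / 2 := by
          field_simp
        calc (α * ∑ j, w j * u j x + (β - t) / 2 * ∑ j, w' j * u j x) *
              (1 * ∑ j, w j * u j x + (β + t) / (2 * α) * ∑ j, w' j * u j x)
            = α * (∑ j, w j * u j x) ^ 2 +
              (α * ((β + t) / (2 * α)) + (β - t) / 2) *
                ((∑ j, w j * u j x) * ∑ j, w' j * u j x) +
              (β - t) / 2 * ((β + t) / (2 * α)) * (∑ j, w' j * u j x) ^ 2 := by ring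
          _ = _ := by
              rw [h1, h2]
              ring) with h0 | h0
      · exact hα (hw _ _ h0).1
      · exact one_ne_zero (hw _ _ h0).1
    · rcases hP w' w' (by
        filter_upwards [h] with x hx
        have h1 : (2 * α * ∑ j, w j * u j x + β * ∑ j, w' j * u j x) ^ 2 +
            (-(β ^ 2 - 4 * α * γ)) * (∑ j, w' j * u j x) ^ 2 = 0 := by
          have h2 : (2 * α * ∑ j, w j * u j x + β * ∑ j, w' j * u j x) ^ 2 +
            (-(β ^ 2 - 4 * α * γ)) * (∑ j, w' j * u j x) ^ 2 = 4 * α *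
            (α * (∑ j, w j * u j x) ^ 2 + β * ((∑ j, w j * u j x) * (∑ j, w' j * u j x)) +
              γ * (∑ j, w' j * u j x) ^ 2) := by ring
          rw [h2, hx, mul_zero]
        have h2 : (∑ j, w' j * u j x) ^ 2 = 0 := by
          have h3 : 0 ≤ (2 * α * ∑ j, w j * u j x + β * ∑ j, w' j * u j x) ^ 2 := sq_nonneg _
          have h4 : 0 ≤ (∑ j, w' j * u j x) ^ 2 := sq_nonneg _
          nlinarith
        rw [← sq]
        exact h2) with h0 | h0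
      · exact hw' h0
      · exact hw' h0

lemma row_ind {k : ℕ} {V : Fin (m + 1) → Fin (m + 1) → ℝ} (hV : Ort V)
    {σ : Fin (k + 1) → Fin (m + 1)} (hσ : Function.Injective σ) {p : Fin (k + 1) → ℝ}
    (h : ∑ i, p i • V (σ i) = 0) : p = 0 := by
  funext i
  have h1 : ∑ j, (∑ i, p i • V (σ i)) j * V (σ i) j = 0 := by
    rw [h]
    simp
  have h2 : ∑ j, (∑ i', p i' • V (σ i')) j * V (σ i) j = p i := by
    calc ∑ j, (∑ i', p i' • V (σ i')) j * V (σ i) j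
        = ∑ i', p i' * ∑ j, V (σ i') j * V (σ i) j := by
          simp only [Finset.sum_apply, Pi.smul_apply, smul_eq_mul, Finset.sum_mul,
            Finset.mul_sum]
          rw [Finset.sum_comm]
          exact Finset.sum_congr rfl fun i' _ => Finset.sum_congr rfl fun j _ => by ring
      _ = p i := by
          simp only [V_row hV, hσ.eq_iff]
          simp
  rw [← h2, h1]
  rfl

/-- pairs -/
lemma rel2 (hP : ∀ w w' : Fin (m + 1) → ℝ,
      (∀ᵐ x ∂μ, (∑ j, w j * u j x) * (∑ j, w' j * u j x) = 0) → w = 0 ∨ w' = 0)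
    {V : Fin (m + 1) → Fin (m + 1) → ℝ} (hV : Ort V) {σ : Fin 2 → Fin (m + 1)}
    (hσ : Function.Injective σ) {S : Fin 2 → Fin 2 → ℝ} (hS : ∀ i j, S i j = S j i)
    (h : ∀ᵐ x ∂μ, ∑ i, ∑ j, S i j * ((∑ p, V (σ i) p * u p x) * (∑ p, V (σ j) p * u p x)) = 0) :
    S = 0 := by
  obtain ⟨h1, h2, h3⟩ := bin hP (w := V (σ 0)) (w' := V (σ 1)) (fun p q hpq => by
    have h4 := row_ind hV hσ (p := ![p, q]) (by simpa [Fin.sum_univ_two] using hpq)
    exact ⟨congrFun h4 0, congrFun h4 1⟩) (α := S 0 0) (β := 2 * S 0 1) (γ := S 1 1) (by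
      filter_upwards [h] with x hx
      rw [← hx, Fin.sum_univ_two, Fin.sum_univ_two, Fin.sum_univ_two, hS 1 0]
      ring)
  have h4 : S 0 1 = 0 := by linarith
  funext i j
  fin_cases i <;> fin_cases j
  · exact h1
  · exact h4
  · show S 1 0 = 0
    rw [hS 1 0]
    exact h4
  · exact h3

lemma det_aux (hP : ∀ w w' : Fin (m + 1) → ℝ,
      (∀ᵐ x ∂μ, (∑ j, w j * u j x) * (∑ j, w' j * u j x) = 0) → w = 0 ∨ w' = 0)
    {y₀ y₁ y₂ : Fin (m + 1) → ℝ}
    (hy : ∀ p q r : ℝ, p • y₀ + q • y₁ + r • y₂ = 0 → p = 0 ∧ q = 0 ∧ r = 0)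
    {t₀₀ t₀₁ t₀₂ t₁₁ t₁₂ t₂₂ v₀ v₁ v₂ : ℝ} (hv : v₀ ≠ 0)
    (e0 : t₀₀ * v₀ + t₀₁ * v₁ + t₀₂ * v₂ = 0) (e1 : t₀₁ * v₀ + t₁₁ * v₁ + t₁₂ * v₂ = 0)
    (e2 : t₀₂ * v₀ + t₁₂ * v₁ + t₂₂ * v₂ = 0)
    (h : ∀ᵐ x ∂μ, t₀₀ * (∑ j, y₀ j * u j x) ^ 2 +
      2 * t₀₁ * ((∑ j, y₀ j * u j x) * (∑ j, y₁ j * u j x)) +
      2 * t₀₂ * ((∑ j, y₀ j * u j x) * (∑ j, y₂ j * u j x)) + t₁₁ * (∑ j, y₁ j * u j x) ^ 2 +
      2 * t₁₂ * ((∑ j, y₁ j * u j x) * (∑ j, y₂ j * u j x)) +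
      t₂₂ * (∑ j, y₂ j * u j x) ^ 2 = 0) :
    t₀₀ = 0 ∧ t₀₁ = 0 ∧ t₀₂ = 0 ∧ t₁₁ = 0 ∧ t₁₂ = 0 ∧ t₂₂ = 0 := by
  have hlin : ∀ (c : ℝ) (y y' : Fin (m + 1) → ℝ) (x : M), ∑ j, (y + c • y') j * u j x =
      ∑ j, y j * u j x + c * ∑ j, y' j * u j x := by
    intro c y y' x
    rw [Finset.mul_sum, ← Finset.sum_add_distrib]
    refine Finset.sum_congr rfl fun j _ => ?_
    simp only [Pi.add_apply, Pi.smul_apply, smul_eq_mul]
    ring
  obtain ⟨a, ha⟩ : ∃ a : ℝ, a = -(v₁ / v₀) := ⟨_, rfl⟩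
  obtain ⟨b, hb⟩ : ∃ b : ℝ, b = -(v₂ / v₀) := ⟨_, rfl⟩
  have e1' : t₀₁ = t₁₁ * a + t₁₂ * b := by
    rw [ha, hb]
    field_simp
    linarith
  have e2' : t₀₂ = t₁₂ * a + t₂₂ * b := by
    rw [ha, hb]
    field_simp
    linarith
  have e0' : t₀₀ = t₀₁ * a + t₀₂ * b := by
    rw [ha, hb]
    field_simp
    linarith
  obtain ⟨h1, h2, h3⟩ := bin hP (w := y₁ + a • y₀) (w' := y₂ + b • y₀) (fun p q hpq => by
    have h4 := hy (p * a + q * b) p q (by
      rw [← hpq]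
      module)
    exact ⟨h4.2.1, h4.2.2⟩) (α := t₁₁) (β := 2 * t₁₂) (γ := t₂₂) (by
      filter_upwards [h] with x hx
      rw [hlin, hlin, ← hx, e0', e1', e2']
      ring)
  have h4 : t₁₂ = 0 := by linarith
  have h5 : t₀₁ = 0 := by rw [e1', h1, h4]; ring
  have h6 : t₀₂ = 0 := by rw [e2', h3, h4]; ring
  exact ⟨by rw [e0', h5, h6]; ring, h5, h6, h1, h4, h3⟩

/-- ternary forms with determinant zero -/
lemma det0 (hP : ∀ w w' : Fin (m + 1) → ℝ,
      (∀ᵐ x ∂μ, (∑ j, w j * u j x) * (∑ j, w' j * u j x) = 0) → w = 0 ∨ w' = 0)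
    {V : Fin (m + 1) → Fin (m + 1) → ℝ} (hV : Ort V) {σ : Fin 3 → Fin (m + 1)}
    (hσ : Function.Injective σ) {T : Matrix (Fin 3) (Fin 3) ℝ} (hT : ∀ i j, T i j = T j i)
    (hdet : T.det = 0)
    (h : ∀ᵐ x ∂μ, ∑ i, ∑ j, T i j * ((∑ p, V (σ i) p * u p x) * (∑ p, V (σ j) p * u p x)) = 0) :
    T = 0 := by
  obtain ⟨v, hv, hTv⟩ := Matrix.exists_mulVec_eq_zero_iff.2 hdet
  have hrow : ∀ i, T i 0 * v 0 + T i 1 * v 1 + T i 2 * v 2 = 0 := by
    intro i
    have := congrFun hTv i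
    simpa [Matrix.mulVec, dotProduct, Fin.sum_univ_three] using this
  have hind : ∀ p q r : ℝ, p • V (σ 0) + q • V (σ 1) + r • V (σ 2) = 0 →
      p = 0 ∧ q = 0 ∧ r = 0 := by
    intro p q r hpq
    have h4 := row_ind hV hσ (p := ![p, q, r]) (by
      rw [Fin.sum_univ_three]
      exact hpq)
    exact ⟨congrFun h4 0, congrFun h4 1, congrFun h4 2⟩
  have hx : ∀ A : Fin 3 → ℝ, ∑ i, ∑ j, T i j * (A i * A j) = T 0 0 * A 0 ^ 2 +
      2 * T 0 1 * (A 0 * A 1) + 2 * T 0 2 * (A 0 * A 2) + T 1 1 * A 1 ^ 2 +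
      2 * T 1 2 * (A 1 * A 2) + T 2 2 * A 2 ^ 2 := by
    intro A
    simp only [Fin.sum_univ_three]
    rw [hT 1 0, hT 2 0, hT 2 1]
    ring
  have r0 := hrow 0
  have r1 := hrow 1
  have r2 := hrow 2
  rw [hT 1 0] at r1
  rw [hT 2 0, hT 2 1] at r2
  have key : T 0 0 = 0 ∧ T 0 1 = 0 ∧ T 0 2 = 0 ∧ T 1 1 = 0 ∧ T 1 2 = 0 ∧ T 2 2 = 0 := by
    by_cases hv0 : v 0 = 0
    · by_cases hv1 : v 1 = 0
      · have hv2 : v 2 ≠ 0 := by
          intro hv2
          refine hv (funext fun i => ?_)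
          fin_cases i
          · exact hv0
          · exact hv1
          · exact hv2
        obtain ⟨a1, a2, a3, a4, a5, a6⟩ := det_aux hP (y₀ := V (σ 2)) (y₁ := V (σ 0))
          (y₂ := V (σ 1)) (t₀₀ := T 2 2) (t₀₁ := T 0 2) (t₀₂ := T 1 2) (t₁₁ := T 0 0)
          (t₁₂ := T 0 1) (t₂₂ := T 1 1) (v₀ := v 2) (v₁ := v 0) (v₂ := v 1)
          (fun p q r hpq => by
            have h4 := hind q r p (by rw [← hpq]; abel)
            exact ⟨h4.2.2, h4.1, h4.2.1⟩) hv2 (by linarith) (by linarith) (by linarith) (by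
            filter_upwards [h] with x hx1
            rw [hx fun i => ∑ p, V (σ i) p * u p x] at hx1
            rw [← hx1]
            ring)
        exact ⟨a4, a5, a2, a6, a3, a1⟩
      · obtain ⟨a1, a2, a3, a4, a5, a6⟩ := det_aux hP (y₀ := V (σ 1)) (y₁ := V (σ 0))
          (y₂ := V (σ 2)) (t₀₀ := T 1 1) (t₀₁ := T 0 1) (t₀₂ := T 1 2) (t₁₁ := T 0 0)
          (t₁₂ := T 0 2) (t₂₂ := T 2 2) (v₀ := v 1) (v₁ := v 0) (v₂ := v 2)
          (fun p q r hpq => by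
            have h4 := hind q p r (by rw [← hpq]; abel)
            exact ⟨h4.2.1, h4.1, h4.2.2⟩) hv1 (by linarith) (by linarith) (by linarith) (by
            filter_upwards [h] with x hx1
            rw [hx fun i => ∑ p, V (σ i) p * u p x] at hx1
            rw [← hx1]
            ring)
        exact ⟨a4, a2, a5, a1, a3, a6⟩
    · obtain ⟨a1, a2, a3, a4, a5, a6⟩ := det_aux hP (y₀ := V (σ 0)) (y₁ := V (σ 1))
          (y₂ := V (σ 2)) (t₀₀ := T 0 0) (t₀₁ := T 0 1) (t₀₂ := T 0 2) (t₁₁ := T 1 1)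
          (t₁₂ := T 1 2) (t₂₂ := T 2 2) (v₀ := v 0) (v₁ := v 1) (v₂ := v 2)
          hind hv0 (by linarith) (by linarith) (by linarith) (by
            filter_upwards [h] with x hx1
            rw [hx fun i => ∑ p, V (σ i) p * u p x] at hx1
            rw [← hx1])
      exact ⟨a1, a2, a3, a4, a5, a6⟩
  obtain ⟨a1, a2, a3, a4, a5, a6⟩ := key
  ext i j
  fin_cases i <;> fin_cases j
  · exact a1
  · exact a2
  · exact a3
  · exact (hT 1 0).trans a2
  · exact a4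
  · exact a5
  · exact (hT 2 0).trans a3
  · exact (hT 2 1).trans a5
  · exact a6

/-- triples -/
lemma rel3 (hP : ∀ w w' : Fin (m + 1) → ℝ,
      (∀ᵐ x ∂μ, (∑ j, w j * u j x) * (∑ j, w' j * u j x) = 0) → w = 0 ∨ w' = 0)
    {V : Fin (m + 1) → Fin (m + 1) → ℝ} (hV : Ort V) {σ : Fin 3 → Fin (m + 1)}
    (hσ : Function.Injective σ) {S S' : Fin 3 → Fin 3 → ℝ} (hS : ∀ i j, S i j = S j i)
    (hS' : ∀ i j, S' i j = S' j i)
    (h : ∀ᵐ x ∂μ, ∑ i, ∑ j, S i j * ((∑ p, V (σ i) p * u p x) * (∑ p, V (σ j) p * u p x)) = 0)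
    (h' : ∀ᵐ x ∂μ, ∑ i, ∑ j, S' i j *
      ((∑ p, V (σ i) p * u p x) * (∑ p, V (σ j) p * u p x)) = 0) :
    ∃ α β : ℝ, (α ≠ 0 ∨ β ≠ 0) ∧ ∀ i j, α * S i j + β * S' i j = 0 := by
  obtain ⟨T, hT⟩ : ∃ T : ℝ → Matrix (Fin 3) (Fin 3) ℝ,
      ∀ θ i j, T θ i j = Real.cos θ * S i j + Real.sin θ * S' i j :=
    ⟨fun θ => Matrix.of fun i j => Real.cos θ * S i j + Real.sin θ * S' i j, fun _ _ _ => rfl⟩
  have hc : Continuous fun θ => (T θ).det := by
    refine Continuous.matrix_det (continuous_pi fun i => continuous_pi fun j => ?_)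
    simp only [hT]
    fun_prop
  have hπ : (T Real.pi).det = -(T 0).det := by
    have h1 : T Real.pi = -T 0 := by
      ext i j
      rw [Matrix.neg_apply, hT, hT]
      simp
    rw [h1, Matrix.det_neg]
    simp
    norm_num
  obtain ⟨θ, hθ⟩ : ∃ θ, (T θ).det = 0 := by
    rcases le_total (T 0).det 0 with h1 | h1
    · exact mem_range_of_exists_le_of_exists_ge hc ⟨0, h1⟩ ⟨Real.pi, by rw [hπ]; linarith⟩
    · exact mem_range_of_exists_le_of_exists_ge hc ⟨Real.pi, by rw [hπ]; linarith⟩ ⟨0, h1⟩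
  have hT0 := det0 hP hV hσ (T := T θ) (fun i j => by rw [hT, hT, hS i j, hS' i j]) hθ (by
    filter_upwards [h, h'] with x h1 h2
    have h3 : ∀ A : Fin 3 → ℝ, ∑ i, ∑ j, T θ i j * (A i * A j) =
        Real.cos θ * ∑ i, ∑ j, S i j * (A i * A j) +
        Real.sin θ * ∑ i, ∑ j, S' i j * (A i * A j) := by
      intro A
      simp only [Fin.sum_univ_three, hT]
      ring
    rw [h3 fun i => ∑ p, V (σ i) p * u p x, h1, h2]
    ring)
  refine ⟨Real.cos θ, Real.sin θ, ?_, fun i j => ?_⟩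
  · by_contra hcon
    push Not at hcon
    have h1 := Real.sin_sq_add_cos_sq θ
    rw [hcon.1, hcon.2] at h1
    norm_num at h1
  · rw [← hT, hT0]
    rfl

end Pool.Agent.L5helper74.QR
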