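import Pool.Agent.L5helper74.QR.Alg
import Mathlib.Analysis.Matrix.Spectrum

/-!
# Quadratic relations between three and four functions which do not lie on a cone
-/

set_option autoImplicit false
set_option linter.unusedSectionVars false

open Set Filter Topology MeasureTheory
open Pool.Agent.L5helper74.LR

noncomputable section

namespace Pool.Agent.L5helper74.QR

variable {M : Type} [MeasurableSpace M] {μ : Measure M} {m : ℕ} {u : Fin (m + 1) → M → ℝ}

/-- ternary forms with determinant zero -/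
lemma det0y (hP : ∀ w w' : Fin (m + 1) → ℝ,
      (∀ᵐ x ∂μ, (∑ j, w j * u j x) * (∑ j, w' j * u j x) = 0) → w = 0 ∨ w' = 0)
    {y : Fin 3 → Fin (m + 1) → ℝ} (hy : ∀ p : Fin 3 → ℝ, ∑ i, p i • y i = 0 → p = 0)
    {T : Matrix (Fin 3) (Fin 3) ℝ} (hT : ∀ i j, T i j = T j i)
    (hdet : T.det = 0)
    (h : ∀ᵐ x ∂μ, ∑ i, ∑ j, T i j * ((∑ p, y i p * u p x) * (∑ p, y j p * u p x)) = 0) :
    T = 0 := by
  obtain ⟨v, hv, hTv⟩ := Matrix.exists_mulVec_eq_zero_iff.2 hdet
  have hrow : ∀ i, T i 0 * v 0 + T i 1 * v 1 + T i 2 * v 2 = 0 := by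
    intro i
    have := congrFun hTv i
    simpa [Matrix.mulVec, dotProduct, Fin.sum_univ_three] using this
  have hind : ∀ p q r : ℝ, p • y 0 + q • y 1 + r • y 2 = 0 →
      p = 0 ∧ q = 0 ∧ r = 0 := by
    intro p q r hpq
    have h4 := hy (![p, q, r]) (by
      rw [Fin.sum_univ_three]
      exact hpq)
    exact ⟨congrFun h4 0, congrFun h4 1, congrFun h4 2⟩
  have hx : ∀ A : Fin 3 → ℝ, ∑ i, ∑ j, T i j * (A i * A j) = T 0 0 * A 0 ^ 2 +
      2 * T 0 1 * (A 0 * A 1) + 2 * T 0 2 * (A 0 * A 2) + T 1 1 * A 1 ^ 2 +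
      2 * T 1 2 * (A 1 * A 2) + T 2 2 * A 2 ^ 2 := by
    intro A
    simp only [Fin.sum_univ_three]
    rw [hT 1 0, hT 2 0, hT 2 1]
    ring
  have r0 := hrow 0
  have r1 := hrow 1
  have r2 := hrow 2
  rw [hT 1 0] at r1
  rw [hT 2 0, hT 2 1] at r2
  have key : T 0 0 = 0 ∧ T 0 1 = 0 ∧ T 0 2 = 0 ∧ T 1 1 = 0 ∧ T 1 2 = 0 ∧ T 2 2 = 0 := by
    by_cases hv0 : v 0 = 0
    · by_cases hv1 : v 1 = 0
      · have hv2 : v 2 ≠ 0 := by
          intro hv2
          refine hv (funext fun i => ?_)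
          fin_cases i
          · exact hv0
          · exact hv1
          · exact hv2
        obtain ⟨a1, a2, a3, a4, a5, a6⟩ := det_aux hP (y₀ := y 2) (y₁ := y 0)
          (y₂ := y 1) (t₀₀ := T 2 2) (t₀₁ := T 0 2) (t₀₂ := T 1 2) (t₁₁ := T 0 0)
          (t₁₂ := T 0 1) (t₂₂ := T 1 1) (v₀ := v 2) (v₁ := v 0) (v₂ := v 1)
          (fun p q r hpq => by
            have h4 := hind q r p (by rw [← hpq]; abel)
            exact ⟨h4.2.2, h4.1, h4.2.1⟩) hv2 (by linarith) (by linarith) (by linarith) (by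
            filter_upwards [h] with x hx1
            rw [hx fun i => ∑ p, y i p * u p x] at hx1
            rw [← hx1]
            ring)
        exact ⟨a4, a5, a2, a6, a3, a1⟩
      · obtain ⟨a1, a2, a3, a4, a5, a6⟩ := det_aux hP (y₀ := y 1) (y₁ := y 0)
          (y₂ := y 2) (t₀₀ := T 1 1) (t₀₁ := T 0 1) (t₀₂ := T 1 2) (t₁₁ := T 0 0)
          (t₁₂ := T 0 2) (t₂₂ := T 2 2) (v₀ := v 1) (v₁ := v 0) (v₂ := v 2)
          (fun p q r hpq => by
            have h4 := hind q p r (by rw [← hpq]; abel)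
            exact ⟨h4.2.1, h4.1, h4.2.2⟩) hv1 (by linarith) (by linarith) (by linarith) (by
            filter_upwards [h] with x hx1
            rw [hx fun i => ∑ p, y i p * u p x] at hx1
            rw [← hx1]
            ring)
        exact ⟨a4, a2, a5, a1, a3, a6⟩
    · obtain ⟨a1, a2, a3, a4, a5, a6⟩ := det_aux hP (y₀ := y 0) (y₁ := y 1)
          (y₂ := y 2) (t₀₀ := T 0 0) (t₀₁ := T 0 1) (t₀₂ := T 0 2) (t₁₁ := T 1 1)
          (t₁₂ := T 1 2) (t₂₂ := T 2 2) (v₀ := v 0) (v₁ := v 1) (v₂ := v 2)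
          hind hv0 (by linarith) (by linarith) (by linarith) (by
            filter_upwards [h] with x hx1
            rw [hx fun i => ∑ p, y i p * u p x] at hx1
            rw [← hx1])
      exact ⟨a1, a2, a3, a4, a5, a6⟩
  obtain ⟨a1, a2, a3, a4, a5, a6⟩ := key
  ext i j
  fin_cases i <;> fin_cases j
  · exact a1
  · exact a2
  · exact a3
  · exact (hT 1 0).trans a2
  · exact a4
  · exact a5
  · exact (hT 2 0).trans a3
  · exact (hT 2 1).trans a5
  · exact a6

/-- the spectral theorem for ternary forms -/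
lemma spec3 {T : Matrix (Fin 3) (Fin 3) ℝ} (hT : ∀ i j, T i j = T j i) (hdet : T.det ≠ 0) :
    ∃ (s : Fin 3 → ℝ) (Q : Fin 3 → Fin 3 → ℝ), (∀ k, s k ≠ 0) ∧
      (∀ i j, T i j = ∑ k, s k * (Q k i * Q k j)) ∧
      ∀ p : Fin 3 → ℝ, (∀ i, ∑ k, p k * Q k i = 0) → p = 0 := by
  have hA : T.IsHermitian := by
    ext i j
    rw [Matrix.conjTranspose_apply, star_trivial]
    exact hT j i
  have hent : ∀ i j, T i j = ∑ k, hA.eigenvalues k *
      (hA.eigenvectorBasis k i * hA.eigenvectorBasis k j) := by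
    intro i j
    have h1 := hA.spectral_theorem
    rw [Unitary.conjStarAlgAut_apply] at h1
    have h2 := congrFun (congrFun h1 i) j
    rw [Matrix.mul_apply] at h2
    rw [h2]
    refine Finset.sum_congr rfl fun k _ => ?_
    rw [Matrix.mul_diagonal, Matrix.star_apply, star_trivial]
    simp only [Matrix.IsHermitian.eigenvectorUnitary_apply, Function.comp_apply]
    simp only [RCLike.ofReal_real_eq_id, id_eq]
    ring
  have horth : ∀ k l, ∑ i, hA.eigenvectorBasis k i * hA.eigenvectorBasis l i =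
      if k = l then 1 else 0 := by
    intro k l
    have h1 := orthonormal_iff_ite.1 hA.eigenvectorBasis.orthonormal k l
    rw [← h1, PiLp.inner_apply]
    refine Finset.sum_congr rfl fun i _ => ?_
    simp [mul_comm]
  refine ⟨hA.eigenvalues, fun k i => hA.eigenvectorBasis k i, fun k hk => hdet ?_, hent,
    fun p hp => ?_⟩
  · rw [hA.det_eq_prod_eigenvalues]
    exact Finset.prod_eq_zero (Finset.mem_univ k) (by rw [hk]; simp)
  · funext l
    have h1 : ∑ i, (∑ k, p k * hA.eigenvectorBasis k i) * hA.eigenvectorBasis l i = p l := by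
      simp only [Finset.sum_mul]
      rw [Finset.sum_comm]
      have h2 : ∀ k, ∑ i, p k * hA.eigenvectorBasis k i * hA.eigenvectorBasis l i =
          p k * if k = l then 1 else 0 := by
        intro k
        rw [← horth k l, Finset.mul_sum]
        exact Finset.sum_congr rfl fun i _ => by ring
      simp only [h2]
      simp
    rw [← h1]
    simp only [hp, zero_mul, Finset.sum_const_zero]
    rfl

/-- a sum of squares with signs -/
lemma signs (hP : ∀ w w' : Fin (m + 1) → ℝ,
      (∀ᵐ x ∂μ, (∑ j, w j * u j x) * (∑ j, w' j * u j x) = 0) → w = 0 ∨ w' = 0)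
    (hC : ∀ w₁ w₂ w₃ : Fin (m + 1) → ℝ,
      (∀ᵐ x ∂μ, (∑ j, w₁ j * u j x) * (∑ j, w₁ j * u j x) +
        (∑ j, w₂ j * u j x) * (∑ j, w₂ j * u j x) =
        (∑ j, w₃ j * u j x) * (∑ j, w₃ j * u j x)) → w₂ = 0 ∨ ∃ t : ℝ, w₁ = t • w₂)
    {z : Fin 3 → Fin (m + 1) → ℝ} (hz : ∀ p : Fin 3 → ℝ, ∑ i, p i • z i = 0 → p = 0)
    {ε : Fin 3 → ℝ} (hε : ∀ k, ε k = 1 ∨ ε k = -1)
    (h : ∀ᵐ x ∂μ, ∑ k, ε k * ((∑ j, z k j * u j x) * (∑ j, z k j * u j x)) = 0) : False := by
  have hne : ∀ k, z k ≠ 0 := by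
    intro k hk
    have h1 := congrFun (hz (Pi.single k 1) (by
      rw [Finset.sum_eq_single k]
      · rw [hk, smul_zero]
      · intro i _ hi
        rw [Pi.single_eq_of_ne hi, zero_smul]
      · intro h
        exact absurd (Finset.mem_univ _) h)) k
    simp at h1
  have hdep : ∀ k l, k ≠ l → ∀ t : ℝ, z k ≠ t • z l := by
    intro k l hkl t ht
    have h1 := congrFun (hz (Pi.single k 1 - Pi.single l t) (by
      simp only [Pi.sub_apply, sub_smul, Finset.sum_sub_distrib]
      rw [Finset.sum_eq_single k, Finset.sum_eq_single l]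
      · rw [Pi.single_eq_same, Pi.single_eq_same, one_smul, ht, sub_self]
      · intro i _ hi
        rw [Pi.single_eq_of_ne hi, zero_smul]
      · intro h
        exact absurd (Finset.mem_univ _) h
      · intro i _ hi
        rw [Pi.single_eq_of_ne hi, zero_smul]
      · intro h
        exact absurd (Finset.mem_univ _) h)) k
    simp [Pi.single_eq_of_ne hkl] at h1
  have hcone : ∀ a b c : Fin 3, a ≠ b →
      (∀ᵐ x ∂μ, (∑ j, z a j * u j x) * (∑ j, z a j * u j x) +
        (∑ j, z b j * u j x) * (∑ j, z b j * u j x) =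
        (∑ j, z c j * u j x) * (∑ j, z c j * u j x)) → False := by
    intro a b c hab h1
    rcases hC _ _ _ h1 with h2 | ⟨t, ht⟩
    · exact hne b h2
    · exact hdep a b hab t ht
  have hpos : (∀ᵐ x ∂μ, (∑ j, z 0 j * u j x) * (∑ j, z 0 j * u j x) +
        (∑ j, z 1 j * u j x) * (∑ j, z 1 j * u j x) +
        (∑ j, z 2 j * u j x) * (∑ j, z 2 j * u j x) = 0) → False := by
    intro h1
    rcases hP (z 0) (z 0) (by
      filter_upwards [h1] with x hx
      nlinarith [mul_self_nonneg (∑ j, z 0 j * u j x), mul_self_nonneg (∑ j, z 1 j * u j x),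
        mul_self_nonneg (∑ j, z 2 j * u j x)]) with h2 | h2 <;> exact hne 0 h2
  simp only [Fin.sum_univ_three] at h
  rcases hε 0 with h0 | h0 <;> rcases hε 1 with h1 | h1 <;> rcases hε 2 with h2 | h2 <;>
    rw [h0, h1, h2] at h
  · exact hpos (h.mono fun x hx => by linarith)
  · exact hcone 0 1 2 (by decide) (h.mono fun x hx => by linarith)
  · exact hcone 0 2 1 (by decide) (h.mono fun x hx => by linarith)
  · exact hcone 1 2 0 (by decide) (h.mono fun x hx => by linarith)
  · exact hcone 1 2 0 (by decide) (h.mono fun x hx => by linarith)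
  · exact hcone 0 2 1 (by decide) (h.mono fun x hx => by linarith)
  · exact hcone 0 1 2 (by decide) (h.mono fun x hx => by linarith)
  · exact hpos (h.mono fun x hx => by linarith)

/-- there is no relation between three functions -/
lemma tri (hP : ∀ w w' : Fin (m + 1) → ℝ,
      (∀ᵐ x ∂μ, (∑ j, w j * u j x) * (∑ j, w' j * u j x) = 0) → w = 0 ∨ w' = 0)
    (hC : ∀ w₁ w₂ w₃ : Fin (m + 1) → ℝ,
      (∀ᵐ x ∂μ, (∑ j, w₁ j * u j x) * (∑ j, w₁ j * u j x) +
        (∑ j, w₂ j * u j x) * (∑ j, w₂ j * u j x) =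
        (∑ j, w₃ j * u j x) * (∑ j, w₃ j * u j x)) → w₂ = 0 ∨ ∃ t : ℝ, w₁ = t • w₂)
    {y : Fin 3 → Fin (m + 1) → ℝ} (hy : ∀ p : Fin 3 → ℝ, ∑ i, p i • y i = 0 → p = 0)
    {S : Fin 3 → Fin 3 → ℝ} (hS : ∀ i j, S i j = S j i)
    (h : ∀ᵐ x ∂μ, ∑ i, ∑ j, S i j * ((∑ p, y i p * u p x) * (∑ p, y j p * u p x)) = 0) :
    S = 0 := by
  obtain ⟨T, hT⟩ : ∃ T : Matrix (Fin 3) (Fin 3) ℝ, ∀ i j, T i j = S i j :=
    ⟨Matrix.of S, fun _ _ => rfl⟩
  have hTs : ∀ i j, T i j = T j i := fun i j => by rw [hT, hT, hS]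
  simp only [← hT] at h
  by_cases hdet : T.det = 0
  · have h1 := det0y hP hy hTs hdet h
    funext i j
    rw [← hT, h1]
    rfl
  · exfalso
    obtain ⟨s, Q, hs, hQ, hQi⟩ := spec3 hTs hdet
    obtain ⟨z, hz⟩ : ∃ z : Fin 3 → Fin (m + 1) → ℝ, z = fun k =>
      √|s k| • ∑ i, Q k i • y i := ⟨_, rfl⟩
    have hsq : ∀ k, 0 < √|s k| := fun k => Real.sqrt_pos.2 (abs_pos.2 (hs k))
    have hsq2 : ∀ k, √|s k| * √|s k| = |s k| := fun k => Real.mul_self_sqrt (abs_nonneg _)
    have hlin : ∀ k x, ∑ j, z k j * u j x = √|s k| * ∑ i, Q k i * ∑ p, y i p * u p x := by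
      intro k x
      rw [hz]
      simp only [Pi.smul_apply, Finset.sum_apply, smul_eq_mul, Finset.mul_sum, Finset.sum_mul]
      rw [Finset.sum_comm]
      exact Finset.sum_congr rfl fun i _ => Finset.sum_congr rfl fun j _ => by ring
    refine signs hP hC (z := z) (fun p hp => ?_) (ε := fun k => if 0 < s k then 1 else -1)
      (fun k => by
        by_cases hk : 0 < s k
        · left
          simp only [hk, if_true]
        · right
          simp only [hk, if_false]) ?_
    · have h1 : ∑ i, (∑ k, (p k * √|s k|) * Q k i) • y i = 0 := by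
        rw [← hp, hz]
        simp only [Finset.sum_smul, Finset.smul_sum, smul_smul]
        rw [Finset.sum_comm]
        exact Finset.sum_congr rfl fun k _ => Finset.sum_congr rfl fun i _ => by
          congr 1
          ring
      have h2 := hy _ h1
      have h3 := hQi (fun k => p k * √|s k|) fun i => congrFun h2 i
      funext k
      exact (mul_eq_zero.1 (congrFun h3 k)).resolve_right (hsq k).ne'
    · filter_upwards [h] with x hx
      refine Eq.trans ?_ hx
      simp only [hlin, hQ]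
      obtain ⟨A, hA⟩ : ∃ A : Fin 3 → ℝ, A = fun i => ∑ p, y i p * u p x := ⟨_, rfl⟩
      have hA' : ∀ i, ∑ p, y i p * u p x = A i := fun i => by rw [hA]
      simp only [hA']
      have h1 : ∀ k, (if 0 < s k then (1 : ℝ) else -1) *
          (√|s k| * (∑ i, Q k i * A i) * (√|s k| * ∑ i, Q k i * A i)) =
          s k * ((∑ i, Q k i * A i) * ∑ i, Q k i * A i) := by
        intro k
        have h2 : (if 0 < s k then (1 : ℝ) else -1) * |s k| = s k := by
          by_cases hk : 0 < s k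
          · rw [if_pos hk, abs_of_pos hk, one_mul]
          · rw [if_neg hk, abs_of_nonpos (not_lt.1 hk)]
            ring
        calc _ = ((if 0 < s k then (1 : ℝ) else -1) * (√|s k| * √|s k|)) *
              ((∑ i, Q k i * A i) * ∑ i, Q k i * A i) := by ring
          _ = _ := by rw [hsq2, h2]
      refine (Finset.sum_congr rfl fun k _ => h1 k).trans ?_
      simp only [Fin.sum_univ_three]
      ring

/-- singular relations between four functions vanish -/
lemma sing4 (hP : ∀ w w' : Fin (m + 1) → ℝ,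
      (∀ᵐ x ∂μ, (∑ j, w j * u j x) * (∑ j, w' j * u j x) = 0) → w = 0 ∨ w' = 0)
    (hC : ∀ w₁ w₂ w₃ : Fin (m + 1) → ℝ,
      (∀ᵐ x ∂μ, (∑ j, w₁ j * u j x) * (∑ j, w₁ j * u j x) +
        (∑ j, w₂ j * u j x) * (∑ j, w₂ j * u j x) =
        (∑ j, w₃ j * u j x) * (∑ j, w₃ j * u j x)) → w₂ = 0 ∨ ∃ t : ℝ, w₁ = t • w₂)
    {y : Fin 4 → Fin (m + 1) → ℝ} (hy : ∀ p : Fin 4 → ℝ, ∑ i, p i • y i = 0 → p = 0)
    {T : Fin 4 → Fin 4 → ℝ} (hT : ∀ i j, T i j = T j i) {v : Fin 4 → ℝ} (hv : v ≠ 0)
    (hTv : ∀ i, ∑ j, T i j * v j = 0)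
    (h : ∀ᵐ x ∂μ, ∑ i, ∑ j, T i j * ((∑ p, y i p * u p x) * (∑ p, y j p * u p x)) = 0) :
    T = 0 := by
  obtain ⟨a, ha⟩ := Function.ne_iff.1 hv
  have ha0 : v a ≠ 0 := ha
  have hlin : ∀ (c : ℝ) (w w' : Fin (m + 1) → ℝ) (x : M), ∑ j, (w - c • w') j * u j x =
      ∑ j, w j * u j x - c * ∑ j, w' j * u j x := by
    intro c w w' x
    rw [Finset.mul_sum, ← Finset.sum_sub_distrib]
    refine Finset.sum_congr rfl fun j _ => ?_
    simp only [Pi.sub_apply, Pi.smul_apply, smul_eq_mul]
    ring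
  have h0 := tri hP hC (y := fun i => y (a.succAbove i) - (v (a.succAbove i) / v a) • y a)
    (fun p hp => by
      have h1 := hy (a.insertNth (-∑ i, p i * (v (a.succAbove i) / v a)) p) (by
        rw [Fin.sum_univ_succAbove _ a]
        simp only [Fin.insertNth_apply_same, Fin.insertNth_apply_succAbove]
        rw [← hp]
        simp only [smul_sub, smul_smul, Finset.sum_sub_distrib, neg_smul, Finset.sum_smul]
        abel)
      funext i
      have h2 := congrFun h1 (a.succAbove i)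
      rwa [Fin.insertNth_apply_succAbove] at h2)
    (S := fun i j => T (a.succAbove i) (a.succAbove j)) (fun i j => hT _ _) (by
      filter_upwards [h] with x hx
      rw [← hx]
      obtain ⟨A, hA⟩ : ∃ A : Fin 4 → ℝ, A = fun i => ∑ p, y i p * u p x := ⟨_, rfl⟩
      have hA' : ∀ i, ∑ p, y i p * u p x = A i := fun i => by rw [hA]
      simp only [hlin, hA']
      obtain ⟨B, hB⟩ : ∃ B : Fin 4 → ℝ, B = fun i => A i - v i / v a * A a := ⟨_, rfl⟩
      have hB' : ∀ i, A i - v i / v a * A a = B i := fun i => by rw [hB]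
      have hBa : B a = 0 := by
        rw [← hB', div_self ha0]
        ring
      have hTB : ∀ i, ∑ j, T i j * A j = ∑ j, T i j * B j := by
        intro i
        have h1 : ∀ j, T i j * B j = T i j * A j - A a / v a * (T i j * v j) := fun j => by
          rw [← hB']
          ring
        simp only [h1, Finset.sum_sub_distrib]
        rw [← Finset.mul_sum, hTv, mul_zero, sub_zero]
      have e1 : ∑ i, ∑ j, T i j * (A i * A j) = ∑ i, ∑ j, T i j * (B i * B j) := by
        calc ∑ i, ∑ j, T i j * (A i * A j) = ∑ i, A i * ∑ j, T i j * A j := by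
              refine Finset.sum_congr rfl fun i _ => ?_
              rw [Finset.mul_sum]
              exact Finset.sum_congr rfl fun j _ => by ring
          _ = ∑ i, A i * ∑ j, T i j * B j := Finset.sum_congr rfl fun i _ => by rw [hTB]
          _ = ∑ j, B j * ∑ i, T j i * A i := by
              simp only [Finset.mul_sum]
              rw [Finset.sum_comm]
              exact Finset.sum_congr rfl fun j _ => Finset.sum_congr rfl fun i _ => by
                rw [hT j i]
                ring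
          _ = ∑ j, B j * ∑ i, T j i * B i := Finset.sum_congr rfl fun i _ => by rw [hTB]
          _ = _ := by
              refine Finset.sum_congr rfl fun i _ => ?_
              rw [Finset.mul_sum]
              exact Finset.sum_congr rfl fun j _ => by ring
      rw [e1]
      simp only [hB']
      rw [Fin.sum_univ_succAbove _ a]
      simp only [Fin.sum_univ_succAbove _ a, hBa, zero_mul, mul_zero, zero_add,
        Finset.sum_const_zero])
  have h1 : ∀ i j, T (a.succAbove i) (a.succAbove j) = 0 := fun i j =>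
    congrFun (congrFun h0 i) j
  have h2 : ∀ i, T (a.succAbove i) a = 0 := by
    intro i
    have h3 := hTv (a.succAbove i)
    rw [Fin.sum_univ_succAbove _ a] at h3
    simp only [h1, zero_mul, Finset.sum_const_zero, add_zero] at h3
    exact (mul_eq_zero.1 h3).resolve_right ha0
  have h4 : T a a = 0 := by
    have h3 := hTv a
    rw [Fin.sum_univ_succAbove _ a] at h3
    have h5 : ∀ i, T a (a.succAbove i) = 0 := fun i => by rw [hT, h2]
    simp only [h5, zero_mul, Finset.sum_const_zero, add_zero] at h3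
    exact (mul_eq_zero.1 h3).resolve_right ha0
  funext i j
  refine Fin.succAboveCases a ?_ (fun i => ?_) i
  · refine Fin.succAboveCases a ?_ (fun j => ?_) j
    · exact h4
    · show T a (a.succAbove j) = 0
      rw [hT, h2]
  · refine Fin.succAboveCases a ?_ (fun j => ?_) j
    · exact h2 i
    · exact h1 i j

/-- four relations between four functions are dependent -/
lemma rel4 (hP : ∀ w w' : Fin (m + 1) → ℝ,
      (∀ᵐ x ∂μ, (∑ j, w j * u j x) * (∑ j, w' j * u j x) = 0) → w = 0 ∨ w' = 0)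
    (hC : ∀ w₁ w₂ w₃ : Fin (m + 1) → ℝ,
      (∀ᵐ x ∂μ, (∑ j, w₁ j * u j x) * (∑ j, w₁ j * u j x) +
        (∑ j, w₂ j * u j x) * (∑ j, w₂ j * u j x) =
        (∑ j, w₃ j * u j x) * (∑ j, w₃ j * u j x)) → w₂ = 0 ∨ ∃ t : ℝ, w₁ = t • w₂)
    {y : Fin 4 → Fin (m + 1) → ℝ} (hy : ∀ p : Fin 4 → ℝ, ∑ i, p i • y i = 0 → p = 0)
    {S : Fin 4 → Fin 4 → Fin 4 → ℝ} (hS : ∀ r i j, S r i j = S r j i)
    (h : ∀ r, ∀ᵐ x ∂μ, ∑ i, ∑ j, S r i j *
      ((∑ p, y i p * u p x) * (∑ p, y j p * u p x)) = 0) :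
    ∃ t : Fin 4 → ℝ, t ≠ 0 ∧ ∀ i j, ∑ r, t r * S r i j = 0 := by
  have hy0 : y 0 ≠ 0 := by
    intro hk
    have h1 := congrFun (hy (Pi.single 0 1) (by
      rw [Finset.sum_eq_single 0]
      · rw [hk, smul_zero]
      · intro i _ hi
        rw [Pi.single_eq_of_ne hi, zero_smul]
      · intro h
        exact absurd (Finset.mem_univ _) h)) 0
    simp at h1
  obtain ⟨x, hx1, hx2⟩ : ∃ x : M, (∀ r, ∑ i, ∑ j, S r i j *
      ((∑ p, y i p * u p x) * (∑ p, y j p * u p x)) = 0) ∧ (∑ p, y 0 p * u p x) ≠ 0 := by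
    by_contra hno
    push Not at hno
    rcases hP (y 0) (y 0) (by
      filter_upwards [ae_all_iff.2 h] with x hx
      rw [hno x hx, zero_mul]) with h1 | h1 <;> exact hy0 h1
  obtain ⟨A, hA⟩ : ∃ A : Fin 4 → ℝ, A = fun i => ∑ p, y i p * u p x := ⟨_, rfl⟩
  have hA' : ∀ i, ∑ p, y i p * u p x = A i := fun i => by rw [hA]
  simp only [hA'] at hx1 hx2
  have hA0 : A ≠ 0 := fun h0 => hx2 (by rw [h0]; rfl)
  obtain ⟨B, hB⟩ : ∃ B : Matrix (Fin 4) (Fin 4) ℝ, ∀ r i, B r i = ∑ j, S r i j * A j :=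
    ⟨Matrix.of fun r i => ∑ j, S r i j * A j, fun _ _ => rfl⟩
  have hBA : B.mulVec A = 0 := by
    funext r
    have h1 := hx1 r
    show ∑ i, B r i * A i = 0
    rw [← h1]
    refine Finset.sum_congr rfl fun i _ => ?_
    rw [hB, Finset.sum_mul]
    exact Finset.sum_congr rfl fun j _ => by ring
  have hdet : B.det = 0 := Matrix.exists_mulVec_eq_zero_iff.1 ⟨A, hA0, hBA⟩
  obtain ⟨t, ht, htB⟩ := Matrix.exists_vecMul_eq_zero_iff.2 hdet
  refine ⟨t, ht, ?_⟩
  have h1 := sing4 hP hC hy (T := fun i j => ∑ r, t r * S r i j)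
    (fun i j => Finset.sum_congr rfl fun r _ => by rw [hS]) hA0 (fun i => by
      have h2 := congrFun htB i
      have h3 : ∑ r, t r * B r i = 0 := h2
      rw [← h3]
      simp only [Finset.sum_mul, hB, Finset.mul_sum]
      rw [Finset.sum_comm]
      exact Finset.sum_congr rfl fun r _ => Finset.sum_congr rfl fun j _ => by ring) (by
      filter_upwards [ae_all_iff.2 h] with x hx
      obtain ⟨A, hA⟩ : ∃ A : Fin 4 → ℝ, A = fun i => ∑ p, y i p * u p x := ⟨_, rfl⟩
      have hA' : ∀ i, ∑ p, y i p * u p x = A i := fun i => by rw [hA]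
      simp only [hA'] at hx ⊢
      have h2 : ∑ i, ∑ j, (∑ r, t r * S r i j) * (A i * A j) =
          ∑ r, t r * ∑ i, ∑ j, S r i j * (A i * A j) := by
        simp only [Finset.sum_mul, Finset.mul_sum]
        have h3 : ∀ i, ∑ j, ∑ r, t r * S r i j * (A i * A j) =
            ∑ r, ∑ j, t r * S r i j * (A i * A j) := fun i => Finset.sum_comm
        simp only [h3]
        rw [Finset.sum_comm]
        exact Finset.sum_congr rfl fun r _ => Finset.sum_congr rfl fun i _ =>
          Finset.sum_congr rfl fun j _ => by ring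
      rw [h2]
      simp only [hx, mul_zero, Finset.sum_const_zero])
  exact fun i j => congrFun (congrFun h1 i) j

end Pool.Agent.L5helper74.QR
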