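import Pool.Agent.L5helper74.LR.Prob

/-!
# Quadratic repulsion: the law of the gaps of a cluster of levels
-/

set_option autoImplicit false
set_option linter.unusedSectionVars false

open Set Filter Topology MeasureTheory
open scoped ENNReal NNReal
open Pool.Agent.L5helper74.LR

noncomputable section

namespace Pool.Agent.L5helper74.QR

section slice

variable {Y : Type} [NormedAddCommGroup Y] [NormedSpace ℝ Y] {κ : Type} [Fintype κ]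
  {Mf : Y → κ → ℝ} {M' : Y →L[ℝ] (κ → ℝ)} {φ₀ : Y} {Hm : (κ → ℝ) →L[ℝ] Y}

/-- lower bound for slices -/
theorem slice_low' [CompleteSpace Y] (hM : HasStrictFDerivAt Mf M' φ₀) (h0 : Mf φ₀ = 0)
    (hinj : ∀ t, M' (Hm t) = 0 → t = 0) {V : Set Y} (hV : V ∈ 𝓝 φ₀) {η : ℝ} (hη : 0 < η) :
    ∃ r : ℝ, 0 < r ∧ ∃ C : ℝ≥0∞, C ≠ ⊤ ∧ C ≠ 0 ∧ ∀ x ∈ Metric.ball φ₀ r, ∀ S : Set (κ → ℝ),
      (∀ u ∈ S, ‖u‖ < r) →
      volume S ≤ C * volume {t : κ → ℝ | ‖t‖ < η ∧ x + Hm t ∈ V ∧ Mf (x + Hm t) ∈ S} := by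
  obtain ⟨U, hU, hUa⟩ := hM.approximates_deriv_on_nhds (c := 1) (Or.inr one_pos)
  have hL1 : 0 < (‖M'‖ + 1) * (‖Hm‖ + 1) := by positivity
  obtain ⟨L, hL⟩ : ∃ L : ℝ≥0, L = Real.toNNReal ((‖M'‖ + 1) * (‖Hm‖ + 1)) := ⟨_, rfl⟩
  have hL0 : L ≠ 0 := by
    rw [hL]
    exact (Real.toNNReal_pos.2 hL1).ne'
  -- the implicit function
  have hF : HasStrictFDerivAt (fun q : (Y × (κ → ℝ)) × (κ → ℝ) => Mf (q.1.1 + Hm q.2) - q.1.2)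
      (M'.comp ((ContinuousLinearMap.fst ℝ Y (κ → ℝ)).comp
        (ContinuousLinearMap.fst ℝ (Y × (κ → ℝ)) (κ → ℝ)) +
        Hm.comp (ContinuousLinearMap.snd ℝ (Y × (κ → ℝ)) (κ → ℝ))) -
        (ContinuousLinearMap.snd ℝ Y (κ → ℝ)).comp
          (ContinuousLinearMap.fst ℝ (Y × (κ → ℝ)) (κ → ℝ))) ((φ₀, 0), 0) := by
    have h1 : HasStrictFDerivAt (fun q : (Y × (κ → ℝ)) × (κ → ℝ) => q.1.1 + Hm q.2)
        ((ContinuousLinearMap.fst ℝ Y (κ → ℝ)).comp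
        (ContinuousLinearMap.fst ℝ (Y × (κ → ℝ)) (κ → ℝ)) +
        Hm.comp (ContinuousLinearMap.snd ℝ (Y × (κ → ℝ)) (κ → ℝ))) ((φ₀, 0), 0) :=
      ((ContinuousLinearMap.fst ℝ Y (κ → ℝ)).comp
        (ContinuousLinearMap.fst ℝ (Y × (κ → ℝ)) (κ → ℝ)) +
        Hm.comp (ContinuousLinearMap.snd ℝ (Y × (κ → ℝ)) (κ → ℝ))).hasStrictFDerivAt
    have h2 : HasStrictFDerivAt (fun q : (Y × (κ → ℝ)) × (κ → ℝ) => q.1.2)
        ((ContinuousLinearMap.snd ℝ Y (κ → ℝ)).comp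
          (ContinuousLinearMap.fst ℝ (Y × (κ → ℝ)) (κ → ℝ))) ((φ₀, 0), 0) :=
      ((ContinuousLinearMap.snd ℝ Y (κ → ℝ)).comp
          (ContinuousLinearMap.fst ℝ (Y × (κ → ℝ)) (κ → ℝ))).hasStrictFDerivAt
    have h3 : HasStrictFDerivAt Mf M' ((fun q : (Y × (κ → ℝ)) × (κ → ℝ) => q.1.1 + Hm q.2)
        ((φ₀, 0), 0)) := by
      simp only [map_zero, add_zero]
      exact hM
    exact (HasStrictFDerivAt.comp (g := Mf)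
      (f := fun q : (Y × (κ → ℝ)) × (κ → ℝ) => q.1.1 + Hm q.2) ((φ₀, 0), 0) h3 h1).sub h2
  have hinv : ((M'.comp ((ContinuousLinearMap.fst ℝ Y (κ → ℝ)).comp
        (ContinuousLinearMap.fst ℝ (Y × (κ → ℝ)) (κ → ℝ)) +
        Hm.comp (ContinuousLinearMap.snd ℝ (Y × (κ → ℝ)) (κ → ℝ))) -
        (ContinuousLinearMap.snd ℝ Y (κ → ℝ)).comp
          (ContinuousLinearMap.fst ℝ (Y × (κ → ℝ)) (κ → ℝ))) ∘L
        ContinuousLinearMap.inr ℝ (Y × (κ → ℝ)) (κ → ℝ)).IsInvertible := by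
    have h1 : ((M'.comp ((ContinuousLinearMap.fst ℝ Y (κ → ℝ)).comp
        (ContinuousLinearMap.fst ℝ (Y × (κ → ℝ)) (κ → ℝ)) +
        Hm.comp (ContinuousLinearMap.snd ℝ (Y × (κ → ℝ)) (κ → ℝ))) -
        (ContinuousLinearMap.snd ℝ Y (κ → ℝ)).comp
          (ContinuousLinearMap.fst ℝ (Y × (κ → ℝ)) (κ → ℝ))) ∘L
        ContinuousLinearMap.inr ℝ (Y × (κ → ℝ)) (κ → ℝ)) = M'.comp Hm := by
      ext t
      simp
    rw [h1]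
    exact iso hinj
  obtain ⟨ψ, hψ⟩ : ∃ ψ, ψ = hF.implicitFunctionOfProdDomain hinv := ⟨_, rfl⟩
  have h1 := hF.tendsto_implicitFunctionOfProdDomain hinv
  have h2 := hF.eventually_apply_implicitFunctionOfProdDomain hinv
  rw [← hψ] at h1 h2
  simp only [map_zero, add_zero, h0, sub_zero] at h1 h2
  have h3 : Tendsto (fun q : Y × (κ → ℝ) => q.1 + Hm (ψ q)) (𝓝 (φ₀, 0)) (𝓝 φ₀) := by
    have h4 : Tendsto (fun q : Y × (κ → ℝ) => q.1 + Hm (ψ q)) (𝓝 (φ₀, 0)) (𝓝 (φ₀ + Hm 0)) :=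
      (continuous_fst.tendsto _).add ((Hm.continuous.tendsto _).comp h1)
    rwa [map_zero, add_zero] at h4
  have h4 : ∀ᶠ q : Y × (κ → ℝ) in 𝓝 (φ₀, 0), ‖ψ q‖ < η ∧ q.1 + Hm (ψ q) ∈ V ∧
      q.1 + Hm (ψ q) ∈ U ∧ Mf (q.1 + Hm (ψ q)) = q.2 := by
    filter_upwards [h1.eventually (Metric.ball_mem_nhds 0 hη), h3.eventually_mem hV,
      h3.eventually_mem hU, h2] with q h5 h6 h7 h8
    exact ⟨mem_ball_zero_iff.1 h5, h6, h7, sub_eq_zero.1 h8⟩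
  obtain ⟨r, hr, hr2⟩ := Metric.eventually_nhds_iff_ball.1 h4
  refine ⟨r, hr, (L : ℝ≥0∞) ^ Fintype.card κ, ENNReal.pow_ne_top ENNReal.coe_ne_top,
    pow_ne_zero _ (ENNReal.coe_ne_zero.2 hL0), fun x hx S hS => ?_⟩
  have h5 : ∀ u ∈ S, ‖ψ (x, u)‖ < η ∧ x + Hm (ψ (x, u)) ∈ V ∧
      x + Hm (ψ (x, u)) ∈ U ∧ Mf (x + Hm (ψ (x, u))) = u := by
    intro u hu
    refine hr2 (x, u) ?_
    rw [← ball_prod_same]
    exact ⟨hx, by rw [mem_ball_zero_iff]; exact hS u hu⟩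
  have h6 : volume S ≤ (L : ℝ≥0∞) ^ Fintype.card κ * volume ((fun u => ψ (x, u)) '' S) := by
    refine vol_anti fun u hu u' hu' => ?_
    obtain ⟨-, -, h7, h8⟩ := h5 u hu
    obtain ⟨-, -, h9, h10⟩ := h5 u' hu'
    have h11 := hUa _ h7 _ h9
    rw [h8, h10] at h11
    have h12 : x + Hm (ψ (x, u)) - (x + Hm (ψ (x, u'))) = Hm (ψ (x, u) - ψ (x, u')) := by
      rw [map_sub]
      abel
    rw [h12] at h11
    rw [dist_eq_norm, dist_eq_norm]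
    have h13 : ‖u - u'‖ ≤ ‖M' (Hm (ψ (x, u) - ψ (x, u')))‖ +
        1 * ‖Hm (ψ (x, u) - ψ (x, u'))‖ := by
      have h14 : u - u' = M' (Hm (ψ (x, u) - ψ (x, u'))) +
          (u - u' - M' (Hm (ψ (x, u) - ψ (x, u')))) := by abel
      calc ‖u - u'‖ = ‖M' (Hm (ψ (x, u) - ψ (x, u'))) +
          (u - u' - M' (Hm (ψ (x, u) - ψ (x, u'))))‖ := by rw [← h14]
        _ ≤ _ := (norm_add_le _ _).trans (add_le_add le_rfl h11)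
    have h14 : ‖Hm (ψ (x, u) - ψ (x, u'))‖ ≤ (‖Hm‖ + 1) * ‖ψ (x, u) - ψ (x, u')‖ :=
      (Hm.le_opNorm _).trans (mul_le_mul_of_nonneg_right (by linarith) (norm_nonneg _))
    have h15 : (L : ℝ) = (‖M'‖ + 1) * (‖Hm‖ + 1) := by rw [hL, Real.coe_toNNReal _ hL1.le]
    rw [h15]
    calc ‖u - u'‖ ≤ (‖M'‖ + 1) * ‖Hm (ψ (x, u) - ψ (x, u'))‖ := by
          refine h13.trans ?_
          rw [add_mul]
          exact add_le_add (M'.le_opNorm _) le_rfl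
      _ ≤ (‖M'‖ + 1) * ((‖Hm‖ + 1) * ‖ψ (x, u) - ψ (x, u')‖) :=
          mul_le_mul_of_nonneg_left h14 (by positivity)
      _ = _ := by ring
  refine h6.trans (mul_le_mul_right (measure_mono ?_) _)
  rintro _ ⟨u, hu, rfl⟩
  obtain ⟨h7, h8, -, h10⟩ := h5 u hu
  refine ⟨h7, h8, ?_⟩
  show Mf (x + Hm (ψ (x, u))) ∈ S
  rw [h10]
  exact hu

end slice

lemma Hd {X : Type} [NormedAddCommGroup X] [NormedSpace ℝ X] {κ : Type} [Fintype κ]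
    (h : κ → X) : ∃ Hm : (κ → ℝ) →L[ℝ] X, ∀ t, Hm t = ∑ a, t a • h a :=
  ⟨∑ a, (ContinuousLinearMap.proj (R := ℝ) (φ := fun _ : κ => ℝ) a).smulRight (h a), fun t => by
      simp [ContinuousLinearMap.smulRight_apply]⟩

variable {m : ℕ} {Ω : Type} [MeasurableSpace Ω] {P : Measure Ω} {X : Type}
  [NormedAddCommGroup X] [NormedSpace ℝ X] [CompleteSpace X] [MeasurableSpace X] [BorelSpace X]
  {φ : Ω → X} {Mf : X → Ix m → ℝ} {M' : X →L[ℝ] (Ix m → ℝ)} {φ₀ : X} {gp : X → Fin m → ℝ}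

theorem clu_up {h : Ix m → X} (hM : HasStrictFDerivAt Mf M' φ₀)
    (hinj : ∀ t : Ix m → ℝ, M' (∑ q, t q • h q) = 0 → t = 0)
    (hup : ∃ C : ℝ≥0∞, C ≠ ⊤ ∧ ∀ A : Set X, MeasurableSet A → ∀ d : ℝ≥0∞,
      (∀ x, volume {t : Ix m → ℝ | x + ∑ q, t q • h q ∈ A} ≤ d) → P {ω | φ ω ∈ A} ≤ C * d)
    (hgm : Measurable gp)
    (hev : ∀ᶠ φ in 𝓝 φ₀, ∃ V, Ort V ∧ Mf φ = cI (Tc (Fin.cons 0 (gp φ)) V)) :
    ∃ U, IsOpen U ∧ φ₀ ∈ U ∧ ∃ C : ℝ≥0∞, C ≠ ⊤ ∧ ∀ Γ : Set (Fin m → ℝ), MeasurableSet Γ →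
      P {ω | φ ω ∈ U ∧ gp (φ ω) ∈ Γ} ≤ C * ∫⁻ y in Γ, ENNReal.ofReal (Vd m y) := by
  obtain ⟨C₀, hC₀, hup⟩ := hup
  obtain ⟨Hm, hHm⟩ := Hd h
  obtain ⟨U₁, hU₁, C₁, hC₁, hsl⟩ := slice_up (Hm := Hm) hM fun t ht => hinj t (by rwa [← hHm])
  obtain ⟨C₂, hC₂, hW⟩ := weyl m
  obtain ⟨U, hUs, hUo, hφU⟩ := mem_nhds_iff.1 (inter_mem hU₁ hev)
  refine ⟨U, hUo, hφU, C₀ * (C₁ * C₂), ENNReal.mul_ne_top hC₀ (ENNReal.mul_ne_top hC₁ hC₂),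
    fun Γ hΓ => ?_⟩
  rw [mul_assoc]
  refine hup _ (hUo.measurableSet.inter (hgm hΓ)) _ fun x => ?_
  have h1 := hsl x {t | x + Hm t ∈ {φ | φ ∈ U ∧ gp φ ∈ Γ}} fun t ht => (hUs ht.1).1
  simp only [hHm] at h1
  refine h1.trans ?_
  rw [mul_assoc]
  refine mul_le_mul_right ((measure_mono ?_).trans (hW Γ hΓ)) _
  rintro _ ⟨t, ht, rfl⟩
  obtain ⟨V, hV, hV2⟩ := (hUs ht.1).2
  exact ⟨_, ht.2, V, hV, hV2⟩

theorem clu_low {h : Ix m → X} (hM : HasStrictFDerivAt Mf M' φ₀) (h0 : Mf φ₀ = 0)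
    (hinj : ∀ t : Ix m → ℝ, M' (∑ q, t q • h q) = 0 → t = 0)
    (hlow : ∃ η : ℝ, 0 < η ∧ ∀ δ : ℝ, 0 < δ → ∃ c : ℝ≥0∞, c ≠ 0 ∧ ∀ A : Set X,
      MeasurableSet A → ∀ d : ℝ≥0∞, (∀ x ∈ Metric.ball φ₀ δ,
        d ≤ volume {t : Ix m → ℝ | ‖t‖ < η ∧ x + ∑ q, t q • h q ∈ A}) → c * d ≤ P {ω | φ ω ∈ A})
    (hgm : Measurable gp)
    (hgs : ∀ φ, Monotone (Fin.cons 0 (gp φ) : Fin (m + 1) → ℝ))
    (hev : ∀ᶠ φ in 𝓝 φ₀, ∃ V, Ort V ∧ Mf φ = cI (Tc (Fin.cons 0 (gp φ)) V))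
    {U : Set X} (hU : U ∈ 𝓝 φ₀) :
    ∃ r : ℝ, 0 < r ∧ ∃ c : ℝ≥0∞, c ≠ 0 ∧ ∀ Γ : Set (Fin m → ℝ), MeasurableSet Γ →
      (∀ y ∈ Γ, ‖y‖ < r ∧ StrictMono (Fin.cons 0 y : Fin (m + 1) → ℝ)) →
      c * ∫⁻ y in Γ, ENNReal.ofReal (Vd m y) ≤ P {ω | φ ω ∈ U ∧ gp (φ ω) ∈ Γ} := by
  obtain ⟨η, hη, hlow⟩ := hlow
  obtain ⟨Hm, hHm⟩ := Hd h
  obtain ⟨V, hVs, hVo, hφV⟩ := mem_nhds_iff.1 (inter_mem hU hev)
  obtain ⟨r, hr, C₁, hC₁, hC₁0, hsl⟩ := slice_low' (Hm := Hm) hM h0 (fun t ht =>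
    hinj t (by rwa [← hHm])) (hVo.mem_nhds hφV) hη
  obtain ⟨c₂, hc₂, hW⟩ := weyl_low m
  obtain ⟨c₃, hc₃, hlow2⟩ := hlow r hr
  obtain ⟨n, hn⟩ : ∃ n : ℝ, n = ((m + 1 : ℕ) : ℝ) := ⟨_, rfl⟩
  have hn0 : 0 < n := by rw [hn]; positivity
  refine ⟨r / (2 * n), by positivity, c₃ * (C₁⁻¹ * c₂), ?_, fun Γ hΓ hΓs => ?_⟩
  · exact mul_ne_zero hc₃ (mul_ne_zero (ENNReal.inv_ne_zero.2 hC₁) hc₂)
  obtain ⟨S, hS⟩ : ∃ S : Set (Ix m → ℝ), S = {u | ∃ y ∈ Γ, ∃ V, Ort V ∧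
    u = cI (Tc (Fin.cons 0 y) V)} := ⟨_, rfl⟩
  have hSr : ∀ u ∈ S, ‖u‖ < r := by
    rw [hS]
    rintro _ ⟨y, hy, W, hWo, rfl⟩
    have h1 := (hΓs y hy).1
    have h2 : ‖cI (Tc (Fin.cons 0 y) W)‖ ≤ 2 * (n * ‖y‖) := by
      refine cI_norm fun i j => ?_
      unfold Tc
      refine (Finset.abs_sum_le_sum_abs _ _).trans ?_
      have h3 : ∀ k ∈ (Finset.univ : Finset (Fin (m + 1))),
          |(Fin.cons 0 y : Fin (m + 1) → ℝ) k * (W k i * W k j)| ≤ ‖y‖ := by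
        intro k _
        rw [abs_mul, abs_mul]
        have h4 : |(Fin.cons 0 y : Fin (m + 1) → ℝ) k| ≤ ‖y‖ := by
          refine Fin.cases ?_ (fun k => ?_) k
          · rw [Fin.cons_zero, abs_zero]
            exact norm_nonneg _
          · rw [Fin.cons_succ]
            exact norm_le_pi_norm y k
        calc _ ≤ ‖y‖ * (1 * 1) := mul_le_mul h4
              (mul_le_mul (Ort_le hWo k i) (Ort_le hWo k j) (abs_nonneg _) zero_le_one)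
              (by positivity) (norm_nonneg _)
          _ = ‖y‖ := by ring
      refine (Finset.sum_le_sum h3).trans ?_
      simp [hn]
    refine h2.trans_lt ?_
    rw [lt_div_iff₀ (by positivity)] at h1
    linarith
  have hVS : c₂ * ∫⁻ y in Γ, ENNReal.ofReal (Vd m y) ≤ volume S := by
    rw [hS]
    exact hW Γ hΓ fun y hy => (hΓs y hy).2.injective
  have hA : MeasurableSet {φ | φ ∈ V ∧ gp φ ∈ Γ} := hVo.measurableSet.inter (hgm hΓ)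
  have h1 := hlow2 _ hA (C₁⁻¹ * volume S) (fun x hx => by
      rw [ENNReal.inv_mul_le_iff hC₁0 hC₁]
      refine (hsl x hx S hSr).trans (mul_le_mul_right (measure_mono ?_) _)
      rintro t ⟨ht1, ht2, ht3⟩
      refine ⟨ht1, ?_⟩
      rw [← hHm]
      refine ⟨ht2, ?_⟩
      obtain ⟨W, hWo, hW2⟩ := (hVs ht2).2
      rw [hS] at ht3
      obtain ⟨y, hy, W', hWo', hW2'⟩ := ht3
      have h2 : (Fin.cons 0 y : Fin (m + 1) → ℝ) = Fin.cons 0 (gp (x + Hm t)) :=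
        sorted_eq hWo' hWo (hΓs y hy).2.monotone (hgs _) (Fin.cons_zero _ _) (Fin.cons_zero _ _)
          (hW2'.symm.trans hW2)
      have h3 : y = gp (x + Hm t) := by
        funext k
        have := congrFun h2 k.succ
        rwa [Fin.cons_succ, Fin.cons_succ] at this
      rw [← h3]
      exact hy)
  refine le_trans ?_ (h1.trans (measure_mono fun ω hω => ⟨(hVs hω.1).1, hω.2⟩))
  calc c₃ * (C₁⁻¹ * c₂) * ∫⁻ y in Γ, ENNReal.ofReal (Vd m y)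
      = c₃ * (C₁⁻¹ * (c₂ * ∫⁻ y in Γ, ENNReal.ofReal (Vd m y))) := by ring
    _ ≤ c₃ * (C₁⁻¹ * volume S) := by gcongr

end Pool.Agent.L5helper74.QR
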