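import Pool.Agent.L5helper74.LR.Core

/-!
# Exact local law: the effective matrix is continuously differentiable
-/

set_option autoImplicit false
set_option linter.unusedSectionVars false
set_option synthInstance.maxHeartbeats 400000

open Set Filter Topology MeasureTheory
open scoped Real
open Pool.Agent.Y262.QE Pool.Agent.Y264.QR Pool.Agent.Q233.GLV
open Pool.Agent.L5helper74.LR

noncomputable section

namespace Pool.Agent.L5helper74.QR

lemma imp_cd {E₁ E₂ F : Type} [NormedAddCommGroup E₁] [NormedSpace ℝ E₁] [CompleteSpace E₁]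
    [NormedAddCommGroup E₂] [NormedSpace ℝ E₂] [CompleteSpace E₂] [NormedAddCommGroup F]
    [NormedSpace ℝ F] [CompleteSpace F] {u : E₁ × E₂} {f : E₁ × E₂ → F} {f' : E₁ × E₂ →L[ℝ] F}
    (cdf : ContDiffAt ℝ 1 f u) (df : HasStrictFDerivAt f f' u)
    (hi : (f' ∘L ContinuousLinearMap.inr ℝ E₁ E₂).IsInvertible) :
    ContDiffAt ℝ 1 (df.implicitFunctionOfProdDomain hi) u.1 := by
  have h : fderiv ℝ f u = f' := df.hasFDerivAt.fderiv
  subst h
  exact cdf.contDiffAt_implicitFunction one_ne_zero hi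

section

variable {H : Type} [NormedAddCommGroup H] [InnerProductSpace ℝ H] [CompleteSpace H]
  {a b : H →L[ℝ] H →L[ℝ] ℝ} {e : ℕ → H} {E : ℕ → ℝ} {n : ℕ} {p : Fin n → ℕ} {lam : ℝ}
  {Y : Type} [NormedAddCommGroup Y] [NormedSpace ℝ Y] [CompleteSpace Y]
  {K : Y →L[ℝ] H →L[ℝ] H →L[ℝ] ℝ} {g : Y → Y} {g' : Y →L[ℝ] Y} {φ₀ : Y}

theorem eff1 (hC : Cl a b e E p lam) (hgc : ContDiff ℝ 1 g) (hg : HasStrictFDerivAt g g' φ₀)
    (hb : K (g φ₀) = b)
    (hs : ∀ φ u v, K (g φ) u v = K (g φ) v u) :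
    ∃ (w : Y → Fin n → H) (N : Y → Fin n → Fin n → ℝ) (N' : Y →L[ℝ] (Fin n → Fin n → ℝ)),
      ContDiffAt ℝ 1 N φ₀ ∧ HasStrictFDerivAt N N' φ₀ ∧
      (∀ h i j, N' h i j = -(lam * K (g' h) (e (p i)) (e (p j)))) ∧
      (N φ₀ = fun i j => if i = j then lam else 0) ∧
      ∀ᶠ φ in 𝓝 φ₀, (∀ i v, a (w φ i) v = ∑ j, N φ i j * K (g φ) (w φ j) v) ∧
        ∀ i j, K (g φ) (w φ i) (w φ j) = if i = j then 1 else 0 := by
  obtain ⟨w₀, hw₀⟩ : ∃ w₀ : Fin n → H, w₀ = fun i => e (p i) := ⟨_, rfl⟩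
  obtain ⟨N₀, hN₀⟩ : ∃ N₀ : Fin n → Fin n → ℝ, N₀ = fun i j => if i = j then lam else 0 :=
    ⟨_, rfl⟩
  obtain ⟨D1, hD1, hD1f⟩ := gen_e1 (F := H →L[ℝ] ℝ) K hg a w₀ N₀
  obtain ⟨D2, hD2, hD2f⟩ := gen_e2 K hg (fun i => b (e (p i))) w₀ N₀
  have hf := hD1.prodMk hD2
  obtain ⟨f, hfdef⟩ : ∃ f : Y × ((Fin n → H) × (Fin n → Fin n → ℝ)) →
      (Fin n → H →L[ℝ] ℝ) × (Fin n → Fin n → ℝ), f = fun q =>
      ((fun i => a (q.2.1 i) - ∑ j, q.2.2 i j • K (g q.1) (q.2.1 j)),
        fun i j => K (g q.1) (q.2.1 i) (q.2.1 j) - (if i = j then 1 else 0) +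
          (b (e (p j)) (q.2.1 i) - b (e (p i)) (q.2.1 j))) := ⟨_, rfl⟩
  have hf' : HasStrictFDerivAt f (D1.prod D2) (φ₀, (w₀, N₀)) := by
    rw [hfdef]
    exact hf
  have hlam : ∀ l, E (p l) = lam := fun l => (hC.p (p l)).2 ⟨l, rfl⟩
  have hbe : ∀ i j, b (e (p i)) (e (p j)) = if i = j then 1 else 0 := by
    intro i j
    rw [hC.g.orth]
    simp [hC.inj.eq_iff]
  have hf0 : f (φ₀, (w₀, N₀)) = 0 := by
    rw [hfdef]
    refine Prod.ext ?_ ?_
    · funext i
      ext v
      simp only [hw₀, hN₀, hb, _root_.sub_apply, sum_apply, _root_.smul_apply, smul_eq_mul,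
        ite_mul, zero_mul, Finset.sum_ite_eq, Finset.mem_univ, if_true, hC.g.eig, hlam,
        Prod.fst_zero, Pi.zero_apply, _root_.zero_apply, sub_self]
    · funext i j
      simp only [hw₀, hb, hbe, Prod.snd_zero, Pi.zero_apply, sub_self, zero_add]
      rw [if_congr (eq_comm (a := j) (b := i)) rfl rfl, sub_self]
  -- the partial derivative
  obtain ⟨P, hP⟩ : ∃ P : ((Fin n → H) × (Fin n → Fin n → ℝ)) →L[ℝ]
      ((Fin n → H →L[ℝ] ℝ) × (Fin n → Fin n → ℝ)),
      P = (D1.prod D2) ∘L ContinuousLinearMap.inr ℝ Y ((Fin n → H) × (Fin n → Fin n → ℝ)) :=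
    ⟨_, rfl⟩
  have hP1 : ∀ d i, (P d).1 i = a (d.1 i) - lam • b (d.1 i) - ∑ j, d.2 i j • b (e (p j)) := by
    intro d i
    have h1 : (P d).1 i = D1 (0, d) i := by rw [hP]; rfl
    rw [h1, hD1f]
    simp only [hN₀, hb, hw₀, map_zero, _root_.zero_apply, add_zero, Finset.sum_add_distrib,
      ite_smul, zero_smul, Finset.sum_ite_eq, Finset.mem_univ, if_true]
    abel
  have hP2 : ∀ d i j, (P d).2 i j = 2 * b (e (p j)) (d.1 i) := by
    intro d i j
    have h1 : (P d).2 i j = D2 (0, d) i j := by rw [hP]; rfl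
    rw [h1, hD2f]
    simp only [hb, hw₀, map_zero, _root_.zero_apply, add_zero]
    rw [hC.F.sb (d.1 i)]
    ring
  have hA := Af_inv hC
  have hAe : ∀ u l, Af a b e p (b, lam) u (e (p l)) = b (e (p l)) u := by
    intro u l
    rw [Af_e hC.F hC.g hC.inj hC.p, if_pos (hlam l), one_mul, hC.F.sb]
  have hAf : ∀ u, Af a b e p (b, lam) u = a u - lam • b u + ∑ i, (b (e (p i)) u) • b (e (p i)) := by
    intro u
    ext v
    rw [Af_apply]
    simp only [_root_.add_apply, _root_.sub_apply, _root_.smul_apply, smul_eq_mul, sum_apply]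
  have hPinv : P.IsInvertible := by
    have hinj : Function.Injective P := by
      refine (injective_iff_map_eq_zero P).2 fun d hd => ?_
      have h1 : ∀ i j, b (e (p j)) (d.1 i) = 0 := by
        intro i j
        have := hP2 d i j
        rw [hd] at this
        simp only [Prod.snd_zero, Pi.zero_apply] at this
        linarith
      have h2 : ∀ i l, d.2 i l = 0 := by
        intro i l
        have := DFunLike.congr_fun (hP1 d i) (e (p l))
        rw [hd] at this
        simp only [Prod.fst_zero, Pi.zero_apply, _root_.zero_apply, _root_.sub_apply,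
          _root_.smul_apply, smul_eq_mul, sum_apply, hbe, mul_ite, mul_one, mul_zero,
          Finset.sum_ite_eq', Finset.mem_univ, if_true] at this
        rw [hC.F.sa, hC.g.eig, hlam, hC.F.sb (d.1 i)] at this
        linarith
      have h3 : ∀ i, d.1 i = 0 := by
        intro i
        refine hA.injective ?_
        rw [map_zero, hAf]
        have := hP1 d i
        rw [hd] at this
        simp only [h2, zero_smul, Finset.sum_const_zero, sub_zero] at this
        rw [← this]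
        simp [h1]
      exact Prod.ext (funext h3) (funext fun i => funext (h2 i))
    have hsurj : Function.Surjective P := by
      intro y
      obtain ⟨d, hd⟩ : ∃ d : Fin n → H, ∀ i, Af a b e p (b, lam) (d i) =
          y.1 i + ∑ j, (-(y.1 i (e (p j))) + y.2 i j / 2) • b (e (p j)) := by
        choose d hd using fun i => hA.surjective
          (y.1 i + ∑ j, (-(y.1 i (e (p j))) + y.2 i j / 2) • b (e (p j)))
        exact ⟨d, hd⟩
      have h1 : ∀ i l, b (e (p l)) (d i) = y.2 i l / 2 := by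
        intro i l
        rw [← hAe, hd]
        simp only [_root_.add_apply, sum_apply, _root_.smul_apply, smul_eq_mul, hbe, mul_ite,
          mul_one, mul_zero, Finset.sum_ite_eq', Finset.mem_univ, if_true]
        ring
      refine ⟨(d, fun i j => -(y.1 i (e (p j)))), Prod.ext (funext fun i => ?_)
        (funext fun i => funext fun j => ?_)⟩
      · rw [hP1]
        have h2 := hd i
        rw [hAf] at h2
        simp only [h1] at h2
        have h3 : a (d i) - lam • b (d i) = y.1 i +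
            (∑ j, (-(y.1 i (e (p j))) + y.2 i j / 2) • b (e (p j)) -
              ∑ j, (y.2 i j / 2) • b (e (p j))) := by
          rw [← add_sub_assoc, ← h2]
          abel
        rw [h3, ← Finset.sum_sub_distrib, add_sub_assoc, ← Finset.sum_sub_distrib]
        have h4 : ∑ j, ((-(y.1 i (e (p j))) + y.2 i j / 2) • b (e (p j)) -
            (y.2 i j / 2) • b (e (p j)) - (-(y.1 i (e (p j)))) • b (e (p j))) = 0 :=
          Finset.sum_eq_zero fun j _ => by rw [add_smul]; abel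
        rw [h4, add_zero]
      · rw [hP2, h1]
        ring
    exact ⟨ContinuousLinearEquiv.ofBijective P (LinearMap.ker_eq_bot.2 hinj)
      (LinearMap.range_eq_top.2 hsurj), ContinuousLinearEquiv.coe_ofBijective _ _ _⟩
  rw [hP] at hPinv
  obtain ⟨ψ, hψ⟩ : ∃ ψ, ψ = hf'.implicitFunctionOfProdDomain hPinv := ⟨_, rfl⟩
  have h1 := hf'.hasStrictFDerivAt_implicitFunctionOfProdDomain hPinv
  have h2 := hf'.eventually_apply_implicitFunctionOfProdDomain hPinv
  have h3 := (hf'.eventually_apply_eq_iff_implicitFunctionOfProdDomain hPinv).self_of_nhds.1 rfl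
  rw [← hψ] at h1 h2 h3
  rw [← hP] at h1 hPinv
  have hfc : ContDiff ℝ 1 f := by
    rw [hfdef]
    refine ContDiff.prodMk (contDiff_pi.2 fun i => ?_) (contDiff_pi.2 fun i => contDiff_pi.2 fun j => ?_)
    · fun_prop
    · fun_prop
  have hcd : ContDiffAt ℝ 1 ψ φ₀ := by
    rw [hψ]
    exact imp_cd hfc.contDiffAt hf' (by rw [hP] at hPinv; exact hPinv)
  obtain ⟨Ψ, hΨ, hΨP⟩ : ∃ Ψ : Y →L[ℝ] ((Fin n → H) × (Fin n → Fin n → ℝ)),
      HasStrictFDerivAt ψ Ψ φ₀ ∧ ∀ h, P (Ψ h) = -((D1.prod D2) (h, 0)) := by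
    refine ⟨_, h1, fun h => ?_⟩
    simp only [_root_.neg_apply, ContinuousLinearMap.comp_apply, map_neg,
      hPinv.self_apply_inverse, ContinuousLinearMap.inl_apply]
  refine ⟨fun φ => (ψ φ).1, fun φ => (ψ φ).2,
    (ContinuousLinearMap.snd ℝ (Fin n → H) (Fin n → Fin n → ℝ)).comp Ψ, hcd.snd, hΨ.snd, ?_, ?_,
    ?_⟩
  · intro h i l
    have h4 := DFunLike.congr_fun (congrFun (congrArg Prod.fst (hΨP h)) i) (e (p l))
    rw [hP1] at h4
    have h5 : (-((D1.prod D2) (h, 0))).1 i = -(D1 (h, 0) i) := rfl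
    rw [h5, hD1f] at h4
    simp only [hN₀, hw₀, hb, _root_.sub_apply, _root_.smul_apply, smul_eq_mul,
      sum_apply, hbe, mul_ite, mul_one, mul_zero, Finset.sum_ite_eq', Finset.mem_univ, if_true,
      Prod.fst_zero, Prod.snd_zero, Pi.zero_apply, map_zero, zero_add,
      ite_smul, zero_smul, Finset.sum_ite_eq, add_zero, zero_sub, neg_neg] at h4
    rw [hC.F.sa, hC.g.eig, hlam, hC.F.sb (_ : H) (e (p l))] at h4
    have h6 : ((ContinuousLinearMap.snd ℝ (Fin n → H) (Fin n → Fin n → ℝ)).comp Ψ) h i l =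
        (Ψ h).2 i l := rfl
    rw [h6]
    linarith
  · show (ψ φ₀).2 = _
    have h4 : ψ φ₀ = (w₀, N₀) := h3
    rw [h4, hN₀]
  · filter_upwards [h2] with φ hφ
    have h4 : f (φ, ψ φ) = 0 := by
      rw [hφ]
      exact hf0
    rw [hfdef] at h4
    constructor
    · intro i v
      have h5 := DFunLike.congr_fun (congrFun (congrArg Prod.fst h4) i) v
      simp only [_root_.sub_apply, sum_apply, _root_.smul_apply, smul_eq_mul, Prod.fst_zero,
        Pi.zero_apply, _root_.zero_apply] at h5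
      linarith
    · intro i j
      have h5 := congrFun (congrFun (congrArg Prod.snd h4) i) j
      have h6 := congrFun (congrFun (congrArg Prod.snd h4) j) i
      simp only [Prod.snd_zero, Pi.zero_apply] at h5 h6
      rw [if_congr (eq_comm (a := j) (b := i)) rfl rfl, hs φ _ ((ψ φ).1 i)] at h6
      linarith

end

variable {M : Type} [MetricSpace M] [CompactSpace M] [MeasurableSpace M] [BorelSpace M]

lemma ex_cd : ContDiff ℝ 1 (Pool.Agent.Q233.GLV.ex : C(M, ℝ) → C(M, ℝ)) := by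
  have h2 : (Pool.Agent.Q233.GLV.ex : C(M, ℝ) → C(M, ℝ)) = NormedSpace.exp := funext ex_eq
  rw [h2, contDiff_iff_contDiffAt]
  intro x
  exact (NormedSpace.exp_analytic (𝕂 := ℝ) x).contDiffAt

lemma area_cd (μ : Measure M) [IsFiniteMeasure μ] :
    ContDiff ℝ 1 (fun φ : C(M, ℝ) => ∫ x, Real.exp (φ x) ∂μ) := by
  obtain ⟨I, hI⟩ : ∃ I : C(M, ℝ) →L[ℝ] ℝ, ∀ f, I f = ∫ x, f x ∂μ := by
    obtain ⟨J, hJ⟩ : ∃ J : C(M, ℝ) →ₗ[ℝ] ℝ, ∀ f, J f = ∫ x, f x ∂μ := by
      refine ⟨⟨⟨fun f => ∫ x, f x ∂μ, ?_⟩, ?_⟩, fun _ => rfl⟩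
      · intro f g
        exact integral_add (f.continuous.integrable_of_hasCompactSupport
          (HasCompactSupport.of_compactSpace _)) (g.continuous.integrable_of_hasCompactSupport
          (HasCompactSupport.of_compactSpace _))
      · intro c f
        exact integral_const_mul c _
    refine ⟨J.mkContinuous (μ.real univ) fun f => ?_, fun f => hJ f⟩
    rw [hJ, mul_comm]
    exact norm_integral_le_of_norm_le_const (Eventually.of_forall fun x => f.norm_coe_le_norm x)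
  have h2 : (fun φ : C(M, ℝ) => I (Pool.Agent.Q233.GLV.ex φ)) =
      fun φ : C(M, ℝ) => ∫ x, Real.exp (φ x) ∂μ := funext fun φ => hI _
  rw [← h2]
  exact I.contDiff.comp ex_cd

variable {μ : Measure M} [IsFiniteMeasure μ] {H : Type} [NormedAddCommGroup H]
  [InnerProductSpace ℝ H] [CompleteSpace H] {i : H →L[ℝ] Lp ℝ 2 μ} {a : H →L[ℝ] H →L[ℝ] ℝ}
  {b : C(M, ℝ) → H →L[ℝ] H →L[ℝ] ℝ}

theorem core01 (hS : Sf μ i a) (hB : IsB μ i b) (hF : ∀ φ, Fm a (b φ))
    (hcont : ∀ j, Continuous fun φ => Ev a (b φ) j)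
    (hmono : ∀ φ i j, i ≤ j → Ev a (b φ) i ≤ Ev a (b φ) j)
    (hex : ∀ φ, ∃ e E, Eg a (b φ) e E) (φ₀ : C(M, ℝ))
    (hA : 0 < ∫ x, Real.exp (φ₀ x) ∂μ) {e : ℕ → H} {E : ℕ → ℝ} (hE : Eg a (b φ₀) e E)
    (l m : ℕ) (hpos : 0 < E l) (hcl : ∀ j, E j = E l ↔ l ≤ j ∧ j ≤ l + m) :
    ∃ (Mf : C(M, ℝ) → Ix m → ℝ) (M' : C(M, ℝ) →L[ℝ] (Ix m → ℝ)) (s₀ : ℝ),
      ContDiffAt ℝ 1 Mf φ₀ ∧ HasStrictFDerivAt Mf M' φ₀ ∧ Mf φ₀ = 0 ∧ s₀ ≠ 0 ∧
      (∀ h, M' h = s₀ • cI (fun i j : Fin (m + 1) =>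
        kf b (Pool.Agent.Q233.GLV.ex φ₀ * h) (e (l + i)) (e (l + j)))) ∧
      ∀ᶠ φ in 𝓝 φ₀, ∃ V, Ort V ∧
        Mf φ = cI (Tc (Fin.cons 0 fun i : Fin m => Xl μ a b φ (l + (i + 1)) - Xl μ a b φ l) V) := by
  have hmm : ∀ φ e E, Eg a (b φ) e E → ∀ j, Ev a (b φ) j = E j :=
    fun φ e E hE j => Pool.Agent.Y592.QE.mm _ a (b φ) (hF φ) e E hE j
  obtain ⟨p, hp⟩ : ∃ p : Fin (m + 1) → ℕ, p = fun i : Fin (m + 1) => l + (i : ℕ) := ⟨_, rfl⟩
  have hC : Cl a (b φ₀) e E p (E l) := by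
    refine ⟨hF φ₀, hE, hpos.le, fun x y h => ?_, fun j => ?_⟩
    · rw [hp] at h
      simp only [add_right_inj] at h
      exact Fin.ext h
    · rw [hcl, hp]
      constructor
      · rintro ⟨h1, h2⟩
        exact ⟨⟨j - l, by omega⟩, by simp only; omega⟩
      · rintro ⟨q, rfl⟩
        have := q.2
        show l ≤ l + (q : ℕ) ∧ l + (q : ℕ) ≤ l + m
        constructor <;> omega
  obtain ⟨g', hg', hg'f⟩ := ex_strict φ₀
  obtain ⟨K, hK⟩ := kf_clm hS hB
  have hKb : ∀ φ, K (Pool.Agent.Q233.GLV.ex φ) = b φ := by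
    intro φ
    rw [hK]
    ext u w
    exact kf_ex hB φ u w
  obtain ⟨w, N, N', hNc, hN, hN'f, hN0, hev⟩ := eff1 hC ex_cd hg' (hKb φ₀)
    (fun φ u v => by rw [hKb]; exact (hF φ).sb u v)
  obtain ⟨A', hA'⟩ := area_strict μ φ₀
  obtain ⟨Q, hQ⟩ := cI_lin (m := m)
  obtain ⟨Mf, hMf⟩ : ∃ Mf : C(M, ℝ) → Ix m → ℝ, Mf = fun φ =>
      ((∫ x, Real.exp (φ x) ∂μ) * (4 * π)⁻¹) • Q (N φ) := ⟨_, rfl⟩
  have hQ0 : Q (N φ₀) = 0 := by
    rw [hQ, hN0]
    exact cI_one _
  obtain ⟨M', hM', hM'f⟩ : ∃ M' : C(M, ℝ) →L[ℝ] (Ix m → ℝ), HasStrictFDerivAt Mf M' φ₀ ∧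
      ∀ h, M' h = ((∫ x, Real.exp (φ₀ x) ∂μ) * (4 * π)⁻¹) • Q (N' h) := by
    rw [hMf]
    exact smul_strict (hA'.mul_const (4 * π)⁻¹) (Q.hasStrictFDerivAt.comp φ₀ hN) hQ0
  have hs : 0 < (∫ x, Real.exp (φ₀ x) ∂μ) * (4 * π)⁻¹ := by
    have := Real.pi_pos
    positivity
  have hMc : ContDiffAt ℝ 1 Mf φ₀ := by
    rw [hMf]
    exact ((area_cd μ).contDiffAt.mul contDiffAt_const).smul (Q.contDiff.contDiffAt.comp φ₀ hNc)
  refine ⟨Mf, M', ((∫ x, Real.exp (φ₀ x) ∂μ) * (4 * π)⁻¹) * (-E l), hMc, hM', ?_,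
    mul_ne_zero hs.ne' (neg_ne_zero.2 hpos.ne'), fun h => ?_, ?_⟩
  · rw [hMf]
    simp only [hQ0, smul_zero]
  · have h2 : N' h = fun i j : Fin (m + 1) => -E l * kf b (Pool.Agent.Q233.GLV.ex φ₀ * h)
        (e (l + (i : ℕ))) (e (l + (j : ℕ))) := by
      funext i j
      rw [hN'f, hg'f, hK, hp]
      ring
    rw [hM'f, hQ, h2, cI_mul, smul_smul]
  · obtain ⟨γ, hγ, hgap⟩ := gap2 hE.tt (E l)
    have hlow : ∀ᶠ φ in 𝓝 φ₀, ∀ j, j < l → Ev a (b φ) j ≤ E l - γ / 2 := by
      rcases Nat.eq_zero_or_pos l with h0 | h0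
      · exact Eventually.of_forall fun φ j hj => by omega
      · have h1 : E (l - 1) ≤ E l - γ := by
          have h2 : E (l - 1) ≤ E l := hE.mono (Nat.sub_le _ _)
          have h3 : E (l - 1) ≠ E l := fun h => by
            have := (hcl (l - 1)).1 h
            omega
          have h4 := hgap _ h3
          rw [abs_of_nonpos (by linarith)] at h4
          linarith
        have h2 : Ev a (b φ₀) (l - 1) < E l - γ / 2 := by
          rw [hmm φ₀ e E hE]
          linarith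
        filter_upwards [(hcont (l - 1)).continuousAt.eventually_lt continuousAt_const h2]
          with φ hφ j hj
        exact (hmono φ j (l - 1) (by omega)).trans hφ.le
    have hhigh : ∀ᶠ φ in 𝓝 φ₀, ∀ j, l + m < j → E l + γ / 2 ≤ Ev a (b φ) j := by
      have h1 : E l + γ ≤ E (l + m + 1) := by
        have h2 : E l ≤ E (l + m + 1) := hE.mono (by omega)
        have h3 : E (l + m + 1) ≠ E l := fun h => by
          have := (hcl (l + m + 1)).1 h
          omega
        have h4 := hgap _ h3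
        rw [abs_of_nonneg (by linarith)] at h4
        linarith
      have h2 : E l + γ / 2 < Ev a (b φ₀) (l + m + 1) := by
        rw [hmm φ₀ e E hE]
        linarith
      filter_upwards [continuousAt_const.eventually_lt (hcont (l + m + 1)).continuousAt h2]
        with φ hφ j hj
      exact hφ.le.trans (hmono φ (l + m + 1) j (by omega))
    have hNs : ∀ᶠ φ in 𝓝 φ₀, ∀ i, ∑ j, |N φ i j - if i = j then E l else 0| ≤ γ / 4 := by
      rw [eventually_all]
      intro i
      have h1 : ContinuousAt (fun φ => ∑ j, |N φ i j - if i = j then E l else 0|) φ₀ := by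
        refine tendsto_finsetSum _ fun j _ => ?_
        refine ContinuousAt.abs (ContinuousAt.sub ?_ continuousAt_const)
        have h2 := hN.continuousAt
        exact (continuousAt_pi.1 (continuousAt_pi.1 h2 i) j)
      have h2 : ∑ j, |N φ₀ i j - if i = j then E l else 0| < γ / 4 := by
        rw [hN0]
        simp only [sub_self, abs_zero, Finset.sum_const_zero]
        positivity
      exact (h1.eventually_lt continuousAt_const h2).mono fun φ hφ => hφ.le
    filter_upwards [hev, hlow, hhigh, hNs] with φ h1 h2 h3 h4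
    obtain ⟨e', E', hE'⟩ := hex φ
    rw [hKb] at h1
    have hE'm := hmm φ e' E' hE'
    obtain ⟨V, hV, hVN⟩ := conj (hF φ) hE' hC.inj h1.1 h1.2 (show γ / 4 < γ / 2 by linarith) h4
      (fun j hj => by
        rcases lt_or_ge j l with h5 | h5
        · have := h2 j h5
          rw [hE'm] at this
          rw [abs_of_nonpos (by linarith)]
          linarith
        · rcases lt_or_ge (l + m) j with h6 | h6
          · have := h3 j h6
            rw [hE'm] at this
            rw [abs_of_nonneg (by linarith)]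
            linarith
          · exact absurd ((hC.p j).1 ((hcl j).2 ⟨h5, h6⟩)) (by
              rintro ⟨q, hq⟩
              exact hj q hq))
    refine ⟨V, hV, ?_⟩
    have h5 : N φ = Tc (fun j => E' (p j)) V := funext fun i => funext fun k => hVN i k
    have h6 : (Fin.cons 0 fun i : Fin m => Xl μ a b φ (l + (i + 1)) - Xl μ a b φ l :
        Fin (m + 1) → ℝ) = fun j => Xl μ a b φ (p j) - Xl μ a b φ l := by
      funext j
      refine Fin.cases ?_ (fun j => ?_) j
      · rw [hp]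
        simp
      · rw [hp]
        simp
    have hV' : Ort V := hV
    rw [hMf, h6, cI_shift hV']
    simp only [hQ, h5]
    rw [← cI_mul]
    congr 1
    funext i k
    unfold Tc
    rw [Finset.mul_sum]
    refine Finset.sum_congr rfl fun j _ => ?_
    simp only [Xl, hE'm, div_eq_mul_inv]
    ring

end Pool.Agent.L5helper74.QR
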