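import Pool.Agent.L5helper74.LR.Cpt

/-!
# Quadratic repulsion: linear algebra
-/

set_option autoImplicit false
set_option linter.unusedSectionVars false

open Set Filter Topology Module
open Pool.Agent.L5helper74.LR

noncomputable section

namespace Pool.Agent.L5helper74.QR

lemma card_Ix (k : ℕ) : Fintype.card (Ix k) = k * (k + 3) / 2 := by
  rw [← card_off k, Fintype.card_sum, Fintype.card_fin]

variable {ι : Type} [Fintype ι]

lemma zt {k κ : ℕ} (P : (ι → ℝ) →L[ℝ] (Ix k → ℝ))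
    (hr : κ ≤ finrank ℝ (LinearMap.range (P : (ι → ℝ) →ₗ[ℝ] (Ix k → ℝ)))) :
    ∃ ζ : (Fin κ → ℝ) →L[ℝ] (ι → ℝ), ∀ z, P (ζ z) = 0 → z = 0 := by
  obtain ⟨R, hR⟩ : ∃ R, R = LinearMap.range (P : (ι → ℝ) →ₗ[ℝ] (Ix k → ℝ)) := ⟨_, rfl⟩
  rw [← hR] at hr
  have hb := (finBasis ℝ R).linearIndependent
  have hpre : ∀ i : Fin κ, ∃ t : ι → ℝ, P t = finBasis ℝ R (Fin.castLE hr i) := by
    intro i
    have h1 : ((finBasis ℝ R (Fin.castLE hr i) : R) : Ix k → ℝ) ∈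
        LinearMap.range (P : (ι → ℝ) →ₗ[ℝ] (Ix k → ℝ)) := by
      rw [← hR]
      exact (finBasis ℝ R (Fin.castLE hr i)).2
    obtain ⟨t, ht⟩ := h1
    exact ⟨t, ht⟩
  choose t ht using hpre
  obtain ⟨ζ, hζ⟩ : ∃ ζ : (Fin κ → ℝ) →L[ℝ] (ι → ℝ), ∀ z, ζ z = ∑ a, z a • t a :=
    ⟨∑ a, (ContinuousLinearMap.proj (R := ℝ) (φ := fun _ : Fin κ => ℝ) a).smulRight (t a),
      fun z => by simp [ContinuousLinearMap.smulRight_apply]⟩
  refine ⟨ζ, fun z hz => ?_⟩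
  rw [hζ, map_sum] at hz
  simp only [map_smul, ht] at hz
  have h2 : LinearIndependent ℝ fun i : Fin κ => finBasis ℝ R (Fin.castLE hr i) :=
    hb.comp _ (Fin.castLE_injective hr)
  have h3 : ∑ i : Fin κ, z i • finBasis ℝ R (Fin.castLE hr i) = 0 := by
    refine Subtype.ext ?_
    rw [Submodule.coe_sum]
    simpa using hz
  exact funext (Fintype.linearIndependent_iff.1 h2 z h3)

lemma dual_eq {k : ℕ} (f : Dual ℝ (Ix k → ℝ)) (y : Ix k → ℝ) :
    f y = ∑ q, f (Pi.single q 1) * y q := by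
  classical
  have h1 := LinearMap.pi_apply_eq_sum_univ f y
  rw [h1]
  refine Finset.sum_congr rfl fun q _ => ?_
  rw [smul_eq_mul, mul_comm]
  congr 2
  funext j
  simp [Pi.single_apply, eq_comm]

lemma zt2 (P : (ι → ℝ) →L[ℝ] (Ix 1 → ℝ))
    (h : ∀ c : Ix 1 → ℝ, (∀ t, ∑ q, c q * P t q = 0) → c = 0) :
    ∃ ζ : (Fin 2 → ℝ) →L[ℝ] (ι → ℝ), ∀ z, P (ζ z) = 0 → z = 0 := by
  classical
  refine zt P ?_
  obtain ⟨R, hR⟩ : ∃ R, R = LinearMap.range (P : (ι → ℝ) →ₗ[ℝ] (Ix 1 → ℝ)) := ⟨_, rfl⟩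
  rw [← hR]
  have h1 := Subspace.finrank_add_finrank_dualAnnihilator_eq R
  have h2 : R.dualAnnihilator = ⊥ := by
    rw [Submodule.eq_bot_iff]
    intro f hf
    rw [Submodule.mem_dualAnnihilator] at hf
    have h3 := h (fun q => f (Pi.single q 1)) fun t => by
      rw [← dual_eq]
      exact hf _ (by rw [hR]; exact ⟨t, rfl⟩)
    refine LinearMap.ext fun y => ?_
    rw [dual_eq]
    refine Finset.sum_eq_zero fun q _ => ?_
    have := congrFun h3 q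
    simp only [Pi.zero_apply] at this
    rw [this, zero_mul]
  rw [h2, finrank_bot, finrank_fintype_fun_eq_card, card_Ix] at h1
  omega

lemma zt4 (P : (ι → ℝ) →L[ℝ] (Ix 2 → ℝ))
    (h : ∀ c c' : Ix 2 → ℝ, (∀ t, ∑ q, c q * P t q = 0) → (∀ t, ∑ q, c' q * P t q = 0) →
      ∃ α β : ℝ, (α ≠ 0 ∨ β ≠ 0) ∧ ∀ q, α * c q + β * c' q = 0) :
    ∃ ζ : (Fin 4 → ℝ) →L[ℝ] (ι → ℝ), ∀ z, P (ζ z) = 0 → z = 0 := by
  classical
  refine zt P ?_
  obtain ⟨Mx, hMx⟩ : ∃ Mx : Matrix (Ix 2) ι ℝ,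
      Mx = LinearMap.toMatrix' (P : (ι → ℝ) →ₗ[ℝ] (Ix 2 → ℝ)) := ⟨_, rfl⟩
  have hPM : ∀ t, P t = Mx.mulVec t := by
    intro t
    rw [hMx]
    have h1 := LinearMap.toMatrix'_mulVec (P : (ι → ℝ) →ₗ[ℝ] (Ix 2 → ℝ)) t
    rw [h1]
    rfl
  have hr1 : Mx.rank = finrank ℝ (LinearMap.range (P : (ι → ℝ) →ₗ[ℝ] (Ix 2 → ℝ))) := by
    have h1 : Mx.mulVecLin = (P : (ι → ℝ) →ₗ[ℝ] (Ix 2 → ℝ)) := by
      refine LinearMap.ext fun t => ?_
      rw [Matrix.mulVecLin_apply, ← hPM]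
      rfl
    rw [Matrix.rank, h1]
  rw [← hr1, ← Matrix.rank_transpose]
  have h1 := LinearMap.finrank_range_add_finrank_ker (Mx.transpose.mulVecLin)
  rw [finrank_fintype_fun_eq_card, card_Ix] at h1
  by_contra hcon
  obtain ⟨W, hW⟩ : ∃ W : Submodule ℝ (Ix 2 → ℝ), W = LinearMap.ker (Mx.transpose.mulVecLin) :=
    ⟨_, rfl⟩
  rw [← hW] at h1
  have hle : 2 ≤ finrank ℝ W := by
    rw [Matrix.rank] at hcon
    omega
  have hmem : ∀ c ∈ W, ∀ t, ∑ q, c q * P t q = 0 := by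
    intro c hc t
    rw [hW, LinearMap.mem_ker, Matrix.mulVecLin_apply] at hc
    have h2 : ∑ q, c q * P t q = (Mx.transpose.mulVec c) ⬝ᵥ t := by
      rw [Matrix.mulVec_transpose, ← Matrix.dotProduct_mulVec, hPM]
      rfl
    rw [h2, hc, zero_dotProduct]
  have hb : LinearIndependent ℝ fun i : Fin 2 => finBasis ℝ W (Fin.castLE hle i) :=
    (finBasis ℝ W).linearIndependent.comp _ (Fin.castLE_injective hle)
  obtain ⟨α, β, hαβ, hs⟩ := h _ _ (hmem _ (finBasis ℝ W (Fin.castLE hle 0)).2)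
    (hmem _ (finBasis ℝ W (Fin.castLE hle 1)).2)
  have h3 : ∑ i : Fin 2, ![α, β] i • finBasis ℝ W (Fin.castLE hle i) = 0 := by
    refine Subtype.ext (funext fun q => ?_)
    rw [Submodule.coe_sum, Fin.sum_univ_two]
    exact hs q
  have h4 := Fintype.linearIndependent_iff.1 hb ![α, β] h3
  rcases hαβ with h6 | h6
  · exact h6 (h4 0)
  · exact h6 (h4 1)

/-- the range of an operator of finite rank -/
lemma rk {X F : Type} [NormedAddCommGroup X] [NormedSpace ℝ X] [NormedAddCommGroup F]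
    [NormedSpace ℝ F] [FiniteDimensional ℝ F] (A : X →L[ℝ] F) :
    ∃ (r : ℕ) (A' : X →L[ℝ] (Fin r → ℝ)) (J : (Fin r → ℝ) →L[ℝ] F),
      Function.Surjective A' ∧ (∀ y, J y = 0 → y = 0) ∧ ∀ x, A x = J (A' x) := by
  obtain ⟨R, hR⟩ : ∃ R, R = LinearMap.range (A : X →ₗ[ℝ] F) := ⟨_, rfl⟩
  have hAR : ∀ x, A x ∈ R := by
    intro x
    rw [hR]
    exact ⟨x, rfl⟩
  obtain ⟨e, he⟩ : ∃ e : R ≃ₗ[ℝ] (Fin (finrank ℝ R) → ℝ), e = (finBasis ℝ R).equivFun := ⟨_, rfl⟩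
  obtain ⟨E, hE⟩ : ∃ E : R →L[ℝ] (Fin (finrank ℝ R) → ℝ), ∀ x, E x = e x :=
    ⟨LinearMap.toContinuousLinearMap (e : R →ₗ[ℝ] _), fun _ => rfl⟩
  obtain ⟨G, hG⟩ : ∃ G : (Fin (finrank ℝ R) → ℝ) →L[ℝ] F, ∀ y, G y = (e.symm y : F) :=
    ⟨LinearMap.toContinuousLinearMap (R.subtype ∘ₗ (e.symm : (Fin (finrank ℝ R) → ℝ) →ₗ[ℝ] R)),
      fun _ => rfl⟩
  refine ⟨finrank ℝ R, E.comp (A.codRestrict R hAR), G, fun y => ?_, fun y hy => ?_, fun x => ?_⟩
  · obtain ⟨x, hx⟩ : ∃ x, A x = (e.symm y : F) := by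
      have h1 := (e.symm y).2
      have h2 : (e.symm y : F) ∈ LinearMap.range (A : X →ₗ[ℝ] F) := by
        rw [← hR]
        exact h1
      obtain ⟨x, hx⟩ := h2
      exact ⟨x, hx⟩
    refine ⟨x, ?_⟩
    rw [ContinuousLinearMap.comp_apply, hE]
    have h3 : A.codRestrict R hAR x = e.symm y := Subtype.ext hx
    rw [h3, LinearEquiv.apply_symm_apply]
  · rw [hG] at hy
    have h1 : e.symm y = 0 := Subtype.ext hy
    exact (LinearEquiv.map_eq_zero_iff e.symm).1 h1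
  · rw [ContinuousLinearMap.comp_apply, hE, hG, LinearEquiv.symm_apply_apply]
    rfl

/-- finitely many directions in a set with dense span -/
lemma sel {X : Type} [NormedAddCommGroup X] [NormedSpace ℝ X] {r : ℕ} (A : X →L[ℝ] (Fin r → ℝ))
    (hA : Function.Surjective A) {D : Set X} (hD : Dense (Submodule.span ℝ D : Set X)) :
    ∃ h : Fin r → X, (∀ a, h a ∈ D) ∧ ∀ t : Fin r → ℝ, A (∑ a, t a • h a) = 0 → t = 0 := by
  have h1 : Submodule.span ℝ (A '' D) = ⊤ := by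
    have h2 : Submodule.span ℝ (A '' D) = (Submodule.span ℝ D).map (A : X →ₗ[ℝ] (Fin r → ℝ)) := by
      rw [Submodule.map_span]
      rfl
    have h3 : Dense ((Submodule.span ℝ (A '' D) : Submodule ℝ (Fin r → ℝ)) : Set (Fin r → ℝ)) := by
      rw [h2]
      have h4 := hA.denseRange.dense_image A.continuous hD
      exact h4
    have h4 : IsClosed ((Submodule.span ℝ (A '' D) : Submodule ℝ (Fin r → ℝ)) :
        Set (Fin r → ℝ)) := Submodule.closed_of_finiteDimensional _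
    rw [← SetLike.coe_set_eq]
    have h5 := h3.closure_eq
    rw [h4.closure_eq] at h5
    rw [h5]
    rfl
  obtain ⟨f, hf1, -, hf3⟩ := Submodule.exists_fun_fin_finrank_span_eq ℝ (A '' D)
  have hr : finrank ℝ (Submodule.span ℝ (A '' D)) = r := by
    rw [h1, finrank_top, finrank_fintype_fun_eq_card, Fintype.card_fin]
  choose h hhD hhA using hf1
  refine ⟨fun a => h (Fin.cast hr.symm a), fun a => hhD _, fun t ht => ?_⟩
  rw [map_sum] at ht
  simp only [map_smul, hhA] at ht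
  have h2 : LinearIndependent ℝ fun a : Fin r => f (Fin.cast hr.symm a) :=
    hf3.comp _ (Fin.cast_injective hr.symm)
  exact funext (Fintype.linearIndependent_iff.1 h2 t ht)

end Pool.Agent.L5helper74.QR
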