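import Pool.Agent.L5helper74.QR.Ser

/-!
# Exact local law: densities and disintegration
-/

set_option autoImplicit false
set_option linter.unusedSectionVars false

open Set Filter Topology MeasureTheory ProbabilityTheory
open scoped ENNReal NNReal

noncomputable section

namespace Pool.Agent.L5helper74.QR

/-- products of measures with densities -/
lemma pi_dens {κ : Type} [Fintype κ] {ρ : κ → ℝ → ℝ} (hc : ∀ q, Continuous (ρ q))
    (h0 : ∀ q t, 0 ≤ ρ q t) {ν : κ → Measure ℝ} [∀ q, IsProbabilityMeasure (ν q)]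
    (hν : ∀ q, ν q = volume.withDensity fun t => ENNReal.ofReal (ρ q t)) :
    Measure.pi ν = volume.withDensity fun t : κ → ℝ => ENNReal.ofReal (∏ q, ρ q (t q)) := by
  have hint : ∀ q, Integrable (ρ q) := by
    intro q
    refine ⟨(hc q).aestronglyMeasurable, ?_⟩
    rw [hasFiniteIntegral_iff_ofReal (Eventually.of_forall (h0 q))]
    have h1 : ν q univ = 1 := measure_univ
    rw [hν q, withDensity_apply _ MeasurableSet.univ, Measure.restrict_univ] at h1
    rw [h1]
    exact ENNReal.one_lt_top
  refine Measure.pi_eq fun s hs => ?_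
  rw [withDensity_apply _ (MeasurableSet.univ_pi hs), volume_pi, Measure.restrict_pi_pi,
    ← ofReal_integral_eq_lintegral_ofReal
      (Integrable.fintype_prod fun q => (hint q).restrict (s := s q))
      (Eventually.of_forall fun t => Finset.prod_nonneg fun q _ => h0 q _),
    integral_fintype_prod_eq_prod,
    ENNReal.ofReal_prod_of_nonneg (fun q _ => integral_nonneg (h0 q))]
  refine Finset.prod_congr rfl fun q _ => ?_
  rw [hν q, withDensity_apply _ (hs q),
    ofReal_integral_eq_lintegral_ofReal (hint q).restrict (Eventually.of_forall (h0 q))]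

variable {Ω : Type} [MeasurableSpace Ω] {P : Measure Ω} [IsProbabilityMeasure P] {X : Type}
  [NormedAddCommGroup X] [NormedSpace ℝ X] [MeasurableSpace X] [BorelSpace X]
  [SecondCountableTopology X] {ξ : ℕ → Ω → ℝ} {f : ℕ → X} {φ : Ω → X}

/-- the disintegration of integrals -/
lemma form_fun (hξ : ∀ k, Measurable (ξ k)) (hind : iIndepFun ξ P)
    (hφ : ∀ ω, Tendsto (fun n => ∑ k ∈ Finset.range n, ξ k ω • f k) atTop (𝓝 (φ ω)))
    {κ : Type} [Fintype κ] [DecidableEq κ] {k : κ → ℕ} (hk : Function.Injective k)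
    {F : X → ℝ≥0∞} (hF : Measurable F) :
    ∫⁻ ω, F (φ ω) ∂P = ∫⁻ ω, ∫⁻ t, F (Yr ξ f φ (Finset.univ.image k) ω + ∑ q, t q • f (k q))
      ∂(Measure.pi fun q => P.map (ξ (k q))) ∂P := by
  obtain ⟨S, hS⟩ : ∃ S, S = Finset.univ.image k := ⟨_, rfl⟩
  have hY := Yr_meas' hξ hφ S
  have hX : Measurable (fun ω (q : κ) => ξ (k q) ω) := measurable_pi_lambda _ fun q => hξ _
  have hi := ind hξ hind hφ S (k := k) fun q => by
    rw [hS]
    exact Finset.mem_image_of_mem k (Finset.mem_univ q)
  have hB : Measurable fun p : X × (κ → ℝ) => F (p.1 + ∑ q, p.2 q • f (k q)) := by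
    have hc : Continuous fun p : X × (κ → ℝ) => p.1 + ∑ q, p.2 q • f (k q) :=
      continuous_fst.add (continuous_finsetSum _ fun q _ =>
        ((continuous_apply q).comp continuous_snd).smul continuous_const)
    exact hF.comp hc.measurable
  have h1 := (indepFun_iff_map_prod_eq_prod_map_map hY.aemeasurable hX.aemeasurable).1 hi
  have h2 : P.map (fun ω (q : κ) => ξ (k q) ω) = Measure.pi (fun q => P.map (ξ (k q))) :=
    (iIndepFun_iff_map_fun_eq_pi_map fun q => (hξ (k q)).aemeasurable).1 (hind.precomp hk)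
  have h3 : ∫⁻ ω, F (φ ω) ∂P = ∫⁻ p : X × (κ → ℝ), F (p.1 + ∑ q, p.2 q • f (k q))
      ∂(P.map (fun ω => (Yr ξ f φ S ω, fun q => ξ (k q) ω))) := by
    rw [lintegral_map hB (hY.prodMk hX)]
    refine lintegral_congr fun ω => ?_
    simp only
    rw [hS, phi_eq hk]
  have hpr : ∀ q, IsProbabilityMeasure (P.map (ξ (k q))) := fun q =>
    Measure.isProbabilityMeasure_map (hξ _).aemeasurable
  rw [h3, h1, h2, lintegral_prod _ hB.aemeasurable, lintegral_map ?_ hY, hS]
  exact hB.lintegral_prod_right'

end Pool.Agent.L5helper74.QR
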