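import Pool.Agent.L5helper74.QR.Sla
import Pool.Agent.L5helper74.QR.Pd
import Pool.Agent.L5helper74.QR.Clu
import Pool.Agent.L5helper74.QR.Lin
import Pool.Agent.L5helper74.LR.Core

/-!
# Exact local law of the gaps of a cluster of levels
-/

set_option autoImplicit false
set_option linter.unusedSectionVars false

open Set Filter Topology MeasureTheory ProbabilityTheory
open scoped ENNReal NNReal Pointwise
open Pool.Agent.L5helper74.LR

noncomputable section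

namespace Pool.Agent.L5helper74.QR

/-- the symmetric matrices modulo scalars with gaps in `Γ`, in coordinates -/
def Wg (m : ℕ) (Γ : Set (Fin m → ℝ)) : Set (Ix m → ℝ) :=
  {u | ∃ y ∈ Γ, Monotone (Fin.cons 0 y : Fin (m + 1) → ℝ) ∧
    ∃ V, Ort V ∧ u = cI (Tc (Fin.cons 0 y) V)}

lemma Tc_smul {n : ℕ} (L : Fin n → ℝ) (V : Fin n → Fin n → ℝ) (s : ℝ) :
    Tc (fun k => s * L k) V = fun i j => s * Tc L V i j := by
  funext i j
  unfold Tc
  rw [Finset.mul_sum]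
  exact Finset.sum_congr rfl fun k _ => by ring

lemma cons_smul {m : ℕ} (s : ℝ) (y : Fin m → ℝ) : (Fin.cons 0 (s • y) : Fin (m + 1) → ℝ) =
    fun k => s * (Fin.cons 0 y : Fin (m + 1) → ℝ) k := by
  funext k
  refine Fin.cases ?_ (fun k => ?_) k
  · simp
  · simp [Fin.cons_succ]

lemma cIT_smul {m : ℕ} (s : ℝ) (y : Fin m → ℝ) (V : Fin (m + 1) → Fin (m + 1) → ℝ) :
    cI (Tc (Fin.cons 0 (s • y)) V) = s • cI (Tc (Fin.cons 0 y) V) := by
  rw [cons_smul, Tc_smul, cI_mul]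

lemma cons_mono {m : ℕ} {s : ℝ} (hs : 0 ≤ s) {y : Fin m → ℝ}
    (hy : Monotone (Fin.cons 0 y : Fin (m + 1) → ℝ)) :
    Monotone (Fin.cons 0 (s • y) : Fin (m + 1) → ℝ) := by
  rw [cons_smul]
  exact fun a b hab => mul_le_mul_of_nonneg_left (hy hab) hs

lemma Wg_iff {m : ℕ} {Γ : Set (Fin m → ℝ)} {s : ℝ} (hs : 0 < s) {y : Fin m → ℝ}
    (hy : Monotone (Fin.cons 0 y : Fin (m + 1) → ℝ)) {V : Fin (m + 1) → Fin (m + 1) → ℝ}
    (hV : Ort V) {u : Ix m → ℝ} (hu : u = cI (Tc (Fin.cons 0 y) V)) :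
    u ∈ s • Wg m Γ ↔ s⁻¹ • y ∈ Γ := by
  constructor
  · rintro ⟨w, ⟨y', hy', hm', V', hV', rfl⟩, hw⟩
    have h1 : cI (Tc (Fin.cons 0 (s • y')) V') = cI (Tc (Fin.cons 0 y) V) := by
      rw [cIT_smul, ← hu]
      exact hw
    have h2 := sorted_eq hV' hV (cons_mono hs.le hm') hy (Fin.cons_zero _ _) (Fin.cons_zero _ _) h1
    have h3 : s • y' = y := funext fun k => by
      have := congrFun h2 k.succ
      rwa [Fin.cons_succ, Fin.cons_succ] at this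
    rw [← h3, smul_smul, inv_mul_cancel₀ hs.ne', one_smul]
    exact hy'
  · intro h
    refine ⟨cI (Tc (Fin.cons 0 (s⁻¹ • y)) V), ⟨s⁻¹ • y, h, cons_mono (inv_nonneg.2 hs.le) hy, V,
      hV, rfl⟩, ?_⟩
    show s • cI (Tc (Fin.cons 0 (s⁻¹ • y)) V) = u
    rw [← cIT_smul, smul_smul, mul_inv_cancel₀ hs.ne', one_smul, hu]

lemma Wg_bd {m : ℕ} {Γ : Set (Fin m → ℝ)} {R : ℝ} (hR : ∀ y ∈ Γ, ‖y‖ ≤ R) :
    ∀ u ∈ Wg m Γ, ‖u‖ ≤ 2 * (((m + 1 : ℕ) : ℝ) * R) := by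
  rintro _ ⟨y, hy, -, W, hWo, rfl⟩
  have h2 : ‖cI (Tc (Fin.cons 0 y) W)‖ ≤ 2 * (((m + 1 : ℕ) : ℝ) * ‖y‖) := by
    refine cI_norm fun i j => ?_
    unfold Tc
    refine (Finset.abs_sum_le_sum_abs _ _).trans ?_
    have h3 : ∀ k ∈ (Finset.univ : Finset (Fin (m + 1))),
        |(Fin.cons 0 y : Fin (m + 1) → ℝ) k * (W k i * W k j)| ≤ ‖y‖ := by
      intro k _
      rw [abs_mul, abs_mul]
      have h4 : |(Fin.cons 0 y : Fin (m + 1) → ℝ) k| ≤ ‖y‖ := by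
        refine Fin.cases ?_ (fun k => ?_) k
        · rw [Fin.cons_zero, abs_zero]
          exact norm_nonneg _
        · rw [Fin.cons_succ]
          exact norm_le_pi_norm y k
      calc _ ≤ ‖y‖ * (1 * 1) := mul_le_mul h4
            (mul_le_mul (Ort_le hWo k i) (Ort_le hWo k j) (abs_nonneg _) zero_le_one)
            (by positivity) (norm_nonneg _)
        _ = ‖y‖ := by ring
    refine (Finset.sum_le_sum h3).trans ?_
    simp
  refine h2.trans ?_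
  have := hR y hy
  gcongr

section slice

variable {m : ℕ} {X : Type} [NormedAddCommGroup X] [NormedSpace ℝ X]

/-- the local structure of the effective matrix -/
structure Loc (Mf : X → Ix m → ℝ) (gp : X → Fin m → ℝ) (ψ : X) (Hm : (Ix m → ℝ) →L[ℝ] X)
    (ρ r C : ℝ) : Prop where
  pos : 0 < ρ
  rpos : 0 < r
  Cpos : 0 < C
  anti : ∀ x t t', ‖x + Hm t - ψ‖ < ρ → ‖x + Hm t' - ψ‖ < ρ →
    ‖t - t'‖ ≤ C * ‖Mf (x + Hm t) - Mf (x + Hm t')‖
  s1 : ∀ x t u, ‖x + Hm t - ψ‖ < ρ / 2 → ‖u - Mf (x + Hm t)‖ < r →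
    ∃ t', ‖t' - t‖ ≤ C * ‖u - Mf (x + Hm t)‖ ∧ ‖x + Hm t' - ψ‖ < ρ ∧ Mf (x + Hm t') = u
  s2 : ∀ x t u, ‖x + Hm t - ψ‖ < ρ / 4 → ‖u - Mf (x + Hm t)‖ < r →
    ∃ t', ‖t' - t‖ ≤ C * ‖u - Mf (x + Hm t)‖ ∧ ‖x + Hm t' - ψ‖ < ρ / 2 ∧ Mf (x + Hm t') = u
  dif : ∀ y, ‖y - ψ‖ < ρ → ∃ D : X →L[ℝ] (Ix m → ℝ), HasStrictFDerivAt Mf D y
  rel : ∀ y, ‖y - ψ‖ < ρ → ∀ s : ℝ, 0 < s → ∀ Γ : Set (Fin m → ℝ),
    (Mf y ∈ s • Wg m Γ ↔ s⁻¹ • gp y ∈ Γ)

lemma det_ne {κ : Type} [Fintype κ] {F : (κ → ℝ) → (κ → ℝ)} {L : (κ → ℝ) →L[ℝ] (κ → ℝ)}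
    {t₀ : κ → ℝ} (hF : HasStrictFDerivAt F L t₀) (hF0 : F t₀ = 0) {C δ₀ : ℝ} (hC : 0 < C)
    (hδ₀ : 0 < δ₀) (hanti : ∀ t, ‖t - t₀‖ < δ₀ → ‖t - t₀‖ ≤ C * ‖F t‖) : L.det ≠ 0 := by
  intro hdet
  have h1 := LinearMap.bot_lt_ker_of_det_eq_zero (f := (L : (κ → ℝ) →ₗ[ℝ] (κ → ℝ))) hdet
  obtain ⟨v, hv, hv0⟩ := (Submodule.ne_bot_iff _).1 h1.ne'
  have hLv : L v = 0 := hv
  have hv1 : 0 < ‖v‖ := norm_pos_iff.2 hv0
  have h2 := (hF.hasFDerivAt.isLittleO).def (show 0 < 1 / (2 * C) by positivity)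
  obtain ⟨δ, hδ, hδ2⟩ := Metric.eventually_nhds_iff_ball.1 h2
  obtain ⟨τ, hτ⟩ : ∃ τ : ℝ, τ = min δ δ₀ / (2 * ‖v‖) := ⟨_, rfl⟩
  have hτ0 : 0 < τ := by rw [hτ]; positivity
  have hτv : ‖τ • v‖ < min δ δ₀ := by
    rw [norm_smul, Real.norm_eq_abs, abs_of_pos hτ0, hτ, div_mul_eq_mul_div,
      mul_div_mul_right _ _ hv1.ne']
    have : 0 < min δ δ₀ := lt_min hδ hδ₀
    linarith
  have h3 := hδ2 (t₀ + τ • v) (by
    rw [mem_ball_iff_norm, add_sub_cancel_left]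
    exact hτv.trans_le (min_le_left _ _))
  rw [hF0, sub_zero, add_sub_cancel_left, map_smul, hLv, smul_zero, sub_zero] at h3
  have h4 := hanti (t₀ + τ • v) (by
    rw [add_sub_cancel_left]
    exact hτv.trans_le (min_le_right _ _))
  rw [add_sub_cancel_left] at h4
  have h5 : ‖τ • v‖ ≤ ‖τ • v‖ / 2 := by
    calc ‖τ • v‖ ≤ C * ‖F (t₀ + τ • v)‖ := h4
      _ ≤ C * (1 / (2 * C) * ‖τ • v‖) := mul_le_mul_of_nonneg_left h3 hC.le
      _ = ‖τ • v‖ / 2 := by field_simp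
  have h6 : 0 < ‖τ • v‖ := by
    rw [norm_smul, Real.norm_eq_abs, abs_of_pos hτ0]
    positivity
  linarith

variable {Mf : X → Ix m → ℝ} {gp : X → Fin m → ℝ} {ψ : X} {Hm : (Ix m → ℝ) →L[ℝ] X}
  {ρ r C : ℝ}

theorem onex [MeasurableSpace X] [BorelSpace X] (hL : Loc Mf gp ψ Hm ρ r C) (hgm : Measurable gp)
    {χ : X → ℝ} (hχ : Continuous χ) (hχ0 : ∀ y, 0 ≤ χ y)
    (hχU : ∀ y, y ∉ Metric.ball ψ (ρ / 4) → χ y = 0) {R : (Ix m → ℝ) → ℝ} (hR : Continuous R)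
    (hR0 : ∀ t, 0 ≤ R t) (x : X) : ∃ c : ℝ≥0∞, ∀ Γ : Set (Fin m → ℝ), MeasurableSet Γ →
      Bornology.IsBounded Γ → Tendsto (fun s : ℝ =>
        (∫⁻ t, {t | s⁻¹ • gp (x + Hm t) ∈ Γ}.indicator
          (fun t => ENNReal.ofReal (χ (x + Hm t) * R t)) t) /
          ENNReal.ofReal (s ^ Fintype.card (Ix m))) (𝓝[>] 0) (𝓝 (c * volume (Wg m Γ))) := by
  have hρ := hL.pos
  have hxc : Continuous fun t => x + Hm t := continuous_const.add Hm.continuous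
  have hxm : Measurable fun t => gp (x + Hm t) := hgm.comp hxc.measurable
  by_cases hroot : ∃ t₀, ‖x + Hm t₀ - ψ‖ < ρ / 2 ∧ Mf (x + Hm t₀) = 0
  · obtain ⟨t₀, ht₀, ht₀0⟩ := hroot
    obtain ⟨D, hD⟩ := hL.dif (x + Hm t₀) (by linarith)
    have hF : HasStrictFDerivAt (fun t => Mf (x + Hm t)) (D.comp Hm) t₀ :=
      hD.comp t₀ (Hm.hasStrictFDerivAt.const_add x)
    obtain ⟨δ₀, hδ₀⟩ : ∃ δ₀ : ℝ, δ₀ = ρ / 2 / (‖Hm‖ + 1) := ⟨_, rfl⟩
    have hδ0 : 0 < δ₀ := by rw [hδ₀]; positivity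
    have hnc : Continuous fun t : Ix m → ℝ => ‖t - t₀‖ :=
      continuous_norm.comp (continuous_id.sub continuous_const)
    have hball : ∀ t, ‖t - t₀‖ < δ₀ → ‖x + Hm t - ψ‖ < ρ := by
      intro t ht
      rw [hδ₀, lt_div_iff₀ (by positivity)] at ht
      have h1 : x + Hm t - ψ = (x + Hm t₀ - ψ) + Hm (t - t₀) := by
        rw [map_sub]
        abel
      rw [h1]
      have h2 : ‖Hm (t - t₀)‖ ≤ ρ / 2 := by
        refine (Hm.le_opNorm _).trans ?_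
        have := norm_nonneg (t - t₀)
        nlinarith
      calc _ ≤ ‖x + Hm t₀ - ψ‖ + ‖Hm (t - t₀)‖ := norm_add_le _ _
        _ < ρ := by linarith
    have hanti : ∀ t, ‖x + Hm t - ψ‖ < ρ → ‖t - t₀‖ ≤ C * ‖Mf (x + Hm t)‖ := by
      intro t ht
      have := hL.anti x t t₀ ht (by linarith)
      rwa [ht₀0, sub_zero] at this
    have hdet := det_ne hF ht₀0 hL.Cpos hδ0 fun t ht => hanti t (hball t ht)
    refine ⟨ENNReal.ofReal (χ (x + Hm t₀) * R t₀ / |(D.comp Hm).det|), fun Γ hΓ hΓb => ?_⟩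
    obtain ⟨R₀, hR₀⟩ := hΓb.exists_norm_le
    have hWb := Wg_bd hR₀
    obtain ⟨R₁, hR₁⟩ : ∃ R₁ : ℝ, R₁ = max (2 * (((m + 1 : ℕ) : ℝ) * R₀)) 1 := ⟨_, rfl⟩
    have hR₁0 : 0 < R₁ := by rw [hR₁]; exact lt_max_of_lt_right one_pos
    have hWR : ∀ u ∈ Wg m Γ, ‖u‖ ≤ R₁ := fun u hu => by
      rw [hR₁]
      exact (hWb u hu).trans (le_max_left _ _)
    have hlim := fx (A := fun s => {t | ‖t - t₀‖ < δ₀ ∧ s⁻¹ • gp (x + Hm t) ∈ Γ}) hF hdet hL.Cpos.le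
      hδ0 hL.rpos (fun t ht => hanti t (hball t ht))
      (fun u hu => by
        obtain ⟨t', h1, -, h2⟩ := hL.s1 x t₀ u ht₀ (by rwa [ht₀0, sub_zero])
        rw [ht₀0, sub_zero] at h1
        exact ⟨t', h1, h2⟩) hR₁0 hWR (g := fun t => χ (x + Hm t) * R t)
      ((hχ.comp hxc).mul hR).continuousAt (fun t => mul_nonneg (hχ0 _) (hR0 _))
      (fun s _ => by
        refine MeasurableSet.inter ?_ ?_
        · exact (isOpen_lt hnc continuous_const).measurableSet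
        · exact (hxm.const_smul s⁻¹) hΓ)
      (fun s hs t => by
        constructor
        · rintro ⟨h1, h2⟩
          exact ⟨h1, (hL.rel _ (hball t h1) s hs Γ).2 h2⟩
        · rintro ⟨h1, h2⟩
          exact ⟨h1, (hL.rel _ (hball t h1) s hs Γ).1 h2⟩)
    refine hlim.congr' ?_
    have hs1 : ∀ᶠ s in 𝓝[>] (0 : ℝ), 0 < s ∧ s < δ₀ / (C * R₁) :=
      Ioo_mem_nhdsGT (by have := hL.Cpos; positivity)
    filter_upwards [hs1] with s hs
    obtain ⟨hs0, hs2⟩ := hs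
    rw [lt_div_iff₀ (by have := hL.Cpos; positivity)] at hs2
    congr 1
    have hAm : MeasurableSet {t | ‖t - t₀‖ < δ₀ ∧ s⁻¹ • gp (x + Hm t) ∈ Γ} := by
      refine MeasurableSet.inter ?_ ?_
      · exact (isOpen_lt hnc continuous_const).measurableSet
      · exact (hxm.const_smul s⁻¹) hΓ
    rw [← lintegral_indicator hAm]
    refine lintegral_congr fun t => ?_
    by_cases h1 : s⁻¹ • gp (x + Hm t) ∈ Γ
    · have h2 : t ∈ {t | s⁻¹ • gp (x + Hm t) ∈ Γ} := h1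
      rw [indicator_of_mem h2]
      by_cases h3 : x + Hm t ∈ Metric.ball ψ (ρ / 4)
      · rw [mem_ball_iff_norm] at h3
        have h4 : ‖t - t₀‖ < δ₀ := by
          have h5 := hanti t (by linarith)
          have h6 := (hL.rel (x + Hm t) (by linarith) s hs0 Γ).2 h1
          obtain ⟨w, hw, hw2⟩ := h6
          have h7 : ‖Mf (x + Hm t)‖ ≤ s * R₁ := by
            rw [← hw2]
            show ‖s • w‖ ≤ s * R₁
            rw [norm_smul, Real.norm_eq_abs, abs_of_pos hs0]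
            exact mul_le_mul_of_nonneg_left (hWR w hw) hs0.le
          calc ‖t - t₀‖ ≤ C * ‖Mf (x + Hm t)‖ := h5
            _ ≤ C * (s * R₁) := mul_le_mul_of_nonneg_left h7 hL.Cpos.le
            _ = s * (C * R₁) := by ring
            _ < δ₀ := hs2
        have h5 : t ∈ {t | ‖t - t₀‖ < δ₀ ∧ s⁻¹ • gp (x + Hm t) ∈ Γ} := ⟨h4, h1⟩
        rw [indicator_of_mem h5]
      · rw [hχU _ h3, zero_mul, ENNReal.ofReal_zero]
        by_cases h5 : t ∈ {t | ‖t - t₀‖ < δ₀ ∧ s⁻¹ • gp (x + Hm t) ∈ Γ}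
        · rw [indicator_of_mem h5, hχU _ h3, zero_mul, ENNReal.ofReal_zero]
        · rw [indicator_of_notMem h5]
    · have h2 : t ∉ {t | s⁻¹ • gp (x + Hm t) ∈ Γ} := h1
      have h3 : t ∉ {t | ‖t - t₀‖ < δ₀ ∧ s⁻¹ • gp (x + Hm t) ∈ Γ} := fun h => h1 h.2
      rw [indicator_of_notMem h2, indicator_of_notMem h3]
  · refine ⟨0, fun Γ hΓ hΓb => ?_⟩
    obtain ⟨R₀, hR₀⟩ := hΓb.exists_norm_le
    have hWb := Wg_bd hR₀
    obtain ⟨R₁, hR₁⟩ : ∃ R₁ : ℝ, R₁ = max (2 * (((m + 1 : ℕ) : ℝ) * R₀)) 1 := ⟨_, rfl⟩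
    have hR₁0 : 0 < R₁ := by rw [hR₁]; exact lt_max_of_lt_right one_pos
    have hWR : ∀ u ∈ Wg m Γ, ‖u‖ ≤ R₁ := fun u hu => by
      rw [hR₁]
      exact (hWb u hu).trans (le_max_left _ _)
    rw [zero_mul]
    refine tendsto_const_nhds.congr' ?_
    have hs1 : ∀ᶠ s in 𝓝[>] (0 : ℝ), 0 < s ∧ s < r / R₁ :=
      Ioo_mem_nhdsGT (by have := hL.rpos; positivity)
    filter_upwards [hs1] with s hs
    obtain ⟨hs0, hs2⟩ := hs
    rw [lt_div_iff₀ hR₁0] at hs2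
    have h0 : ∀ t, {t | s⁻¹ • gp (x + Hm t) ∈ Γ}.indicator
          (fun t => ENNReal.ofReal (χ (x + Hm t) * R t)) t = 0 := by
      intro t
      by_cases h1 : s⁻¹ • gp (x + Hm t) ∈ Γ
      · have h2 : t ∈ {t | s⁻¹ • gp (x + Hm t) ∈ Γ} := h1
        rw [indicator_of_mem h2]
        by_cases h3 : x + Hm t ∈ Metric.ball ψ (ρ / 4)
        · exfalso
          rw [mem_ball_iff_norm] at h3
          have h6 := (hL.rel (x + Hm t) (by linarith) s hs0 Γ).2 h1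
          obtain ⟨w, hw, hw2⟩ := h6
          have h7 : ‖Mf (x + Hm t)‖ ≤ s * R₁ := by
            rw [← hw2]
            show ‖s • w‖ ≤ s * R₁
            rw [norm_smul, Real.norm_eq_abs, abs_of_pos hs0]
            exact mul_le_mul_of_nonneg_left (hWR w hw) hs0.le
          obtain ⟨t', -, h8, h9⟩ := hL.s2 x t 0 h3 (by
            rw [zero_sub, norm_neg]
            linarith)
          exact hroot ⟨t', h8, h9⟩
        · rw [hχU _ h3, zero_mul, ENNReal.ofReal_zero]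
      · have h2 : t ∉ {t | s⁻¹ • gp (x + Hm t) ∈ Γ} := h1
        rw [indicator_of_notMem h2]
    simp only [h0, lintegral_zero, ENNReal.zero_div]

/-- the upper bound on all slices -/
theorem domin [MeasurableSpace X] [BorelSpace X] (hL : Loc Mf gp ψ Hm ρ r C)
    (hgm : Measurable gp) {C₁ : ℝ≥0∞}
    (hsl : ∀ x, ∀ T : Set (Ix m → ℝ), (∀ t ∈ T, x + Hm t ∈ Metric.ball ψ ρ) →
      volume T ≤ C₁ * volume ((fun t => Mf (x + Hm t)) '' T))
    {χ : X → ℝ} (hχ0 : ∀ y, 0 ≤ χ y) (hχU : ∀ y, y ∉ Metric.ball ψ (ρ / 4) → χ y = 0)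
    {B : ℝ} (hB : ∀ y, χ y ≤ B) {R : (Ix m → ℝ) → ℝ} (hR0 : ∀ t, 0 ≤ R t) {B' : ℝ}
    (hB' : ∀ t, R t ≤ B') {Γ : Set (Fin m → ℝ)} (hΓ : MeasurableSet Γ) {s : ℝ} (hs : 0 < s)
    (x : X) :
    ∫⁻ t, {t | s⁻¹ • gp (x + Hm t) ∈ Γ}.indicator
      (fun t => ENNReal.ofReal (χ (x + Hm t) * R t)) t ≤
      ENNReal.ofReal (B * B') * C₁ * volume (Wg m Γ) * ENNReal.ofReal (s ^ Fintype.card (Ix m)) := by
  have hρ := hL.pos
  have hxc : Continuous fun t => x + Hm t := continuous_const.add Hm.continuous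
  have hxm : Measurable fun t => gp (x + Hm t) := hgm.comp hxc.measurable
  have hB0 : 0 ≤ B := (hχ0 ψ).trans (hB ψ)
  obtain ⟨T, hT⟩ : ∃ T : Set (Ix m → ℝ), T = {t | x + Hm t ∈ Metric.ball ψ (ρ / 4) ∧
    s⁻¹ • gp (x + Hm t) ∈ Γ} := ⟨_, rfl⟩
  have hTm : MeasurableSet T := by
    rw [hT]
    exact (Metric.isOpen_ball.preimage hxc).measurableSet.inter ((hxm.const_smul s⁻¹) hΓ)
  have h1 : ∀ t, {t | s⁻¹ • gp (x + Hm t) ∈ Γ}.indicator
      (fun t => ENNReal.ofReal (χ (x + Hm t) * R t)) t ≤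
      T.indicator (fun _ => ENNReal.ofReal (B * B')) t := by
    intro t
    by_cases h2 : s⁻¹ • gp (x + Hm t) ∈ Γ
    · have h3 : t ∈ {t | s⁻¹ • gp (x + Hm t) ∈ Γ} := h2
      rw [indicator_of_mem h3]
      by_cases h4 : x + Hm t ∈ Metric.ball ψ (ρ / 4)
      · have h5 : t ∈ T := by rw [hT]; exact ⟨h4, h2⟩
        rw [indicator_of_mem h5]
        exact ENNReal.ofReal_le_ofReal (mul_le_mul (hB _) (hB' _) (hR0 _) hB0)
      · rw [hχU _ h4, zero_mul, ENNReal.ofReal_zero]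
        exact zero_le
    · have h3 : t ∉ {t | s⁻¹ • gp (x + Hm t) ∈ Γ} := h2
      rw [indicator_of_notMem h3]
      exact zero_le
  have h2 : volume T ≤ C₁ * (ENNReal.ofReal (s ^ Fintype.card (Ix m)) * volume (Wg m Γ)) := by
    have h3 : volume (s • Wg m Γ) = ENNReal.ofReal (s ^ Fintype.card (Ix m)) *
        volume (Wg m Γ) := by
      rw [Measure.addHaar_smul, Module.finrank_fintype_fun_eq_card, abs_of_pos (by positivity)]
    rw [← h3]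
    refine (hsl x T fun t ht => ?_).trans (mul_le_mul_right (measure_mono ?_) _)
    · rw [hT] at ht
      exact Metric.ball_subset_ball (by linarith) ht.1
    · rintro _ ⟨t, ht, rfl⟩
      rw [hT] at ht
      have h4 := ht.1
      rw [mem_ball_iff_norm] at h4
      exact (hL.rel _ (by linarith) s hs Γ).2 ht.2
  calc ∫⁻ t, {t | s⁻¹ • gp (x + Hm t) ∈ Γ}.indicator
        (fun t => ENNReal.ofReal (χ (x + Hm t) * R t)) t
      ≤ ∫⁻ t, T.indicator (fun _ => ENNReal.ofReal (B * B')) t := lintegral_mono h1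
    _ = ENNReal.ofReal (B * B') * volume T := by
        rw [lintegral_indicator hTm, setLIntegral_const]
    _ ≤ ENNReal.ofReal (B * B') * (C₁ * (ENNReal.ofReal (s ^ Fintype.card (Ix m)) *
          volume (Wg m Γ))) := mul_le_mul_right h2 _
    _ = _ := by ring

end slice

end Pool.Agent.L5helper74.QR
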