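import Pool.Agent.L5helper74.QR.Exa

/-!
# Exact local law of the gaps: random series
-/

set_option autoImplicit false
set_option linter.unusedSectionVars false

open Set Filter Topology MeasureTheory ProbabilityTheory
open scoped ENNReal NNReal Pointwise
open Pool.Agent.L5helper74.LR

noncomputable section

namespace Pool.Agent.L5helper74.QR

section getloc

variable {m : ℕ} {X : Type} [NormedAddCommGroup X] [NormedSpace ℝ X] [CompleteSpace X]
  {Mf : X → Ix m → ℝ} {M' : X →L[ℝ] (Ix m → ℝ)} {ψ : X} {gp : X → Fin m → ℝ}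
  {Hm : (Ix m → ℝ) →L[ℝ] X}

theorem getLoc (hMc : ContDiffAt ℝ 1 Mf ψ) (hM : HasStrictFDerivAt Mf M' ψ)
    (hinj : ∀ t, M' (Hm t) = 0 → t = 0)
    (hgs : ∀ y, Monotone (Fin.cons 0 (gp y) : Fin (m + 1) → ℝ))
    (hev : ∀ᶠ y in 𝓝 ψ, ∃ V, Ort V ∧ Mf y = cI (Tc (Fin.cons 0 (gp y)) V)) :
    ∃ (ρ r C : ℝ) (C₁ : ℝ≥0∞), Loc Mf gp ψ Hm ρ r C ∧ C₁ ≠ ⊤ ∧
      ∀ x, ∀ T : Set (Ix m → ℝ), (∀ t ∈ T, x + Hm t ∈ Metric.ball ψ ρ) →
        volume T ≤ C₁ * volume ((fun t => Mf (x + Hm t)) '' T) := by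
  obtain ⟨ρ₀, hρ₀, C, hC, huni⟩ := uni hM hinj
  obtain ⟨U₁, hU₁, C₁, hC₁, hsl⟩ := slice_up hM hinj
  have hcd : ∀ᶠ y in 𝓝 ψ, ContDiffAt ℝ 1 Mf y := hMc.eventually (by norm_num)
  obtain ⟨ρ₁, hρ₁, hρU⟩ := Metric.mem_nhds_iff.1 (inter_mem hU₁ (hcd.and hev))
  obtain ⟨ρ, hρ⟩ : ∃ ρ, ρ = min ρ₀ ρ₁ := ⟨_, rfl⟩
  have hρ0 : 0 < ρ := by rw [hρ]; exact lt_min hρ₀ hρ₁
  have hρ1 : ρ ≤ ρ₀ := by rw [hρ]; exact min_le_left _ _
  have hρ2 : ρ ≤ ρ₁ := by rw [hρ]; exact min_le_right _ _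
  have hin : ∀ y, ‖y - ψ‖ < ρ → y ∈ U₁ ∧ ContDiffAt ℝ 1 Mf y ∧
      ∃ V, Ort V ∧ Mf y = cI (Tc (Fin.cons 0 (gp y)) V) := by
    intro y hy
    exact hρU (show y ∈ Metric.ball ψ ρ₁ by rw [mem_ball_iff_norm]; exact hy.trans_le hρ2)
  obtain ⟨h1, r₁, hr₁, h2⟩ := huni ρ hρ0 hρ1
  obtain ⟨-, r₂, hr₂, h3⟩ := huni (ρ / 2) (by positivity) (by linarith)
  refine ⟨ρ, min r₁ r₂, C, C₁, ⟨hρ0, lt_min hr₁ hr₂, hC, h1,
    fun x t u ht hu => h2 x t u ht (hu.trans_le (min_le_left _ _)),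
    fun x t u ht hu => h3 x t u (by linarith) (hu.trans_le (min_le_right _ _)),
    fun y hy => ⟨_, (hin y hy).2.1.hasStrictFDerivAt one_ne_zero⟩, fun y hy s hs Γ => ?_⟩, hC₁,
    fun x T hT => hsl x T fun t ht => ?_⟩
  · obtain ⟨V, hV, hV2⟩ := (hin y hy).2.2
    exact Wg_iff hs (hgs y) hV hV2
  · have := hT t ht
    rw [mem_ball_iff_norm] at this
    exact (hin _ this).1

end getloc

variable {m : ℕ} {Ω : Type} [MeasurableSpace Ω] {P : Measure Ω} [IsProbabilityMeasure P] {X : Type}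
  [NormedAddCommGroup X] [NormedSpace ℝ X] [CompleteSpace X] [MeasurableSpace X] [BorelSpace X]
  [SecondCountableTopology X] {ξ : ℕ → Ω → ℝ} {f : ℕ → X} {φ : Ω → X}
  {Mf : X → Ix m → ℝ} {M' : X →L[ℝ] (Ix m → ℝ)} {ψ : X} {gp : X → Fin m → ℝ} {k : Ix m → ℕ}
  {ρ : ℕ → ℝ → ℝ}

lemma Wg_pos (m : ℕ) : volume (Wg m (Metric.ball 0 1)) ≠ 0 := by
  obtain ⟨c, hc, hw⟩ := weyl_low m
  obtain ⟨c₀, hc₀, hp⟩ := low_pow m
  obtain ⟨Γ, hΓ, h1, h2⟩ := hp 1 one_pos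
  have h3 := hw Γ hΓ fun y hy => (h1 y hy).2.injective
  have h4 : 0 < c * ∫⁻ y in Γ, ENNReal.ofReal (Vd m y) := by
    refine ENNReal.mul_pos hc ?_
    refine ne_of_gt (lt_of_lt_of_le ?_ h2)
    rw [ENNReal.ofReal_pos]
    positivity
  refine ne_of_gt (h4.trans_le (h3.trans (measure_mono ?_)))
  rintro u ⟨y, hy, V, hV, hu⟩
  exact ⟨y, mem_ball_zero_iff.2 (h1 y hy).1, (h1 y hy).2.monotone, V, hV, hu⟩

theorem exa (hξ : ∀ k, Measurable (ξ k)) (hind : iIndepFun ξ P)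
    (hφ : ∀ ω, Tendsto (fun n => ∑ k ∈ Finset.range n, ξ k ω • f k) atTop (𝓝 (φ ω)))
    (hρc : ∀ k, Continuous (ρ k)) (hρ0 : ∀ k t, 0 ≤ ρ k t) (hρb : ∀ k, ∃ B, ∀ t, ρ k t ≤ B)
    (hρ : ∀ k, P.map (ξ k) = volume.withDensity fun t => ENNReal.ofReal (ρ k t))
    (hk : Function.Injective k) (hMc : ContDiffAt ℝ 1 Mf ψ) (hM : HasStrictFDerivAt Mf M' ψ)
    (h0 : Mf ψ = 0) (hinj : ∀ t : Ix m → ℝ, M' (∑ q, t q • f (k q)) = 0 → t = 0)
    (hgm : Measurable gp) (hgs : ∀ y, Monotone (Fin.cons 0 (gp y) : Fin (m + 1) → ℝ))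
    (hev : ∀ᶠ y in 𝓝 ψ, ∃ V, Ort V ∧ Mf y = cI (Tc (Fin.cons 0 (gp y)) V)) :
    ∃ U ∈ 𝓝 ψ, ∀ χ : X → ℝ, Continuous χ → (∀ y, 0 ≤ χ y) → (∃ B, ∀ y, χ y ≤ B) →
      (∀ y, y ∉ U → χ y = 0) → ∃ c : ℝ≥0∞, c ≠ ⊤ ∧
      (0 < χ ψ → ∀ a : ℕ → ℝ, Tendsto (fun n => ∑ k ∈ Finset.range n, a k • f k) atTop (𝓝 ψ) →
        (∀ k, 0 < ρ k (a k)) → c ≠ 0) ∧
      ∀ Γ : Set (Fin m → ℝ), MeasurableSet Γ → Bornology.IsBounded Γ →
        Tendsto (fun s : ℝ => (∫⁻ ω, {ω | s⁻¹ • gp (φ ω) ∈ Γ}.indicator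
          (fun ω => ENNReal.ofReal (χ (φ ω))) ω ∂P) / ENNReal.ofReal (s ^ Fintype.card (Ix m)))
          (𝓝[>] 0) (𝓝 (c * volume (Wg m Γ))) := by
  classical
  obtain ⟨Hm, hHm⟩ := Hd fun q => f (k q)
  obtain ⟨δ, r, C, C₁, hL, hC₁, hsl⟩ := getLoc (Hm := Hm) hMc hM
    (fun t ht => hinj t (by rwa [← hHm])) hgs hev
  have hδ := hL.pos
  obtain ⟨R, hR⟩ : ∃ R : (Ix m → ℝ) → ℝ, R = fun t => ∏ q, ρ (k q) (t q) := ⟨_, rfl⟩
  have hRc : Continuous R := by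
    rw [hR]
    exact continuous_finsetProd _ fun q _ => (hρc _).comp (continuous_apply q)
  have hR0 : ∀ t, 0 ≤ R t := fun t => by
    rw [hR]
    exact Finset.prod_nonneg fun q _ => hρ0 _ _
  choose Bk hBk using hρb
  obtain ⟨B', hB'⟩ : ∃ B' : ℝ, B' = ∏ q, Bk (k q) := ⟨_, rfl⟩
  have hRB : ∀ t, R t ≤ B' := fun t => by
    rw [hR, hB']
    exact Finset.prod_le_prod (fun q _ => hρ0 _ _) fun q _ => hBk _ _
  have hφm : Measurable φ := by
    have h1 := Yr_meas' hξ hφ ∅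
    have h2 : Yr ξ f φ ∅ = φ := by
      funext ω
      simp [Yr]
    rwa [h2] at h1
  have hpr : ∀ q : Ix m, IsProbabilityMeasure (P.map (ξ (k q))) := fun q =>
    Measure.isProbabilityMeasure_map (hξ _).aemeasurable
  have hpi : Measure.pi (fun q => P.map (ξ (k q))) =
      volume.withDensity fun t : Ix m → ℝ => ENNReal.ofReal (R t) := by
    rw [hR]
    exact pi_dens (fun q => hρc (k q)) (fun q => hρ0 (k q)) fun q => hρ (k q)
  refine ⟨Metric.ball ψ (δ / 4), Metric.ball_mem_nhds _ (by positivity),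
    fun χ hχ hχ0 hχB hχU => ?_⟩
  obtain ⟨B, hB⟩ := hχB
  obtain ⟨Y, hY⟩ : ∃ Y : Ω → X, Y = Yr ξ f φ (Finset.univ.image k) := ⟨_, rfl⟩
  have hYm : Measurable Y := by rw [hY]; exact Yr_meas' hξ hφ _
  choose c hc using fun x => onex hL hgm hχ hχ0 hχU hRc hR0 x
  -- the disintegration
  have hE : ∀ (Γ : Set (Fin m → ℝ)), MeasurableSet Γ → ∀ s : ℝ,
      ∫⁻ ω, {ω | s⁻¹ • gp (φ ω) ∈ Γ}.indicator (fun ω => ENNReal.ofReal (χ (φ ω))) ω ∂P =
      ∫⁻ ω, (∫⁻ t, {t | s⁻¹ • gp (Y ω + Hm t) ∈ Γ}.indicator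
        (fun t => ENNReal.ofReal (χ (Y ω + Hm t) * R t)) t) ∂P := by
    intro Γ hΓ s
    obtain ⟨F, hF⟩ : ∃ F : X → ℝ≥0∞, F = {y | s⁻¹ • gp y ∈ Γ}.indicator
      fun y => ENNReal.ofReal (χ y) := ⟨_, rfl⟩
    have hFm : Measurable F := by
      rw [hF]
      exact (hχ.measurable.ennreal_ofReal).indicator ((hgm.const_smul s⁻¹) hΓ)
    have h1 := form_fun hξ hind hφ hk hFm
    have h2 : ∀ ω, {ω | s⁻¹ • gp (φ ω) ∈ Γ}.indicator (fun ω => ENNReal.ofReal (χ (φ ω))) ω =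
        F (φ ω) := by
      intro ω
      rw [hF]
      rfl
    simp only [h2]
    rw [h1, hpi, ← hY]
    refine lintegral_congr fun ω => ?_
    have hxc : Continuous fun t : Ix m → ℝ => Y ω + ∑ q, t q • f (k q) := by
      have : Continuous fun t => Y ω + Hm t := continuous_const.add Hm.continuous
      simpa only [hHm] using this
    refine (lintegral_withDensity_eq_lintegral_mul volume hRc.measurable.ennreal_ofReal
      (hFm.comp hxc.measurable)).trans ?_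
    refine lintegral_congr fun t => ?_
    simp only [Pi.mul_apply, Function.comp_apply, hF, hHm]
    by_cases h3 : s⁻¹ • gp (Y ω + ∑ q, t q • f (k q)) ∈ Γ
    · have h4 : Y ω + ∑ q, t q • f (k q) ∈ {y | s⁻¹ • gp y ∈ Γ} := h3
      have h5 : t ∈ {t : Ix m → ℝ | s⁻¹ • gp (Y ω + ∑ q, t q • f (k q)) ∈ Γ} := h3
      rw [indicator_of_mem h4, indicator_of_mem h5, ENNReal.ofReal_mul (hχ0 _), mul_comm]
    · have h4 : Y ω + ∑ q, t q • f (k q) ∉ {y | s⁻¹ • gp y ∈ Γ} := h3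
      have h5 : t ∉ {t : Ix m → ℝ | s⁻¹ • gp (Y ω + ∑ q, t q • f (k q)) ∈ Γ} := h3
      rw [indicator_of_notMem h4, indicator_of_notMem h5, mul_zero]
  -- the limits
  have hWf : ∀ Γ : Set (Fin m → ℝ), Bornology.IsBounded Γ → volume (Wg m Γ) ≠ ⊤ := by
    intro Γ hΓb
    obtain ⟨R₀, hR₀⟩ := hΓb.exists_norm_le
    refine ne_top_of_le_ne_top (measure_closedBall_lt_top (x := (0 : Ix m → ℝ))
      (r := 2 * (((m + 1 : ℕ) : ℝ) * R₀))).ne (measure_mono fun u hu => ?_)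
    rw [mem_closedBall_zero_iff]
    exact Wg_bd hR₀ u hu
  have hlim : ∀ Γ : Set (Fin m → ℝ), MeasurableSet Γ → Bornology.IsBounded Γ →
        Tendsto (fun s : ℝ => (∫⁻ ω, {ω | s⁻¹ • gp (φ ω) ∈ Γ}.indicator
          (fun ω => ENNReal.ofReal (χ (φ ω))) ω ∂P) / ENNReal.ofReal (s ^ Fintype.card (Ix m)))
          (𝓝[>] 0) (𝓝 ((∫⁻ ω, c (Y ω) ∂P) * volume (Wg m Γ))) := by
    intro Γ hΓ hΓb
    obtain ⟨G, hG⟩ : ∃ G : ℝ → X → ℝ≥0∞, G = fun s x =>
      (∫⁻ t, {t | s⁻¹ • gp (x + Hm t) ∈ Γ}.indicator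
        (fun t => ENNReal.ofReal (χ (x + Hm t) * R t)) t) /
        ENNReal.ofReal (s ^ Fintype.card (Ix m)) := ⟨_, rfl⟩
    have hGm : ∀ s, Measurable (G s) := by
      intro s
      rw [hG]
      refine Measurable.div_const ?_ _
      have hpc : Continuous fun p : X × (Ix m → ℝ) => p.1 + Hm p.2 :=
        continuous_fst.add (Hm.continuous.comp continuous_snd)
      have h1 : Measurable fun p : X × (Ix m → ℝ) =>
          {p : X × (Ix m → ℝ) | s⁻¹ • gp (p.1 + Hm p.2) ∈ Γ}.indicator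
            (fun p => ENNReal.ofReal (χ (p.1 + Hm p.2) * R p.2)) p := by
        refine Measurable.indicator ?_ ?_
        · exact ((hχ.comp hpc).mul (hRc.comp continuous_snd)).measurable.ennreal_ofReal
        · exact ((hgm.comp hpc.measurable).const_smul s⁻¹) hΓ
      exact h1.lintegral_prod_right'
    have h1 : ∀ s, (∫⁻ ω, {ω | s⁻¹ • gp (φ ω) ∈ Γ}.indicator
          (fun ω => ENNReal.ofReal (χ (φ ω))) ω ∂P) / ENNReal.ofReal (s ^ Fintype.card (Ix m)) =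
          ∫⁻ ω, G s (Y ω) ∂P := by
      intro s
      rw [hE Γ hΓ s, hG, div_eq_mul_inv]
      simp only [div_eq_mul_inv]
      rw [lintegral_mul_const]
      have h2 := (hGm s).comp hYm
      have hpc : Continuous fun p : X × (Ix m → ℝ) => p.1 + Hm p.2 :=
        continuous_fst.add (Hm.continuous.comp continuous_snd)
      have h1 : Measurable fun p : X × (Ix m → ℝ) =>
          {p : X × (Ix m → ℝ) | s⁻¹ • gp (p.1 + Hm p.2) ∈ Γ}.indicator
            (fun p => ENNReal.ofReal (χ (p.1 + Hm p.2) * R p.2)) p := by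
        refine Measurable.indicator ?_ ?_
        · exact ((hχ.comp hpc).mul (hRc.comp continuous_snd)).measurable.ennreal_ofReal
        · exact ((hgm.comp hpc.measurable).const_smul s⁻¹) hΓ
      exact h1.lintegral_prod_right'.comp hYm
    simp only [h1]
    have h2 : (∫⁻ ω, c (Y ω) ∂P) * volume (Wg m Γ) = ∫⁻ ω, c (Y ω) * volume (Wg m Γ) ∂P :=
      (lintegral_mul_const' _ _ (hWf Γ hΓb)).symm
    rw [h2]
    refine tendsto_lintegral_filter_of_dominated_convergence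
      (fun _ => ENNReal.ofReal (B * B') * C₁ * volume (Wg m Γ))
      (Eventually.of_forall fun s => (hGm s).comp hYm) ?_ ?_
      (Eventually.of_forall fun ω => ?_)
    · filter_upwards [self_mem_nhdsWithin] with s hs
      refine Eventually.of_forall fun ω => ?_
      have hs0 : 0 < s := hs
      rw [hG]
      have h3 := domin hL hgm hsl hχ0 hχU hB hR0 hRB hΓ hs0 (Y ω)
      refine ENNReal.div_le_of_le_mul h3
    · rw [lintegral_const, measure_univ, mul_one]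
      exact ENNReal.mul_ne_top (ENNReal.mul_ne_top ENNReal.ofReal_ne_top hC₁) (hWf Γ hΓb)
    · rw [hG]
      exact hc (Y ω) Γ hΓ hΓb
  refine ⟨∫⁻ ω, c (Y ω) ∂P, ?_, fun hχψ a ha hρa => ?_, hlim⟩
  · -- finiteness
    have h1 := hlim (Metric.ball 0 1) measurableSet_ball Metric.isBounded_ball
    have h2 : (∫⁻ ω, c (Y ω) ∂P) * volume (Wg m (Metric.ball 0 1)) ≤
        ENNReal.ofReal (B * B') * C₁ * volume (Wg m (Metric.ball 0 1)) := by
      refine le_of_tendsto h1 ?_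
      filter_upwards [self_mem_nhdsWithin] with s hs
      have hs0 : 0 < s := hs
      refine ENNReal.div_le_of_le_mul ?_
      rw [hE _ measurableSet_ball s]
      calc _ ≤ ∫⁻ _, ENNReal.ofReal (B * B') * C₁ * volume (Wg m (Metric.ball 0 1)) *
            ENNReal.ofReal (s ^ Fintype.card (Ix m)) ∂P :=
            lintegral_mono fun ω => domin hL hgm hsl hχ0 hχU hB hR0 hRB measurableSet_ball hs0 (Y ω)
        _ = _ := by rw [lintegral_const, measure_univ, mul_one]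
    intro htop
    rw [htop, ENNReal.top_mul (Wg_pos m)] at h2
    exact (ENNReal.mul_ne_top (ENNReal.mul_ne_top ENNReal.ofReal_ne_top hC₁)
      (hWf _ Metric.isBounded_ball)) (top_le_iff.1 h2)
  · -- positivity
    intro hc0
    have hlow : ∀ k, ∃ c : ℝ≥0∞, c ≠ 0 ∧ ∃ η : ℝ, 0 < η ∧ ∀ A ⊆ Ioo (a k - η) (a k + η),
        MeasurableSet A → c * volume A ≤ P {ω | ξ k ω ∈ A} := by
      intro j
      have h1 : ∀ᶠ t in 𝓝 (a j), ρ j (a j) / 2 < ρ j t :=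
        (hρc j).continuousAt.eventually (lt_mem_nhds (by have := hρa j; linarith))
      obtain ⟨η, hη, h2⟩ := Metric.eventually_nhds_iff_ball.1 h1
      refine ⟨ENNReal.ofReal (ρ j (a j) / 2), ?_, η, hη, fun A hA hAm => ?_⟩
      · have := hρa j
        have h3 : 0 < ENNReal.ofReal (ρ j (a j) / 2) := by
          rw [ENNReal.ofReal_pos]
          positivity
        exact h3.ne'
      · have h3 : P {ω | ξ j ω ∈ A} = P.map (ξ j) A := (Measure.map_apply (hξ j) hAm).symm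
        rw [h3, hρ j, withDensity_apply _ hAm, ← setLIntegral_const]
        refine setLIntegral_mono' hAm fun t ht => ENNReal.ofReal_le_ofReal ?_
        refine (h2 t ?_).le
        rw [Real.ball_eq_Ioo]
        exact hA ht
    have hU' : {y | χ ψ / 2 < χ y} ∈ 𝓝 ψ :=
      hχ.continuousAt.eventually (lt_mem_nhds (by linarith))
    obtain ⟨r₀, hr₀, c₁, hc₁, hcl⟩ := clu_low (h := fun q => f (k q)) hM h0 hinj
      (ser_low hξ hind hφ ha hlow hk) hgm hgs hev hU'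
    obtain ⟨c₀, hc₀, hp⟩ := low_pow m
    have h1 := hlim (Metric.ball 0 1) measurableSet_ball Metric.isBounded_ball
    rw [hc0, zero_mul] at h1
    have h2 : ENNReal.ofReal (χ ψ / 2) * (c₁ * ENNReal.ofReal c₀) ≤ 0 := by
      refine ge_of_tendsto h1 ?_
      have hs1 : ∀ᶠ s in 𝓝[>] (0 : ℝ), 0 < s ∧ s < r₀ := Ioo_mem_nhdsGT hr₀
      filter_upwards [hs1] with s hs
      obtain ⟨hs0, hsr⟩ := hs
      obtain ⟨Γ, hΓ, h3, h4⟩ := hp s hs0
      have h5 := hcl Γ hΓ fun y hy => ⟨(h3 y hy).1.trans hsr, (h3 y hy).2⟩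
      have hsd : ENNReal.ofReal (s ^ Fintype.card (Ix m)) ≠ 0 := by
        have : 0 < ENNReal.ofReal (s ^ Fintype.card (Ix m)) := by
          rw [ENNReal.ofReal_pos]
          positivity
        exact this.ne'
      rw [ENNReal.le_div_iff_mul_le (Or.inl hsd) (Or.inl ENNReal.ofReal_ne_top)]
      obtain ⟨F, hF⟩ : ∃ F : X → ℝ≥0∞, F = {y | s⁻¹ • gp y ∈ Metric.ball 0 1}.indicator
        fun y => ENNReal.ofReal (χ y) := ⟨_, rfl⟩
      have hFm : Measurable F := by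
        rw [hF]
        exact (hχ.measurable.ennreal_ofReal).indicator ((hgm.const_smul s⁻¹) measurableSet_ball)
      have h6 : ∀ ω, {ω | s⁻¹ • gp (φ ω) ∈ Metric.ball 0 1}.indicator
          (fun ω => ENNReal.ofReal (χ (φ ω))) ω = F (φ ω) := by
        intro ω
        rw [hF]
        rfl
      simp only [h6]
      have h7 := mul_meas_ge_le_lintegral (μ := P) (hFm.comp hφm) (ENNReal.ofReal (χ ψ / 2))
      refine le_trans ?_ h7
      have h8 : P {ω | φ ω ∈ {y | χ ψ / 2 < χ y} ∧ gp (φ ω) ∈ Γ} ≤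
          P {ω | ENNReal.ofReal (χ ψ / 2) ≤ (F ∘ φ) ω} := by
        refine measure_mono ?_
        rintro ω ⟨hω1, hω2⟩
        show ENNReal.ofReal (χ ψ / 2) ≤ F (φ ω)
        have h9 : φ ω ∈ {y | s⁻¹ • gp y ∈ Metric.ball (0 : Fin m → ℝ) 1} := by
          show s⁻¹ • gp (φ ω) ∈ Metric.ball (0 : Fin m → ℝ) 1
          rw [mem_ball_zero_iff, norm_smul, norm_inv, Real.norm_eq_abs, abs_of_pos hs0,
            inv_mul_lt_iff₀ hs0, mul_one]
          exact (h3 _ hω2).1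
        rw [hF, indicator_of_mem h9]
        exact ENNReal.ofReal_le_ofReal (le_of_lt hω1)
      calc ENNReal.ofReal (χ ψ / 2) * (c₁ * ENNReal.ofReal c₀) *
            ENNReal.ofReal (s ^ Fintype.card (Ix m))
          = ENNReal.ofReal (χ ψ / 2) * (c₁ * ENNReal.ofReal (c₀ * s ^ (m * (m + 3) / 2))) := by
            rw [ENNReal.ofReal_mul hc₀.le, card_Ix]
            ring
        _ ≤ ENNReal.ofReal (χ ψ / 2) * (c₁ * ∫⁻ y in Γ, ENNReal.ofReal (Vd m y)) := by gcongr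
        _ ≤ _ := by gcongr; exact h5.trans h8
    have h3 : 0 < ENNReal.ofReal (χ ψ / 2) * (c₁ * ENNReal.ofReal c₀) := by
      refine ENNReal.mul_pos ?_ ?_
      · have : 0 < ENNReal.ofReal (χ ψ / 2) := by
          rw [ENNReal.ofReal_pos]
          positivity
        exact this.ne'
      · refine mul_ne_zero hc₁ ?_
        have : 0 < ENNReal.ofReal c₀ := by
          rw [ENNReal.ofReal_pos]
          exact hc₀
        exact this.ne'
    exact absurd h2 (not_le.2 h3)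

end Pool.Agent.L5helper74.QR
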