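import Pool.Agent.L5helper74.QR.Step3

/-!
# Quadratic repulsion: slices, small gaps with a third level nearby
-/

set_option autoImplicit false
set_option linter.unusedSectionVars false

open Set Filter Topology MeasureTheory
open scoped ENNReal
open Pool.Agent.L5helper74.LR

noncomputable section

namespace Pool.Agent.L5helper74.QR

variable {m : ℕ} {ι : Type} [Fintype ι]

theorem fin_dim3 (hm : 1 ≤ m) (Λ : (ι → ℝ) →L[ℝ] (Ix m → ℝ)) (hinj : ∀ t, Λ t = 0 → t = 0)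
    (h2 : ∀ V, Ort V → ∀ (a : ℕ) (h : a + 1 < m + 1), ∃ ζ : (Fin 2 → ℝ) →L[ℝ] (ι → ℝ),
      ∀ z, Cm (sg a 1 h) V (Λ (ζ z)) = 0 → z = 0)
    (h3 : ∀ V, Ort V → ∀ (a : ℕ) (h : a + 2 < m + 1), ∃ ζ : (Fin 4 → ℝ) →L[ℝ] (ι → ℝ),
      ∀ z, Cm (sg a 2 h) V (Λ (ζ z)) = 0 → z = 0) :
    ∃ ε : ℝ, 0 < ε ∧ ∀ K₀ ρ₀ ρ : ℝ, 0 < K₀ → ρ < ρ₀ → ∀ a b : Fin (m + 1), (a : ℕ) + 1 = b →
      Bd3 Λ ε K₀ ρ₀ a b ρ := by
  obtain ⟨n, hn⟩ : ∃ n : ℝ, n = ((m + 1 : ℕ) : ℝ) := ⟨_, rfl⟩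
  have hn1 : 1 ≤ n := by
    rw [hn]
    exact_mod_cast Nat.succ_le_succ (Nat.zero_le m)
  -- injectivity
  obtain ⟨K₁, hK₁, hΛ⟩ : ∃ K₁ : ℝ, 0 < K₁ ∧ ∀ t, ‖t‖ ≤ K₁ * ‖Λ t‖ := by
    have h1 : Function.Injective (Λ : (ι → ℝ) →ₗ[ℝ] (Ix m → ℝ)) :=
      (injective_iff_map_eq_zero _).2 fun t ht => hinj t ht
    obtain ⟨K, hK, hK2⟩ := LinearMap.exists_antilipschitzWith
      (Λ : (ι → ℝ) →ₗ[ℝ] (Ix m → ℝ)) (LinearMap.ker_eq_bot.2 h1)
    refine ⟨K, by exact_mod_cast hK, fun t => ?_⟩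
    have h4 := hK2.le_mul_dist t 0
    rwa [dist_zero_right, map_zero, dist_zero_right] at h4
  -- one scale
  obtain ⟨Q, hQ⟩ : ∃ Q : Fin (m + 1) → Fin (m + 1) → ℝ → Prop, Q = fun a b ε => a < b →
      ∃ c' : ℝ, 0 < c' ∧ 2 * n ^ 3 * (‖Λ‖ + 1) * c' ≤ 1 ∧ ∃ K' : ℝ, 0 ≤ K' ∧
        OS Λ ε a b (if (a : ℕ) + 1 = b then 2 else 4) c' K' := ⟨_, rfl⟩
  have hc₁ : 0 < 1 / (2 * n ^ 3 * (‖Λ‖ + 1)) := by
    have := norm_nonneg Λ
    positivity
  have hc₁' : ∀ c', c' ≤ 1 / (2 * n ^ 3 * (‖Λ‖ + 1)) → 2 * n ^ 3 * (‖Λ‖ + 1) * c' ≤ 1 := by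
    intro c' hc'
    rw [le_div_iff₀ (by positivity)] at hc'
    linarith
  have hev : ∀ a b, ∀ᶠ ε in 𝓝[>] (0 : ℝ), Q a b ε := by
    intro a b
    rw [hQ]
    by_cases hab : a < b
    · have hab' : (a : ℕ) < b := hab
      have hb := b.2
      by_cases h : (a : ℕ) + 1 = b
      · obtain ⟨Z, c, C, hc, hC, hZC, hZ⟩ := tr (κ := Fin 2) Λ (sg a 1 (by omega))
          fun V hV => h2 V hV a (by omega)
        obtain ⟨ε₀, hε₀, hos⟩ := one_scale Λ (sg_inj (by omega)) (a := a) (b := b)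
          (fun i => by rw [Fin.le_def]; simp only [sg]; omega)
          (fun i => by rw [Fin.le_def]; simp only [sg]; omega) hc hC hZC hZ
        obtain ⟨c', h4, h5, K', h6, h7⟩ := hos _ hc₁
        filter_upwards [Ioc_mem_nhdsGT hε₀] with ε hε _
        refine ⟨c', h4, hc₁' c' h5, K', h6, ?_⟩
        rw [if_pos h]
        have h8 := h7 ε hε.1.le hε.2
        rwa [Fintype.card_fin] at h8
      · obtain ⟨Z, c, C, hc, hC, hZC, hZ⟩ := tr (κ := Fin 4) Λ (sg a 2 (by omega))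
          fun V hV => h3 V hV a (by omega)
        obtain ⟨ε₀, hε₀, hos⟩ := one_scale Λ (sg_inj (by omega)) (a := a) (b := b)
          (fun i => by rw [Fin.le_def]; simp only [sg]; omega)
          (fun i => by rw [Fin.le_def]; simp only [sg]; omega) hc hC hZC hZ
        obtain ⟨c', h4, h5, K', h6, h7⟩ := hos _ hc₁
        filter_upwards [Ioc_mem_nhdsGT hε₀] with ε hε _
        refine ⟨c', h4, hc₁' c' h5, K', h6, ?_⟩
        rw [if_neg h]
        have h8 := h7 ε hε.1.le hε.2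
        rwa [Fintype.card_fin] at h8
    · exact Eventually.of_forall fun ε h => absurd h hab
  have hevall : ∀ᶠ ε in 𝓝[>] (0 : ℝ), ∀ a b, Q a b ε :=
    eventually_all.2 fun a => eventually_all.2 fun b => hev a b
  obtain ⟨ε, hQε, hε⟩ := (hevall.and (Ioc_mem_nhdsGT
    (show (0 : ℝ) < min 1 (1 / (2 * K₁)) by positivity))).exists
  have hε1 : ε ≤ 1 := hε.2.trans (min_le_left _ _)
  have hεK : ε * K₁ ≤ 1 / 2 := by
    have h4 : ε ≤ 1 / (2 * K₁) := hε.2.trans (min_le_right _ _)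
    calc ε * K₁ ≤ 1 / (2 * K₁) * K₁ := mul_le_mul_of_nonneg_right h4 hK₁.le
      _ = 1 / 2 := by field_simp
  refine ⟨ε, hε.1, fun K₀ ρ₀ ρ hK₀ hρ a b hab => ?_⟩
  -- the induction
  have key : ∀ j : ℕ, ∀ a b : Fin (m + 1), a < b → (b : ℕ) - a + j = m → ∀ ρ : ℝ, ρ < ρ₀ →
      Bd Λ ε K₀ ρ₀ a b (if (a : ℕ) + 1 = b then 2 else 3) ρ := by
    intro j
    induction j with
    | zero =>
      intro a b hab hj ρ hρ
      have hab' : (a : ℕ) < b := hab
      have hb := b.2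
      have ha0 : a = 0 := Fin.ext (by rw [Fin.val_zero]; omega)
      have hbm : b = Fin.last m := Fin.ext (by rw [Fin.val_last]; omega)
      have hcard : (if (a : ℕ) + 1 = b then 2 else 3) ≤ Fintype.card ι := by
        have hI : Ort (I1 : Fin (m + 1) → Fin (m + 1) → ℝ) := by
          intro i k
          simp only [I1]
          simp [eq_comm]
        split_ifs with h
        · obtain ⟨ζ, hζ⟩ := h2 _ hI a (by omega)
          have := card_le hζ
          simpa using this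
        · obtain ⟨ζ, hζ⟩ := h3 _ hI a (by omega)
          have := card_le hζ
          rw [Fintype.card_fin] at this
          omega
      rw [ha0, hbm] at hcard ⊢
      exact whole hK₁ hΛ hεK K₀ ρ₀ hcard hρ.le
    | succ j ih =>
      intro a b hab hj ρ hρ
      have hab' : (a : ℕ) < b := hab
      have hb := b.2
      have hq := hQε a b
      rw [hQ] at hq
      obtain ⟨c', hc', hc'2, K', hK', hOS⟩ := hq hab
      rw [hn] at hc'2
      refine step hε1 hK₀ (κ := if (a : ℕ) + 1 = b then 2 else 4) ?_ hc' hc'2 hK' hOS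
        (ρ := ρ) (ρ' := (ρ + ρ₀) / 2) (by linarith) (by linarith) ?_ ?_
      · by_cases h : (a : ℕ) + 1 = b
        · rw [if_pos h, if_pos h]
          exact Or.inl ⟨rfl, rfl⟩
        · rw [if_neg h, if_neg h]
          exact Or.inr ⟨rfl, rfl⟩
      · intro a' ha'
        have h4 := ih a' b (by rw [Fin.lt_def]; omega) (by omega) ((ρ + ρ₀) / 2) (by linarith)
        rwa [if_neg (by omega)] at h4
      · intro b' hb'
        have h4 := ih a b' (by rw [Fin.lt_def]; omega) (by have := b'.2; omega)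
          ((ρ + ρ₀) / 2) (by linarith)
        rwa [if_neg (by omega)] at h4
  have hq := hQε a b
  rw [hQ] at hq
  obtain ⟨c', hc', hc'2, K', hK', hOS⟩ := hq (by rw [Fin.lt_def]; omega)
  rw [hn] at hc'2
  rw [if_pos hab] at hOS
  refine step3 hε1 hK₀ hc' hc'2 hK' hOS (ρ := ρ) (ρ' := (ρ + ρ₀) / 2) (by linarith)
    (by linarith) ?_ ?_
  · intro a' ha'
    have h4 := key (m - (b - a')) a' b (by rw [Fin.lt_def]; omega) (by have := b.2; omega)
      ((ρ + ρ₀) / 2) (by linarith)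
    rwa [if_neg (by omega)] at h4
  · intro b' hb'
    have h4 := key (m - (b' - a)) a b' (by rw [Fin.lt_def]; omega) (by have := b'.2; omega)
      ((ρ + ρ₀) / 2) (by linarith)
    rwa [if_neg (by omega)] at h4

end Pool.Agent.L5helper74.QR
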