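import Pool.Agent.L5helper74.QR.Step5
import Pool.Agent.L5helper74.QR.FinDim3

/-!
# Three levels: slices
-/

set_option autoImplicit false
set_option linter.unusedSectionVars false

open Set Filter Topology MeasureTheory
open scoped ENNReal
open Pool.Agent.L5helper74.LR

noncomputable section

namespace Pool.Agent.L5helper74.QR

variable {m : ℕ} {ι : Type} [Fintype ι]

theorem fin_dim5 (Λ : (ι → ℝ) →L[ℝ] (Ix m → ℝ)) (hinj : ∀ t, Λ t = 0 → t = 0)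
    (h3 : ∀ V, Ort V → ∀ (a : ℕ) (h : a + 2 < m + 1), ∃ ζ : (Fin 5 → ℝ) →L[ℝ] (ι → ℝ),
      ∀ z, Cm (sg a 2 h) V (Λ (ζ z)) = 0 → z = 0)
    (h4 : ∀ V, Ort V → ∀ (a : ℕ) (h : a + 3 < m + 1), ∃ ζ : (Fin 6 → ℝ) →L[ℝ] (ι → ℝ),
      ∀ z, Cm (sg a 3 h) V (Λ (ζ z)) = 0 → z = 0) :
    ∃ ε : ℝ, 0 < ε ∧ ∀ K₀ ρ₀ ρ : ℝ, 0 < K₀ → ρ < ρ₀ → ∀ a b : Fin (m + 1), (a : ℕ) + 2 = b →
      Bd Λ ε K₀ ρ₀ a b 5 ρ ∧ Bd5 Λ ε K₀ ρ₀ a b ρ := by
  obtain ⟨n, hn⟩ : ∃ n : ℝ, n = ((m + 1 : ℕ) : ℝ) := ⟨_, rfl⟩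
  have hn1 : 1 ≤ n := by
    rw [hn]
    exact_mod_cast Nat.succ_le_succ (Nat.zero_le m)
  -- injectivity
  obtain ⟨K₁, hK₁, hΛ⟩ : ∃ K₁ : ℝ, 0 < K₁ ∧ ∀ t, ‖t‖ ≤ K₁ * ‖Λ t‖ := by
    have h1 : Function.Injective (Λ : (ι → ℝ) →ₗ[ℝ] (Ix m → ℝ)) :=
      (injective_iff_map_eq_zero _).2 fun t ht => hinj t ht
    obtain ⟨K, hK, hK2⟩ := LinearMap.exists_antilipschitzWith
      (Λ : (ι → ℝ) →ₗ[ℝ] (Ix m → ℝ)) (LinearMap.ker_eq_bot.2 h1)
    refine ⟨K, by exact_mod_cast hK, fun t => ?_⟩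
    have h4 := hK2.le_mul_dist t 0
    rwa [dist_zero_right, map_zero, dist_zero_right] at h4
  -- one scale
  obtain ⟨Q, hQ⟩ : ∃ Q : Fin (m + 1) → Fin (m + 1) → ℝ → Prop, Q = fun (a b : Fin (m + 1)) ε =>
      (a : ℕ) + 1 < b →
      ∃ c' : ℝ, 0 < c' ∧ 2 * n ^ 3 * (‖Λ‖ + 1) * c' ≤ 1 ∧ ∃ K' : ℝ, 0 ≤ K' ∧
        OS Λ ε a b (if (a : ℕ) + 2 = b then 5 else 6) c' K' := ⟨_, rfl⟩
  have hc₁ : 0 < 1 / (2 * n ^ 3 * (‖Λ‖ + 1)) := by
    have := norm_nonneg Λ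
    positivity
  have hc₁' : ∀ c', c' ≤ 1 / (2 * n ^ 3 * (‖Λ‖ + 1)) → 2 * n ^ 3 * (‖Λ‖ + 1) * c' ≤ 1 := by
    intro c' hc'
    rw [le_div_iff₀ (by positivity)] at hc'
    linarith
  have hev : ∀ a b, ∀ᶠ ε in 𝓝[>] (0 : ℝ), Q a b ε := by
    intro a b
    rw [hQ]
    by_cases hab : (a : ℕ) + 1 < b
    · have hb := b.2
      by_cases h : (a : ℕ) + 2 = b
      · obtain ⟨Z, c, C, hc, hC, hZC, hZ⟩ := tr (κ := Fin 5) Λ (sg a 2 (by omega))
          fun V hV => h3 V hV a (by omega)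
        obtain ⟨ε₀, hε₀, hos⟩ := one_scale Λ (sg_inj (by omega)) (a := a) (b := b)
          (fun i => by rw [Fin.le_def]; simp only [sg]; omega)
          (fun i => by rw [Fin.le_def]; simp only [sg]; omega) hc hC hZC hZ
        obtain ⟨c', h4, h5, K', h6, h7⟩ := hos _ hc₁
        filter_upwards [Ioc_mem_nhdsGT hε₀] with ε hε _
        refine ⟨c', h4, hc₁' c' h5, K', h6, ?_⟩
        rw [if_pos h]
        have h8 := h7 ε hε.1.le hε.2
        rwa [Fintype.card_fin] at h8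
      · obtain ⟨Z, c, C, hc, hC, hZC, hZ⟩ := tr (κ := Fin 6) Λ (sg a 3 (by omega))
          fun V hV => h4 V hV a (by omega)
        obtain ⟨ε₀, hε₀, hos⟩ := one_scale Λ (sg_inj (by omega)) (a := a) (b := b)
          (fun i => by rw [Fin.le_def]; simp only [sg]; omega)
          (fun i => by rw [Fin.le_def]; simp only [sg]; omega) hc hC hZC hZ
        obtain ⟨c', h4, h5, K', h6, h7⟩ := hos _ hc₁
        filter_upwards [Ioc_mem_nhdsGT hε₀] with ε hε _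
        refine ⟨c', h4, hc₁' c' h5, K', h6, ?_⟩
        rw [if_neg h]
        have h8 := h7 ε hε.1.le hε.2
        rwa [Fintype.card_fin] at h8
    · exact Eventually.of_forall fun ε h => absurd h hab
  have hevall : ∀ᶠ ε in 𝓝[>] (0 : ℝ), ∀ a b, Q a b ε :=
    eventually_all.2 fun a => eventually_all.2 fun b => hev a b
  obtain ⟨ε, hQε, hε⟩ := (hevall.and (Ioc_mem_nhdsGT
    (show (0 : ℝ) < min 1 (1 / (2 * K₁)) by positivity))).exists
  have hε1 : ε ≤ 1 := hε.2.trans (min_le_left _ _)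
  have hεK : ε * K₁ ≤ 1 / 2 := by
    have h4 : ε ≤ 1 / (2 * K₁) := hε.2.trans (min_le_right _ _)
    calc ε * K₁ ≤ 1 / (2 * K₁) * K₁ := mul_le_mul_of_nonneg_right h4 hK₁.le
      _ = 1 / 2 := by field_simp
  refine ⟨ε, hε.1, fun K₀ ρ₀ ρ hK₀ hρ a b hab => ?_⟩
  -- the induction
  have key : ∀ j : ℕ, ∀ a b : Fin (m + 1), (a : ℕ) + 2 < b → (b : ℕ) - a + j = m → ∀ ρ : ℝ,
      ρ < ρ₀ → Bdh Λ ε K₀ ρ₀ a b ρ := by
    intro j
    induction j with
    | zero =>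
      intro a b hab hj ρ hρ
      have hb := b.2
      have ha0 : a = 0 := Fin.ext (by rw [Fin.val_zero]; omega)
      have hbm : b = Fin.last m := Fin.ext (by rw [Fin.val_last]; omega)
      have hcard : 6 ≤ Fintype.card ι := by
        have hI : Ort (I1 : Fin (m + 1) → Fin (m + 1) → ℝ) := by
          intro i k
          simp only [I1]
          simp [eq_comm]
        obtain ⟨ζ, hζ⟩ := h4 _ hI a (by omega)
        have := card_le hζ
        simpa using this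
      rw [ha0, hbm]
      obtain ⟨C, hC, hw⟩ := whole hK₁ hΛ hεK K₀ ρ₀ hcard hρ.le
      refine ⟨C, hC, fun F V L d hS s hs hs1 => (hw F V L d hS s hs hs1).trans ?_⟩
      refine ENNReal.ofReal_le_ofReal (mul_le_mul_of_nonneg_left ?_ hC)
      have h3 : s ≤ √s := by
        rw [Real.le_sqrt hs.le hs.le]
        nlinarith
      calc s ^ 6 = s ^ 5 * s := by ring
        _ ≤ s ^ 5 * √s := mul_le_mul_of_nonneg_left h3 (by positivity)
    | succ j ih =>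
      intro a b hab hj ρ hρ
      have hb := b.2
      have hq := hQε a b
      rw [hQ] at hq
      obtain ⟨c', hc', hc'2, K', hK', hOS⟩ := hq (by omega)
      rw [hn] at hc'2
      rw [if_neg (by omega)] at hOS
      refine (step5 hε1 hK₀ (κ := 6) (Or.inr rfl) hc' hc'2 hK' hOS
        (ρ := ρ) (ρ' := (ρ + ρ₀) / 2) (by linarith) (by linarith) ?_ ?_).2.1 rfl
      · intro a' ha'
        exact ih a' b (by omega) (by omega) ((ρ + ρ₀) / 2) (by linarith)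
      · intro b' hb'
        exact ih a b' (by omega) (by have := b'.2; omega) ((ρ + ρ₀) / 2) (by linarith)
  have hq := hQε a b
  rw [hQ] at hq
  obtain ⟨c', hc', hc'2, K', hK', hOS⟩ := hq (by omega)
  rw [hn] at hc'2
  rw [if_pos hab] at hOS
  obtain ⟨r1, -, r3⟩ := step5 hε1 hK₀ (κ := 5) (Or.inl rfl) hc' hc'2 hK' hOS (ρ := ρ)
    (ρ' := (ρ + ρ₀) / 2) (by linarith) (by linarith)
    (fun a' ha' => key (m - (b - a')) a' b (by omega) (by have := b.2; omega)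
      ((ρ + ρ₀) / 2) (by linarith))
    (fun b' hb' => key (m - (b' - a)) a b' (by omega) (by have := b'.2; omega)
      ((ρ + ρ₀) / 2) (by linarith))
  exact ⟨r1 rfl, r3 rfl⟩

end Pool.Agent.L5helper74.QR
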