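import Mathlib

/-!
# Quadratic repulsion: a set which meets translates of a subspace in small sets
-/

set_option autoImplicit false
set_option linter.unusedSectionVars false

open Set Filter Topology MeasureTheory
open scoped ENNReal

noncomputable section

namespace Pool.Agent.L5helper74.QR

theorem fub {κ ι : Type} [Fintype κ] [Fintype ι] (ζ : (κ → ℝ) →L[ℝ] (ι → ℝ))
    {S N : Set (ι → ℝ)} {r ρ C₂ C₃ : ℝ} (hr : 0 < r) (hρ : 0 ≤ ρ) (hC₂ : 0 ≤ C₂) (hC₃ : ‖ζ‖ < C₃)
    (h1 : ∀ t ∈ S, ∀ t' ∈ S, ∀ z, ‖z‖ ≤ 2 * r → ‖z‖ ≤ ρ + C₂ * ‖t' - t - ζ z‖)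
    (h2 : ∀ t ∈ S, ∀ x, ‖x - t‖ ≤ C₃ * r → x ∈ N) :
    volume S * ENNReal.ofReal ((2 * r) ^ Fintype.card κ) ≤
      volume N * ENNReal.ofReal ((2 * ρ) ^ Fintype.card κ) := by
  obtain ⟨T, hT⟩ : ∃ T, T = closure S := ⟨_, rfl⟩
  have hTm : MeasurableSet T := by
    rw [hT]
    exact isClosed_closure.measurableSet
  have hST : S ⊆ T := by
    rw [hT]
    exact subset_closure
  have happ : ∀ t ∈ T, ∀ η : ℝ, 0 < η → ∃ t' ∈ S, ‖t - t'‖ < η := by
    intro t ht η hη
    rw [hT] at ht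
    obtain ⟨t', ht', h3⟩ := Metric.mem_closure_iff.1 ht η hη
    exact ⟨t', ht', by rwa [dist_eq_norm] at h3⟩
  have h1' : ∀ t ∈ T, ∀ t' ∈ T, ∀ z, ‖z‖ ≤ 2 * r → t' - t = ζ z → ‖z‖ ≤ ρ := by
    intro t ht t' ht' z hz he
    refine le_of_forall_pos_le_add fun η hη => ?_
    obtain ⟨q, hq, hq2⟩ := happ t ht (η / (2 * (C₂ + 1))) (by positivity)
    obtain ⟨q', hq', hq2'⟩ := happ t' ht' (η / (2 * (C₂ + 1))) (by positivity)
    have h3 := h1 q hq q' hq' z hz
    have h4 : ‖q' - q - ζ z‖ ≤ η / (C₂ + 1) := by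
      have h5 : q' - q - ζ z = (t - q) - (t' - q') := by
        rw [← he]
        abel
      rw [h5]
      calc ‖(t - q) - (t' - q')‖ ≤ ‖t - q‖ + ‖t' - q'‖ := norm_sub_le _ _
        _ ≤ η / (2 * (C₂ + 1)) + η / (2 * (C₂ + 1)) := add_le_add hq2.le hq2'.le
        _ = η / (C₂ + 1) := by field_simp; norm_num
    have h5 : C₂ * ‖q' - q - ζ z‖ ≤ η := by
      calc C₂ * ‖q' - q - ζ z‖ ≤ (C₂ + 1) * (η / (C₂ + 1)) := by
            refine mul_le_mul (by linarith) h4 (norm_nonneg _) (by linarith)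
        _ = η := by field_simp
    linarith
  have h2' : ∀ t ∈ T, ∀ z, ‖z‖ < r → t + ζ z ∈ N := by
    intro t ht z hz
    obtain ⟨q, hq, hq2⟩ := happ t ht ((C₃ - ‖ζ‖) * r) (mul_pos (by linarith) hr)
    refine h2 q hq _ ?_
    have h3 : t + ζ z - q = (t - q) + ζ z := by abel
    rw [h3]
    calc ‖(t - q) + ζ z‖ ≤ ‖t - q‖ + ‖ζ z‖ := norm_add_le _ _
      _ ≤ (C₃ - ‖ζ‖) * r + ‖ζ‖ * r := add_le_add hq2.le
          ((ζ.le_opNorm z).trans (mul_le_mul_of_nonneg_left hz.le (norm_nonneg _)))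
      _ = C₃ * r := by ring
  have hm : MeasurableSet {p : (κ → ℝ) × (ι → ℝ) | p.2 - ζ p.1 ∈ T} := by
    have hc : Continuous fun p : (κ → ℝ) × (ι → ℝ) => p.2 - ζ p.1 := by fun_prop
    exact hc.measurable hTm
  have hB : volume (Metric.ball (0 : κ → ℝ) r) = ENNReal.ofReal ((2 * r) ^ Fintype.card κ) :=
    Real.volume_pi_ball 0 hr
  have hBρ : volume (Metric.closedBall (0 : κ → ℝ) ρ) =
      ENNReal.ofReal ((2 * ρ) ^ Fintype.card κ) := Real.volume_pi_closedBall 0 hρ
  calc volume S * ENNReal.ofReal ((2 * r) ^ Fintype.card κ)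
      ≤ volume T * volume (Metric.ball (0 : κ → ℝ) r) := by
        rw [hB]
        exact mul_le_mul_left (measure_mono hST) _
    _ = ∫⁻ z in Metric.ball (0 : κ → ℝ) r, volume T := by rw [setLIntegral_const]
    _ = ∫⁻ z in Metric.ball (0 : κ → ℝ) r,
          ∫⁻ x : ι → ℝ, {p : (κ → ℝ) × (ι → ℝ) | p.2 - ζ p.1 ∈ T}.indicator 1 (z, x) := by
        refine lintegral_congr fun z => ?_
        have h3 : (fun x : ι → ℝ => {p : (κ → ℝ) × (ι → ℝ) | p.2 - ζ p.1 ∈ T}.indicator
            (1 : (κ → ℝ) × (ι → ℝ) → ℝ≥0∞) (z, x)) =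
            ((fun x => x - ζ z) ⁻¹' T).indicator 1 := by
          funext x
          simp only [indicator, mem_ofPred_eq, Pi.one_apply]
          rfl
        have h4 : volume ((fun x => x - ζ z) ⁻¹' T) = volume T := by
          simp only [sub_eq_add_neg]
          exact measure_preimage_add_right _ _ _
        rw [h3, lintegral_indicator_one (hTm.preimage (by fun_prop)), h4]
    _ = ∫⁻ x : ι → ℝ, ∫⁻ z in Metric.ball (0 : κ → ℝ) r,
          {p : (κ → ℝ) × (ι → ℝ) | p.2 - ζ p.1 ∈ T}.indicator 1 (z, x) := by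
        refine lintegral_lintegral_swap ?_
        exact (measurable_one.indicator hm).aemeasurable
    _ ≤ ∫⁻ x : ι → ℝ, N.indicator (fun _ => ENNReal.ofReal ((2 * ρ) ^ Fintype.card κ)) x := by
        refine lintegral_mono fun x => ?_
        have h3 : (fun z : κ → ℝ => {p : (κ → ℝ) × (ι → ℝ) | p.2 - ζ p.1 ∈ T}.indicator
            (1 : (κ → ℝ) × (ι → ℝ) → ℝ≥0∞) (z, x)) =
            {z | x - ζ z ∈ T}.indicator 1 := by
          funext z
          simp only [indicator, mem_ofPred_eq, Pi.one_apply]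
        have h4 : MeasurableSet {z : κ → ℝ | x - ζ z ∈ T} := by
          have hc : Continuous fun z : κ → ℝ => x - ζ z := by fun_prop
          exact hc.measurable hTm
        show ∫⁻ z in Metric.ball (0 : κ → ℝ) r, {p : (κ → ℝ) × (ι → ℝ) |
          p.2 - ζ p.1 ∈ T}.indicator 1 (z, x) ≤ _
        rw [h3, lintegral_indicator_one h4, Measure.restrict_apply h4]
        rcases ({z | x - ζ z ∈ T} ∩ Metric.ball (0 : κ → ℝ) r).eq_empty_or_nonempty with h5 | h5
        · rw [h5, measure_empty]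
          exact zero_le
        · obtain ⟨z₀, hz₀, hz₀r⟩ := h5
          rw [mem_ball_zero_iff] at hz₀r
          have hxN : x ∈ N := by
            have := h2' _ hz₀ z₀ hz₀r
            rwa [sub_add_cancel] at this
          rw [indicator_of_mem hxN, ← hBρ]
          have h6 : {z | x - ζ z ∈ T} ∩ Metric.ball (0 : κ → ℝ) r ⊆
              (fun z => z + -z₀) ⁻¹' Metric.closedBall (0 : κ → ℝ) ρ := by
            rintro z ⟨hz, hzr⟩
            rw [mem_ball_zero_iff] at hzr
            rw [mem_preimage, mem_closedBall_zero_iff, ← sub_eq_add_neg]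
            refine h1' _ hz _ hz₀ (z - z₀) ?_ ?_
            · refine (norm_sub_le _ _).trans ?_
              linarith
            · rw [map_sub]
              abel
          refine (measure_mono h6).trans ?_
          rw [measure_preimage_add_right]
    _ ≤ volume N * ENNReal.ofReal ((2 * ρ) ^ Fintype.card κ) := by
        refine (lintegral_indicator_const_le _ _).trans ?_
        rw [mul_comm]

end Pool.Agent.L5helper74.QR
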