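import Mathlib

/-!
# Global asymptotics from local ones
-/

set_option autoImplicit false
set_option linter.unusedSectionVars false

open Set Filter Topology MeasureTheory
open scoped ENNReal

noncomputable section

namespace Pool.Agent.L5helper74.QR

variable {X : Type} [MetricSpace X] [MeasurableSpace X] [BorelSpace X] {Ω : Type}
  [MeasurableSpace Ω] {P : Measure Ω} [IsProbabilityMeasure P] {φ : Ω → X} {gp th : X → ℝ}

/-- the expectation of `χ` on the event that the gap is at most `s`, rescaled -/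
def Fn (P : Measure Ω) (φ : Ω → X) (gp χ : X → ℝ) (s : ℝ) : ℝ≥0∞ :=
  (∫⁻ ω, {ω | gp (φ ω) ≤ s}.indicator (fun ω => ENNReal.ofReal (χ (φ ω))) ω ∂P) /
    ENNReal.ofReal (s ^ 2)

/-- the rescaled expectation has a limit for all test functions supported in `U` -/
def Good (P : Measure Ω) (φ : Ω → X) (gp : X → ℝ) (U : Set X) : Prop :=
  ∀ χ : X → ℝ, Continuous χ → (∀ y, 0 ≤ χ y) → (∃ B, ∀ y, χ y ≤ B) → (∀ y, y ∉ U → χ y = 0) →
    ∃ c : ℝ≥0∞, c ≠ ⊤ ∧ Tendsto (Fn P φ gp χ) (𝓝[>] 0) (𝓝 c)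

lemma Fn_meas (hφm : Measurable φ) (hg : Continuous gp) {χ : X → ℝ} (hχ : Continuous χ) (s : ℝ) :
    Measurable fun ω => {ω | gp (φ ω) ≤ s}.indicator (fun ω => ENNReal.ofReal (χ (φ ω))) ω := by
  refine Measurable.indicator ?_ ?_
  · exact (hχ.measurable.comp hφm).ennreal_ofReal
  · exact measurableSet_le (hg.measurable.comp hφm) measurable_const

lemma Fn_sum (hφm : Measurable φ) (hg : Continuous gp) {ι : Type} (t : Finset ι)
    {χ : X → ℝ} {f : ι → X → ℝ} (hf : ∀ i, Continuous (f i)) (hf0 : ∀ i y, 0 ≤ f i y)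
    (h : ∀ᵐ ω ∂P, χ (φ ω) = ∑ i ∈ t, f i (φ ω)) (s : ℝ) :
    Fn P φ gp χ s = ∑ i ∈ t, Fn P φ gp (f i) s := by
  unfold Fn
  simp only [div_eq_mul_inv]
  rw [← Finset.sum_mul, ← lintegral_finsetSum _ fun i _ => Fn_meas hφm hg (hf i) s]
  congr 1
  refine lintegral_congr_ae ?_
  filter_upwards [h] with ω hω
  by_cases h1 : gp (φ ω) ≤ s
  · have h2 : ω ∈ {ω | gp (φ ω) ≤ s} := h1
    simp only [indicator_of_mem h2]
    rw [hω, ENNReal.ofReal_sum_of_nonneg fun i _ => hf0 i _]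
  · have h2 : ω ∉ {ω | gp (φ ω) ≤ s} := h1
    simp only [indicator_of_notMem h2, Finset.sum_const_zero]

theorem good_cover (hφm : Measurable φ) (hg : Continuous gp) {K' : Set X} (hK : IsCompact K')
    (hU : ∀ ψ ∈ K', ∃ U ∈ 𝓝 ψ, Good P φ gp U) {χ : X → ℝ} (hχ : Continuous χ)
    (hχ0 : ∀ y, 0 ≤ χ y) (hχB : ∃ B, ∀ y, χ y ≤ B)
    (h0 : ∀ᵐ ω ∂P, φ ω ∈ K' ∨ χ (φ ω) = 0) :
    ∃ c : ℝ≥0∞, c ≠ ⊤ ∧ Tendsto (Fn P φ gp χ) (𝓝[>] 0) (𝓝 c) := by
  classical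
  obtain ⟨B, hB⟩ := hχB
  have hU' : ∀ ψ ∈ K', ∃ U, IsOpen U ∧ ψ ∈ U ∧ Good P φ gp U := by
    intro ψ hψ
    obtain ⟨U, hU1, hU2⟩ := hU ψ hψ
    refine ⟨interior U, isOpen_interior, mem_interior_iff_mem_nhds.2 hU1,
      fun χ h1 h2 h3 h4 => hU2 χ h1 h2 h3 fun y hy => h4 y fun h => hy (interior_subset h)⟩
  choose! U hU1 hU2 hU3 using hU'
  obtain ⟨t, ht, htK⟩ := hK.elim_nhds_subcover U fun ψ hψ => (hU1 ψ hψ).mem_nhds (hU2 ψ hψ)
  obtain ⟨V, hV⟩ : ∃ V : t → Set X, V = fun ψ : t => U ψ := ⟨_, rfl⟩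
  have hV1 : ∀ ψ : t, IsOpen (V ψ) := fun ψ => by rw [hV]; exact hU1 _ (ht _ ψ.2)
  have hV3 : ∀ ψ : t, Good P φ gp (V ψ) := fun ψ => by rw [hV]; exact hU3 _ (ht _ ψ.2)
  have hVK : K' ⊆ ⋃ ψ, V ψ := by
    intro y hy
    obtain ⟨ψ, hψ, hy2⟩ := mem_iUnion₂.1 (htK hy)
    rw [hV]
    exact mem_iUnion.2 ⟨⟨ψ, hψ⟩, hy2⟩
  obtain ⟨f, hf⟩ := PartitionOfUnity.exists_isSubordinate hK.isClosed V hV1 hVK
  have hf0 : ∀ ψ y, y ∉ V ψ → f ψ y = 0 := by
    intro ψ y hy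
    exact image_eq_zero_of_notMem_tsupport fun h => hy (hf ψ h)
  have hex : ∀ ψ : t, ∃ c : ℝ≥0∞, c ≠ ⊤ ∧
      Tendsto (Fn P φ gp fun y => χ y * f ψ y) (𝓝[>] 0) (𝓝 c) := by
    intro ψ
    refine hV3 ψ _ (hχ.mul (f ψ).continuous) (fun y => mul_nonneg (hχ0 y) (f.nonneg ψ y))
      ⟨B, fun y => ?_⟩ fun y hy => by rw [hf0 ψ y hy, mul_zero]
    exact (mul_le_of_le_one_right (hχ0 y) (f.le_one ψ y)).trans (hB y)
  choose c hc hct using hex
  refine ⟨∑ ψ, c ψ, ENNReal.sum_ne_top.2 fun ψ _ => hc ψ, ?_⟩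
  have h1 : Fn P φ gp χ = fun s => ∑ ψ : t, Fn P φ gp (fun y => χ y * f ψ y) s := by
    funext s
    refine Fn_sum hφm hg Finset.univ (fun ψ => hχ.mul (f ψ).continuous)
      (fun ψ y => mul_nonneg (hχ0 y) (f.nonneg ψ y)) ?_ s
    filter_upwards [h0] with ω hω
    show χ (φ ω) = ∑ ψ, χ (φ ω) * f ψ (φ ω)
    rw [← Finset.mul_sum]
    rcases hω with hω | hω
    · have h2 := f.sum_eq_one hω
      rw [finsum_eq_sum_of_fintype] at h2
      rw [h2, mul_one]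
    · rw [hω, zero_mul]
  rw [h1]
  exact tendsto_finsetSum _ fun ψ _ => hct ψ

/-- gluing -/
theorem glob (hφm : Measurable φ) {K : Set X} (hK : IsCompact K) (hφK : ∀ᵐ ω ∂P, φ ω ∈ K)
    (hg : Continuous gp) (hth : Continuous th)
    (H1 : ∀ ψ ∈ K, 0 < th ψ → ∃ U ∈ 𝓝 ψ, Good P φ gp U)
    (H2 : ∀ ψ ∈ K, th ψ ≤ 0 → ∃ V ∈ 𝓝 ψ, ∃ δ₁ : ℝ, 0 < δ₁ ∧ ∃ C : ℝ, 0 ≤ C ∧
      ∀ s δ : ℝ, 0 < s → 4 * s ≤ δ → δ ≤ δ₁ →
        P {ω | φ ω ∈ V ∧ gp (φ ω) ≤ s ∧ th (φ ω) < δ} ≤ ENNReal.ofReal (C * (δ * s ^ 2)))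
    {χ : X → ℝ} (hχ : Continuous χ) (hχ0 : ∀ y, 0 ≤ χ y) (hχB : ∃ B, ∀ y, χ y ≤ B) :
    ∃ c : ℝ≥0∞, c ≠ ⊤ ∧ Tendsto (Fn P φ gp χ) (𝓝[>] 0) (𝓝 c) := by
  obtain ⟨B, hB⟩ := hχB
  have hK0 : IsCompact (K ∩ {y | th y ≤ 0}) := hK.inter_right (isClosed_le hth continuous_const)
  obtain ⟨V, hV, hKV, δ₁, hδ₁, C, hC, hVb⟩ : ∃ V : Set X, IsOpen V ∧ K ∩ {y | th y ≤ 0} ⊆ V ∧
      ∃ δ₁ : ℝ, 0 < δ₁ ∧ ∃ C : ℝ, 0 ≤ C ∧ ∀ s δ : ℝ, 0 < s → 4 * s ≤ δ → δ ≤ δ₁ →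
        P {ω | φ ω ∈ V ∧ gp (φ ω) ≤ s ∧ th (φ ω) < δ} ≤ ENNReal.ofReal (C * (δ * s ^ 2)) := by
    refine hK0.induction_on (p := fun S => ∃ V : Set X, IsOpen V ∧ S ⊆ V ∧
      ∃ δ₁ : ℝ, 0 < δ₁ ∧ ∃ C : ℝ, 0 ≤ C ∧ ∀ s δ : ℝ, 0 < s → 4 * s ≤ δ → δ ≤ δ₁ →
        P {ω | φ ω ∈ V ∧ gp (φ ω) ≤ s ∧ th (φ ω) < δ} ≤ ENNReal.ofReal (C * (δ * s ^ 2)))
      ?_ ?_ ?_ ?_
    · exact ⟨∅, isOpen_empty, Subset.rfl, 1, one_pos, 0, le_rfl, fun s δ _ _ _ => by simp⟩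
    · rintro S T hST ⟨V, h1, h2, h3⟩
      exact ⟨V, h1, hST.trans h2, h3⟩
    · rintro S T ⟨V, h1, h2, δ, hδ, C, hC, h3⟩ ⟨V', h1', h2', δ', hδ', C', hC', h3'⟩
      refine ⟨V ∪ V', h1.union h1', union_subset_union h2 h2', min δ δ', lt_min hδ hδ', C + C',
        by positivity, fun s ε hs hsε hε => ?_⟩
      have hε0 : 0 ≤ ε := by linarith
      rw [add_mul, ENNReal.ofReal_add (by positivity) (by positivity)]
      refine (measure_mono ?_).trans ((measure_union_le _ _).trans (add_le_add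
        (h3 s ε hs hsε (hε.trans (min_le_left _ _)))
        (h3' s ε hs hsε (hε.trans (min_le_right _ _)))))
      rintro ω ⟨hω | hω, hω2⟩
      · exact Or.inl ⟨hω, hω2⟩
      · exact Or.inr ⟨hω, hω2⟩
    · rintro ψ ⟨hψ1, hψ2⟩
      obtain ⟨V, hV, δ₁, hδ₁, C, hC, h3⟩ := H2 ψ hψ1 hψ2
      refine ⟨interior V, mem_nhdsWithin_of_mem_nhds (interior_mem_nhds.2 hV), interior V,
        isOpen_interior, Subset.rfl, δ₁, hδ₁, C, hC, fun s δ hs hsδ hδ =>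
          le_trans (measure_mono ?_) (h3 s δ hs hsδ hδ)⟩
      rintro ω ⟨hω, hω2⟩
      exact ⟨interior_subset hω, hω2⟩
  obtain ⟨η, hη, hηV⟩ : ∃ η : ℝ, 0 < η ∧ ∀ y ∈ K, th y < η → y ∈ V := by
    rcases (K \ V).eq_empty_or_nonempty with he | hne
    · refine ⟨1, one_pos, fun y hy _ => ?_⟩
      by_contra h
      have : y ∈ K \ V := ⟨hy, h⟩
      rw [he] at this
      exact this
    · obtain ⟨z, hz, hzm⟩ := (hK.diff hV).exists_isMinOn hne hth.continuousOn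
      have hz0 : 0 < th z := by
        by_contra h
        exact hz.2 (hKV ⟨hz.1, not_lt.1 h⟩)
      refine ⟨th z, hz0, fun y hy hyz => ?_⟩
      by_contra h
      exact absurd (hzm (show y ∈ K \ V from ⟨hy, h⟩)) (not_le.2 hyz)
  have hB0 : 0 ≤ max B 0 := le_max_right _ _
  -- the bounds for small `δ`
  have hmain : ∀ δ : ℝ, 0 < δ → δ ≤ min δ₁ η → ∃ c : ℝ≥0∞, c ≠ ⊤ ∧
      c ≤ liminf (Fn P φ gp χ) (𝓝[>] 0) ∧
      limsup (Fn P φ gp χ) (𝓝[>] 0) ≤ c + ENNReal.ofReal (max B 0 * (C * δ)) := by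
    intro δ hδ hδ1
    obtain ⟨θ, hθ⟩ : ∃ θ : X → ℝ, θ = fun y => min 1 (max 0 (2 * th y / δ - 1)) := ⟨_, rfl⟩
    have hθc : Continuous θ := by
      rw [hθ]
      fun_prop
    have hθ0 : ∀ y, 0 ≤ θ y := fun y => by
      rw [hθ]
      exact le_min zero_le_one (le_max_left _ _)
    have hθ1 : ∀ y, θ y ≤ 1 := fun y => by
      rw [hθ]
      exact min_le_left _ _
    have hθa : ∀ y, th y < δ / 2 → θ y = 0 := by
      intro y hy
      rw [hθ]
      have h1 : 2 * th y / δ - 1 ≤ 0 := by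
        have : 2 * th y / δ ≤ 1 := by
          rw [div_le_one hδ]
          linarith
        linarith
      show min 1 (max 0 (2 * th y / δ - 1)) = 0
      rw [max_eq_left h1, min_eq_right zero_le_one]
    have hθb : ∀ y, δ ≤ th y → θ y = 1 := by
      intro y hy
      rw [hθ]
      have h1 : 1 ≤ 2 * th y / δ - 1 := by
        have : 2 ≤ 2 * th y / δ := by
          rw [le_div_iff₀ hδ]
          linarith
        linarith
      show min 1 (max 0 (2 * th y / δ - 1)) = 1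
      rw [min_eq_left (h1.trans (le_max_right _ _))]
    obtain ⟨c, hc, hct⟩ := good_cover (P := P) (χ := fun y => χ y * θ y) hφm hg
      (hK.inter_right (isClosed_le (continuous_const (y := δ / 2)) hth))
      (fun ψ hψ => H1 ψ hψ.1 (lt_of_lt_of_le (by positivity) hψ.2)) (hχ.mul hθc)
      (fun y => mul_nonneg (hχ0 y) (hθ0 y))
      ⟨B, fun y => (mul_le_of_le_one_right (hχ0 y) (hθ1 y)).trans (hB y)⟩ (by
        filter_upwards [hφK] with ω hω
        by_cases h : th (φ ω) < δ / 2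
        · right
          rw [hθa _ h, mul_zero]
        · left
          exact ⟨hω, not_lt.1 h⟩)
    have hle : ∀ s, Fn P φ gp (fun y => χ y * θ y) s ≤ Fn P φ gp χ s := by
      intro s
      unfold Fn
      refine ENNReal.div_le_div_right (lintegral_mono fun ω => ?_) _
      refine indicator_le_indicator (ENNReal.ofReal_le_ofReal ?_)
      exact mul_le_of_le_one_right (hχ0 _) (hθ1 _)
    refine ⟨c, hc, ?_, ?_⟩
    · rw [← hct.liminf_eq]
      exact liminf_le_liminf (Eventually.of_forall hle)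
    · have h1 : ∀ᶠ s in 𝓝[>] (0 : ℝ), Fn P φ gp χ s ≤
          Fn P φ gp (fun y => χ y * θ y) s + ENNReal.ofReal (max B 0 * (C * δ)) := by
        filter_upwards [Ioo_mem_nhdsGT (show (0 : ℝ) < δ / 4 by positivity)] with s hs
        obtain ⟨hs0, hs1⟩ := hs
        have hs2 : 0 < s ^ 2 := by positivity
        unfold Fn
        have h2 : ∫⁻ ω, {ω | gp (φ ω) ≤ s}.indicator (fun ω => ENNReal.ofReal (χ (φ ω))) ω ∂P ≤
            ∫⁻ ω, {ω | gp (φ ω) ≤ s}.indicator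
              (fun ω => ENNReal.ofReal (χ (φ ω) * θ (φ ω))) ω ∂P +
            ENNReal.ofReal (max B 0) * P {ω | gp (φ ω) ≤ s ∧ th (φ ω) < δ} := by
          have hm : MeasurableSet {ω | gp (φ ω) ≤ s ∧ th (φ ω) < δ} :=
            (measurableSet_le (hg.measurable.comp hφm) measurable_const).inter
              (measurableSet_lt (hth.measurable.comp hφm) measurable_const)
          have h3 : ENNReal.ofReal (max B 0) * P {ω | gp (φ ω) ≤ s ∧ th (φ ω) < δ} =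
              ∫⁻ ω, {ω | gp (φ ω) ≤ s ∧ th (φ ω) < δ}.indicator
                (fun _ => ENNReal.ofReal (max B 0)) ω ∂P := by
            rw [lintegral_indicator hm, setLIntegral_const]
          rw [h3, ← lintegral_add_left (Fn_meas hφm hg (χ := fun y => χ y * θ y)
            (hχ.mul hθc) s)]
          refine lintegral_mono fun ω => ?_
          by_cases h4 : gp (φ ω) ≤ s
          · have h5 : ω ∈ {ω | gp (φ ω) ≤ s} := h4
            rw [indicator_of_mem h5, indicator_of_mem h5]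
            by_cases h6 : th (φ ω) < δ
            · have h7 : ω ∈ {ω | gp (φ ω) ≤ s ∧ th (φ ω) < δ} := ⟨h4, h6⟩
              rw [indicator_of_mem h7]
              refine le_add_left (ENNReal.ofReal_le_ofReal ?_)
              exact (hB _).trans (le_max_left _ _)
            · rw [hθb _ (not_lt.1 h6), mul_one]
              exact le_self_add
          · have h5 : ω ∉ {ω | gp (φ ω) ≤ s} := h4
            rw [indicator_of_notMem h5]
            exact zero_le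
        have h3 : P {ω | gp (φ ω) ≤ s ∧ th (φ ω) < δ} ≤ ENNReal.ofReal (C * (δ * s ^ 2)) := by
          refine le_trans ?_ (hVb s δ hs0 (by linarith) (hδ1.trans (min_le_left _ _)))
          refine measure_mono_ae ?_
          filter_upwards [hφK] with ω hω h4
          exact ⟨hηV _ hω (h4.2.trans_le (hδ1.trans (min_le_right _ _))), h4⟩
        have h4 : ENNReal.ofReal (max B 0 * (C * δ)) =
            ENNReal.ofReal (max B 0) * ENNReal.ofReal (C * (δ * s ^ 2)) /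
              ENNReal.ofReal (s ^ 2) := by
          rw [← ENNReal.ofReal_mul hB0, ← ENNReal.ofReal_div_of_pos hs2]
          congr 1
          field_simp
        rw [h4, ← ENNReal.add_div]
        refine ENNReal.div_le_div_right (h2.trans ?_) _
        gcongr
      refine (limsup_le_limsup h1).trans ?_
      have h2 : Tendsto (fun s => Fn P φ gp (fun y => χ y * θ y) s +
          ENNReal.ofReal (max B 0 * (C * δ))) (𝓝[>] 0)
          (𝓝 (c + ENNReal.ofReal (max B 0 * (C * δ)))) := hct.add_const _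
      rw [h2.limsup_eq]
  have hδ₂ : 0 < min δ₁ η := lt_min hδ₁ hη
  obtain ⟨c₁, hc₁, h1, h2⟩ := hmain _ hδ₂ le_rfl
  have hfin : limsup (Fn P φ gp χ) (𝓝[>] 0) ≠ ⊤ :=
    ne_top_of_le_ne_top (ENNReal.add_ne_top.2 ⟨hc₁, ENNReal.ofReal_ne_top⟩) h2
  have hle : limsup (Fn P φ gp χ) (𝓝[>] 0) ≤ liminf (Fn P φ gp χ) (𝓝[>] 0) := by
    have h3 : liminf (Fn P φ gp χ) (𝓝[>] 0) ≠ ⊤ :=
      ne_top_of_le_ne_top hfin (liminf_le_limsup)
    refine ENNReal.le_of_forall_pos_le_add fun ε hε _ => ?_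
    obtain ⟨δ, hδ⟩ : ∃ δ : ℝ, δ = min (min δ₁ η) (ε / (max B 0 * C + 1)) := ⟨_, rfl⟩
    have hq : 0 < max B 0 * C + 1 := by positivity
    have hε' : (0 : ℝ) < ε := hε
    have hδ0 : 0 < δ := by
      rw [hδ]
      exact lt_min hδ₂ (by positivity)
    obtain ⟨c, hc, h4, h5⟩ := hmain δ hδ0 (by rw [hδ]; exact min_le_left _ _)
    refine h5.trans (add_le_add h4 ?_)
    have h6 : δ ≤ ε / (max B 0 * C + 1) := by rw [hδ]; exact min_le_right _ _
    rw [le_div_iff₀ hq] at h6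
    have h7 : max B 0 * (C * δ) ≤ ε := by nlinarith
    calc ENNReal.ofReal (max B 0 * (C * δ)) ≤ ENNReal.ofReal ε := ENNReal.ofReal_le_ofReal h7
      _ = ε := ENNReal.ofReal_coe_nnreal
  exact ⟨limsup (Fn P φ gp χ) (𝓝[>] 0), hfin, tendsto_of_le_liminf_of_limsup_le hle le_rfl⟩

end Pool.Agent.L5helper74.QR
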