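import Pool.Agent.L5helper74.QR.Glob

/-!
# Gluing of local laws of several gaps
-/

set_option autoImplicit false
set_option linter.unusedSectionVars false

open Set Filter Topology MeasureTheory
open scoped ENNReal

noncomputable section

namespace Pool.Agent.L5helper74.QR

variable {X : Type} [MetricSpace X] [MeasurableSpace X] [BorelSpace X] {Ω : Type}
  [MeasurableSpace Ω] {P : Measure Ω} [IsProbabilityMeasure P] {φ : Ω → X} {m N : ℕ}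
  {gp : X → Fin m → ℝ} {sp th : X → ℝ} {w : Set (Fin m → ℝ) → ℝ≥0∞}

/-- the expectation of `χ` on the event that the rescaled gaps are in `Γ`, rescaled -/
def Fv (P : Measure Ω) (φ : Ω → X) (gp : X → Fin m → ℝ) (N : ℕ) (Γ : Set (Fin m → ℝ))
    (χ : X → ℝ) (s : ℝ) : ℝ≥0∞ :=
  (∫⁻ ω, {ω | s⁻¹ • gp (φ ω) ∈ Γ}.indicator (fun ω => ENNReal.ofReal (χ (φ ω))) ω ∂P) /
    ENNReal.ofReal (s ^ N)

/-- the rescaled expectations have limits for all test functions supported in `U` -/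
def GoodV (P : Measure Ω) (φ : Ω → X) (gp : X → Fin m → ℝ) (N : ℕ)
    (w : Set (Fin m → ℝ) → ℝ≥0∞) (U : Set X) : Prop :=
  ∀ χ : X → ℝ, Continuous χ → (∀ y, 0 ≤ χ y) → (∃ B, ∀ y, χ y ≤ B) → (∀ y, y ∉ U → χ y = 0) →
    ∃ c : ℝ≥0∞, c ≠ ⊤ ∧ ∀ Γ : Set (Fin m → ℝ), MeasurableSet Γ → Bornology.IsBounded Γ →
      Tendsto (Fv P φ gp N Γ χ) (𝓝[>] 0) (𝓝 (c * w Γ))

lemma Fv_meas (hφm : Measurable φ) (hg : Continuous gp) {Γ : Set (Fin m → ℝ)}
    (hΓ : MeasurableSet Γ) {χ : X → ℝ} (hχ : Continuous χ) (s : ℝ) :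
    Measurable fun ω => {ω | s⁻¹ • gp (φ ω) ∈ Γ}.indicator
      (fun ω => ENNReal.ofReal (χ (φ ω))) ω := by
  refine Measurable.indicator ?_ ?_
  · exact (hχ.measurable.comp hφm).ennreal_ofReal
  · exact ((hg.measurable.comp hφm).const_smul s⁻¹) hΓ

lemma Fv_sum (hφm : Measurable φ) (hg : Continuous gp) {Γ : Set (Fin m → ℝ)}
    (hΓ : MeasurableSet Γ) {ι : Type} (t : Finset ι)
    {χ : X → ℝ} {f : ι → X → ℝ} (hf : ∀ i, Continuous (f i)) (hf0 : ∀ i y, 0 ≤ f i y)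
    (h : ∀ᵐ ω ∂P, χ (φ ω) = ∑ i ∈ t, f i (φ ω)) (s : ℝ) :
    Fv P φ gp N Γ χ s = ∑ i ∈ t, Fv P φ gp N Γ (f i) s := by
  unfold Fv
  simp only [div_eq_mul_inv]
  rw [← Finset.sum_mul, ← lintegral_finsetSum _ fun i _ => Fv_meas hφm hg hΓ (hf i) s]
  congr 1
  refine lintegral_congr_ae ?_
  filter_upwards [h] with ω hω
  by_cases h1 : s⁻¹ • gp (φ ω) ∈ Γ
  · have h2 : ω ∈ {ω | s⁻¹ • gp (φ ω) ∈ Γ} := h1
    simp only [indicator_of_mem h2]
    rw [hω, ENNReal.ofReal_sum_of_nonneg fun i _ => hf0 i _]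
  · have h2 : ω ∉ {ω | s⁻¹ • gp (φ ω) ∈ Γ} := h1
    simp only [indicator_of_notMem h2, Finset.sum_const_zero]

theorem good_coverV (hφm : Measurable φ) (hg : Continuous gp) {K' : Set X} (hK : IsCompact K')
    (hU : ∀ ψ ∈ K', ∃ U ∈ 𝓝 ψ, GoodV P φ gp N w U) {χ : X → ℝ} (hχ : Continuous χ)
    (hχ0 : ∀ y, 0 ≤ χ y) (hχB : ∃ B, ∀ y, χ y ≤ B)
    (h0 : ∀ᵐ ω ∂P, φ ω ∈ K' ∨ χ (φ ω) = 0) :
    ∃ c : ℝ≥0∞, c ≠ ⊤ ∧ ∀ Γ : Set (Fin m → ℝ), MeasurableSet Γ → Bornology.IsBounded Γ →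
      Tendsto (Fv P φ gp N Γ χ) (𝓝[>] 0) (𝓝 (c * w Γ)) := by
  classical
  obtain ⟨B, hB⟩ := hχB
  have hU' : ∀ ψ ∈ K', ∃ U, IsOpen U ∧ ψ ∈ U ∧ GoodV P φ gp N w U := by
    intro ψ hψ
    obtain ⟨U, hU1, hU2⟩ := hU ψ hψ
    refine ⟨interior U, isOpen_interior, mem_interior_iff_mem_nhds.2 hU1,
      fun χ h1 h2 h3 h4 => hU2 χ h1 h2 h3 fun y hy => h4 y fun h => hy (interior_subset h)⟩
  choose! U hU1 hU2 hU3 using hU'
  obtain ⟨t, ht, htK⟩ := hK.elim_nhds_subcover U fun ψ hψ => (hU1 ψ hψ).mem_nhds (hU2 ψ hψ)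
  obtain ⟨V, hV⟩ : ∃ V : t → Set X, V = fun ψ : t => U ψ := ⟨_, rfl⟩
  have hV1 : ∀ ψ : t, IsOpen (V ψ) := fun ψ => by rw [hV]; exact hU1 _ (ht _ ψ.2)
  have hV3 : ∀ ψ : t, GoodV P φ gp N w (V ψ) := fun ψ => by rw [hV]; exact hU3 _ (ht _ ψ.2)
  have hVK : K' ⊆ ⋃ ψ, V ψ := by
    intro y hy
    obtain ⟨ψ, hψ, hy2⟩ := mem_iUnion₂.1 (htK hy)
    rw [hV]
    exact mem_iUnion.2 ⟨⟨ψ, hψ⟩, hy2⟩
  obtain ⟨f, hf⟩ := PartitionOfUnity.exists_isSubordinate hK.isClosed V hV1 hVK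
  have hf0 : ∀ ψ y, y ∉ V ψ → f ψ y = 0 := by
    intro ψ y hy
    exact image_eq_zero_of_notMem_tsupport fun h => hy (hf ψ h)
  have hex : ∀ ψ : t, ∃ c : ℝ≥0∞, c ≠ ⊤ ∧ ∀ Γ : Set (Fin m → ℝ), MeasurableSet Γ →
      Bornology.IsBounded Γ →
      Tendsto (Fv P φ gp N Γ fun y => χ y * f ψ y) (𝓝[>] 0) (𝓝 (c * w Γ)) := by
    intro ψ
    refine hV3 ψ _ (hχ.mul (f ψ).continuous) (fun y => mul_nonneg (hχ0 y) (f.nonneg ψ y))
      ⟨B, fun y => ?_⟩ fun y hy => by rw [hf0 ψ y hy, mul_zero]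
    exact (mul_le_of_le_one_right (hχ0 y) (f.le_one ψ y)).trans (hB y)
  choose c hc hct using hex
  refine ⟨∑ ψ, c ψ, ENNReal.sum_ne_top.2 fun ψ _ => hc ψ, fun Γ hΓ hΓb => ?_⟩
  have h1 : Fv P φ gp N Γ χ = fun s => ∑ ψ : t, Fv P φ gp N Γ (fun y => χ y * f ψ y) s := by
    funext s
    refine Fv_sum hφm hg hΓ Finset.univ (fun ψ => hχ.mul (f ψ).continuous)
      (fun ψ y => mul_nonneg (hχ0 y) (f.nonneg ψ y)) ?_ s
    filter_upwards [h0] with ω hω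
    show χ (φ ω) = ∑ ψ, χ (φ ω) * f ψ (φ ω)
    rw [← Finset.mul_sum]
    rcases hω with hω | hω
    · have h2 := f.sum_eq_one hω
      rw [finsum_eq_sum_of_fintype] at h2
      rw [h2, mul_one]
    · rw [hω, zero_mul]
  rw [h1, Finset.sum_mul]
  exact tendsto_finsetSum _ fun ψ _ => hct ψ Γ hΓ hΓb

set_option maxHeartbeats 1000000 in
/-- gluing -/
theorem globV (hφm : Measurable φ) {K : Set X} (hK : IsCompact K) (hφK : ∀ᵐ ω ∂P, φ ω ∈ K)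
    (hg : Continuous gp) (hsp : Continuous sp) (hspg : ∀ y, sp y ≤ ‖gp y‖)
    (hth : Continuous th) (hw : ∀ Γ : Set (Fin m → ℝ), Bornology.IsBounded Γ → w Γ ≠ ⊤)
    {Γ₀ : Set (Fin m → ℝ)} (hΓ₀ : MeasurableSet Γ₀) (hΓ₀b : Bornology.IsBounded Γ₀)
    (hw₀ : w Γ₀ ≠ 0)
    (H1 : ∀ ψ ∈ K, 0 < th ψ → ∃ U ∈ 𝓝 ψ, GoodV P φ gp N w U)
    (H2 : ∀ ψ ∈ K, th ψ ≤ 0 → ∃ V ∈ 𝓝 ψ, ∃ δ₁ : ℝ, 0 < δ₁ ∧ ∃ C : ℝ, 0 ≤ C ∧
      ∀ s δ : ℝ, 0 < s → 4 * s ≤ δ → δ ≤ δ₁ →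
        P {ω | φ ω ∈ V ∧ sp (φ ω) ≤ s ∧ th (φ ω) < δ} ≤ ENNReal.ofReal (C * (√δ * s ^ N)))
    {χ : X → ℝ} (hχ : Continuous χ) (hχ0 : ∀ y, 0 ≤ χ y) (hχB : ∃ B, ∀ y, χ y ≤ B) :
    ∃ c : ℝ≥0∞, c ≠ ⊤ ∧ ∀ Γ : Set (Fin m → ℝ), MeasurableSet Γ → Bornology.IsBounded Γ →
      Tendsto (Fv P φ gp N Γ χ) (𝓝[>] 0) (𝓝 (c * w Γ)) := by
  obtain ⟨B, hB⟩ := hχB
  have hK0 : IsCompact (K ∩ {y | th y ≤ 0}) := hK.inter_right (isClosed_le hth continuous_const)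
  obtain ⟨V, hV, hKV, δ₁, hδ₁, C, hC, hVb⟩ : ∃ V : Set X, IsOpen V ∧ K ∩ {y | th y ≤ 0} ⊆ V ∧
      ∃ δ₁ : ℝ, 0 < δ₁ ∧ ∃ C : ℝ, 0 ≤ C ∧ ∀ s δ : ℝ, 0 < s → 4 * s ≤ δ → δ ≤ δ₁ →
        P {ω | φ ω ∈ V ∧ sp (φ ω) ≤ s ∧ th (φ ω) < δ} ≤ ENNReal.ofReal (C * (√δ * s ^ N)) := by
    refine hK0.induction_on (p := fun S => ∃ V : Set X, IsOpen V ∧ S ⊆ V ∧
      ∃ δ₁ : ℝ, 0 < δ₁ ∧ ∃ C : ℝ, 0 ≤ C ∧ ∀ s δ : ℝ, 0 < s → 4 * s ≤ δ → δ ≤ δ₁ →
        P {ω | φ ω ∈ V ∧ sp (φ ω) ≤ s ∧ th (φ ω) < δ} ≤ ENNReal.ofReal (C * (√δ * s ^ N)))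
      ?_ ?_ ?_ ?_
    · exact ⟨∅, isOpen_empty, Subset.rfl, 1, one_pos, 0, le_rfl, fun s δ _ _ _ => by simp⟩
    · rintro S T hST ⟨V, h1, h2, h3⟩
      exact ⟨V, h1, hST.trans h2, h3⟩
    · rintro S T ⟨V, h1, h2, δ, hδ, C, hC, h3⟩ ⟨V', h1', h2', δ', hδ', C', hC', h3'⟩
      refine ⟨V ∪ V', h1.union h1', union_subset_union h2 h2', min δ δ', lt_min hδ hδ', C + C',
        by positivity, fun s ε hs hsε hε => ?_⟩
      have hε0 : 0 ≤ ε := by linarith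
      rw [add_mul, ENNReal.ofReal_add (by positivity) (by positivity)]
      refine (measure_mono ?_).trans ((measure_union_le _ _).trans (add_le_add
        (h3 s ε hs hsε (hε.trans (min_le_left _ _)))
        (h3' s ε hs hsε (hε.trans (min_le_right _ _)))))
      rintro ω ⟨hω | hω, hω2⟩
      · exact Or.inl ⟨hω, hω2⟩
      · exact Or.inr ⟨hω, hω2⟩
    · rintro ψ ⟨hψ1, hψ2⟩
      obtain ⟨V, hV, δ₁, hδ₁, C, hC, h3⟩ := H2 ψ hψ1 hψ2
      refine ⟨interior V, mem_nhdsWithin_of_mem_nhds (interior_mem_nhds.2 hV), interior V,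
        isOpen_interior, Subset.rfl, δ₁, hδ₁, C, hC, fun s δ hs hsδ hδ =>
          le_trans (measure_mono ?_) (h3 s δ hs hsδ hδ)⟩
      rintro ω ⟨hω, hω2⟩
      exact ⟨interior_subset hω, hω2⟩
  obtain ⟨η, hη, hηV⟩ : ∃ η : ℝ, 0 < η ∧ ∀ y ∈ K, th y < η → y ∈ V := by
    rcases (K \ V).eq_empty_or_nonempty with he | hne
    · refine ⟨1, one_pos, fun y hy _ => ?_⟩
      by_contra h
      have : y ∈ K \ V := ⟨hy, h⟩
      rw [he] at this
      exact this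
    · obtain ⟨z, hz, hzm⟩ := (hK.diff hV).exists_isMinOn hne hth.continuousOn
      have hz0 : 0 < th z := by
        by_contra h
        exact hz.2 (hKV ⟨hz.1, not_lt.1 h⟩)
      refine ⟨th z, hz0, fun y hy hyz => ?_⟩
      by_contra h
      exact absurd (hzm (show y ∈ K \ V from ⟨hy, h⟩)) (not_le.2 hyz)
  have hB0 : 0 ≤ max B 0 := le_max_right _ _
  -- the bounds for small `δ`
  have hmain : ∀ δ : ℝ, 0 < δ → δ ≤ min δ₁ η → ∃ c : ℝ≥0∞, c ≠ ⊤ ∧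
      ∀ (Γ : Set (Fin m → ℝ)) (R : ℝ), MeasurableSet Γ → 0 < R → (∀ y ∈ Γ, ‖y‖ ≤ R) →
      c * w Γ ≤ liminf (Fv P φ gp N Γ χ) (𝓝[>] 0) ∧
      limsup (Fv P φ gp N Γ χ) (𝓝[>] 0) ≤
        c * w Γ + ENNReal.ofReal (max B 0 * (C * (√δ * R ^ N))) := by
    intro δ hδ hδ1
    obtain ⟨θ, hθ⟩ : ∃ θ : X → ℝ, θ = fun y => min 1 (max 0 (2 * th y / δ - 1)) := ⟨_, rfl⟩
    have hθc : Continuous θ := by
      rw [hθ]
      fun_prop
    have hθ0 : ∀ y, 0 ≤ θ y := fun y => by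
      rw [hθ]
      exact le_min zero_le_one (le_max_left _ _)
    have hθ1 : ∀ y, θ y ≤ 1 := fun y => by
      rw [hθ]
      exact min_le_left _ _
    have hθa : ∀ y, th y < δ / 2 → θ y = 0 := by
      intro y hy
      rw [hθ]
      have h1 : 2 * th y / δ - 1 ≤ 0 := by
        have : 2 * th y / δ ≤ 1 := by
          rw [div_le_one hδ]
          linarith
        linarith
      show min 1 (max 0 (2 * th y / δ - 1)) = 0
      rw [max_eq_left h1, min_eq_right zero_le_one]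
    have hθb : ∀ y, δ ≤ th y → θ y = 1 := by
      intro y hy
      rw [hθ]
      have h1 : 1 ≤ 2 * th y / δ - 1 := by
        have : 2 ≤ 2 * th y / δ := by
          rw [le_div_iff₀ hδ]
          linarith
        linarith
      show min 1 (max 0 (2 * th y / δ - 1)) = 1
      rw [min_eq_left (h1.trans (le_max_right _ _))]
    obtain ⟨c, hc, hct⟩ := good_coverV (P := P) (N := N) (w := w) (χ := fun y => χ y * θ y)
      hφm hg
      (hK.inter_right (isClosed_le (continuous_const (y := δ / 2)) hth))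
      (fun ψ hψ => H1 ψ hψ.1 (lt_of_lt_of_le (by positivity) hψ.2)) (hχ.mul hθc)
      (fun y => mul_nonneg (hχ0 y) (hθ0 y))
      ⟨B, fun y => (mul_le_of_le_one_right (hχ0 y) (hθ1 y)).trans (hB y)⟩ (by
        filter_upwards [hφK] with ω hω
        by_cases h : th (φ ω) < δ / 2
        · right
          rw [hθa _ h, mul_zero]
        · left
          exact ⟨hω, not_lt.1 h⟩)
    refine ⟨c, hc, fun Γ R hΓ hR hΓR => ?_⟩
    have hct := hct Γ hΓ (isBounded_iff_forall_norm_le.2 ⟨R, hΓR⟩)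
    have hle : ∀ s, Fv P φ gp N Γ (fun y => χ y * θ y) s ≤ Fv P φ gp N Γ χ s := by
      intro s
      unfold Fv
      refine ENNReal.div_le_div_right (lintegral_mono fun ω => ?_) _
      refine indicator_le_indicator (ENNReal.ofReal_le_ofReal ?_)
      exact mul_le_of_le_one_right (hχ0 _) (hθ1 _)
    refine ⟨?_, ?_⟩
    · rw [← hct.liminf_eq]
      exact liminf_le_liminf (Eventually.of_forall hle)
    · have h1 : ∀ᶠ s in 𝓝[>] (0 : ℝ), Fv P φ gp N Γ χ s ≤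
          Fv P φ gp N Γ (fun y => χ y * θ y) s +
            ENNReal.ofReal (max B 0 * (C * (√δ * R ^ N))) := by
        filter_upwards [Ioo_mem_nhdsGT (show (0 : ℝ) < δ / (4 * R) by positivity)] with s hs
        obtain ⟨hs0, hs1⟩ := hs
        rw [lt_div_iff₀ (by positivity)] at hs1
        have hs2 : 0 < s ^ N := by positivity
        unfold Fv
        have hbig : ∀ ω, s⁻¹ • gp (φ ω) ∈ Γ → sp (φ ω) ≤ R * s := by
          intro ω hω
          have h2 := hΓR _ hω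
          rw [norm_smul, norm_inv, Real.norm_eq_abs, abs_of_pos hs0, inv_mul_le_iff₀ hs0] at h2
          have := hspg (φ ω)
          linarith
        have h2 : ∫⁻ ω, {ω | s⁻¹ • gp (φ ω) ∈ Γ}.indicator
              (fun ω => ENNReal.ofReal (χ (φ ω))) ω ∂P ≤
            ∫⁻ ω, {ω | s⁻¹ • gp (φ ω) ∈ Γ}.indicator
              (fun ω => ENNReal.ofReal (χ (φ ω) * θ (φ ω))) ω ∂P +
            ENNReal.ofReal (max B 0) * P {ω | sp (φ ω) ≤ R * s ∧ th (φ ω) < δ} := by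
          have hm : MeasurableSet {ω | sp (φ ω) ≤ R * s ∧ th (φ ω) < δ} :=
            (measurableSet_le (hsp.measurable.comp hφm) measurable_const).inter
              (measurableSet_lt (hth.measurable.comp hφm) measurable_const)
          have h3 : ENNReal.ofReal (max B 0) * P {ω | sp (φ ω) ≤ R * s ∧ th (φ ω) < δ} =
              ∫⁻ ω, {ω | sp (φ ω) ≤ R * s ∧ th (φ ω) < δ}.indicator
                (fun _ => ENNReal.ofReal (max B 0)) ω ∂P := by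
            rw [lintegral_indicator hm, setLIntegral_const]
          rw [h3, ← lintegral_add_left (Fv_meas hφm hg hΓ (χ := fun y => χ y * θ y)
            (hχ.mul hθc) s)]
          refine lintegral_mono fun ω => ?_
          by_cases h4 : s⁻¹ • gp (φ ω) ∈ Γ
          · have h5 : ω ∈ {ω | s⁻¹ • gp (φ ω) ∈ Γ} := h4
            rw [indicator_of_mem h5, indicator_of_mem h5]
            by_cases h6 : th (φ ω) < δ
            · have h7 : ω ∈ {ω | sp (φ ω) ≤ R * s ∧ th (φ ω) < δ} := ⟨hbig ω h4, h6⟩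
              rw [indicator_of_mem h7]
              refine le_add_left (ENNReal.ofReal_le_ofReal ?_)
              exact (hB _).trans (le_max_left _ _)
            · rw [hθb _ (not_lt.1 h6), mul_one]
              exact le_self_add
          · have h5 : ω ∉ {ω | s⁻¹ • gp (φ ω) ∈ Γ} := h4
            rw [indicator_of_notMem h5]
            exact zero_le
        have h3 : P {ω | sp (φ ω) ≤ R * s ∧ th (φ ω) < δ} ≤
            ENNReal.ofReal (C * (√δ * (R * s) ^ N)) := by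
          refine le_trans ?_ (hVb (R * s) δ (by positivity) (by linarith)
            (hδ1.trans (min_le_left _ _)))
          refine measure_mono_ae ?_
          filter_upwards [hφK] with ω hω h4
          exact ⟨hηV _ hω (h4.2.trans_le (hδ1.trans (min_le_right _ _))), h4⟩
        have h4 : ENNReal.ofReal (max B 0 * (C * (√δ * R ^ N))) =
            ENNReal.ofReal (max B 0) * ENNReal.ofReal (C * (√δ * (R * s) ^ N)) /
              ENNReal.ofReal (s ^ N) := by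
          rw [← ENNReal.ofReal_mul hB0, ← ENNReal.ofReal_div_of_pos hs2, mul_pow]
          congr 1
          field_simp
        rw [h4, ← ENNReal.add_div]
        refine ENNReal.div_le_div_right (h2.trans ?_) _
        gcongr
      refine (limsup_le_limsup h1).trans ?_
      have h2 : Tendsto (fun s => Fv P φ gp N Γ (fun y => χ y * θ y) s +
          ENNReal.ofReal (max B 0 * (C * (√δ * R ^ N)))) (𝓝[>] 0)
          (𝓝 (c * w Γ + ENNReal.ofReal (max B 0 * (C * (√δ * R ^ N))))) := hct.add_const _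
      rw [h2.limsup_eq]
  have hδ₂ : 0 < min δ₁ η := lt_min hδ₁ hη
  obtain ⟨δs, hδs⟩ : ∃ δs : ℕ → ℝ, δs = fun n : ℕ => min δ₁ η * (1 / ((n : ℝ) + 1)) := ⟨_, rfl⟩
  have hδs0 : ∀ n, 0 < δs n := fun n => by rw [hδs]; positivity
  have hδs1 : ∀ n, δs n ≤ min δ₁ η := fun n => by
    rw [hδs]
    refine mul_le_of_le_one_right hδ₂.le ?_
    rw [div_le_one (by positivity)]
    have : (0 : ℝ) ≤ n := Nat.cast_nonneg n
    linarith
  have hδst : Tendsto δs atTop (𝓝 0) := by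
    rw [hδs]
    have := tendsto_one_div_add_atTop_nhds_zero_nat (𝕜 := ℝ)
    simpa using this.const_mul (min δ₁ η)
  choose c hc hcΓ using fun n => hmain (δs n) (hδs0 n) (hδs1 n)
  have hE : ∀ R : ℝ, Tendsto (fun n => ENNReal.ofReal (max B 0 * (C * (√(δs n) * R ^ N)))) atTop
      (𝓝 0) := by
    intro R
    have h1 : Tendsto (fun n => max B 0 * (C * (√(δs n) * R ^ N))) atTop
        (𝓝 (max B 0 * (C * (√0 * R ^ N)))) :=
      (((Real.continuous_sqrt.tendsto 0).comp hδst).mul_const _).const_mul _ |>.const_mul _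
    have h2 := ENNReal.tendsto_ofReal h1
    rwa [Real.sqrt_zero, zero_mul, mul_zero, mul_zero, ENNReal.ofReal_zero] at h2
  obtain ⟨R₀, hR₀⟩ := hΓ₀b.exists_norm_le
  have hR₀' : ∀ y ∈ Γ₀, ‖y‖ ≤ max R₀ 1 := fun y hy => (hR₀ y hy).trans (le_max_left _ _)
  have hR₀p : 0 < max R₀ 1 := lt_max_of_lt_right one_pos
  obtain ⟨L₀, hL₀⟩ : ∃ L₀ : ℝ≥0∞, L₀ = liminf (Fv P φ gp N Γ₀ χ) (𝓝[>] 0) := ⟨_, rfl⟩
  have hL1 : ∀ n, c n * w Γ₀ ≤ L₀ := fun n => by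
    rw [hL₀]
    exact (hcΓ n Γ₀ _ hΓ₀ hR₀p hR₀').1
  have hL2 : ∀ n, L₀ ≤ c n * w Γ₀ +
      ENNReal.ofReal (max B 0 * (C * (√(δs n) * (max R₀ 1) ^ N))) := fun n => by
    rw [hL₀]
    exact (liminf_le_limsup).trans (hcΓ n Γ₀ _ hΓ₀ hR₀p hR₀').2
  have hLt : L₀ ≠ ⊤ := ne_top_of_le_ne_top (ENNReal.add_ne_top.2
    ⟨ENNReal.mul_ne_top (hc 0) (hw _ hΓ₀b), ENNReal.ofReal_ne_top⟩) (hL2 0)
  have hlim₀ : Tendsto (fun n => c n * w Γ₀) atTop (𝓝 L₀) := by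
    have h1 : Tendsto (fun n => L₀ - ENNReal.ofReal (max B 0 *
        (C * (√(δs n) * (max R₀ 1) ^ N)))) atTop (𝓝 (L₀ - 0)) :=
      ENNReal.Tendsto.sub tendsto_const_nhds (hE _) (Or.inl hLt)
    rw [tsub_zero] at h1
    exact tendsto_of_tendsto_of_tendsto_of_le_of_le h1 tendsto_const_nhds
      (fun n => tsub_le_iff_right.2 (hL2 n)) hL1
  have hclim : Tendsto c atTop (𝓝 (L₀ / w Γ₀)) := by
    have h1 := ENNReal.Tendsto.div_const hlim₀ (b := w Γ₀) (Or.inr hw₀)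
    refine h1.congr fun n => ?_
    exact ENNReal.mul_div_cancel_right hw₀ (hw _ hΓ₀b)
  have hcfin : L₀ / w Γ₀ ≠ ⊤ := ENNReal.div_ne_top hLt hw₀
  refine ⟨L₀ / w Γ₀, hcfin, fun Γ hΓ hΓb => ?_⟩
  obtain ⟨R, hR⟩ := hΓb.exists_norm_le
  have hR' : ∀ y ∈ Γ, ‖y‖ ≤ max R 1 := fun y hy => (hR y hy).trans (le_max_left _ _)
  have hRp : 0 < max R 1 := lt_max_of_lt_right one_pos
  have h1 : Tendsto (fun n => c n * w Γ) atTop (𝓝 (L₀ / w Γ₀ * w Γ)) :=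
    ENNReal.Tendsto.mul_const hclim (Or.inr (hw _ hΓb))
  have h2 : Tendsto (fun n => c n * w Γ + ENNReal.ofReal (max B 0 *
      (C * (√(δs n) * (max R 1) ^ N)))) atTop (𝓝 (L₀ / w Γ₀ * w Γ + 0)) := h1.add (hE _)
  rw [add_zero] at h2
  refine tendsto_of_le_liminf_of_limsup_le ?_ ?_
  · exact le_of_tendsto' h1 fun n => (hcΓ n Γ _ hΓ hRp hR').1
  · exact ge_of_tendsto' h2 fun n => (hcΓ n Γ _ hΓ hRp hR').2

end Pool.Agent.L5helper74.QR
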