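import Pool.Agent.L5helper74.QR.Glob5

/-!
# Gluing of local laws of several gaps without compact support
-/

set_option autoImplicit false
set_option linter.unusedSectionVars false

open Set Filter Topology MeasureTheory
open scoped ENNReal

noncomputable section

namespace Pool.Agent.L5helper74.QR

variable {X : Type} [MetricSpace X] [MeasurableSpace X] [BorelSpace X] {Ω : Type}
  [MeasurableSpace Ω] {P : Measure Ω} [IsProbabilityMeasure P] {φ : Ω → X} {m N : ℕ}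
  {gp : X → Fin m → ℝ} {sp th : X → ℝ} {w : Set (Fin m → ℝ) → ℝ≥0∞}

/-- bounds with errors give a limit -/
lemma seq_lim {F : Set (Fin m → ℝ) → ℝ → ℝ≥0∞}
    (hw : ∀ Γ : Set (Fin m → ℝ), Bornology.IsBounded Γ → w Γ ≠ ⊤)
    {Γ₀ : Set (Fin m → ℝ)} (hΓ₀ : MeasurableSet Γ₀) (hΓ₀b : Bornology.IsBounded Γ₀)
    (hw₀ : w Γ₀ ≠ 0) {c : ℕ → ℝ≥0∞} (hc : ∀ n, c n ≠ ⊤) {e : ℕ → ℝ}
    (he : Tendsto e atTop (𝓝 0))
    (hcΓ : ∀ (n : ℕ) (Γ : Set (Fin m → ℝ)) (R : ℝ), MeasurableSet Γ → 0 < R →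
      (∀ y ∈ Γ, ‖y‖ ≤ R) → c n * w Γ ≤ liminf (F Γ) (𝓝[>] 0) ∧
      limsup (F Γ) (𝓝[>] 0) ≤ c n * w Γ + ENNReal.ofReal (e n * R ^ N)) :
    ∃ c : ℝ≥0∞, c ≠ ⊤ ∧ ∀ Γ : Set (Fin m → ℝ), MeasurableSet Γ → Bornology.IsBounded Γ →
      Tendsto (F Γ) (𝓝[>] 0) (𝓝 (c * w Γ)) := by
  have hE : ∀ R : ℝ, Tendsto (fun n => ENNReal.ofReal (e n * R ^ N)) atTop (𝓝 0) := by
    intro R
    have h2 := ENNReal.tendsto_ofReal (he.mul_const (R ^ N))
    rwa [zero_mul, ENNReal.ofReal_zero] at h2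
  obtain ⟨R₀, hR₀⟩ := hΓ₀b.exists_norm_le
  have hR₀' : ∀ y ∈ Γ₀, ‖y‖ ≤ max R₀ 1 := fun y hy => (hR₀ y hy).trans (le_max_left _ _)
  have hR₀p : 0 < max R₀ 1 := lt_max_of_lt_right one_pos
  obtain ⟨L₀, hL₀⟩ : ∃ L₀ : ℝ≥0∞, L₀ = liminf (F Γ₀) (𝓝[>] 0) := ⟨_, rfl⟩
  have hL1 : ∀ n, c n * w Γ₀ ≤ L₀ := fun n => by
    rw [hL₀]
    exact (hcΓ n Γ₀ _ hΓ₀ hR₀p hR₀').1
  have hL2 : ∀ n, L₀ ≤ c n * w Γ₀ + ENNReal.ofReal (e n * (max R₀ 1) ^ N) := fun n => by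
    rw [hL₀]
    exact (liminf_le_limsup).trans (hcΓ n Γ₀ _ hΓ₀ hR₀p hR₀').2
  have hLt : L₀ ≠ ⊤ := ne_top_of_le_ne_top (ENNReal.add_ne_top.2
    ⟨ENNReal.mul_ne_top (hc 0) (hw _ hΓ₀b), ENNReal.ofReal_ne_top⟩) (hL2 0)
  have hlim₀ : Tendsto (fun n => c n * w Γ₀) atTop (𝓝 L₀) := by
    have h1 : Tendsto (fun n => L₀ - ENNReal.ofReal (e n * (max R₀ 1) ^ N)) atTop
        (𝓝 (L₀ - 0)) :=
      ENNReal.Tendsto.sub tendsto_const_nhds (hE _) (Or.inl hLt)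
    rw [tsub_zero] at h1
    exact tendsto_of_tendsto_of_tendsto_of_le_of_le h1 tendsto_const_nhds
      (fun n => tsub_le_iff_right.2 (hL2 n)) hL1
  have hclim : Tendsto c atTop (𝓝 (L₀ / w Γ₀)) := by
    have h1 := ENNReal.Tendsto.div_const hlim₀ (b := w Γ₀) (Or.inr hw₀)
    refine h1.congr fun n => ?_
    exact ENNReal.mul_div_cancel_right hw₀ (hw _ hΓ₀b)
  have hcfin : L₀ / w Γ₀ ≠ ⊤ := ENNReal.div_ne_top hLt hw₀
  refine ⟨L₀ / w Γ₀, hcfin, fun Γ hΓ hΓb => ?_⟩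
  obtain ⟨R, hR⟩ := hΓb.exists_norm_le
  have hR' : ∀ y ∈ Γ, ‖y‖ ≤ max R 1 := fun y hy => (hR y hy).trans (le_max_left _ _)
  have hRp : 0 < max R 1 := lt_max_of_lt_right one_pos
  have h1 : Tendsto (fun n => c n * w Γ) atTop (𝓝 (L₀ / w Γ₀ * w Γ)) :=
    ENNReal.Tendsto.mul_const hclim (Or.inr (hw _ hΓb))
  have h2 : Tendsto (fun n => c n * w Γ + ENNReal.ofReal (e n * (max R 1) ^ N)) atTop
      (𝓝 (L₀ / w Γ₀ * w Γ + 0)) := h1.add (hE _)
  rw [add_zero] at h2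
  refine tendsto_of_le_liminf_of_limsup_le ?_ ?_
  · exact le_of_tendsto' h1 fun n => (hcΓ n Γ _ hΓ hRp hR').1
  · exact ge_of_tendsto' h2 fun n => (hcΓ n Γ _ hΓ hRp hR').2

/-- compact sets have good neighbourhoods -/
theorem good_open (hφm : Measurable φ) (hg : Continuous gp) {K' : Set X} (hK : IsCompact K')
    (hU : ∀ ψ ∈ K', ∃ U ∈ 𝓝 ψ, GoodV P φ gp N w U) :
    ∃ O : Set X, IsOpen O ∧ K' ⊆ O ∧ GoodV P φ gp N w O := by
  classical
  have hU' : ∀ ψ ∈ K', ∃ U, IsOpen U ∧ ψ ∈ U ∧ GoodV P φ gp N w U := by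
    intro ψ hψ
    obtain ⟨U, hU1, hU2⟩ := hU ψ hψ
    refine ⟨interior U, isOpen_interior, mem_interior_iff_mem_nhds.2 hU1,
      fun χ h1 h2 h3 h4 => hU2 χ h1 h2 h3 fun y hy => h4 y fun h => hy (interior_subset h)⟩
  choose! U hU1 hU2 hU3 using hU'
  obtain ⟨t, ht, htK⟩ := hK.elim_nhds_subcover U fun ψ hψ => (hU1 ψ hψ).mem_nhds (hU2 ψ hψ)
  obtain ⟨V, hV⟩ : ∃ V : t → Set X, V = fun ψ : t => U ψ := ⟨_, rfl⟩
  have hV1 : ∀ ψ : t, IsOpen (V ψ) := fun ψ => by rw [hV]; exact hU1 _ (ht _ ψ.2)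
  have hV3 : ∀ ψ : t, GoodV P φ gp N w (V ψ) := fun ψ => by rw [hV]; exact hU3 _ (ht _ ψ.2)
  have hVK : K' ⊆ ⋃ ψ, V ψ := by
    intro y hy
    obtain ⟨ψ, hψ, hy2⟩ := mem_iUnion₂.1 (htK hy)
    rw [hV]
    exact mem_iUnion.2 ⟨⟨ψ, hψ⟩, hy2⟩
  obtain ⟨r, hr, hrK⟩ := hK.exists_cthickening_subset_open (isOpen_iUnion hV1) hVK
  refine ⟨Metric.thickening r K', Metric.isOpen_thickening, Metric.self_subset_thickening hr K',
    fun χ hχ hχ0 hχB hχO => ?_⟩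
  obtain ⟨B, hB⟩ := hχB
  obtain ⟨f, hf⟩ := PartitionOfUnity.exists_isSubordinate Metric.isClosed_cthickening V hV1 hrK
  have hf0 : ∀ ψ y, y ∉ V ψ → f ψ y = 0 := by
    intro ψ y hy
    exact image_eq_zero_of_notMem_tsupport fun h => hy (hf ψ h)
  have hex : ∀ ψ : t, ∃ c : ℝ≥0∞, c ≠ ⊤ ∧ ∀ Γ : Set (Fin m → ℝ), MeasurableSet Γ →
      Bornology.IsBounded Γ →
      Tendsto (Fv P φ gp N Γ fun y => χ y * f ψ y) (𝓝[>] 0) (𝓝 (c * w Γ)) := by
    intro ψ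
    refine hV3 ψ _ (hχ.mul (f ψ).continuous) (fun y => mul_nonneg (hχ0 y) (f.nonneg ψ y))
      ⟨B, fun y => ?_⟩ fun y hy => by rw [hf0 ψ y hy, mul_zero]
    exact (mul_le_of_le_one_right (hχ0 y) (f.le_one ψ y)).trans (hB y)
  choose c hc hct using hex
  refine ⟨∑ ψ, c ψ, ENNReal.sum_ne_top.2 fun ψ _ => hc ψ, fun Γ hΓ hΓb => ?_⟩
  have h1 : Fv P φ gp N Γ χ = fun s => ∑ ψ : t, Fv P φ gp N Γ (fun y => χ y * f ψ y) s := by
    funext s
    refine Fv_sum hφm hg hΓ Finset.univ (fun ψ => hχ.mul (f ψ).continuous)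
      (fun ψ y => mul_nonneg (hχ0 y) (f.nonneg ψ y)) ?_ s
    refine Eventually.of_forall fun ω => ?_
    show χ (φ ω) = ∑ ψ, χ (φ ω) * f ψ (φ ω)
    rw [← Finset.mul_sum]
    by_cases hω : φ ω ∈ Metric.thickening r K'
    · have h2 := f.sum_eq_one (Metric.thickening_subset_cthickening r K' hω)
      rw [finsum_eq_sum_of_fintype] at h2
      rw [h2, mul_one]
    · rw [hχO _ hω, zero_mul]
  rw [h1, Finset.sum_mul]
  exact tendsto_finsetSum _ fun ψ _ => hct ψ Γ hΓ hΓb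

set_option maxHeartbeats 1000000 in
/-- gluing in an open set, with tightness of the small gaps -/
theorem globL (hφm : Measurable φ) {V : Set X} (hV : IsOpen V)
    (hg : Continuous gp) (hsp : Continuous sp) (hspg : ∀ y, sp y ≤ ‖gp y‖)
    (hth : Continuous th) (hw : ∀ Γ : Set (Fin m → ℝ), Bornology.IsBounded Γ → w Γ ≠ ⊤)
    {Γ₀ : Set (Fin m → ℝ)} (hΓ₀ : MeasurableSet Γ₀) (hΓ₀b : Bornology.IsBounded Γ₀)
    (hw₀ : w Γ₀ ≠ 0)
    (T1 : ∀ ε : ℝ, 0 < ε → ∃ K : Set X, IsCompact K ∧ ∀ s : ℝ, 0 < s → s ≤ 1 →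
      P {ω | φ ω ∈ V ∧ φ ω ∉ K ∧ sp (φ ω) ≤ s} ≤ ENNReal.ofReal (ε * s ^ N))
    (H1 : ∀ ψ, 0 < th ψ → ∃ U ∈ 𝓝 ψ, GoodV P φ gp N w U)
    (H2 : ∃ δ₁ : ℝ, 0 < δ₁ ∧ ∃ C : ℝ, 0 ≤ C ∧ ∀ s δ : ℝ, 0 < s → 4 * s ≤ δ → δ ≤ δ₁ →
        P {ω | φ ω ∈ V ∧ sp (φ ω) ≤ s ∧ th (φ ω) < δ} ≤ ENNReal.ofReal (C * (√δ * s ^ N))) :
    GoodV P φ gp N w V := by
  intro χ hχ hχ0 hχB hχV
  obtain ⟨B, hB⟩ := hχB
  obtain ⟨δ₁, hδ₁, C, hC, hVb⟩ := H2
  have hB0 : 0 ≤ max B 0 := le_max_right _ _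
  have hmain : ∀ δ ε : ℝ, 0 < δ → δ ≤ δ₁ → 0 < ε → ∃ c : ℝ≥0∞, c ≠ ⊤ ∧
      ∀ (Γ : Set (Fin m → ℝ)) (R : ℝ), MeasurableSet Γ → 0 < R → (∀ y ∈ Γ, ‖y‖ ≤ R) →
      c * w Γ ≤ liminf (Fv P φ gp N Γ χ) (𝓝[>] 0) ∧
      limsup (Fv P φ gp N Γ χ) (𝓝[>] 0) ≤
        c * w Γ + ENNReal.ofReal (max B 0 * (C * √δ + ε) * R ^ N) := by
    intro δ ε hδ hδ1 hε
    obtain ⟨K, hK, hKb⟩ := T1 ε hε
    obtain ⟨θ, hθ⟩ : ∃ θ : X → ℝ, θ = fun y => min 1 (max 0 (2 * th y / δ - 1)) := ⟨_, rfl⟩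
    have hθc : Continuous θ := by
      rw [hθ]
      fun_prop
    have hθ0 : ∀ y, 0 ≤ θ y := fun y => by
      rw [hθ]
      exact le_min zero_le_one (le_max_left _ _)
    have hθ1 : ∀ y, θ y ≤ 1 := fun y => by
      rw [hθ]
      exact min_le_left _ _
    have hθb : ∀ y, δ ≤ th y → θ y = 1 := by
      intro y hy
      rw [hθ]
      have h1 : 1 ≤ 2 * th y / δ - 1 := by
        have : 2 ≤ 2 * th y / δ := by
          rw [le_div_iff₀ hδ]
          linarith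
        linarith
      show min 1 (max 0 (2 * th y / δ - 1)) = 1
      rw [min_eq_left (h1.trans (le_max_right _ _))]
    have hK1 : IsCompact (K ∩ {y | δ ≤ th y}) :=
      hK.inter_right (isClosed_le (continuous_const (y := δ)) hth)
    obtain ⟨O, hO, hKO, hOg⟩ := good_open (P := P) (N := N) (w := w) hφm hg hK1
      (fun ψ hψ => H1 ψ (lt_of_lt_of_le hδ hψ.2))
    obtain ⟨η, hη0, hη1, hη⟩ := exists_continuous_zero_one_of_isClosed hO.isClosed_compl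
      hK1.isClosed (disjoint_left.2 fun y h1 h2 => h1 (hKO h2))
    obtain ⟨ζ, hζ⟩ : ∃ ζ : X → ℝ, ζ = fun y => θ y * η y := ⟨_, rfl⟩
    have hζc : Continuous ζ := by
      rw [hζ]
      exact hθc.mul η.continuous
    have hζ0 : ∀ y, 0 ≤ ζ y := fun y => by
      rw [hζ]
      exact mul_nonneg (hθ0 y) (hη y).1
    have hζ1 : ∀ y, ζ y ≤ 1 := fun y => by
      rw [hζ]
      exact mul_le_one₀ (hθ1 y) (hη y).1 (hη y).2
    have hζO : ∀ y, y ∉ O → ζ y = 0 := fun y hy => by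
      have h1 : η y = 0 := hη0 hy
      rw [hζ]
      show θ y * η y = 0
      rw [h1, mul_zero]
    have hζK : ∀ y, y ∈ K → δ ≤ th y → ζ y = 1 := fun y hy hy2 => by
      have h1 : η y = 1 := hη1 (show y ∈ K ∩ {y | δ ≤ th y} from ⟨hy, hy2⟩)
      rw [hζ]
      show θ y * η y = 1
      rw [h1, hθb y hy2, mul_one]
    obtain ⟨c, hc, hct⟩ := hOg (fun y => χ y * ζ y) (hχ.mul hζc)
      (fun y => mul_nonneg (hχ0 y) (hζ0 y))
      ⟨B, fun y => (mul_le_of_le_one_right (hχ0 y) (hζ1 y)).trans (hB y)⟩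
      (fun y hy => by
        show χ y * ζ y = 0
        rw [hζO y hy, mul_zero])
    refine ⟨c, hc, fun Γ R hΓ hR hΓR => ?_⟩
    have hct := hct Γ hΓ (isBounded_iff_forall_norm_le.2 ⟨R, hΓR⟩)
    have hle : ∀ s, Fv P φ gp N Γ (fun y => χ y * ζ y) s ≤ Fv P φ gp N Γ χ s := by
      intro s
      unfold Fv
      refine ENNReal.div_le_div_right (lintegral_mono fun ω => ?_) _
      refine indicator_le_indicator (ENNReal.ofReal_le_ofReal ?_)
      exact mul_le_of_le_one_right (hχ0 _) (hζ1 _)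
    refine ⟨?_, ?_⟩
    · rw [← hct.liminf_eq]
      exact liminf_le_liminf (Eventually.of_forall hle)
    · have h1 : ∀ᶠ s in 𝓝[>] (0 : ℝ), Fv P φ gp N Γ χ s ≤
          Fv P φ gp N Γ (fun y => χ y * ζ y) s +
            ENNReal.ofReal (max B 0 * (C * √δ + ε) * R ^ N) := by
        filter_upwards [Ioo_mem_nhdsGT (show (0 : ℝ) < min (δ / (4 * R)) (1 / R) by positivity)]
          with s hs
        obtain ⟨hs0, hs1⟩ := hs
        have hs3 := hs1.trans_le (min_le_left _ _)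
        have hs4 := hs1.trans_le (min_le_right _ _)
        rw [lt_div_iff₀ (by positivity)] at hs3 hs4
        have hs2 : 0 < s ^ N := by positivity
        unfold Fv
        have hbig : ∀ ω, s⁻¹ • gp (φ ω) ∈ Γ → sp (φ ω) ≤ R * s := by
          intro ω hω
          have h2 := hΓR _ hω
          rw [norm_smul, norm_inv, Real.norm_eq_abs, abs_of_pos hs0, inv_mul_le_iff₀ hs0] at h2
          have := hspg (φ ω)
          linarith
        have hm1 : MeasurableSet {ω | φ ω ∈ V ∧ sp (φ ω) ≤ R * s ∧ th (φ ω) < δ} :=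
          (hφm hV.measurableSet).inter
            ((measurableSet_le (hsp.measurable.comp hφm) measurable_const).inter
            (measurableSet_lt (hth.measurable.comp hφm) measurable_const))
        have hm2 : MeasurableSet {ω | φ ω ∈ V ∧ φ ω ∉ K ∧ sp (φ ω) ≤ R * s} :=
          (hφm hV.measurableSet).inter ((hφm hK.isClosed.measurableSet.compl).inter
            (measurableSet_le (hsp.measurable.comp hφm) measurable_const))
        have h2 : ∫⁻ ω, {ω | s⁻¹ • gp (φ ω) ∈ Γ}.indicator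
              (fun ω => ENNReal.ofReal (χ (φ ω))) ω ∂P ≤
            ∫⁻ ω, {ω | s⁻¹ • gp (φ ω) ∈ Γ}.indicator
              (fun ω => ENNReal.ofReal (χ (φ ω) * ζ (φ ω))) ω ∂P +
            (ENNReal.ofReal (max B 0) * P {ω | φ ω ∈ V ∧ sp (φ ω) ≤ R * s ∧ th (φ ω) < δ} +
            ENNReal.ofReal (max B 0) * P {ω | φ ω ∈ V ∧ φ ω ∉ K ∧ sp (φ ω) ≤ R * s}) := by
          have h3 : ∀ A : Set Ω, MeasurableSet A → ENNReal.ofReal (max B 0) * P A =
              ∫⁻ ω, A.indicator (fun _ => ENNReal.ofReal (max B 0)) ω ∂P := fun A hA => by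
            rw [lintegral_indicator hA, setLIntegral_const]
          rw [h3 _ hm1, h3 _ hm2, ← lintegral_add_left (measurable_const.indicator hm1),
            ← lintegral_add_left (Fv_meas hφm hg hΓ (χ := fun y => χ y * ζ y)
            (hχ.mul hζc) s)]
          refine lintegral_mono fun ω => ?_
          by_cases h4 : s⁻¹ • gp (φ ω) ∈ Γ
          · have h5 : ω ∈ {ω | s⁻¹ • gp (φ ω) ∈ Γ} := h4
            rw [indicator_of_mem h5, indicator_of_mem h5]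
            by_cases h8 : φ ω ∈ V
            · by_cases h6 : th (φ ω) < δ
              · have h7 : ω ∈ {ω | φ ω ∈ V ∧ sp (φ ω) ≤ R * s ∧ th (φ ω) < δ} :=
                  ⟨h8, hbig ω h4, h6⟩
                rw [indicator_of_mem h7]
                refine le_add_left (le_add_right (ENNReal.ofReal_le_ofReal ?_))
                exact (hB _).trans (le_max_left _ _)
              · by_cases h9 : φ ω ∈ K
                · rw [hζK _ h9 (not_lt.1 h6), mul_one]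
                  exact le_self_add
                · have h7 : ω ∈ {ω | φ ω ∈ V ∧ φ ω ∉ K ∧ sp (φ ω) ≤ R * s} :=
                    ⟨h8, h9, hbig ω h4⟩
                  rw [indicator_of_mem h7]
                  refine le_add_left (le_add_left (ENNReal.ofReal_le_ofReal ?_))
                  exact (hB _).trans (le_max_left _ _)
            · rw [hχV _ h8, ENNReal.ofReal_zero]
              exact zero_le
          · have h5 : ω ∉ {ω | s⁻¹ • gp (φ ω) ∈ Γ} := h4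
            rw [indicator_of_notMem h5]
            exact zero_le
        have h3 : P {ω | φ ω ∈ V ∧ sp (φ ω) ≤ R * s ∧ th (φ ω) < δ} ≤
            ENNReal.ofReal (C * (√δ * (R * s) ^ N)) :=
          hVb (R * s) δ (by positivity) (by linarith) hδ1
        have h3' : P {ω | φ ω ∈ V ∧ φ ω ∉ K ∧ sp (φ ω) ≤ R * s} ≤
            ENNReal.ofReal (ε * (R * s) ^ N) :=
          hKb (R * s) (by positivity) (by linarith)
        have h4 : ENNReal.ofReal (max B 0 * (C * √δ + ε) * R ^ N) =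
            (ENNReal.ofReal (max B 0) * ENNReal.ofReal (C * (√δ * (R * s) ^ N)) +
            ENNReal.ofReal (max B 0) * ENNReal.ofReal (ε * (R * s) ^ N)) /
              ENNReal.ofReal (s ^ N) := by
          rw [← ENNReal.ofReal_mul hB0, ← ENNReal.ofReal_mul hB0,
            ← ENNReal.ofReal_add (by positivity) (by positivity),
            ← ENNReal.ofReal_div_of_pos hs2, mul_pow]
          congr 1
          field_simp
        rw [h4, ← ENNReal.add_div]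
        refine ENNReal.div_le_div_right (h2.trans ?_) _
        gcongr
      refine (limsup_le_limsup h1).trans ?_
      have h2 : Tendsto (fun s => Fv P φ gp N Γ (fun y => χ y * ζ y) s +
          ENNReal.ofReal (max B 0 * (C * √δ + ε) * R ^ N)) (𝓝[>] 0)
          (𝓝 (c * w Γ + ENNReal.ofReal (max B 0 * (C * √δ + ε) * R ^ N))) := hct.add_const _
      rw [h2.limsup_eq]
  obtain ⟨q, hq⟩ : ∃ q : ℕ → ℝ, q = fun n : ℕ => 1 / ((n : ℝ) + 1) := ⟨_, rfl⟩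
  have hq0 : ∀ n, 0 < q n := fun n => by rw [hq]; positivity
  have hq1 : ∀ n, q n ≤ 1 := fun n => by
    rw [hq]
    show 1 / ((n : ℝ) + 1) ≤ 1
    rw [div_le_one (by positivity)]
    have : (0 : ℝ) ≤ n := Nat.cast_nonneg n
    linarith
  have hqt : Tendsto q atTop (𝓝 0) := by
    rw [hq]
    exact tendsto_one_div_add_atTop_nhds_zero_nat (𝕜 := ℝ)
  choose c hc hcΓ using fun n => hmain (δ₁ * q n) (q n) (by have := hq0 n; positivity)
    (mul_le_of_le_one_right hδ₁.le (hq1 n)) (hq0 n)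
  have he : Tendsto (fun n => max B 0 * (C * √(δ₁ * q n) + q n)) atTop (𝓝 0) := by
    have h1 : Tendsto (fun n => max B 0 * (C * √(δ₁ * q n) + q n)) atTop
        (𝓝 (max B 0 * (C * √(δ₁ * 0) + 0))) :=
      ((((Real.continuous_sqrt.tendsto _).comp (hqt.const_mul δ₁)).const_mul C).add hqt).const_mul
        _
    rwa [mul_zero, Real.sqrt_zero, mul_zero, add_zero, mul_zero] at h1
  exact seq_lim (F := fun Γ => Fv P φ gp N Γ χ) hw hΓ₀ hΓ₀b hw₀ hc he hcΓ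

end Pool.Agent.L5helper74.QR
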