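import Pool.Agent.L5helper74.QR.Loc
import Pool.Agent.L5helper74.QR.FinDim3

/-!
# Quadratic repulsion: small gaps with a third level nearby in a slice of the space of metrics
-/

set_option autoImplicit false
set_option linter.unusedSectionVars false
set_option synthInstance.maxHeartbeats 400000

open Set Filter Topology MeasureTheory
open scoped Real ENNReal
open Pool.Agent.Y262.QE Pool.Agent.Y264.QR Pool.Agent.Q233.GLV
open Pool.Agent.L5helper74.LR Pool.Agent.L5helper74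

noncomputable section

namespace Pool.Agent.L5helper74.QR

variable {M : Type} [MetricSpace M] [CompactSpace M] [MeasurableSpace M] [BorelSpace M]
  {μ : Measure M} [IsFiniteMeasure μ]

set_option maxHeartbeats 1000000 in
theorem loc3 [PreconnectedSpace M] {D : Data M} (hD : D.IsSurf μ)
    (hiso : ∀ l, ∀ z ∈ D.T l, ∃ c : ℝ, ∀ v, ‖D.A l z v‖ = c * ‖v‖) [CompleteSpace (HF D μ)]
    {i : HF D μ →L[ℝ] Lp ℝ 2 μ}
    {a : HF D μ →L[ℝ] HF D μ →L[ℝ] ℝ}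
    {b : C(M, ℝ) → HF D μ →L[ℝ] HF D μ →L[ℝ] ℝ} (hS : Sf μ i a) (hi : ∀ v, i v = v.1.fst)
    (ha : ∀ u v, a u v = inner ℝ u.1.snd v.1.snd) (hB : IsB μ i b) (hF : ∀ φ, Fm a (b φ))
    (hcont : ∀ j, Continuous fun φ => Ev a (b φ) j)
    (hmono : ∀ φ i j, i ≤ j → Ev a (b φ) i ≤ Ev a (b φ) j)
    (hex : ∀ φ, ∃ e E, Eg a (b φ) e E) (φ₀ : C(M, ℝ))
    (hA : 0 < ∫ x, Real.exp (φ₀ x) ∂μ) {e : ℕ → HF D μ} {E : ℕ → ℝ} (hE : Eg a (b φ₀) e E)
    (l : ℕ) (hpos : 0 < E l) (hl : E l = E (l + 1)) (hl1 : 1 ≤ l) :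
    ∃ (r : ℕ) (M' : C(M, ℝ) →L[ℝ] (Fin r → ℝ)), Function.Surjective M' ∧
      ∀ h : Fin r → C(M, ℝ), (∀ t : Fin r → ℝ, M' (∑ q, t q • h q) = 0 → t = 0) →
        ∃ ρ : ℝ, 0 < ρ ∧ ∃ δ₁ : ℝ, 0 < δ₁ ∧ ∃ C : ℝ, 0 ≤ C ∧ ∀ (x : C(M, ℝ)) (s δ : ℝ), 0 < s →
          4 * s ≤ δ → δ ≤ δ₁ →
          volume {t : Fin r → ℝ | ‖x + ∑ q, t q • h q - φ₀‖ < ρ ∧
            Xl μ a b (x + ∑ q, t q • h q) (l + 1) - Xl μ a b (x + ∑ q, t q • h q) l ≤ s ∧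
            (Xl μ a b (x + ∑ q, t q • h q) (l + 2) - Xl μ a b (x + ∑ q, t q • h q) l < δ ∨
            Xl μ a b (x + ∑ q, t q • h q) (l + 1) - Xl μ a b (x + ∑ q, t q • h q) (l - 1) < δ)} ≤
            ENNReal.ofReal (C * (δ * s ^ 2)) := by
  obtain ⟨l₀, m, hl₀, hlm, hEl₀, hcl⟩ := cluster hE.mono hE.tt l
  have hlm1 : l + 1 ≤ l₀ + m := ((hcl (l + 1)).1 (by rw [← hl, hEl₀])).2
  have hpos₀ : 0 < E l₀ := by rw [hEl₀]; exact hpos
  obtain ⟨Mf, M'₀, s₀, hM, hM0, hs₀, hM', hev⟩ := core0 hS hB hF hcont hmono hex φ₀ hA hE l₀ m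
    hpos₀ hcl
  -- representatives
  obtain ⟨u, hu⟩ : ∃ u : ℕ → M → ℝ, ∀ j, (i (e j) : M → ℝ) =ᵐ[μ] u j :=
    ⟨fun j => (i (e j) : M → ℝ), fun j => EventuallyEq.rfl⟩
  have hP : ∀ w w' : Fin (m + 1) → ℝ,
      (∀ᵐ x ∂μ, (∑ j, w j * (fun (j : Fin (m + 1)) => u (l₀ + j)) j x) *
        (∑ j, w' j * (fun (j : Fin (m + 1)) => u (l₀ + j)) j x) = 0) → w = 0 ∨ w' = 0 :=
    fun w w' h => propP hD hiso hi ha hB hE hu (l := l₀) (m := m)
      (fun j hj => (hcl (l₀ + j)).2 ⟨Nat.le_add_right _ _, by omega⟩) w w' h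
  obtain ⟨r, M', J, hM's, hJ, hMJ⟩ := rk M'₀
  refine ⟨r, M', hM's, fun h hh => ?_⟩
  obtain ⟨Hm, hHm⟩ := Hdir' h
  obtain ⟨Λ, hΛ⟩ : ∃ Λ : (Fin r → ℝ) →L[ℝ] (Ix m → ℝ), Λ = M'₀.comp Hm := ⟨_, rfl⟩
  have hΛinj : ∀ t, Λ t = 0 → t = 0 := by
    intro t ht
    rw [hΛ, ContinuousLinearMap.comp_apply, hMJ] at ht
    have h1 := hJ _ ht
    rw [hHm] at h1
    exact hh t h1
  have hsurj : ∀ g : C(M, ℝ), ∃ t, Λ t = M'₀ g := by
    have h1 : Function.Injective ((M'.comp Hm : (Fin r → ℝ) →L[ℝ] (Fin r → ℝ)) :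
        (Fin r → ℝ) →ₗ[ℝ] (Fin r → ℝ)) := (injective_iff_map_eq_zero _).2 fun t ht => by
      have h2 : M' (Hm t) = 0 := ht
      rw [hHm] at h2
      exact hh t h2
    have h2 := LinearMap.injective_iff_surjective.1 h1
    intro g
    obtain ⟨t, ht⟩ := h2 (M' g)
    refine ⟨t, ?_⟩
    have h3 : M' (Hm t) = M' g := ht
    rw [hΛ, ContinuousLinearMap.comp_apply, hMJ, h3, ← hMJ]
  have hann : ∀ {V : Fin (m + 1) → Fin (m + 1) → ℝ} (_ : Ort V) {k : ℕ}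
      {σ : Fin (k + 1) → Fin (m + 1)} (_ : Function.Injective σ) (c : Ix k → ℝ),
      (∀ t, ∑ q, c q * Cm σ V (Λ t) q = 0) →
      ∃ S : Fin (k + 1) → Fin (k + 1) → ℝ, (∀ i j, S i j = S j i) ∧
      (∀ N : Fin (k + 1) → Fin (k + 1) → ℝ, (∀ i j, N i j = N j i) →
        ∑ q, c q * cI N q = ∑ i, ∑ j, S i j * N i j) ∧
      ∀ᵐ x ∂μ, ∑ i, ∑ j, S i j * ((∑ p : Fin (m + 1), V (σ i) p * u (l₀ + p) x) *
        (∑ p : Fin (m + 1), V (σ j) p * u (l₀ + p) x)) = 0 := by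
    intro V hV k σ hσ c hc
    refine ann hB φ₀ hu l₀ m hs₀ hM' hV hσ c fun g => ?_
    obtain ⟨t, ht⟩ := hsurj g
    rw [← ht]
    exact hc t
  have hmm : ∀ {k : ℕ} {S : Fin (k + 1) → Fin (k + 1) → ℝ} {c : Ix k → ℝ},
      (∀ N : Fin (k + 1) → Fin (k + 1) → ℝ, (∀ i j, N i j = N j i) →
        ∑ q, c q * cI N q = ∑ i, ∑ j, S i j * N i j) → ∀ q, c q =
          ∑ i, ∑ j, S i j * mt (Pi.single q 1) i j := by
    intro k S c h1 q
    rw [← h1 _ (mt_symm _), cI_mt]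
    simp [Pi.single_apply]
  obtain ⟨ε, hε, hfd⟩ := fin_dim3 (m := m) (by omega) Λ hΛinj
    (fun V hV a ha' => by
      obtain ⟨P, hP2⟩ := Cm_lin (sg (m := m) a 1 ha') V
      obtain ⟨ζ, hζ⟩ := zt2 (P.comp Λ) fun c hc => by
        obtain ⟨S, hS1, hS2, hS3⟩ := hann hV (sg_inj ha') c fun t => by
          have := hc t
          rw [ContinuousLinearMap.comp_apply, hP2] at this
          exact this
        have hS0 := rel2 hP hV (sg_inj ha') hS1 hS3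
        funext q
        rw [hmm hS2 q, hS0]
        simp
      refine ⟨ζ, fun z hz => hζ z ?_⟩
      rw [ContinuousLinearMap.comp_apply, hP2]
      exact hz)
    (fun V hV a ha' => by
      obtain ⟨P, hP2⟩ := Cm_lin (sg (m := m) a 2 ha') V
      obtain ⟨ζ, hζ⟩ := zt4 (P.comp Λ) fun c c' hc hc' => by
        obtain ⟨S, hS1, hS2, hS3⟩ := hann hV (sg_inj ha') c fun t => by
          have := hc t
          rw [ContinuousLinearMap.comp_apply, hP2] at this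
          exact this
        obtain ⟨S', hS1', hS2', hS3'⟩ := hann hV (sg_inj ha') c' fun t => by
          have := hc' t
          rw [ContinuousLinearMap.comp_apply, hP2] at this
          exact this
        obtain ⟨α, β, h1, h2⟩ := rel3 hP hV (sg_inj ha') hS1 hS1' hS3 hS3'
        refine ⟨α, β, h1, fun q => ?_⟩
        rw [hmm hS2 q, hmm hS2' q, Finset.mul_sum, Finset.mul_sum, ← Finset.sum_add_distrib]
        refine Finset.sum_eq_zero fun i _ => ?_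
        rw [Finset.mul_sum, Finset.mul_sum, ← Finset.sum_add_distrib]
        refine Finset.sum_eq_zero fun j _ => ?_
        rw [← mul_assoc, ← mul_assoc, ← add_mul, h2, zero_mul]
      refine ⟨ζ, fun z hz => hζ z ?_⟩
      rw [ContinuousLinearMap.comp_apply, hP2]
      exact hz)
  -- the slices
  obtain ⟨K₁, hK₁, hK₁t⟩ : ∃ K₁ : ℝ, 0 < K₁ ∧ ∀ t, ‖t‖ ≤ K₁ * ‖Λ t‖ := by
    have h1 : Function.Injective (Λ : (Fin r → ℝ) →ₗ[ℝ] (Ix m → ℝ)) :=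
      (injective_iff_map_eq_zero _).2 fun t ht => hΛinj t ht
    obtain ⟨K, hK, hK2⟩ := LinearMap.exists_antilipschitzWith
      (Λ : (Fin r → ℝ) →ₗ[ℝ] (Ix m → ℝ)) (LinearMap.ker_eq_bot.2 h1)
    refine ⟨K, by exact_mod_cast hK, fun t => ?_⟩
    have h4 := hK2.le_mul_dist t 0
    rwa [dist_zero_right, map_zero, dist_zero_right] at h4
  obtain ⟨ε', hε'⟩ : ∃ ε' : NNReal, 0 < ε' ∧ (ε' : ℝ) * ‖Hm‖ ≤ ε := by
    have h1 : 0 < ε / (‖Hm‖ + 1) := by positivity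
    refine ⟨Real.toNNReal (ε / (‖Hm‖ + 1)), Real.toNNReal_pos.2 h1, ?_⟩
    rw [Real.coe_toNNReal _ h1.le, div_mul_eq_mul_div, div_le_iff₀ (by positivity)]
    have := norm_nonneg Hm
    nlinarith
  obtain ⟨U, hU, hUa⟩ := hM.approximates_deriv_on_nhds (Or.inr hε'.1)
  have hAc : Continuous fun φ : C(M, ℝ) => ∫ x, Real.exp (φ x) ∂μ :=
    (Pool.Agent.Y689.QR.int_cont μ).comp Pool.Agent.Y689.QR.exp_cont
  have hXc : ∀ j, Continuous fun φ => Xl μ a b φ j := fun j =>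
    (hAc.div_const _).mul (hcont j)
  have hpi := Real.pi_pos
  have hlt : ∀ i j, E i < E j → Xl μ a b φ₀ i < Xl μ a b φ₀ j := by
    intro i j hij
    have hmm : ∀ j, Ev a (b φ₀) j = E j := fun j =>
      Pool.Agent.Y592.QE.mm _ a (b φ₀) (hF φ₀) e E hE j
    show (∫ x, Real.exp (φ₀ x) ∂μ) / (4 * π) * Ev a (b φ₀) i <
      (∫ x, Real.exp (φ₀ x) ∂μ) / (4 * π) * Ev a (b φ₀) j
    rw [hmm, hmm]
    exact mul_lt_mul_of_pos_left hij (by positivity)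
  obtain ⟨η₁, hη₁, hη₁e⟩ : ∃ η : ℝ, 0 < η ∧ ∀ᶠ φ in 𝓝 φ₀,
      η < Xl μ a b φ (l₀ + m + 1) - Xl μ a b φ (l₀ + m) := by
    have h1 : E (l₀ + m) < E (l₀ + m + 1) := by
      refine lt_of_le_of_ne (hE.mono (Nat.le_succ _)) fun h => ?_
      have h2 := (hcl (l₀ + m)).2 ⟨Nat.le_add_right _ _, le_rfl⟩
      have h3 := (hcl (l₀ + m + 1)).1 (by rw [← h, h2])
      omega
    have h2 := hlt _ _ h1
    refine ⟨(Xl μ a b φ₀ (l₀ + m + 1) - Xl μ a b φ₀ (l₀ + m)) / 2, by linarith, ?_⟩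
    have h3 : Continuous fun φ => Xl μ a b φ (l₀ + m + 1) - Xl μ a b φ (l₀ + m) :=
      (hXc _).sub (hXc _)
    exact h3.continuousAt.eventually (lt_mem_nhds (by
      show (Xl μ a b φ₀ (l₀ + m + 1) - Xl μ a b φ₀ (l₀ + m)) / 2 <
        Xl μ a b φ₀ (l₀ + m + 1) - Xl μ a b φ₀ (l₀ + m)
      linarith))
  obtain ⟨η₂, hη₂, hη₂e⟩ : ∃ η : ℝ, 0 < η ∧ ∀ᶠ φ in 𝓝 φ₀, 1 ≤ l₀ →
      η < Xl μ a b φ l₀ - Xl μ a b φ (l₀ - 1) := by
    by_cases hl₀1 : 1 ≤ l₀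
    · have h1 : E (l₀ - 1) < E l₀ := by
        refine lt_of_le_of_ne (hE.mono (Nat.sub_le _ _)) fun h => ?_
        have h3 := (hcl (l₀ - 1)).1 h
        omega
      have h2 := hlt _ _ h1
      refine ⟨(Xl μ a b φ₀ l₀ - Xl μ a b φ₀ (l₀ - 1)) / 2, by linarith, ?_⟩
      have h4 : Continuous fun φ => Xl μ a b φ l₀ - Xl μ a b φ (l₀ - 1) := (hXc _).sub (hXc _)
      have h3 : ∀ᶠ φ in 𝓝 φ₀, (Xl μ a b φ₀ l₀ - Xl μ a b φ₀ (l₀ - 1)) / 2 <
          Xl μ a b φ l₀ - Xl μ a b φ (l₀ - 1) :=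
        h4.continuousAt.eventually (lt_mem_nhds (by
          show (Xl μ a b φ₀ l₀ - Xl μ a b φ₀ (l₀ - 1)) / 2 <
            Xl μ a b φ₀ l₀ - Xl μ a b φ₀ (l₀ - 1)
          linarith))
      exact h3.mono fun φ h _ => h
    · exact ⟨1, one_pos, Eventually.of_forall fun φ h => absurd h hl₀1⟩
  obtain ⟨ρ₀, hρ₀, hρ₀U⟩ := Metric.eventually_nhds_iff_ball.1
    ((hev.and hU).and (hη₁e.and hη₂e))
  obtain ⟨K₀, hK₀⟩ : ∃ K₀ : ℝ, K₀ = ‖Hm‖ + K₁ * (‖M'₀‖ * (2 * ρ₀)) + 1 := ⟨_, rfl⟩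
  have hK₀0 : 0 < K₀ := by
    rw [hK₀]
    positivity
  have hK₀1 : ‖Hm‖ ≤ K₀ := by
    rw [hK₀]
    have : 0 ≤ K₁ * (‖M'₀‖ * (2 * ρ₀)) := by positivity
    linarith
  have hK₀2 : K₁ * (‖M'₀‖ * (2 * ρ₀)) ≤ K₀ := by
    rw [hK₀]
    have := norm_nonneg Hm
    linarith
  obtain ⟨δ₀, hδ₀, C, hC, hbd⟩ := hfd K₀ ρ₀ (ρ₀ / 2) hK₀0 (by linarith) ⟨l - l₀, by omega⟩
    ⟨l - l₀ + 1, by omega⟩ rfl
  refine ⟨ρ₀ / 2, by positivity, min δ₀ (min η₁ η₂), lt_min hδ₀ (lt_min hη₁ hη₂), C, hC,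
    fun x s δ hs hsδ hδδ => ?_⟩
  have hδ0 : δ ≤ δ₀ := hδδ.trans (min_le_left _ _)
  have hδ1 : δ ≤ η₁ := hδδ.trans ((min_le_right _ _).trans (min_le_left _ _))
  have hδ2 : δ ≤ η₂ := hδδ.trans ((min_le_right _ _).trans (min_le_right _ _))
  have hchoice : ∀ t : Fin r → ℝ, ∃ V : Fin (m + 1) → Fin (m + 1) → ℝ,
      ‖x + Hm t - φ₀‖ < ρ₀ → Ort V ∧ Mf (x + Hm t) = cI (Tc (Fin.cons 0 fun i : Fin m =>
        Xl μ a b (x + Hm t) (l₀ + (i + 1)) - Xl μ a b (x + Hm t) l₀) V) := by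
    intro t
    by_cases ht : ‖x + Hm t - φ₀‖ < ρ₀
    · obtain ⟨V, hV1, hV2⟩ := (hρ₀U (x + Hm t) (by rwa [mem_ball_iff_norm])).1.1
      exact ⟨V, fun _ => ⟨hV1, hV2⟩⟩
    · exact ⟨0, fun h => absurd h ht⟩
  choose V hV using hchoice
  have hcons : ∀ φ : C(M, ℝ), (Fin.cons 0 fun i : Fin m =>
      Xl μ a b φ (l₀ + (i + 1)) - Xl μ a b φ l₀ : Fin (m + 1) → ℝ) =
        fun j : Fin (m + 1) => Xl μ a b φ (l₀ + j) - Xl μ a b φ l₀ := by
    intro φ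
    funext j
    refine Fin.cases ?_ (fun j => ?_) j
    · simp
    · simp
  have hXmono : ∀ φ i j, i ≤ j → Xl μ a b φ i ≤ Xl μ a b φ j := by
    intro φ i j hij
    refine mul_le_mul_of_nonneg_left (hmono φ i j hij) ?_
    have h1 : 0 ≤ ∫ x, Real.exp (φ x) ∂μ := integral_nonneg fun x => (Real.exp_pos _).le
    have := Real.pi_pos
    positivity
  have hSl : Sl Λ ε K₀ ρ₀ (fun t => Mf (x + Hm t)) V
      (fun t j => Xl μ a b (x + Hm t) (l₀ + j) - Xl μ a b (x + Hm t) l₀)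
      (fun t => ‖x + Hm t - φ₀‖) := by
    refine ⟨fun t t' => ?_, fun t t' ht ht' => ?_, fun t t' ht ht' => ?_,
      fun t ht => (hV t ht).1, fun t ht p q hpq => ?_, fun t ht => ?_⟩
    · have h1 : x + Hm t' - φ₀ = (x + Hm t - φ₀) + Hm (t' - t) := by
        rw [map_sub]
        abel
      rw [h1]
      refine (norm_add_le _ _).trans (add_le_add le_rfl ?_)
      exact (Hm.le_opNorm _).trans (mul_le_mul_of_nonneg_right hK₀1 (norm_nonneg _))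
    · have h1 : ‖Hm (t' - t)‖ ≤ 2 * ρ₀ := by
        have h2 : Hm (t' - t) = (x + Hm t' - φ₀) - (x + Hm t - φ₀) := by
          rw [map_sub]
          abel
        rw [h2]
        refine (norm_sub_le _ _).trans ?_
        linarith
      calc ‖t' - t‖ ≤ K₁ * ‖Λ (t' - t)‖ := hK₁t _
        _ ≤ K₁ * (‖M'₀‖ * (2 * ρ₀)) := by
            refine mul_le_mul_of_nonneg_left ?_ hK₁.le
            rw [hΛ, ContinuousLinearMap.comp_apply]
            exact (M'₀.le_opNorm _).trans (mul_le_mul_of_nonneg_left h1 (norm_nonneg _))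
        _ ≤ K₀ := hK₀2
    · have h1 := hUa (x + Hm t') (hρ₀U _ (by rwa [mem_ball_iff_norm])).1.2 (x + Hm t)
        (hρ₀U _ (by rwa [mem_ball_iff_norm])).1.2
      have h2 : x + Hm t' - (x + Hm t) = Hm (t' - t) := by
        rw [map_sub]
        abel
      rw [h2] at h1
      rw [hΛ, ContinuousLinearMap.comp_apply]
      refine h1.trans ?_
      calc (ε' : ℝ) * ‖Hm (t' - t)‖ ≤ ε' * (‖Hm‖ * ‖t' - t‖) :=
            mul_le_mul_of_nonneg_left (Hm.le_opNorm _) ε'.2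
        _ = (ε' * ‖Hm‖) * ‖t' - t‖ := by ring
        _ ≤ ε * ‖t' - t‖ := mul_le_mul_of_nonneg_right hε'.2 (norm_nonneg _)
    · exact sub_le_sub_right (hXmono _ _ _ (Nat.add_le_add_left hpq _)) _
    · have h1 := (hV t ht).2
      rw [hcons] at h1
      exact h1
  have hfin := hbd _ V _ _ hSl s δ hs hsδ hδ0
  refine le_trans (measure_mono ?_) hfin
  rintro t ⟨ht1, ht2, ht3⟩
  rw [← hHm] at ht1 ht2 ht3
  obtain ⟨hb1, hb2⟩ := (hρ₀U (x + Hm t) (by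
    rw [mem_ball_iff_norm]
    linarith)).2
  refine ⟨ht1, ?_, ?_⟩
  · show Xl μ a b (x + Hm t) (l₀ + (l - l₀ + 1)) - Xl μ a b (x + Hm t) l₀ -
      (Xl μ a b (x + Hm t) (l₀ + (l - l₀)) - Xl μ a b (x + Hm t) l₀) ≤ s
    rw [show l₀ + (l - l₀ + 1) = l + 1 by omega, show l₀ + (l - l₀) = l by omega]
    linarith
  · rintro ⟨hiso1, hiso2⟩
    have hm1 := hXmono (x + Hm t) l (l + 1) (Nat.le_succ l)
    rcases ht3 with ht3 | ht3
    · by_cases h : l + 2 ≤ l₀ + m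
      · have h1 := hiso2 ⟨l - l₀ + 2, by omega⟩ (by
          rw [Fin.lt_def]
          simp only
          omega)
        have h2 : δ ≤ Xl μ a b (x + Hm t) (l₀ + (l - l₀ + 2)) - Xl μ a b (x + Hm t) l₀ -
          (Xl μ a b (x + Hm t) (l₀ + (l - l₀ + 1)) - Xl μ a b (x + Hm t) l₀) := h1
        rw [show l₀ + (l - l₀ + 2) = l + 2 by omega, show l₀ + (l - l₀ + 1) = l + 1 by omega] at h2
        linarith
      · rw [show l₀ + m + 1 = l + 2 by omega, show l₀ + m = l + 1 by omega] at hb1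
        linarith
    · by_cases h : l₀ + 1 ≤ l
      · have h1 := hiso1 ⟨l - l₀ - 1, by omega⟩ (by
          rw [Fin.lt_def]
          simp only
          omega)
        have h2 : δ ≤ Xl μ a b (x + Hm t) (l₀ + (l - l₀)) - Xl μ a b (x + Hm t) l₀ -
          (Xl μ a b (x + Hm t) (l₀ + (l - l₀ - 1)) - Xl μ a b (x + Hm t) l₀) := h1
        rw [show l₀ + (l - l₀) = l by omega, show l₀ + (l - l₀ - 1) = l - 1 by omega] at h2
        linarith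
      · have h1 := hb2 (by omega)
        rw [show l₀ = l by omega] at h1
        linarith

end Pool.Agent.L5helper74.QR
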