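import Pool.Agent.L5helper74.QR.Pde
import Pool.Agent.L5helper74.QR.Alg5
import Pool.Agent.L5helper74.UC.Tri4

/-!
# Three levels: transversality for the eigenfunctions of a surface
-/

set_option autoImplicit false
set_option linter.unusedSectionVars false
set_option synthInstance.maxHeartbeats 400000

open Set Filter Topology MeasureTheory Module
open Pool.Agent.Y262.QE Pool.Agent.Y264.QR Pool.Agent.Q233.GLV
open Pool.Agent.L5helper74.LR Pool.Agent.L5helper74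

noncomputable section

namespace Pool.Agent.L5helper74.QR

variable {M : Type} [MetricSpace M] [CompactSpace M] [MeasurableSpace M] [BorelSpace M]
  {μ : Measure M} [IsFiniteMeasure μ]

/-- eigenfunctions with the same eigenvalue do not lie on a quadratic cone -/
lemma propC [PreconnectedSpace M] {D : Data M} (hD : D.IsSurf μ)
    (hiso : ∀ l, ∀ z ∈ D.T l, ∃ c : ℝ, ∀ v, ‖D.A l z v‖ = c * ‖v‖) {i : HF D μ →L[ℝ] Lp ℝ 2 μ}
    {a : HF D μ →L[ℝ] HF D μ →L[ℝ] ℝ}
    {b : C(M, ℝ) → HF D μ →L[ℝ] HF D μ →L[ℝ] ℝ} (hi : ∀ v, i v = v.1.fst)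
    (ha : ∀ u v, a u v = inner ℝ u.1.snd v.1.snd) (hB : IsB μ i b) {φ : C(M, ℝ)}
    {e : ℕ → HF D μ} {E : ℕ → ℝ} (hE : Eg a (b φ) e E) {u : ℕ → M → ℝ}
    (heu : ∀ j, (i (e j) : M → ℝ) =ᵐ[μ] u j) {l m : ℕ} (hcl : ∀ j, j ≤ m → E (l + j) = E l)
    (w₁ w₂ w₃ : Fin (m + 1) → ℝ) (h : ∀ᵐ x ∂μ, (∑ j : Fin (m + 1), w₁ j * u (l + j) x) *
      (∑ j : Fin (m + 1), w₁ j * u (l + j) x) + (∑ j : Fin (m + 1), w₂ j * u (l + j) x) *
      (∑ j : Fin (m + 1), w₂ j * u (l + j) x) = (∑ j : Fin (m + 1), w₃ j * u (l + j) x) *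
      (∑ j : Fin (m + 1), w₃ j * u (l + j) x)) : w₂ = 0 ∨ ∃ t : ℝ, w₁ = t • w₂ := by
  have hvec : ∀ w : Fin (m + 1) → ℝ, ∃ v : HF D μ,
      (∀ z, a v z = E l * b φ v z) ∧
      (∀ᵐ x ∂μ, (i v : M → ℝ) x = ∑ j : Fin (m + 1), w j * u (l + j) x) ∧
      (w ≠ 0 → ¬ (i v : M → ℝ) =ᵐ[μ] 0) := by
    intro w
    obtain ⟨v, hv⟩ : ∃ v : HF D μ, v = ∑ j : Fin (m + 1), w j • e (l + j) := ⟨_, rfl⟩
    refine ⟨v, fun z => ?_, ?_, fun hw h0 => ?_⟩
    · rw [hv]
      simp only [map_sum, map_smul, _root_.sum_apply, _root_.smul_apply, smul_eq_mul, hE.eig]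
      rw [Finset.mul_sum]
      refine Finset.sum_congr rfl fun j _ => ?_
      rw [hcl j (Nat.lt_succ_iff.1 j.2)]
      ring
    · have h1 : ∀ s : Finset (Fin (m + 1)), ∀ᵐ x ∂μ,
          ((∑ j ∈ s, w j • i (e (l + j)) : Lp ℝ 2 μ) : M → ℝ) x =
            ∑ j ∈ s, w j * u (l + j) x := by
        intro s
        induction s using Finset.induction_on with
        | empty =>
          simp only [Finset.sum_empty]
          exact Lp.coeFn_zero ℝ 2 μ
        | insert j s hj ih =>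
          rw [Finset.sum_insert hj]
          filter_upwards [ih, Lp.coeFn_add (w j • i (e (l + j)))
            (∑ j ∈ s, w j • i (e (l + j))), Lp.coeFn_smul (w j) (i (e (l + j))),
            heu (l + j)] with x h2 h3 h4 h5
          rw [h3, Pi.add_apply, h4, Pi.smul_apply, h5, h2, Finset.sum_insert hj, smul_eq_mul]
      have h2 : (i v : Lp ℝ 2 μ) = ∑ j : Fin (m + 1), w j • i (e (l + j)) := by
        rw [hv, map_sum]
        simp only [map_smul]
      rw [h2]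
      exact h1 _
    · have h1 : b φ v v = ∑ j, w j ^ 2 := by
        rw [hv]
        simp only [map_sum, map_smul, _root_.sum_apply, _root_.smul_apply, smul_eq_mul, hE.orth]
        refine Finset.sum_congr rfl fun j _ => ?_
        rw [Finset.sum_eq_single j]
        · rw [if_pos rfl]
          ring
        · intro k _ hk
          rw [if_neg (fun h => hk (Fin.ext (by omega)))]
          ring
        · intro h
          exact absurd (Finset.mem_univ _) h
      have h2 : b φ v v = 0 := by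
        rw [hB]
        refine integral_eq_zero_of_ae ?_
        filter_upwards [h0] with x hx
        rw [hx]
        simp
      rw [h2] at h1
      refine hw (funext fun j => ?_)
      have h3 := (Finset.sum_eq_zero_iff_of_nonneg fun j _ => sq_nonneg (w j)).1 h1.symm j
        (Finset.mem_univ j)
      exact pow_eq_zero_iff two_ne_zero |>.1 h3
  by_cases hw₂ : w₂ = 0
  · exact Or.inl hw₂
  right
  obtain ⟨v₁, p1, q1, -⟩ := hvec w₁
  obtain ⟨v₂, p2, q2, r2⟩ := hvec w₂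
  obtain ⟨v₃, p3, q3, -⟩ := hvec w₃
  obtain ⟨t, ht⟩ := UC.nocone hD hiso hi ha hB p1 p2 p3 (by
    filter_upwards [h, q1, q2, q3] with x h1 h2 h3 h4
    rw [h2, h3, h4]
    exact h1) (r2 hw₂)
  refine ⟨t, ?_⟩
  have h0 : ∀ᵐ x ∂μ, ∑ j : Fin (m + 1), (w₁ - t • w₂) j * u (l + j) x = 0 := by
    filter_upwards [ht, q1, q2] with x h1 h2 h3
    rw [h2, h3] at h1
    simp only [Pi.sub_apply, Pi.smul_apply, smul_eq_mul, sub_mul, Finset.sum_sub_distrib]
    rw [h1, Finset.mul_sum]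
    rw [sub_eq_zero]
    exact Finset.sum_congr rfl fun j _ => by ring
  rcases propP hD hiso hi ha hB hE heu hcl (w₁ - t • w₂) (w₁ - t • w₂) (by
    filter_upwards [h0] with x hx
    rw [hx, mul_zero]) with h1 | h1 <;> exact sub_eq_zero.1 h1

variable {ι : Type} [Fintype ι]

/-- directions -/
lemma ztg {k κ d : ℕ} (hcard : κ + d = Fintype.card (Ix k)) (P : (ι → ℝ) →L[ℝ] (Ix k → ℝ))
    (h : ∀ c : Fin (d + 1) → Ix k → ℝ, (∀ r t, ∑ q, c r q * P t q = 0) →
      ∃ t : Fin (d + 1) → ℝ, t ≠ 0 ∧ ∀ q, ∑ r, t r * c r q = 0) :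
    ∃ ζ : (Fin κ → ℝ) →L[ℝ] (ι → ℝ), ∀ z, P (ζ z) = 0 → z = 0 := by
  classical
  refine zt P ?_
  obtain ⟨Mx, hMx⟩ : ∃ Mx : Matrix (Ix k) ι ℝ,
      Mx = LinearMap.toMatrix' (P : (ι → ℝ) →ₗ[ℝ] (Ix k → ℝ)) := ⟨_, rfl⟩
  have hPM : ∀ t, P t = Mx.mulVec t := by
    intro t
    rw [hMx]
    have h1 := LinearMap.toMatrix'_mulVec (P : (ι → ℝ) →ₗ[ℝ] (Ix k → ℝ)) t
    rw [h1]
    rfl
  have hr1 : Mx.rank = finrank ℝ (LinearMap.range (P : (ι → ℝ) →ₗ[ℝ] (Ix k → ℝ))) := by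
    have h1 : Mx.mulVecLin = (P : (ι → ℝ) →ₗ[ℝ] (Ix k → ℝ)) := by
      refine LinearMap.ext fun t => ?_
      rw [Matrix.mulVecLin_apply, ← hPM]
      rfl
    rw [Matrix.rank, h1]
  rw [← hr1, ← Matrix.rank_transpose]
  have h1 := LinearMap.finrank_range_add_finrank_ker (Mx.transpose.mulVecLin)
  rw [finrank_fintype_fun_eq_card] at h1
  by_contra hcon
  obtain ⟨W, hW⟩ : ∃ W : Submodule ℝ (Ix k → ℝ), W = LinearMap.ker (Mx.transpose.mulVecLin) :=
    ⟨_, rfl⟩
  rw [← hW] at h1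
  have hle : d + 1 ≤ finrank ℝ W := by
    rw [Matrix.rank] at hcon
    omega
  have hmem : ∀ c ∈ W, ∀ t, ∑ q, c q * P t q = 0 := by
    intro c hc t
    rw [hW, LinearMap.mem_ker, Matrix.mulVecLin_apply] at hc
    have h2 : ∑ q, c q * P t q = (Mx.transpose.mulVec c) ⬝ᵥ t := by
      rw [Matrix.mulVec_transpose, ← Matrix.dotProduct_mulVec, hPM]
      rfl
    rw [h2, hc, zero_dotProduct]
  have hb : LinearIndependent ℝ fun i : Fin (d + 1) => finBasis ℝ W (Fin.castLE hle i) :=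
    (finBasis ℝ W).linearIndependent.comp _ (Fin.castLE_injective hle)
  obtain ⟨t, ht, hs⟩ := h (fun r => finBasis ℝ W (Fin.castLE hle r)) fun r =>
    hmem _ (finBasis ℝ W (Fin.castLE hle r)).2
  have h3 : ∑ i : Fin (d + 1), t i • finBasis ℝ W (Fin.castLE hle i) = 0 := by
    refine Subtype.ext (funext fun q => ?_)
    rw [Submodule.coe_sum]
    simp only [Finset.sum_apply, Submodule.coe_smul, Pi.smul_apply, smul_eq_mul]
    exact hs q
  exact ht (funext (Fintype.linearIndependent_iff.1 hb t h3))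

end Pool.Agent.L5helper74.QR
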