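import Pool.Agent.L5helper74.LR.Gau

/-!
# Quadratic repulsion: series with independent coefficients
-/

set_option autoImplicit false
set_option linter.unusedSectionVars false

open Set Filter Topology MeasureTheory ProbabilityTheory
open scoped ENNReal NNReal

noncomputable section

namespace Pool.Agent.L5helper74.QR

lemma pi_smul' {ι : Type} [Fintype ι] (c : ℝ≥0) :
    Measure.pi (fun _ : ι => c • (volume : Measure ℝ)) = c ^ Fintype.card ι • volume := by
  refine Measure.pi_eq fun s _ => ?_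
  simp only [Measure.smul_apply]
  rw [volume_pi_pi]
  simp only [ENNReal.smul_def, smul_eq_mul, Finset.prod_mul_distrib, Finset.prod_const]
  simp

variable {Ω : Type} [MeasurableSpace Ω] {P : Measure Ω} [IsProbabilityMeasure P] {X : Type}
  [NormedAddCommGroup X] [NormedSpace ℝ X] [MeasurableSpace X] [BorelSpace X]
  [SecondCountableTopology X] {ξ : ℕ → Ω → ℝ} {f : ℕ → X} {φ : Ω → X}

/-- the rest of the series -/
def Yr (ξ : ℕ → Ω → ℝ) (f : ℕ → X) (φ : Ω → X) (S : Finset ℕ) (ω : Ω) : X :=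
  φ ω - ∑ k ∈ S, ξ k ω • f k

lemma Yr_tendsto (hφ : ∀ ω, Tendsto (fun n => ∑ k ∈ Finset.range n, ξ k ω • f k) atTop (𝓝 (φ ω))) (S : Finset ℕ) (ω : Ω) :
    Tendsto (fun n => ∑ k ∈ Finset.range n \ S, ξ k ω • f k) atTop (𝓝 (Yr ξ f φ S ω)) := by
  have h1 := (hφ ω).sub_const (∑ k ∈ S, ξ k ω • f k)
  refine h1.congr' ?_
  filter_upwards [eventually_ge_atTop (S.sup id + 1)] with n hn
  have hS : S ⊆ Finset.range n := by
    intro k hk
    have h2 : k ≤ S.sup id := Finset.le_sup (f := id) hk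
    rw [Finset.mem_range]
    omega
  rw [sub_eq_iff_eq_add, Finset.sum_sdiff hS]

lemma Yr_meas (hφ : ∀ ω, Tendsto (fun n => ∑ k ∈ Finset.range n, ξ k ω • f k) atTop (𝓝 (φ ω))) (S : Finset ℕ)
    (T : Set ℕ) (hT : ∀ k, k ∉ S → k ∈ T) :
    Measurable[⨆ k ∈ T, MeasurableSpace.comap (ξ k) inferInstance] (Yr ξ f φ S) := by
  have h1 : ∀ k, k ∉ S → Measurable[⨆ k ∈ T, MeasurableSpace.comap (ξ k) inferInstance]
      (ξ k) := by
    intro k hk
    have h2 : MeasurableSpace.comap (ξ k) inferInstance ≤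
        ⨆ k ∈ T, MeasurableSpace.comap (ξ k) inferInstance :=
      le_iSup₂ (f := fun (k : ℕ) (_ : k ∈ T) => MeasurableSpace.comap (ξ k) inferInstance) k
        (hT k hk)
    exact Measurable.mono (comap_measurable (ξ k)) h2 le_rfl
  refine @measurable_of_tendsto_metrizable Ω X
    (⨆ k ∈ T, MeasurableSpace.comap (ξ k) inferInstance) _ _ _ _
    (fun n ω => ∑ k ∈ Finset.range n \ S, ξ k ω • f k) _ (fun n => ?_)
    (tendsto_pi_nhds.2 fun ω => Yr_tendsto hφ S ω)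
  refine @Finset.measurable_fun_sum X ℕ Ω _ _ _
    (⨆ k ∈ T, MeasurableSpace.comap (ξ k) inferInstance) _ _ fun k hk => ?_
  have h2 := h1 k (Finset.mem_sdiff.1 hk).2
  exact (continuous_id.smul continuous_const : Continuous fun x : ℝ => x • f k).measurable.comp h2

lemma Xi_meas {κ : Type} [Fintype κ] {k : κ → ℕ} {T : Set ℕ} (hT : ∀ q, k q ∈ T) :
    Measurable[⨆ k ∈ T, MeasurableSpace.comap (ξ k) inferInstance]
      (fun ω q => ξ (k q) ω) := by
  refine @measurable_pi_lambda _ _ _ (⨆ k ∈ T, MeasurableSpace.comap (ξ k) inferInstance) _ _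
    fun q => ?_
  have h2 : MeasurableSpace.comap (ξ (k q)) inferInstance ≤
        ⨆ k ∈ T, MeasurableSpace.comap (ξ k) inferInstance :=
      le_iSup₂ (f := fun (k : ℕ) (_ : k ∈ T) => MeasurableSpace.comap (ξ k) inferInstance) (k q)
        (hT q)
  exact Measurable.mono (comap_measurable (ξ (k q))) h2 le_rfl

lemma sig_le (hξ : ∀ k, Measurable (ξ k)) (T : Set ℕ) :
    ⨆ k ∈ T, MeasurableSpace.comap (ξ k) inferInstance ≤ (inferInstance : MeasurableSpace Ω) :=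
  iSup₂_le fun k _ => (hξ k).comap_le

lemma ind (hξ : ∀ k, Measurable (ξ k)) (hind : iIndepFun ξ P)
    (hφ : ∀ ω, Tendsto (fun n => ∑ k ∈ Finset.range n, ξ k ω • f k) atTop (𝓝 (φ ω))) {κ : Type} [Fintype κ] {k : κ → ℕ}
    (S : Finset ℕ) (hS : ∀ q, k q ∈ S) : IndepFun (Yr ξ f φ S) (fun ω q => ξ (k q) ω) P := by
  have h1 := indep_iSup_of_disjoint (fun k => (hξ k).comap_le)
    ((iIndepFun_iff_iIndep _ _ _).1 hind) (S := {k | k ∉ S}) (T := {k | k ∈ S})
    (Set.disjoint_left.2 fun k h2 h3 => h2 h3)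
  rw [IndepFun_iff_Indep]
  refine indep_of_indep_of_le_left (indep_of_indep_of_le_right h1 ?_) ?_
  · exact (Xi_meas (T := {k | k ∈ S}) hS).comap_le
  · exact (Yr_meas hφ S {k | k ∉ S} fun k hk => hk).comap_le

lemma Yr_meas' (hξ : ∀ k, Measurable (ξ k)) (hφ : ∀ ω, Tendsto (fun n => ∑ k ∈ Finset.range n, ξ k ω • f k) atTop (𝓝 (φ ω)))
    (S : Finset ℕ) : Measurable (Yr ξ f φ S) :=
  (Yr_meas hφ S univ fun _ _ => mem_univ _).mono (sig_le hξ _) le_rfl

lemma phi_eq {κ : Type} [Fintype κ] [DecidableEq κ] {k : κ → ℕ} (hk : Function.Injective k)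
    (ω : Ω) :
    Yr ξ f φ (Finset.univ.image k) ω + ∑ q, ξ (k q) ω • f (k q) = φ ω := by
  unfold Yr
  rw [Finset.sum_image fun a _ b _ h => hk h, sub_add_cancel]

/-- the disintegration -/
lemma form (hξ : ∀ k, Measurable (ξ k)) (hind : iIndepFun ξ P)
    (hφ : ∀ ω, Tendsto (fun n => ∑ k ∈ Finset.range n, ξ k ω • f k) atTop (𝓝 (φ ω))) {κ : Type} [Fintype κ] [DecidableEq κ]
    {k : κ → ℕ} (hk : Function.Injective k) {A : Set X} (hA : MeasurableSet A) :
    P {ω | φ ω ∈ A} = ∫⁻ ω, Measure.pi (fun q => P.map (ξ (k q)))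
      {t | Yr ξ f φ (Finset.univ.image k) ω + ∑ q, t q • f (k q) ∈ A} ∂P := by
  obtain ⟨S, hS⟩ : ∃ S, S = Finset.univ.image k := ⟨_, rfl⟩
  have hY := Yr_meas' hξ hφ S
  have hX : Measurable (fun ω (q : κ) => ξ (k q) ω) := measurable_pi_lambda _ fun q => hξ _
  have hi := ind hξ hind hφ S (k := k) fun q => by
    rw [hS]
    exact Finset.mem_image_of_mem k (Finset.mem_univ q)
  have hB : MeasurableSet {p : X × (κ → ℝ) | p.1 + ∑ q, p.2 q • f (k q) ∈ A} := by
    have hc : Continuous fun p : X × (κ → ℝ) => p.1 + ∑ q, p.2 q • f (k q) :=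
      continuous_fst.add (continuous_finsetSum _ fun q _ =>
        ((continuous_apply q).comp continuous_snd).smul continuous_const)
    exact hc.measurable hA
  have h1 := (indepFun_iff_map_prod_eq_prod_map_map hY.aemeasurable hX.aemeasurable).1 hi
  have h2 : P.map (fun ω (q : κ) => ξ (k q) ω) = Measure.pi (fun q => P.map (ξ (k q))) :=
    (iIndepFun_iff_map_fun_eq_pi_map fun q => (hξ (k q)).aemeasurable).1 (hind.precomp hk)
  have h3 : P {ω | φ ω ∈ A} = P.map (fun ω => (Yr ξ f φ S ω, fun q => ξ (k q) ω))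
      {p : X × (κ → ℝ) | p.1 + ∑ q, p.2 q • f (k q) ∈ A} := by
    rw [Measure.map_apply (hY.prodMk hX) hB]
    congr 1
    ext ω
    simp only [mem_preimage, mem_ofPred_eq]
    rw [hS, phi_eq hk]
  rw [h3, h1, Measure.prod_apply hB, lintegral_map (measurable_measure_prodMk_left hB) hY, h2, hS]
  rfl

/-- upper bound -/
theorem ser_up (hξ : ∀ k, Measurable (ξ k)) (hind : iIndepFun ξ P)
    (hφ : ∀ ω, Tendsto (fun n => ∑ k ∈ Finset.range n, ξ k ω • f k) atTop (𝓝 (φ ω)))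
    (hup : ∀ k, ∃ C : ℝ≥0∞, C ≠ ⊤ ∧ ∀ A : Set ℝ, MeasurableSet A →
      P {ω | ξ k ω ∈ A} ≤ C * volume A) {κ : Type} [Fintype κ] [DecidableEq κ]
    {k : κ → ℕ} (hk : Function.Injective k) : ∃ C : ℝ≥0∞, C ≠ ⊤ ∧ ∀ A : Set X,
      MeasurableSet A → ∀ d : ℝ≥0∞,
      (∀ x, volume {t : κ → ℝ | x + ∑ q, t q • f (k q) ∈ A} ≤ d) → P {ω | φ ω ∈ A} ≤ C * d := by
  choose C hC hCA using fun q => hup (k q)
  obtain ⟨K, hK⟩ : ∃ K : ℝ≥0, ∀ q, C q ≤ K := by
    refine ⟨∑ q, (C q).toNNReal, fun q => ?_⟩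
    rw [← ENNReal.coe_toNNReal (hC q), ENNReal.coe_le_coe]
    have := Finset.single_le_sum (f := fun q => (C q).toNNReal) (fun _ _ => zero_le)
      (Finset.mem_univ q)
    simpa using this
  have hle : Measure.pi (fun q => P.map (ξ (k q))) ≤ K ^ Fintype.card κ • volume := by
    rw [← pi_smul']
    refine LR.pi_mono fun q => Measure.le_iff.2 fun A hA => ?_
    rw [Measure.map_apply (hξ _) hA, Measure.smul_apply, ENNReal.smul_def, smul_eq_mul]
    exact (hCA q A hA).trans (mul_le_mul_left (hK q) _)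
  refine ⟨(K : ℝ≥0∞) ^ Fintype.card κ, ENNReal.pow_ne_top ENNReal.coe_ne_top,
    fun A hA d hd => ?_⟩
  rw [form hξ hind hφ hk hA]
  calc _ ≤ ∫⁻ _, (K : ℝ≥0∞) ^ Fintype.card κ * d ∂P := by
        refine lintegral_mono fun ω => (hle _).trans ?_
        rw [Measure.smul_apply, ENNReal.smul_def, smul_eq_mul, ENNReal.coe_pow]
        exact mul_le_mul_right (hd _) _
    _ = _ := by simp

/-- the rest of the series is close to the rest of a given series with positive probability -/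
lemma Yr_pos (hξ : ∀ k, Measurable (ξ k)) (hind : iIndepFun ξ P)
    (hφ : ∀ ω, Tendsto (fun n => ∑ k ∈ Finset.range n, ξ k ω • f k) atTop (𝓝 (φ ω))) {a : ℕ → ℝ} {φ₀ : X}
    (ha : Tendsto (fun n => ∑ k ∈ Finset.range n, a k • f k) atTop (𝓝 φ₀))
    (hlow : ∀ k, ∃ c : ℝ≥0∞, c ≠ 0 ∧ ∃ η : ℝ, 0 < η ∧ ∀ A ⊆ Ioo (a k - η) (a k + η),
      MeasurableSet A → c * volume A ≤ P {ω | ξ k ω ∈ A}) (S : Finset ℕ) {δ : ℝ} (hδ : 0 < δ) :
    P {ω | ‖Yr ξ f φ S ω - (φ₀ - ∑ k ∈ S, a k • f k)‖ < δ} ≠ 0 := by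
  -- the tails
  obtain ⟨N₀, hN₀⟩ : ∃ N₀, ∀ n, N₀ ≤ n → ‖φ₀ - ∑ k ∈ Finset.range n, a k • f k‖ < δ / 4 := by
    have h1 := (tendsto_const_nhds (x := φ₀)).sub ha
    rw [sub_self] at h1
    have h2 := h1.norm
    rw [norm_zero] at h2
    exact (h2.eventually_lt_const (by positivity : 0 < δ / 4)).exists_forall_of_atTop
  obtain ⟨N, hN, hNS, hNP⟩ : ∃ N, N₀ ≤ N ∧ S ⊆ Finset.range N ∧
      P {ω | ‖Yr ξ f φ (Finset.range N) ω‖ < δ / 4} ≠ 0 := by
    by_contra hcon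
    push Not at hcon
    obtain ⟨N₁, hN₁⟩ : ∃ N₁, ∀ N, N₁ ≤ N → S ⊆ Finset.range N := by
      refine ⟨S.sup id + 1, fun N hN k hk => ?_⟩
      have h2 : k ≤ S.sup id := Finset.le_sup (f := id) hk
      rw [Finset.mem_range]
      omega
    have h1 : (univ : Set Ω) ⊆ ⋃ n : ℕ, {ω | ‖Yr ξ f φ (Finset.range (max N₀ N₁ + n)) ω‖ <
        δ / 4} := by
      intro ω _
      have h2 := (tendsto_const_nhds (x := φ ω)).sub (hφ ω)
      rw [sub_self] at h2
      have h3 := h2.norm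
      rw [norm_zero] at h3
      obtain ⟨n, hn⟩ := (h3.eventually_lt_const
        (by positivity : 0 < δ / 4)).exists_forall_of_atTop
      exact mem_iUnion.2 ⟨n, hn _ (Nat.le_add_left _ _)⟩
    have h2 : P (⋃ n : ℕ, {ω | ‖Yr ξ f φ (Finset.range (max N₀ N₁ + n)) ω‖ < δ / 4}) = 0 :=
      measure_iUnion_null fun n => hcon _ ((le_max_left _ _).trans (Nat.le_add_right _ _))
        (hN₁ _ ((le_max_right _ _).trans (Nat.le_add_right _ _)))
    have h3 := measure_mono_null h1 h2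
    rw [measure_univ] at h3
    exact one_ne_zero h3
  obtain ⟨G, hG⟩ : ∃ G, G = Finset.range N \ S := ⟨_, rfl⟩
  obtain ⟨η, hη⟩ : ∃ η : ℝ, η = δ / (2 * (∑ k ∈ G, ‖f k‖ + 1)) := ⟨_, rfl⟩
  have hsum : 0 ≤ ∑ k ∈ G, ‖f k‖ := Finset.sum_nonneg fun _ _ => norm_nonneg _
  have hη0 : 0 < η := by rw [hη]; positivity
  have hE : P (⋂ k ∈ G, ξ k ⁻¹' Ioo (a k - η) (a k + η)) ≠ 0 := by
    rw [hind.measure_inter_preimage_eq_mul G fun k _ => measurableSet_Ioo]
    refine Finset.prod_ne_zero_iff.2 fun k _ => ?_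
    obtain ⟨c, hc, η', hη', h1⟩ := hlow k
    have h2 := h1 (Ioo (a k - min η η') (a k + min η η')) (by
      refine Ioo_subset_Ioo ?_ ?_
      · linarith [min_le_right η η']
      · linarith [min_le_right η η']) measurableSet_Ioo
    have h3 : (0 : ℝ≥0∞) < c * volume (Ioo (a k - min η η') (a k + min η η')) := by
      refine ENNReal.mul_pos hc ?_
      rw [Real.volume_Ioo]
      have h4 : 0 < min η η' := lt_min hη0 hη'
      simp only [ne_eq, ENNReal.ofReal_eq_zero, not_le]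
      linarith
    have h4 : P {ω | ξ k ω ∈ Ioo (a k - min η η') (a k + min η η')} ≤
        P (ξ k ⁻¹' Ioo (a k - η) (a k + η)) := by
      refine measure_mono fun ω hω => ?_
      have h5 : ξ k ω ∈ Ioo (a k - min η η') (a k + min η η') := hω
      have h6 := min_le_left η η'
      exact ⟨by linarith [h5.1], by linarith [h5.2]⟩
    exact (h3.trans_le (h2.trans h4)).ne'
  -- independence
  have h1 := indep_iSup_of_disjoint (fun k => (hξ k).comap_le)
    ((iIndepFun_iff_iIndep _ _ _).1 hind) (S := {k | k ∉ Finset.range N})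
    (T := {k | k ∈ Finset.range N}) (Set.disjoint_left.2 fun k h2 h3 => h2 h3)
  have hm1 : MeasurableSet[⨆ k ∈ {k | k ∉ Finset.range N}, MeasurableSpace.comap (ξ k)
      inferInstance] {ω | ‖Yr ξ f φ (Finset.range N) ω‖ < δ / 4} := by
    have h2 := Yr_meas hφ (Finset.range N) {k | k ∉ Finset.range N} fun k hk => hk
    have h3 : MeasurableSet {x : X | ‖x‖ < δ / 4} :=
      (isOpen_lt continuous_norm continuous_const).measurableSet
    exact h2 h3
  have hm2 : MeasurableSet[⨆ k ∈ {k | k ∈ Finset.range N}, MeasurableSpace.comap (ξ k)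
      inferInstance] (⋂ k ∈ G, ξ k ⁻¹' Ioo (a k - η) (a k + η)) := by
    refine @MeasurableSet.iInter _ _ (⨆ k ∈ {k | k ∈ Finset.range N}, MeasurableSpace.comap (ξ k)
      inferInstance) _ _ fun k => ?_
    refine @MeasurableSet.iInter _ _ (⨆ k ∈ {k | k ∈ Finset.range N}, MeasurableSpace.comap (ξ k)
      inferInstance) _ _ fun hk => ?_
    have h2 : MeasurableSpace.comap (ξ k) inferInstance ≤
        ⨆ k ∈ {k | k ∈ Finset.range N}, MeasurableSpace.comap (ξ k) inferInstance :=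
      le_iSup₂ (f := fun (k : ℕ) (_ : k ∈ {k | k ∈ Finset.range N}) =>
        MeasurableSpace.comap (ξ k) inferInstance) k (by
          rw [hG] at hk
          exact (Finset.mem_sdiff.1 hk).1)
    exact h2 _ ⟨_, measurableSet_Ioo, rfl⟩
  have h2 := (Indep_iff _ _ _).1 h1 _ _ hm1 hm2
  have h3 : P ({ω | ‖Yr ξ f φ (Finset.range N) ω‖ < δ / 4} ∩
      ⋂ k ∈ G, ξ k ⁻¹' Ioo (a k - η) (a k + η)) ≠ 0 := by
    rw [h2]
    exact mul_ne_zero hNP hE
  intro h0
  refine h3 (measure_mono_null ?_ h0)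
  rintro ω ⟨hω1, hω2⟩
  have h4 : ‖Yr ξ f φ (Finset.range N) ω‖ < δ / 4 := hω1
  have h5 : ∀ k ∈ G, |ξ k ω - a k| ≤ η := by
    intro k hk
    have h6 := mem_iInter₂.1 hω2 k hk
    have h7 : ξ k ω ∈ Ioo (a k - η) (a k + η) := h6
    exact abs_le.2 ⟨by linarith [h7.1], by linarith [h7.2]⟩
  have h6 : Yr ξ f φ S ω - (φ₀ - ∑ k ∈ S, a k • f k) = ∑ k ∈ G, (ξ k ω - a k) • f k +
      (Yr ξ f φ (Finset.range N) ω - (φ₀ - ∑ k ∈ Finset.range N, a k • f k)) := by
    have h7 : ∀ g : ℕ → X, ∑ k ∈ Finset.range N, g k = ∑ k ∈ G, g k + ∑ k ∈ S, g k := by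
      intro g
      rw [hG, Finset.sum_sdiff hNS]
    unfold Yr
    rw [h7, h7]
    simp only [sub_smul, Finset.sum_sub_distrib]
    abel
  show ‖Yr ξ f φ S ω - (φ₀ - ∑ k ∈ S, a k • f k)‖ < δ
  rw [h6]
  have h7 : ‖∑ k ∈ G, (ξ k ω - a k) • f k‖ ≤ δ / 2 := by
    calc ‖∑ k ∈ G, (ξ k ω - a k) • f k‖ ≤ ∑ k ∈ G, η * ‖f k‖ := by
          refine (norm_sum_le _ _).trans (Finset.sum_le_sum fun k hk => ?_)
          rw [norm_smul, Real.norm_eq_abs]
          exact mul_le_mul_of_nonneg_right (h5 k hk) (norm_nonneg _)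
      _ = η * ∑ k ∈ G, ‖f k‖ := by rw [Finset.mul_sum]
      _ ≤ η * (∑ k ∈ G, ‖f k‖ + 1) := mul_le_mul_of_nonneg_left (by linarith) hη0.le
      _ = δ / 2 := by rw [hη]; field_simp
  have h8 := hN₀ N hN
  calc _ ≤ ‖∑ k ∈ G, (ξ k ω - a k) • f k‖ +
        ‖Yr ξ f φ (Finset.range N) ω - (φ₀ - ∑ k ∈ Finset.range N, a k • f k)‖ := norm_add_le _ _
    _ ≤ δ / 2 + (‖Yr ξ f φ (Finset.range N) ω‖ + ‖φ₀ - ∑ k ∈ Finset.range N, a k • f k‖) :=
        add_le_add h7 (norm_sub_le _ _)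
    _ < δ := by linarith

/-- lower bound -/
theorem ser_low (hξ : ∀ k, Measurable (ξ k)) (hind : iIndepFun ξ P)
    (hφ : ∀ ω, Tendsto (fun n => ∑ k ∈ Finset.range n, ξ k ω • f k) atTop (𝓝 (φ ω))) {a : ℕ → ℝ} {φ₀ : X}
    (ha : Tendsto (fun n => ∑ k ∈ Finset.range n, a k • f k) atTop (𝓝 φ₀))
    (hlow : ∀ k, ∃ c : ℝ≥0∞, c ≠ 0 ∧ ∃ η : ℝ, 0 < η ∧ ∀ A ⊆ Ioo (a k - η) (a k + η),
      MeasurableSet A → c * volume A ≤ P {ω | ξ k ω ∈ A}) {κ : Type} [Fintype κ] [DecidableEq κ]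
    {k : κ → ℕ} (hk : Function.Injective k) : ∃ η : ℝ, 0 < η ∧ ∀ δ : ℝ, 0 < δ →
      ∃ c : ℝ≥0∞, c ≠ 0 ∧ ∀ A : Set X, MeasurableSet A → ∀ d : ℝ≥0∞,
        (∀ x ∈ Metric.ball φ₀ δ, d ≤ volume {t : κ → ℝ | ‖t‖ < η ∧
          x + ∑ q, t q • f (k q) ∈ A}) → c * d ≤ P {ω | φ ω ∈ A} := by
  choose c hc η hη hcA using fun q => hlow (k q)
  obtain ⟨η', hη', hηq⟩ : ∃ η' : ℝ, 0 < η' ∧ ∀ q, η' ≤ η q := by
    rcases isEmpty_or_nonempty κ with h | h
    · exact ⟨1, one_pos, fun q => h.elim q⟩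
    · refine ⟨Finset.univ.inf' Finset.univ_nonempty η, ?_, fun q =>
        Finset.inf'_le _ (Finset.mem_univ q)⟩
      rw [Finset.lt_inf'_iff]
      exact fun q _ => hη q
  obtain ⟨K, hK0, hK⟩ : ∃ K : ℝ≥0, K ≠ 0 ∧ ∀ q, (K : ℝ≥0∞) ≤ c q := by
    rcases isEmpty_or_nonempty κ with h | h
    · exact ⟨1, one_ne_zero, fun q => h.elim q⟩
    · obtain ⟨c', hc', hcq⟩ : ∃ c' : ℝ≥0∞, c' ≠ 0 ∧ ∀ q, c' ≤ c q := by
        refine ⟨Finset.univ.inf' Finset.univ_nonempty c, ?_, fun q =>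
          Finset.inf'_le _ (Finset.mem_univ q)⟩
        have : 0 < Finset.univ.inf' Finset.univ_nonempty c := by
          rw [Finset.lt_inf'_iff]
          exact fun q _ => pos_iff_ne_zero.2 (hc q)
        exact this.ne'
      refine ⟨(min c' 1).toNNReal, ?_, fun q => ?_⟩
      · rw [ne_eq, ENNReal.toNNReal_eq_zero_iff, not_or]
        refine ⟨?_, ?_⟩
        · intro h
          rcases min_eq_iff.1 h with h | h
          · exact hc' h.1
          · exact one_ne_zero h.1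
        · exact ne_top_of_le_ne_top ENNReal.one_ne_top (min_le_right _ _)
      · rw [ENNReal.coe_toNNReal (ne_top_of_le_ne_top ENNReal.one_ne_top (min_le_right _ _))]
        exact (min_le_left _ _).trans (hcq q)
  obtain ⟨S, hS⟩ : ∃ S, S = Finset.univ.image k := ⟨_, rfl⟩
  have hle : (K ^ Fintype.card κ) • Measure.pi (fun q : κ =>
      (volume : Measure ℝ).restrict (Ioo (a (k q) - η') (a (k q) + η'))) ≤
        Measure.pi (fun q => P.map (ξ (k q))) := by
    rw [← LR.pi_smul]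
    refine LR.pi_mono fun q => Measure.le_iff.2 fun A hA => ?_
    rw [Measure.map_apply (hξ _) hA, Measure.smul_apply, ENNReal.smul_def, smul_eq_mul,
      Measure.restrict_apply hA]
    have h1 := hcA q (A ∩ Ioo (a (k q) - η') (a (k q) + η')) (by
      refine inter_subset_right.trans (Ioo_subset_Ioo ?_ ?_)
      · linarith [hηq q]
      · linarith [hηq q]) (hA.inter measurableSet_Ioo)
    refine (mul_le_mul_left (hK q) _).trans (h1.trans (measure_mono fun ω hω => ?_))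
    exact hω.1
  refine ⟨η', hη', fun δ hδ => ?_⟩
  have hpos := Yr_pos hξ hind hφ ha hlow S hδ
  refine ⟨K ^ Fintype.card κ * P {ω | ‖Yr ξ f φ S ω - (φ₀ - ∑ k ∈ S, a k • f k)‖ < δ},
    mul_ne_zero (pow_ne_zero _ (ENNReal.coe_ne_zero.2 hK0)) hpos, fun A hA d hd => ?_⟩
  rw [form hξ hind hφ hk hA, ← hS]
  have hYm := Yr_meas' hξ hφ S
  have hV : MeasurableSet {ω | ‖Yr ξ f φ S ω - (φ₀ - ∑ k ∈ S, a k • f k)‖ < δ} := by
    have h3 : MeasurableSet {x : X | ‖x - (φ₀ - ∑ k ∈ S, a k • f k)‖ < δ} :=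
      (isOpen_lt (by fun_prop) continuous_const).measurableSet
    exact hYm h3
  calc K ^ Fintype.card κ * P {ω | ‖Yr ξ f φ S ω - (φ₀ - ∑ k ∈ S, a k • f k)‖ < δ} * d
      = ∫⁻ _ in {ω | ‖Yr ξ f φ S ω - (φ₀ - ∑ k ∈ S, a k • f k)‖ < δ},
          K ^ Fintype.card κ * d ∂P := by
        rw [setLIntegral_const]
        ring
    _ ≤ ∫⁻ ω in {ω | ‖Yr ξ f φ S ω - (φ₀ - ∑ k ∈ S, a k • f k)‖ < δ},
          Measure.pi (fun q => P.map (ξ (k q)))
            {t | Yr ξ f φ S ω + ∑ q, t q • f (k q) ∈ A} ∂P := by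
        refine setLIntegral_mono' hV fun ω hω => ?_
        refine le_trans ?_ (hle _)
        rw [Measure.smul_apply, ENNReal.smul_def, smul_eq_mul, ENNReal.coe_pow]
        refine mul_le_mul_right ?_ _
        rw [← Measure.restrict_pi_pi, ← volume_pi]
        have hAm : MeasurableSet {t : κ → ℝ | Yr ξ f φ S ω + ∑ q, t q • f (k q) ∈ A} := by
          have hc : Continuous fun t : κ → ℝ => Yr ξ f φ S ω + ∑ q, t q • f (k q) :=
            continuous_const.add (continuous_finsetSum _ fun q _ =>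
              (continuous_apply q).smul continuous_const)
          exact hc.measurable hA
        rw [Measure.restrict_apply hAm]
        have h1 : Yr ξ f φ S ω + ∑ k ∈ S, a k • f k ∈ Metric.ball φ₀ δ := by
          rw [mem_ball_iff_norm]
          have h2 : ‖Yr ξ f φ S ω - (φ₀ - ∑ k ∈ S, a k • f k)‖ < δ := hω
          have h3 : Yr ξ f φ S ω + ∑ k ∈ S, a k • f k - φ₀ =
              Yr ξ f φ S ω - (φ₀ - ∑ k ∈ S, a k • f k) := by abel
          rw [h3]
          exact h2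
        refine (hd _ h1).trans ?_
        have h2 : {t : κ → ℝ | ‖t‖ < η' ∧ Yr ξ f φ S ω + ∑ k ∈ S, a k • f k +
            ∑ q, t q • f (k q) ∈ A} ⊆ (fun t => t + fun q => a (k q)) ⁻¹'
            ({t : κ → ℝ | Yr ξ f φ S ω + ∑ q, t q • f (k q) ∈ A} ∩
              univ.pi fun q => Ioo (a (k q) - η') (a (k q) + η')) := by
          rintro t ⟨ht1, ht2⟩
          refine ⟨?_, fun q _ => ?_⟩
          · show Yr ξ f φ S ω + ∑ q, (t q + a (k q)) • f (k q) ∈ A
            have h3 : Yr ξ f φ S ω + ∑ q, (t q + a (k q)) • f (k q) =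
                Yr ξ f φ S ω + ∑ k ∈ S, a k • f k + ∑ q, t q • f (k q) := by
              rw [hS, Finset.sum_image fun a _ b _ h => hk h]
              simp only [add_smul, Finset.sum_add_distrib]
              abel
            rw [h3]
            exact ht2
          · have h3 : |t q| < η' := (norm_le_pi_norm t q).trans_lt ht1
            have h4 := abs_lt.1 h3
            exact ⟨by simp only [Pi.add_apply]; linarith, by simp only [Pi.add_apply]; linarith⟩
        refine (measure_mono h2).trans (le_of_eq ?_)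
        exact measure_preimage_add_right _ _ _
    _ ≤ _ := setLIntegral_le_lintegral _ _

end Pool.Agent.L5helper74.QR
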