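import Pool.Agent.L5helper74.QR.Loc
import Pool.Agent.L5helper74.QR.Ser
import Pool.Agent.L5helper74.QR.Clu
import Pool.Agent.L5helper74.LR.Surf
import Pool.Agent.L5helper74.UC.Pos

/-!
# Quadratic repulsion: random metrics with independent coefficients
-/

set_option autoImplicit false
set_option linter.unusedSectionVars false
set_option synthInstance.maxHeartbeats 400000

open Set Filter Topology MeasureTheory ProbabilityTheory
open scoped Real ENNReal
open Pool.Agent.Y262.QE Pool.Agent.Y264.QR Pool.Agent.Q233.GLV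
open Pool.Agent.L5helper74.LR Pool.Agent.L5helper74

noncomputable section

namespace Pool.Agent.L5helper74.QR

/-- a choice of directions in a sequence -/
lemma selk {X : Type} [NormedAddCommGroup X] [NormedSpace ℝ X] {r : ℕ} (A : X →L[ℝ] (Fin r → ℝ))
    (hA : Function.Surjective A) {f : ℕ → X}
    (hf : Dense (Submodule.span ℝ (range f) : Set X)) :
    ∃ k : Fin r → ℕ, Function.Injective k ∧
      ∀ t : Fin r → ℝ, A (∑ q, t q • f (k q)) = 0 → t = 0 := by
  obtain ⟨h, hh, hinj⟩ := sel A hA hf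
  choose k hk using hh
  refine ⟨k, fun p q hpq => ?_, fun t ht => hinj t ?_⟩
  · by_contra hne
    have h1 := hinj (Pi.single p 1 - Pi.single q 1) (by
      have h2 : ∑ a, (Pi.single p 1 - Pi.single q 1 : Fin r → ℝ) a • h a = h p - h q := by
        simp [sub_smul, Finset.sum_sub_distrib, Pi.single_apply]
      rw [h2, ← hk, ← hk, hpq, sub_self, map_zero])
    have h2 := congrFun h1 p
    simp [hne] at h2
  · simpa only [hk] using ht

lemma selx {X : Type} [NormedAddCommGroup X] [NormedSpace ℝ X] {κ : Type} [Fintype κ]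
    [DecidableEq κ] (A : X →L[ℝ] (κ → ℝ))
    (hA : ∀ c : κ → ℝ, (∀ h, ∑ q, c q * A h q = 0) → c = 0) {f : ℕ → X}
    (hf : Dense (Submodule.span ℝ (range f) : Set X)) :
    ∃ k : κ → ℕ, Function.Injective k ∧
      ∀ t : κ → ℝ, A (∑ q, t q • f (k q)) = 0 → t = 0 := by
  obtain ⟨e⟩ : Nonempty (κ ≃ Fin (Fintype.card κ)) := ⟨Fintype.equivFin κ⟩
  have hsurj : Function.Surjective A := by
    have h1 : LinearMap.range (A : X →ₗ[ℝ] (κ → ℝ)) = ⊤ := by
      by_contra hne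
      obtain ⟨x, hx⟩ : ∃ x, x ∉ LinearMap.range (A : X →ₗ[ℝ] (κ → ℝ)) := by
        by_contra hcon
        push Not at hcon
        exact hne (eq_top_iff.2 fun x _ => hcon x)
      obtain ⟨F, hF1, hF2⟩ := Submodule.exists_le_ker_of_notMem hx
      have h2 : ∀ y : κ → ℝ, F y = ∑ q, F (Pi.single q 1) * y q := by
        intro y
        have h3 : y = ∑ q, y q • (Pi.single q (1 : ℝ) : κ → ℝ) := by
          funext p
          simp [Finset.sum_apply, Pi.single_apply]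
        conv_lhs => rw [h3]
        rw [map_sum]
        refine Finset.sum_congr rfl fun q _ => ?_
        rw [map_smul, smul_eq_mul, mul_comm]
      have h4 := hA (fun q => F (Pi.single q 1)) fun h => by
        rw [← h2]
        exact hF2 ⟨h, rfl⟩
      apply hF1
      rw [h2]
      refine Finset.sum_eq_zero fun q _ => ?_
      have := congrFun h4 q
      simp only [Pi.zero_apply] at this
      rw [this, zero_mul]
    intro y
    have h2 : y ∈ LinearMap.range (A : X →ₗ[ℝ] (κ → ℝ)) := by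
      rw [h1]
      exact Submodule.mem_top
    obtain ⟨x, hx⟩ := h2
    exact ⟨x, hx⟩
  obtain ⟨B, hB⟩ : ∃ B : X →L[ℝ] (Fin (Fintype.card κ) → ℝ), ∀ h q, B h q = A h (e.symm q) :=
    ⟨ContinuousLinearMap.pi fun q => (ContinuousLinearMap.proj (R := ℝ) (φ := fun _ : κ => ℝ)
      (e.symm q)).comp A, fun h q => rfl⟩
  obtain ⟨k, hk, hinj⟩ := selk B (fun y => by
    obtain ⟨x, hx⟩ := hsurj fun q => y (e q)
    refine ⟨x, ?_⟩
    funext q
    rw [hB, hx]
    simp) hf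
  refine ⟨fun q => k (e q), hk.comp e.injective, fun t ht => ?_⟩
  have h1 := hinj (fun q => t (e.symm q)) (by
    funext q
    rw [hB]
    have h2 : ∑ q, t (e.symm q) • f (k q) = ∑ q, t q • f (k (e q)) := by
      rw [← Equiv.sum_comp e]
      simp
    rw [h2, ht]
    rfl)
  funext q
  have := congrFun h1 (e q)
  simpa using this

variable {M : Type} [MetricSpace M] [CompactSpace M] [MeasurableSpace M] [BorelSpace M]

theorem surf [ConnectedSpace M] (μ : Measure M) (D : Data M) (hD : D.IsSurf μ)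
    (hiso : ∀ l, ∀ z ∈ D.T l, ∃ c : ℝ, ∀ v, ‖D.A l z v‖ = c * ‖v‖) :
    ∃ X : ℕ → C(M, ℝ) → ℝ, (∀ j, Continuous (X j)) ∧ (∀ φ i j, i ≤ j → X i φ ≤ X j φ) ∧
      (∀ (φ : C(M, ℝ)) (u : ℕ → M → ℝ) (lam : ℕ → ℝ),
        EigBasis (D.conf fun y => Real.exp (φ y)) (wm μ fun y => Real.exp (φ y)) u lam →
        ∀ j, X j φ = (∫ x, Real.exp (φ x) ∂μ) / (4 * π) * lam j) ∧
      ∀ {Ω : Type} [MeasurableSpace Ω] (P : Measure Ω) [IsProbabilityMeasure P] (ξ : ℕ → Ω → ℝ)
        (f : ℕ → C(M, ℝ)) (φ : Ω → C(M, ℝ)), (∀ k, Measurable (ξ k)) → iIndepFun ξ P →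
        (∀ ω, Tendsto (fun n => ∑ k ∈ Finset.range n, ξ k ω • f k) atTop (𝓝 (φ ω))) →
        Dense (Submodule.span ℝ (range f) : Set C(M, ℝ)) →
        (∀ k, ∃ C : ℝ≥0∞, C ≠ ⊤ ∧ ∀ A : Set ℝ, MeasurableSet A →
          P {ω | ξ k ω ∈ A} ≤ C * volume A) →
        (∀ l : ℕ, ∀ K : Set C(M, ℝ), IsCompact K →
          ∃ C : ℝ, 0 ≤ C ∧ ∀ s : ℝ, 0 < s →
            P {ω | φ ω ∈ K ∧ X (l + 1) (φ ω) - X l (φ ω) ≤ s} ≤ ENNReal.ofReal (C * s ^ 2)) ∧
        ∀ (φ₀ : C(M, ℝ)) (l m : ℕ) (u : ℕ → M → ℝ) (lam : ℕ → ℝ),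
        EigBasis (D.conf fun y => Real.exp (φ₀ y)) (wm μ fun y => Real.exp (φ₀ y)) u lam →
        1 ≤ m → (∀ j, lam j = lam l ↔ l ≤ j ∧ j ≤ l + m) → NR μ u l m →
        (∃ U, IsOpen U ∧ φ₀ ∈ U ∧ ∃ C : ℝ≥0∞, C ≠ ⊤ ∧ ∀ Γ : Set (Fin m → ℝ), MeasurableSet Γ →
          P {ω | φ ω ∈ U ∧ (fun i : Fin m => X (l + (i + 1)) (φ ω) - X l (φ ω)) ∈ Γ} ≤
            C * ∫⁻ y in Γ, ENNReal.ofReal (Vd m y)) ∧
        ∀ a : ℕ → ℝ, Tendsto (fun n => ∑ k ∈ Finset.range n, a k • f k) atTop (𝓝 φ₀) →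
          (∀ k, ∃ c : ℝ≥0∞, c ≠ 0 ∧ ∃ η : ℝ, 0 < η ∧ ∀ A ⊆ Ioo (a k - η) (a k + η),
            MeasurableSet A → c * volume A ≤ P {ω | ξ k ω ∈ A}) →
          ∀ U ∈ 𝓝 φ₀, ∃ r : ℝ, 0 < r ∧ ∃ c : ℝ≥0∞, c ≠ 0 ∧ ∀ Γ : Set (Fin m → ℝ),
            MeasurableSet Γ → (∀ y ∈ Γ, ‖y‖ < r ∧ StrictMono (Fin.cons 0 y : Fin (m + 1) → ℝ)) →
            c * ∫⁻ y in Γ, ENNReal.ofReal (Vd m y) ≤
              P {ω | φ ω ∈ U ∧ (fun i : Fin m => X (l + (i + 1)) (φ ω) - X l (φ ω)) ∈ Γ} := by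
  obtain ⟨hf, -⟩ := tFin M μ D hD
  have := hf
  have : CompleteSpace (HF D μ) := by
    unfold HF
    exact (Submodule.isClosed_topologicalClosure _).completeSpace_coe
  let _ : MeasurableSpace C(M, ℝ) := borel _
  have : BorelSpace C(M, ℝ) := ⟨rfl⟩
  obtain ⟨i, a, hSf, hi, ha⟩ := tPackF M μ D hD inferInstance
  obtain ⟨b, hB, hF, hpos, hcmp, -⟩ := tFm M μ (HF D μ) i a hSf
  obtain ⟨hnn, hmono, -, hcont, -⟩ := tLip M μ (HF D μ) a b hF hcmp
  have hmm : ∀ φ e E, Eg a (b φ) e E → ∀ j, Ev a (b φ) j = E j :=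
    fun φ e E hE j => Pool.Agent.Y592.QE.mm _ a (b φ) (hF φ) e E hE j
  have hAc : Continuous fun φ : C(M, ℝ) => ∫ x, Real.exp (φ x) ∂μ :=
    (Pool.Agent.Y689.QR.int_cont μ).comp Pool.Agent.Y689.QR.exp_cont
  have hpi := Real.pi_pos
  have hXc : ∀ j, Continuous fun φ => Xl μ a b φ j := fun j =>
    (hAc.div_const _).mul (hcont j)
  have hXm : ∀ φ i j, i ≤ j → Xl μ a b φ i ≤ Xl μ a b φ j := fun φ i j hij =>
    mul_le_mul_of_nonneg_left (hmono φ i j hij) (by have := hpos φ; positivity)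
  refine ⟨fun j φ => Xl μ a b φ j, hXc, hXm, fun φ u lam hu j => ?_, ?_⟩
  · obtain ⟨e', -, he'⟩ := tBr M μ D hD i a b hSf hi ha hB hF φ u lam hu
    show (∫ x, Real.exp (φ x) ∂μ) / (4 * π) * Ev a (b φ) j = _
    rw [hmm φ e' lam he']
  intro Ω _ P _ ξ f φ hξ hind hφ hfd hup
  refine ⟨fun l K hK => ?_, fun φ₀ l m u lam hu hm1 hcl hNR => ?_⟩
  · obtain ⟨gp, hgp⟩ : ∃ gp : C(M, ℝ) → ℝ,
        gp = fun ψ => Xl μ a b ψ (l + 1) - Xl μ a b ψ l := ⟨_, rfl⟩
    have hgc : Continuous gp := by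
      rw [hgp]
      exact (hXc _).sub (hXc _)
    obtain ⟨C, hC, hbd⟩ : ∃ C : ℝ, 0 ≤ C ∧ ∀ s : ℝ, 0 < s → s ≤ 1 →
        P {ω | φ ω ∈ K ∧ gp (φ ω) ≤ s} ≤ ENNReal.ofReal (C * s ^ 2) := by
      refine hK.induction_on (p := fun S => ∃ C : ℝ, 0 ≤ C ∧ ∀ s : ℝ, 0 < s → s ≤ 1 →
        P {ω | φ ω ∈ S ∧ gp (φ ω) ≤ s} ≤ ENNReal.ofReal (C * s ^ 2)) ?_ ?_ ?_ ?_
      · exact ⟨0, le_rfl, fun s _ _ => by simp⟩
      · rintro S T hST ⟨C, hC, h1⟩
        refine ⟨C, hC, fun s hs hs1 => le_trans (measure_mono ?_) (h1 s hs hs1)⟩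
        rintro ω ⟨h2, h3⟩
        exact ⟨hST h2, h3⟩
      · rintro S T ⟨C, hC, h1⟩ ⟨C', hC', h1'⟩
        refine ⟨C + C', by positivity, fun s hs hs1 => ?_⟩
        rw [add_mul, ENNReal.ofReal_add (by positivity) (by positivity)]
        refine (measure_mono ?_).trans ((measure_union_le {ω | φ ω ∈ S ∧ gp (φ ω) ≤ s}
          {ω | φ ω ∈ T ∧ gp (φ ω) ≤ s}).trans (add_le_add (h1 s hs hs1) (h1' s hs hs1)))
        rintro ω ⟨hω | hω, hω2⟩
        · exact Or.inl ⟨hω, hω2⟩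
        · exact Or.inr ⟨hω, hω2⟩
      · intro φ₀ _
        obtain ⟨e, E, hE⟩ := tSp (HF D μ) a (b φ₀) (hF φ₀)
        have hEv : ∀ j, Xl μ a b φ₀ j = (∫ x, Real.exp (φ₀ x) ∂μ) / (4 * π) * E j := fun j => by
          show (∫ x, Real.exp (φ₀ x) ∂μ) / (4 * π) * Ev a (b φ₀) j = _
          rw [hmm φ₀ e E hE]
        have hA0 : 0 < (∫ x, Real.exp (φ₀ x) ∂μ) / (4 * π) := by
          have := hpos φ₀
          positivity
        have hg0 : 0 ≤ gp φ₀ := by
          rw [hgp]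
          exact sub_nonneg.2 (hXm _ _ _ (Nat.le_succ l))
        rcases hg0.lt_or_eq with hg | hg
        · refine ⟨{ψ | gp φ₀ / 2 < gp ψ}, mem_nhdsWithin_of_mem_nhds
            ((isOpen_lt continuous_const hgc).mem_nhds (by
              show gp φ₀ / 2 < gp φ₀
              linarith)), (2 / gp φ₀) ^ 2, by positivity, fun s hs _ => ?_⟩
          rcases le_or_gt s (gp φ₀ / 2) with h1 | h1
          · have h2 : {ω | φ ω ∈ {ψ | gp φ₀ / 2 < gp ψ} ∧ gp (φ ω) ≤ s} = ∅ := by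
              ext ω
              simp only [mem_ofPred_eq, mem_empty_iff_false, iff_false, not_and, not_le]
              intro h3
              linarith
            rw [h2, measure_empty]
            exact zero_le
          · refine prob_le_one.trans ?_
            rw [← ENNReal.ofReal_one]
            refine ENNReal.ofReal_le_ofReal ?_
            rw [← mul_pow]
            refine one_le_pow₀ ?_
            rw [div_mul_eq_mul_div, le_div_iff₀ hg]
            linarith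
        · have hl0 : E l = E (l + 1) := by
            have h1 : Xl μ a b φ₀ (l + 1) - Xl μ a b φ₀ l = 0 := by
              have := hg.symm
              rwa [hgp] at this
            rw [hEv, hEv, ← mul_sub] at h1
            have := (mul_eq_zero.1 h1).resolve_left hA0.ne'
            linarith
          have hp0 : 0 < E l := by
            rw [hl0]
            exact UC.pos1 hD hiso hi ha hB hE (Nat.le_add_left 1 l)
          obtain ⟨r, M', hM's, hr⟩ := loc hD hiso hSf hi ha hB hF hcont hmono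
            (fun φ => tSp (HF D μ) a (b φ) (hF φ)) φ₀ (hpos φ₀) hE l hp0 hl0
          obtain ⟨k, hk, hkinj⟩ := selk M' hM's hfd
          obtain ⟨ρ, hρ, C, hC, hvol⟩ := hr (fun q => f (k q)) hkinj
          obtain ⟨C', hC', hser⟩ := ser_up hξ hind hφ hup hk
          refine ⟨Metric.ball φ₀ ρ, mem_nhdsWithin_of_mem_nhds (Metric.ball_mem_nhds _ hρ),
            C'.toReal * C, by positivity, fun s hs hs1 => ?_⟩
          have hAm : MeasurableSet {ψ : C(M, ℝ) | ‖ψ - φ₀‖ < ρ ∧ gp ψ ≤ s} := by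
            refine MeasurableSet.inter ?_ ?_
            · have h1 : Continuous fun ψ : C(M, ℝ) => ‖ψ - φ₀‖ :=
                continuous_norm.comp (continuous_id.sub continuous_const)
              exact (isOpen_lt h1 continuous_const).measurableSet
            · exact (isClosed_le hgc continuous_const).measurableSet
          have h1 := hser _ hAm (ENNReal.ofReal (C * s ^ 2)) fun x => by
            have := hvol x s hs hs1
            rw [hgp]
            exact this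
          calc P {ω | φ ω ∈ Metric.ball φ₀ ρ ∧ gp (φ ω) ≤ s}
              ≤ P {ω | φ ω ∈ {ψ : C(M, ℝ) | ‖ψ - φ₀‖ < ρ ∧ gp ψ ≤ s}} := by
                refine measure_mono fun ω hω => ⟨?_, hω.2⟩
                have := hω.1
                rwa [mem_ball_iff_norm] at this
            _ ≤ _ := h1
            _ = _ := by
                rw [mul_assoc, ENNReal.ofReal_mul ENNReal.toReal_nonneg, ENNReal.ofReal_toReal hC']
    refine ⟨max C 1, le_max_of_le_left hC, fun s hs => ?_⟩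
    rcases le_or_gt s 1 with h1 | h1
    · have h2 := hbd s hs h1
      rw [hgp] at h2
      refine h2.trans (ENNReal.ofReal_le_ofReal ?_)
      exact mul_le_mul_of_nonneg_right (le_max_left _ _) (sq_nonneg _)
    · refine prob_le_one.trans ?_
      rw [← ENNReal.ofReal_one]
      refine ENNReal.ofReal_le_ofReal ?_
      have h2 : 1 ≤ s ^ 2 := one_le_pow₀ h1.le
      calc (1 : ℝ) = 1 * 1 := (one_mul 1).symm
        _ ≤ max C 1 * s ^ 2 := mul_le_mul (le_max_right _ _) h2 zero_le_one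
            (le_max_of_le_left hC)
  · obtain ⟨e, heu, hE⟩ := tBr M μ D hD i a b hSf hi ha hB hF φ₀ u lam hu
    have hlam : 0 < lam l := by
      rw [← (hcl (l + m)).2 ⟨Nat.le_add_right _ _, le_rfl⟩]
      exact UC.pos1 hD hiso hi ha hB hE (by omega)
    obtain ⟨Mf, M', hM', hM0, hMi, hev⟩ := core hSf hB hF hcont hmono
      (fun φ => tSp (HF D μ) a (b φ) (hF φ)) φ₀ (hpos _) hE l m hlam hcl
      (hind_of hB φ₀ heu l m hNR)
    obtain ⟨k, hk, hkinj⟩ := selx M' hMi hfd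
    obtain ⟨gp, hgp⟩ : ∃ gp : C(M, ℝ) → Fin m → ℝ,
        gp = fun x (i : Fin m) => Xl μ a b x (l + (i + 1)) - Xl μ a b x l := ⟨_, rfl⟩
    have hgm : Measurable gp := by
      refine Continuous.measurable ?_
      rw [hgp]
      exact continuous_pi fun j => (hXc _).sub (hXc _)
    have hgs : ∀ x, Monotone (Fin.cons 0 (gp x) : Fin (m + 1) → ℝ) := by
      intro x
      have h1 : (Fin.cons 0 (gp x) : Fin (m + 1) → ℝ) =
          fun k : Fin (m + 1) => Xl μ a b x (l + (k : ℕ)) - Xl μ a b x l := by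
        funext k
        refine Fin.cases ?_ (fun k => ?_) k
        · simp
        · rw [Fin.cons_succ, hgp]
          simp
      rw [h1]
      intro k k' hk
      exact sub_le_sub_right (hXm _ _ _ (Nat.add_le_add_left hk l)) _
    have hev' : ∀ᶠ x in 𝓝 φ₀, ∃ V, Ort V ∧ Mf x = cI (Tc (Fin.cons 0 (gp x)) V) := by
      rw [hgp]
      exact hev
    have h1 := clu_up (h := fun q => f (k q)) hM' hkinj (ser_up hξ hind hφ hup hk) hgm hev'
    have h2 := fun (c : ℕ → ℝ) (hc : Tendsto (fun n => ∑ k ∈ Finset.range n, c k • f k) atTop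
        (𝓝 φ₀)) (hlow : ∀ k, ∃ c' : ℝ≥0∞, c' ≠ 0 ∧ ∃ η : ℝ, 0 < η ∧
          ∀ A ⊆ Ioo (c k - η) (c k + η), MeasurableSet A → c' * volume A ≤ P {ω | ξ k ω ∈ A})
        (U : Set C(M, ℝ)) (hU : U ∈ 𝓝 φ₀) =>
      clu_low (h := fun q => f (k q)) hM' hM0 hkinj (ser_low hξ hind hφ hc hlow hk) hgm hgs hev' hU
    rw [hgp] at h1 h2
    exact ⟨h1, h2⟩

end Pool.Agent.L5helper74.QR
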