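import Pool.Agent.L5helper74.QR.Main
import Pool.Agent.L5helper74.QR.Eff1
import Pool.Agent.L5helper74.QR.Exb

/-!
# The exact local law of the gaps for random metrics
-/

set_option autoImplicit false
set_option linter.unusedSectionVars false
set_option synthInstance.maxHeartbeats 400000

open Set Filter Topology MeasureTheory ProbabilityTheory
open scoped Real ENNReal
open Pool.Agent.Y262.QE Pool.Agent.Y264.QR Pool.Agent.Q233.GLV
open Pool.Agent.L5helper74.LR Pool.Agent.L5helper74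

noncomputable section

namespace Pool.Agent.L5helper74.QR

variable {M : Type} [MetricSpace M] [CompactSpace M] [MeasurableSpace M] [BorelSpace M]

theorem surf2 [ConnectedSpace M] (μ : Measure M) (D : Data M) (hD : D.IsSurf μ)
    (hiso : ∀ l, ∀ z ∈ D.T l, ∃ c : ℝ, ∀ v, ‖D.A l z v‖ = c * ‖v‖) :
    ∃ X : ℕ → C(M, ℝ) → ℝ, (∀ j, Continuous (X j)) ∧ (∀ φ i j, i ≤ j → X i φ ≤ X j φ) ∧
      (∀ (φ : C(M, ℝ)) (u : ℕ → M → ℝ) (lam : ℕ → ℝ),
        EigBasis (D.conf fun y => Real.exp (φ y)) (wm μ fun y => Real.exp (φ y)) u lam →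
        ∀ j, X j φ = (∫ x, Real.exp (φ x) ∂μ) / (4 * π) * lam j) ∧
      ∀ {Ω : Type} [MeasurableSpace Ω] (P : Measure Ω) [IsProbabilityMeasure P] (ξ : ℕ → Ω → ℝ)
        (f : ℕ → C(M, ℝ)) (φ : Ω → C(M, ℝ)) (ρ : ℕ → ℝ → ℝ), (∀ k, Measurable (ξ k)) →
        iIndepFun ξ P →
        (∀ ω, Tendsto (fun n => ∑ k ∈ Finset.range n, ξ k ω • f k) atTop (𝓝 (φ ω))) →
        Dense (Submodule.span ℝ (range f) : Set C(M, ℝ)) →
        (∀ k, Continuous (ρ k)) → (∀ k t, 0 ≤ ρ k t) → (∀ k, ∃ B, ∀ t, ρ k t ≤ B) →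
        (∀ k, P.map (ξ k) = volume.withDensity fun t => ENNReal.ofReal (ρ k t)) →
        ∀ (ψ : C(M, ℝ)) (l m : ℕ) (u : ℕ → M → ℝ) (lam : ℕ → ℝ),
        EigBasis (D.conf fun y => Real.exp (ψ y)) (wm μ fun y => Real.exp (ψ y)) u lam →
        1 ≤ m → (∀ j, lam j = lam l ↔ l ≤ j ∧ j ≤ l + m) → NR μ u l m →
        ∃ U ∈ 𝓝 ψ, ∀ χ : C(M, ℝ) → ℝ, Continuous χ → (∀ y, 0 ≤ χ y) → (∃ B, ∀ y, χ y ≤ B) →
          (∀ y, y ∉ U → χ y = 0) → ∃ c : ℝ≥0∞, c ≠ ⊤ ∧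
          (0 < χ ψ → ∀ a : ℕ → ℝ, Tendsto (fun n => ∑ k ∈ Finset.range n, a k • f k) atTop (𝓝 ψ) →
            (∀ k, 0 < ρ k (a k)) → c ≠ 0) ∧
          ∀ Γ : Set (Fin m → ℝ), MeasurableSet Γ → Bornology.IsBounded Γ →
            Tendsto (fun s : ℝ => (∫⁻ ω,
              {ω | s⁻¹ • (fun i : Fin m => X (l + (i + 1)) (φ ω) - X l (φ ω)) ∈ Γ}.indicator
              (fun ω => ENNReal.ofReal (χ (φ ω))) ω ∂P) / ENNReal.ofReal (s ^ (m * (m + 3) / 2)))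
              (𝓝[>] 0) (𝓝 (c * volume (Wg m Γ))) := by
  obtain ⟨hf, -⟩ := tFin M μ D hD
  have := hf
  have : CompleteSpace (HF D μ) := by
    unfold HF
    exact (Submodule.isClosed_topologicalClosure _).completeSpace_coe
  let _ : MeasurableSpace C(M, ℝ) := borel _
  have : BorelSpace C(M, ℝ) := ⟨rfl⟩
  obtain ⟨i, a, hSf, hi, ha⟩ := tPackF M μ D hD inferInstance
  obtain ⟨b, hB, hF, hpos, hcmp, -⟩ := tFm M μ (HF D μ) i a hSf
  obtain ⟨hnn, hmono, -, hcont, -⟩ := tLip M μ (HF D μ) a b hF hcmp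
  have hmm : ∀ φ e E, Eg a (b φ) e E → ∀ j, Ev a (b φ) j = E j :=
    fun φ e E hE j => Pool.Agent.Y592.QE.mm _ a (b φ) (hF φ) e E hE j
  have hAc : Continuous fun φ : C(M, ℝ) => ∫ x, Real.exp (φ x) ∂μ :=
    (Pool.Agent.Y689.QR.int_cont μ).comp Pool.Agent.Y689.QR.exp_cont
  have hpi := Real.pi_pos
  have hXc : ∀ j, Continuous fun φ => Xl μ a b φ j := fun j =>
    (hAc.div_const _).mul (hcont j)
  have hXm : ∀ φ i j, i ≤ j → Xl μ a b φ i ≤ Xl μ a b φ j := fun φ i j hij =>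
    mul_le_mul_of_nonneg_left (hmono φ i j hij) (by have := hpos φ; positivity)
  refine ⟨fun j φ => Xl μ a b φ j, hXc, hXm, fun φ u lam hu j => ?_, ?_⟩
  · obtain ⟨e', -, he'⟩ := tBr M μ D hD i a b hSf hi ha hB hF φ u lam hu
    show (∫ x, Real.exp (φ x) ∂μ) / (4 * π) * Ev a (b φ) j = _
    rw [hmm φ e' lam he']
  intro Ω _ P _ ξ f φ ρ hξ hind hφ hfd hρc hρ0 hρb hρ ψ l m u lam hu hm1 hcl hNR
  obtain ⟨e, heu, hE⟩ := tBr M μ D hD i a b hSf hi ha hB hF ψ u lam hu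
  have hlam : 0 < lam l := by
    rw [← (hcl (l + m)).2 ⟨Nat.le_add_right _ _, le_rfl⟩]
    exact UC.pos1 hD hiso hi ha hB hE (by omega)
  obtain ⟨Mf, M', s₀, hMc, hM', hM0, hs0, hMe, hev⟩ := core01 hSf hB hF hcont hmono
    (fun φ => tSp (HF D μ) a (b φ) (hF φ)) ψ (hpos _) hE l m hlam hcl
  have hMi : ∀ c : Ix m → ℝ, (∀ h, ∑ q, c q * M' h q = 0) → c = 0 := by
    intro c hc
    refine hind_of hB ψ heu l m hNR c fun h => ?_
    have h1 := hc h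
    simp only [hMe, Pi.smul_apply, smul_eq_mul] at h1
    have h2 : s₀ * ∑ q, c q * cI (fun i j : Fin (m + 1) =>
        kf b (Pool.Agent.Q233.GLV.ex ψ * h) (e (l + i)) (e (l + j))) q = 0 := by
      rw [Finset.mul_sum, ← h1]
      exact Finset.sum_congr rfl fun q _ => by ring
    exact (mul_eq_zero.1 h2).resolve_left hs0
  obtain ⟨k, hk, hkinj⟩ := selx M' hMi hfd
  obtain ⟨gp, hgp⟩ : ∃ gp : C(M, ℝ) → Fin m → ℝ,
      gp = fun x (i : Fin m) => Xl μ a b x (l + (i + 1)) - Xl μ a b x l := ⟨_, rfl⟩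
  have hgm : Measurable gp := by
    refine Continuous.measurable ?_
    rw [hgp]
    exact continuous_pi fun j => (hXc _).sub (hXc _)
  have hgs : ∀ x, Monotone (Fin.cons 0 (gp x) : Fin (m + 1) → ℝ) := by
    intro x
    have h1 : (Fin.cons 0 (gp x) : Fin (m + 1) → ℝ) =
        fun k : Fin (m + 1) => Xl μ a b x (l + (k : ℕ)) - Xl μ a b x l := by
      funext k
      refine Fin.cases ?_ (fun k => ?_) k
      · simp
      · rw [Fin.cons_succ, hgp]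
        simp
    rw [h1]
    intro k k' hk
    exact sub_le_sub_right (hXm _ _ _ (Nat.add_le_add_left hk l)) _
  have hev' : ∀ᶠ x in 𝓝 ψ, ∃ V, Ort V ∧ Mf x = cI (Tc (Fin.cons 0 (gp x)) V) := by
    rw [hgp]
    exact hev
  have h1 := exa hξ hind hφ hρc hρ0 hρb hρ hk hMc hM' hM0 hkinj hgm hgs hev'
  rw [hgp] at h1
  simp only [card_Ix] at h1
  exact h1

end Pool.Agent.L5helper74.QR
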