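import Pool.Agent.L5helper74.QR.Main
import Pool.Agent.L5helper74.QR.Loc3
import Pool.Agent.Q233.GLV.GTop2

/-!
# Random metrics: small gaps with a third level nearby
-/

set_option autoImplicit false
set_option linter.unusedSectionVars false
set_option synthInstance.maxHeartbeats 400000

open Set Filter Topology MeasureTheory ProbabilityTheory
open scoped Real ENNReal
open Pool.Agent.Y262.QE Pool.Agent.Y264.QR Pool.Agent.Q233.GLV
open Pool.Agent.L5helper74.LR Pool.Agent.L5helper74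

noncomputable section

namespace Pool.Agent.L5helper74.QR

variable {M : Type} [MetricSpace M] [CompactSpace M] [MeasurableSpace M] [BorelSpace M]

theorem surf3 [ConnectedSpace M] (μ : Measure M) (D : Data M) (hD : D.IsSurf μ)
    (hiso : ∀ l, ∀ z ∈ D.T l, ∃ c : ℝ, ∀ v, ‖D.A l z v‖ = c * ‖v‖) :
    ∃ X : ℕ → C(M, ℝ) → ℝ, (∀ j, Continuous (X j)) ∧ (∀ φ i j, i ≤ j → X i φ ≤ X j φ) ∧
      (∀ (φ : C(M, ℝ)) (u : ℕ → M → ℝ) (lam : ℕ → ℝ),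
        EigBasis (D.conf fun y => Real.exp (φ y)) (wm μ fun y => Real.exp (φ y)) u lam →
        ∀ j, X j φ = (∫ x, Real.exp (φ x) ∂μ) / (4 * π) * lam j) ∧
      (∀ φ, X 0 φ < X 1 φ) ∧
      ∀ {Ω : Type} [MeasurableSpace Ω] (P : Measure Ω) [IsProbabilityMeasure P] (ξ : ℕ → Ω → ℝ)
        (f : ℕ → C(M, ℝ)) (φ : Ω → C(M, ℝ)), (∀ k, Measurable (ξ k)) → iIndepFun ξ P →
        (∀ ω, Tendsto (fun n => ∑ k ∈ Finset.range n, ξ k ω • f k) atTop (𝓝 (φ ω))) →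
        Dense (Submodule.span ℝ (range f) : Set C(M, ℝ)) →
        (∀ k, ∃ C : ℝ≥0∞, C ≠ ⊤ ∧ ∀ A : Set ℝ, MeasurableSet A →
          P {ω | ξ k ω ∈ A} ≤ C * volume A) →
        ∀ (l : ℕ) (ψ : C(M, ℝ)), X l ψ = X (l + 1) ψ →
          ∃ V ∈ 𝓝 ψ, ∃ δ₁ : ℝ, 0 < δ₁ ∧ ∃ C : ℝ, 0 ≤ C ∧ ∀ s δ : ℝ, 0 < s → 4 * s ≤ δ → δ ≤ δ₁ →
            P {ω | φ ω ∈ V ∧ X (l + 1) (φ ω) - X l (φ ω) ≤ s ∧
              min (X (l + 2) (φ ω) - X l (φ ω)) (X (l + 1) (φ ω) - X (l - 1) (φ ω)) < δ} ≤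
              ENNReal.ofReal (C * (δ * s ^ 2)) := by
  obtain ⟨hf, -⟩ := tFin M μ D hD
  have := hf
  have : CompleteSpace (HF D μ) := by
    unfold HF
    exact (Submodule.isClosed_topologicalClosure _).completeSpace_coe
  let _ : MeasurableSpace C(M, ℝ) := borel _
  have : BorelSpace C(M, ℝ) := ⟨rfl⟩
  obtain ⟨i, a, hSf, hi, ha⟩ := tPackF M μ D hD inferInstance
  obtain ⟨b, hB, hF, hpos, hcmp, -⟩ := tFm M μ (HF D μ) i a hSf
  obtain ⟨hnn, hmono, -, hcont, -⟩ := tLip M μ (HF D μ) a b hF hcmp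
  have hmm : ∀ φ e E, Eg a (b φ) e E → ∀ j, Ev a (b φ) j = E j :=
    fun φ e E hE j => Pool.Agent.Y592.QE.mm _ a (b φ) (hF φ) e E hE j
  have hAc : Continuous fun φ : C(M, ℝ) => ∫ x, Real.exp (φ x) ∂μ :=
    (Pool.Agent.Y689.QR.int_cont μ).comp Pool.Agent.Y689.QR.exp_cont
  have hpi := Real.pi_pos
  have hXc : ∀ j, Continuous fun φ => Xl μ a b φ j := fun j =>
    (hAc.div_const _).mul (hcont j)
  have hXm : ∀ φ i j, i ≤ j → Xl μ a b φ i ≤ Xl μ a b φ j := fun φ i j hij =>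
    mul_le_mul_of_nonneg_left (hmono φ i j hij) (by have := hpos φ; positivity)
  have h01 : ∀ φ, Xl μ a b φ 0 < Xl μ a b φ 1 := by
    intro φ
    obtain ⟨e, E, hE⟩ := tSp (HF D μ) a (b φ) (hF φ)
    have h1 := UC.pos1 hD hiso hi ha hB hE (le_refl 1)
    have h2 := lam_zero hD hSf hi ha hB hF (hpos φ) hE
    show (∫ x, Real.exp (φ x) ∂μ) / (4 * π) * Ev a (b φ) 0 <
      (∫ x, Real.exp (φ x) ∂μ) / (4 * π) * Ev a (b φ) 1
    rw [hmm φ e E hE, hmm φ e E hE, h2]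
    have := hpos φ
    refine mul_lt_mul_of_pos_left h1 (by positivity)
  refine ⟨fun j φ => Xl μ a b φ j, hXc, hXm, fun φ u lam hu j => ?_, h01, ?_⟩
  · obtain ⟨e', -, he'⟩ := tBr M μ D hD i a b hSf hi ha hB hF φ u lam hu
    show (∫ x, Real.exp (φ x) ∂μ) / (4 * π) * Ev a (b φ) j = _
    rw [hmm φ e' lam he']
  intro Ω _ P _ ξ f φ hξ hind hφ hfd hup l ψ hl
  obtain ⟨e, E, hE⟩ := tSp (HF D μ) a (b ψ) (hF ψ)
  have hEv : ∀ j, Xl μ a b ψ j = (∫ x, Real.exp (ψ x) ∂μ) / (4 * π) * E j := fun j => by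
    show (∫ x, Real.exp (ψ x) ∂μ) / (4 * π) * Ev a (b ψ) j = _
    rw [hmm ψ e E hE]
  have hA0 : 0 < (∫ x, Real.exp (ψ x) ∂μ) / (4 * π) := by
    have := hpos ψ
    positivity
  have hl0 : E l = E (l + 1) := by
    have h1 : Xl μ a b ψ l = Xl μ a b ψ (l + 1) := hl
    rw [hEv, hEv] at h1
    exact mul_left_cancel₀ hA0.ne' h1
  have hl1 : 1 ≤ l := by
    by_contra h
    have h1 : l = 0 := by omega
    have h2 := h01 ψ
    rw [h1] at hl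
    exact absurd hl h2.ne
  have hp0 : 0 < E l := UC.pos1 hD hiso hi ha hB hE hl1
  obtain ⟨r, M', hM's, hr⟩ := loc3 hD hiso hSf hi ha hB hF hcont hmono
    (fun φ => tSp (HF D μ) a (b φ) (hF φ)) ψ (hpos ψ) hE l hp0 hl0 hl1
  obtain ⟨k, hk, hkinj⟩ := selk M' hM's hfd
  obtain ⟨ρ, hρ, δ₁, hδ₁, C, hC, hvol⟩ := hr (fun q => f (k q)) hkinj
  obtain ⟨C', hC', hser⟩ := ser_up hξ hind hφ hup hk
  refine ⟨Metric.ball ψ ρ, Metric.ball_mem_nhds _ hρ, δ₁, hδ₁, C'.toReal * C, by positivity,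
    fun s δ hs hsδ hδδ => ?_⟩
  obtain ⟨gp, hgp⟩ : ∃ gp : C(M, ℝ) → ℝ,
      gp = fun ψ => Xl μ a b ψ (l + 1) - Xl μ a b ψ l := ⟨_, rfl⟩
  obtain ⟨th, hth⟩ : ∃ th : C(M, ℝ) → ℝ,
      th = fun ψ => min (Xl μ a b ψ (l + 2) - Xl μ a b ψ l)
        (Xl μ a b ψ (l + 1) - Xl μ a b ψ (l - 1)) := ⟨_, rfl⟩
  have hgc : Continuous gp := by
    rw [hgp]
    exact (hXc _).sub (hXc _)
  have htc : Continuous th := by
    rw [hth]
    exact ((hXc _).sub (hXc _)).min ((hXc _).sub (hXc _))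
  have hAm : MeasurableSet {x : C(M, ℝ) | ‖x - ψ‖ < ρ ∧ gp x ≤ s ∧ th x < δ} := by
    refine MeasurableSet.inter ?_ (MeasurableSet.inter ?_ ?_)
    · have h1 : Continuous fun x : C(M, ℝ) => ‖x - ψ‖ :=
        continuous_norm.comp (continuous_id.sub continuous_const)
      exact (isOpen_lt h1 continuous_const).measurableSet
    · exact (isClosed_le hgc continuous_const).measurableSet
    · exact (isOpen_lt htc continuous_const).measurableSet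
  have h1 := hser _ hAm (ENNReal.ofReal (C * (δ * s ^ 2))) fun x => by
    refine le_trans (measure_mono ?_) (hvol x s δ hs hsδ hδδ)
    rintro t ⟨ht1, ht2, ht3⟩
    rw [hgp] at ht2
    rw [hth] at ht3
    exact ⟨ht1, ht2, min_lt_iff.1 ht3⟩
  have hδ0 : 0 ≤ δ := by linarith
  calc P {ω | φ ω ∈ Metric.ball ψ ρ ∧ Xl μ a b (φ ω) (l + 1) - Xl μ a b (φ ω) l ≤ s ∧
        min (Xl μ a b (φ ω) (l + 2) - Xl μ a b (φ ω) l)
          (Xl μ a b (φ ω) (l + 1) - Xl μ a b (φ ω) (l - 1)) < δ}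
      ≤ P {ω | φ ω ∈ {x : C(M, ℝ) | ‖x - ψ‖ < ρ ∧ gp x ≤ s ∧ th x < δ}} := by
        refine measure_mono fun ω hω => ?_
        obtain ⟨h2, h3, h4⟩ := hω
        rw [mem_ball_iff_norm] at h2
        rw [hgp, hth]
        exact ⟨h2, h3, h4⟩
    _ ≤ _ := h1
    _ = _ := by
        rw [mul_assoc, ENNReal.ofReal_mul ENNReal.toReal_nonneg, ENNReal.ofReal_toReal hC']

end Pool.Agent.L5helper74.QR
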