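import Pool.Agent.L5helper74.QR.Main2
import Pool.Agent.L5helper74.QR.Main3
import Pool.Agent.L5helper74.QR.Glob
import Pool.Agent.L5helper74.LR.Top

/-!
# Random metrics: asymptotics of the probability of small gaps
-/

set_option autoImplicit false
set_option linter.unusedSectionVars false
set_option synthInstance.maxHeartbeats 400000

open Set Filter Topology MeasureTheory ProbabilityTheory
open scoped Real ENNReal
open Pool.Agent.Y262.QE Pool.Agent.Y264.QR Pool.Agent.Q233.GLV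
open Pool.Agent.L5helper74.LR Pool.Agent.L5helper74

noncomputable section

namespace Pool.Agent.L5helper74.QR

lemma Wg_fin {m : ℕ} {Γ : Set (Fin m → ℝ)} (hΓ : Bornology.IsBounded Γ) :
    volume (Wg m Γ) ≠ ⊤ := by
  obtain ⟨R₀, hR₀⟩ := hΓ.exists_norm_le
  refine ne_top_of_le_ne_top (measure_closedBall_lt_top (x := (0 : Ix m → ℝ))
    (r := 2 * (((m + 1 : ℕ) : ℝ) * R₀))).ne (measure_mono fun u hu => ?_)
  rw [mem_closedBall_zero_iff]
  exact Wg_bd hR₀ u hu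

variable {M : Type} [MetricSpace M] [CompactSpace M] [MeasurableSpace M] [BorelSpace M]

theorem surf4 [ConnectedSpace M] (μ : Measure M) (D : Data M) (hD : D.IsSurf μ)
    (hiso : ∀ l, ∀ z ∈ D.T l, ∃ c : ℝ, ∀ v, ‖D.A l z v‖ = c * ‖v‖) :
    ∃ X : ℕ → C(M, ℝ) → ℝ, (∀ j, Continuous (X j)) ∧ (∀ φ i j, i ≤ j → X i φ ≤ X j φ) ∧
      (∀ (φ : C(M, ℝ)) (u : ℕ → M → ℝ) (lam : ℕ → ℝ),
        EigBasis (D.conf fun y => Real.exp (φ y)) (wm μ fun y => Real.exp (φ y)) u lam →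
        ∀ j, X j φ = (∫ x, Real.exp (φ x) ∂μ) / (4 * π) * lam j) ∧
      (∀ φ, X 0 φ < X 1 φ) ∧
      ∀ {Ω : Type} [MeasurableSpace Ω] (P : Measure Ω) [IsProbabilityMeasure P] (ξ : ℕ → Ω → ℝ)
        (f : ℕ → C(M, ℝ)) (φ : Ω → C(M, ℝ)) (ρ : ℕ → ℝ → ℝ), (∀ k, Measurable (ξ k)) →
        iIndepFun ξ P →
        (∀ ω, Tendsto (fun n => ∑ k ∈ Finset.range n, ξ k ω • f k) atTop (𝓝 (φ ω))) →
        Dense (Submodule.span ℝ (range f) : Set C(M, ℝ)) →
        (∀ k, Continuous (ρ k)) → (∀ k t, 0 ≤ ρ k t) → (∀ k, ∃ B, ∀ t, ρ k t ≤ B) →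
        (∀ k, P.map (ξ k) = volume.withDensity fun t => ENNReal.ofReal (ρ k t)) →
        ∀ K : Set C(M, ℝ), IsCompact K → (∀ᵐ ω ∂P, φ ω ∈ K) →
        ∀ (l : ℕ) (χ : C(M, ℝ) → ℝ), Continuous χ → (∀ y, 0 ≤ χ y) → (∃ B, ∀ y, χ y ≤ B) →
        ∃ c : ℝ≥0∞, c ≠ ⊤ ∧
          Tendsto (fun s : ℝ => (∫⁻ ω, {ω | X (l + 1) (φ ω) - X l (φ ω) ≤ s}.indicator
            (fun ω => ENNReal.ofReal (χ (φ ω))) ω ∂P) / ENNReal.ofReal (s ^ 2))
            (𝓝[>] 0) (𝓝 c) ∧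
          ∀ (ψ : C(M, ℝ)) (a : ℕ → ℝ), 0 < χ ψ →
            Tendsto (fun n => ∑ k ∈ Finset.range n, a k • f k) atTop (𝓝 ψ) →
            (∀ k, 0 < ρ k (a k)) → X l ψ = X (l + 1) ψ → X (l - 1) ψ < X l ψ →
            X (l + 1) ψ < X (l + 2) ψ → c ≠ 0 := by
  classical
  obtain ⟨X, hXc, hXm, hXe, hmain⟩ := surf2 μ D hD hiso
  obtain ⟨X', hXc', hXm', hXe', h01, hmain'⟩ := surf3 μ D hD hiso
  have hex : ∀ φ : C(M, ℝ), ∃ (u : ℕ → M → ℝ) (lam : ℕ → ℝ),
      EigBasis (D.conf fun y => Real.exp (φ y)) (wm μ fun y => Real.exp (φ y)) u lam := fun φ =>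
    Pool.Agent.Y264.QR.tEx M μ D hD inferInstance φ
  have hXX : X' = X := by
    funext j φ
    obtain ⟨u, lam, h⟩ := hex φ
    rw [hXe φ u lam h, hXe' φ u lam h]
  rw [hXX] at h01 hmain'
  let _ : MeasurableSpace C(M, ℝ) := borel _
  have : BorelSpace C(M, ℝ) := ⟨rfl⟩
  refine ⟨X, hXc, hXm, hXe, h01, ?_⟩
  intro Ω _ P _ ξ f φ ρ hξ hind hφ hfd hρc hρ0 hρb hρ K hK hφK l
  have hφm : Measurable φ := by
    have h1 := Yr_meas' hξ hφ ∅
    have h2 : Yr ξ f φ ∅ = φ := by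
      funext ω
      simp [Yr]
    rwa [h2] at h1
  have hup : ∀ k, ∃ C : ℝ≥0∞, C ≠ ⊤ ∧ ∀ A : Set ℝ, MeasurableSet A →
      P {ω | ξ k ω ∈ A} ≤ C * volume A := by
    intro k
    obtain ⟨B, hB⟩ := hρb k
    refine ⟨ENNReal.ofReal B, ENNReal.ofReal_ne_top, fun A hA => ?_⟩
    have h3 : P {ω | ξ k ω ∈ A} = P.map (ξ k) A := (Measure.map_apply (hξ k) hA).symm
    rw [h3, hρ k, withDensity_apply _ hA, ← setLIntegral_const]
    exact setLIntegral_mono' hA fun t _ => ENNReal.ofReal_le_ofReal (hB t)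
  obtain ⟨gp, hgp⟩ : ∃ gp : C(M, ℝ) → ℝ, gp = fun ψ => X (l + 1) ψ - X l ψ := ⟨_, rfl⟩
  obtain ⟨th, hth⟩ : ∃ th : C(M, ℝ) → ℝ,
      th = fun ψ => min (X (l + 2) ψ - X l ψ) (X (l + 1) ψ - X (l - 1) ψ) := ⟨_, rfl⟩
  have hgc : Continuous gp := by
    rw [hgp]
    exact (hXc _).sub (hXc _)
  have htc : Continuous th := by
    rw [hth]
    exact ((hXc _).sub (hXc _)).min ((hXc _).sub (hXc _))
  have hg0 : ∀ ψ, 0 ≤ gp ψ := fun ψ => by
    rw [hgp]
    exact sub_nonneg.2 (hXm _ _ _ (Nat.le_succ l))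
  -- the local law near a double level
  have hdbl : ∀ ψ, X l ψ = X (l + 1) ψ → X (l - 1) ψ < X l ψ → X (l + 1) ψ < X (l + 2) ψ →
      ∃ U ∈ 𝓝 ψ, ∀ χ : C(M, ℝ) → ℝ, Continuous χ → (∀ y, 0 ≤ χ y) → (∃ B, ∀ y, χ y ≤ B) →
        (∀ y, y ∉ U → χ y = 0) → ∃ c : ℝ≥0∞, c ≠ ⊤ ∧
        (0 < χ ψ → ∀ a : ℕ → ℝ, Tendsto (fun n => ∑ k ∈ Finset.range n, a k • f k) atTop (𝓝 ψ) →
          (∀ k, 0 < ρ k (a k)) → c ≠ 0) ∧ Tendsto (Fn P φ gp χ) (𝓝[>] 0) (𝓝 c) := by
    intro ψ h1 h2 h3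
    obtain ⟨u, lam, hu⟩ := hex ψ
    have hx := hXe ψ u lam hu
    have hne : (∫ x, Real.exp (ψ x) ∂μ) / (4 * π) ≠ 0 := by
      intro h0
      rw [hx, hx, h0, zero_mul, zero_mul] at h3
      exact lt_irrefl _ h3
    have hcl : ∀ j, lam j = lam l ↔ l ≤ j ∧ j ≤ l + 1 := by
      intro j
      have h4 : lam j = lam l ↔ X j ψ = X l ψ := by
        rw [hx, hx, mul_right_inj' hne]
      rw [h4]
      constructor
      · intro h5
        constructor
        · by_contra h6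
          have h7 := hXm ψ j (l - 1) (by omega)
          linarith
        · by_contra h6
          have h7 := hXm ψ (l + 2) j (by omega)
          linarith
      · rintro ⟨h5, h6⟩
        rcases (by omega : j = l ∨ j = l + 1) with h7 | h7
        · rw [h7]
        · rw [h7, h1]
    have hNR := nr_one hD hiso ψ u lam hu ((hcl (l + 1)).2 ⟨Nat.le_succ l, le_rfl⟩).symm
    obtain ⟨U, hU, hUg⟩ := hmain P ξ f φ ρ hξ hind hφ hfd hρc hρ0 hρb hρ ψ l 1 u lam hu le_rfl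
      hcl hNR
    refine ⟨U, hU, fun χ g1 g2 g3 g4 => ?_⟩
    obtain ⟨c, hc, hcp, hct⟩ := hUg χ g1 g2 g3 g4
    have h4 := hct (Metric.closedBall 0 1) measurableSet_closedBall Metric.isBounded_closedBall
    have hW0 : volume (Wg 1 (Metric.closedBall 0 1)) ≠ 0 := by
      refine ne_of_gt (lt_of_lt_of_le (pos_iff_ne_zero.2 (Wg_pos 1)) (measure_mono ?_))
      rintro v ⟨y, hy, hv⟩
      exact ⟨y, Metric.ball_subset_closedBall hy, hv⟩
    refine ⟨c * volume (Wg 1 (Metric.closedBall 0 1)),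
      ENNReal.mul_ne_top hc (Wg_fin Metric.isBounded_closedBall), fun g5 a ha hρa =>
        mul_ne_zero (hcp g5 a ha hρa) hW0, h4.congr' ?_⟩
    filter_upwards [self_mem_nhdsWithin] with s hs
    have hs0 : 0 < s := hs
    have h5 : {ω | s⁻¹ • (fun i : Fin 1 => X (l + (i + 1)) (φ ω) - X l (φ ω)) ∈
        Metric.closedBall 0 1} = {ω | gp (φ ω) ≤ s} := by
      ext ω
      simp only [mem_ofPred_eq, mem_closedBall_zero_iff, norm_smul, norm_inv, Real.norm_eq_abs,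
        abs_of_pos hs0]
      rw [inv_mul_le_iff₀ hs0, mul_one, pi_norm_le_iff_of_nonneg hs0.le, Fin.forall_fin_one,
        Real.norm_eq_abs]
      have h6 : X (l + (((0 : Fin 1) : ℕ) + 1)) (φ ω) - X l (φ ω) = gp (φ ω) := by
        rw [hgp]
        simp
      rw [h6, abs_of_nonneg (hg0 _)]
    unfold Fn
    rw [h5]
  intro χ hχ hχ0 hχB
  obtain ⟨c, hc, hct⟩ := glob (P := P) (χ := χ) hφm hK hφK hgc htc (fun ψ _ hψ => by
    rw [hth] at hψ
    obtain ⟨h1, h2⟩ := lt_min_iff.1 hψ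
    rcases (hg0 ψ).lt_or_eq with hg | hg
    · refine ⟨{y | gp ψ / 2 < gp y}, hgc.continuousAt.eventually (lt_mem_nhds (by
        show gp ψ / 2 < gp ψ
        linarith)), fun χ g1 g2 g3 g4 => ⟨0, ENNReal.zero_ne_top, ?_⟩⟩
      refine tendsto_const_nhds.congr' ?_
      filter_upwards [Ioo_mem_nhdsGT (show (0 : ℝ) < gp ψ / 2 by linarith)] with s hs
      have h3 : ∀ ω, {ω | gp (φ ω) ≤ s}.indicator (fun ω => ENNReal.ofReal (χ (φ ω))) ω = 0 := by
        intro ω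
        by_cases h4 : gp (φ ω) ≤ s
        · have h5 : ω ∈ {ω | gp (φ ω) ≤ s} := h4
          rw [indicator_of_mem h5, g4 _ (fun h6 => ?_), ENNReal.ofReal_zero]
          have h7 : gp ψ / 2 < gp (φ ω) := h6
          linarith [hs.2]
        · have h5 : ω ∉ {ω | gp (φ ω) ≤ s} := h4
          rw [indicator_of_notMem h5]
      unfold Fn
      simp only [h3, lintegral_zero, ENNReal.zero_div]
    · rw [hgp] at hg
      have h3 : X l ψ = X (l + 1) ψ := by
        have : (0 : ℝ) = X (l + 1) ψ - X l ψ := hg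
        linarith
      obtain ⟨U, hU, hUg⟩ := hdbl ψ h3 (by linarith) (by linarith)
      refine ⟨U, hU, fun χ g1 g2 g3 g4 => ?_⟩
      obtain ⟨c, hc, -, hct⟩ := hUg χ g1 g2 g3 g4
      exact ⟨c, hc, hct⟩) (fun ψ _ hψ => by
    rw [hth] at hψ
    have h1 := hXm ψ l (l + 1) (Nat.le_succ l)
    have h3 : X l ψ = X (l + 1) ψ := by
      rcases min_le_iff.1 hψ with h2 | h2
      · have := hXm ψ (l + 1) (l + 2) (Nat.le_succ _)
        linarith
      · have := hXm ψ (l - 1) l (Nat.sub_le _ _)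
        linarith
    have h4 := hmain' P ξ f φ hξ hind hφ hfd hup l ψ h3
    rw [hgp, hth]
    exact h4) hχ hχ0 hχB
  refine ⟨c, hc, ?_, fun ψ a hψ ha hρa h1 h2 h3 => ?_⟩
  · rw [hgp] at hct
    exact hct
  · obtain ⟨U, hU, hUg⟩ := hdbl ψ h1 h2 h3
    obtain ⟨r, hr, hrU⟩ := Metric.mem_nhds_iff.1 hU
    obtain ⟨θ, hθ⟩ : ∃ θ : C(M, ℝ) → ℝ, θ = fun y => max 0 (1 - dist y ψ / r) := ⟨_, rfl⟩
    have hθc : Continuous θ := by
      rw [hθ]
      fun_prop
    have hθ0 : ∀ y, 0 ≤ θ y := fun y => by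
      rw [hθ]
      exact le_max_left _ _
    have hθ1 : ∀ y, θ y ≤ 1 := fun y => by
      rw [hθ]
      refine max_le zero_le_one ?_
      have : 0 ≤ dist y ψ / r := by positivity
      linarith
    obtain ⟨B, hB⟩ := hχB
    obtain ⟨c', -, hc'p, hc't⟩ := hUg (fun y => χ y * θ y) (hχ.mul hθc)
      (fun y => mul_nonneg (hχ0 y) (hθ0 y))
      ⟨B, fun y => (mul_le_of_le_one_right (hχ0 y) (hθ1 y)).trans (hB y)⟩ (fun y hy => by
        have h4 : θ y = 0 := by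
          rw [hθ]
          refine max_eq_left ?_
          have h5 : r ≤ dist y ψ := by
            by_contra h6
            exact hy (hrU (not_le.1 h6))
          have : 1 ≤ dist y ψ / r := by rwa [one_le_div hr]
          linarith
        show χ y * θ y = 0
        rw [h4, mul_zero])
    have hc'0 := hc'p (by
      have h4 : θ ψ = 1 := by
        rw [hθ]
        simp
      show 0 < χ ψ * θ ψ
      rw [h4, mul_one]
      exact hψ) a ha hρa
    have hle : c' ≤ c := by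
      refine le_of_tendsto_of_tendsto' hc't hct fun s => ?_
      unfold Fn
      refine ENNReal.div_le_div_right (lintegral_mono fun ω => ?_) _
      refine indicator_le_indicator (ENNReal.ofReal_le_ofReal ?_)
      exact mul_le_of_le_one_right (hχ0 _) (hθ1 _)
    intro h4
    rw [h4] at hle
    exact hc'0 (le_zero_iff.1 hle)

end Pool.Agent.L5helper74.QR
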