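import Pool.Agent.L5helper74.QR.Main
import Pool.Agent.L5helper74.QR.Loc5
import Pool.Agent.L5helper74.QR.Main3
import Pool.Agent.Q233.GLV.GTop2

/-!
# Random metrics: three nearby levels
-/

set_option autoImplicit false
set_option linter.unusedSectionVars false
set_option synthInstance.maxHeartbeats 400000

open Set Filter Topology MeasureTheory ProbabilityTheory
open scoped Real ENNReal
open Pool.Agent.Y262.QE Pool.Agent.Y264.QR Pool.Agent.Q233.GLV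
open Pool.Agent.L5helper74.LR Pool.Agent.L5helper74

noncomputable section

namespace Pool.Agent.L5helper74.QR

variable {M : Type} [MetricSpace M] [CompactSpace M] [MeasurableSpace M] [BorelSpace M]

set_option maxHeartbeats 2000000 in
theorem surf5 [ConnectedSpace M] (μ : Measure M) (D : Data M) (hD : D.IsSurf μ)
    (hiso : ∀ l, ∀ z ∈ D.T l, ∃ c : ℝ, ∀ v, ‖D.A l z v‖ = c * ‖v‖) :
    ∃ X : ℕ → C(M, ℝ) → ℝ, (∀ j, Continuous (X j)) ∧ (∀ φ i j, i ≤ j → X i φ ≤ X j φ) ∧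
      (∀ (φ : C(M, ℝ)) (u : ℕ → M → ℝ) (lam : ℕ → ℝ),
        EigBasis (D.conf fun y => Real.exp (φ y)) (wm μ fun y => Real.exp (φ y)) u lam →
        ∀ j, X j φ = (∫ x, Real.exp (φ x) ∂μ) / (4 * π) * lam j) ∧
      (∀ φ, X 0 φ < X 1 φ) ∧
      ∀ {Ω : Type} [MeasurableSpace Ω] (P : Measure Ω) [IsProbabilityMeasure P] (ξ : ℕ → Ω → ℝ)
        (f : ℕ → C(M, ℝ)) (φ : Ω → C(M, ℝ)), (∀ k, Measurable (ξ k)) → iIndepFun ξ P →
        (∀ ω, Tendsto (fun n => ∑ k ∈ Finset.range n, ξ k ω • f k) atTop (𝓝 (φ ω))) →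
        Dense (Submodule.span ℝ (range f) : Set C(M, ℝ)) →
        (∀ k, ∃ C : ℝ≥0∞, C ≠ ⊤ ∧ ∀ A : Set ℝ, MeasurableSet A →
          P {ω | ξ k ω ∈ A} ≤ C * volume A) →
        (∀ l : ℕ, ∀ K : Set C(M, ℝ), IsCompact K →
          ∃ C : ℝ, 0 ≤ C ∧ ∀ s : ℝ, 0 < s →
            P {ω | φ ω ∈ K ∧ X (l + 2) (φ ω) - X l (φ ω) ≤ s} ≤ ENNReal.ofReal (C * s ^ 5)) ∧
        ∀ (l : ℕ) (ψ : C(M, ℝ)), X l ψ = X (l + 2) ψ →
          ∃ V ∈ 𝓝 ψ, ∃ δ₁ : ℝ, 0 < δ₁ ∧ ∃ C : ℝ, 0 ≤ C ∧ ∀ s δ : ℝ, 0 < s → 4 * s ≤ δ → δ ≤ δ₁ →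
            P {ω | φ ω ∈ V ∧ X (l + 2) (φ ω) - X l (φ ω) ≤ s ∧
              min (X (l + 3) (φ ω) - X l (φ ω)) (X (l + 2) (φ ω) - X (l - 1) (φ ω)) < δ} ≤
              ENNReal.ofReal (C * (√δ * s ^ 5)) := by
  obtain ⟨hf, -⟩ := tFin M μ D hD
  have := hf
  have : CompleteSpace (HF D μ) := by
    unfold HF
    exact (Submodule.isClosed_topologicalClosure _).completeSpace_coe
  let _ : MeasurableSpace C(M, ℝ) := borel _
  have : BorelSpace C(M, ℝ) := ⟨rfl⟩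
  obtain ⟨i, a, hSf, hi, ha⟩ := tPackF M μ D hD inferInstance
  obtain ⟨b, hB, hF, hpos, hcmp, -⟩ := tFm M μ (HF D μ) i a hSf
  obtain ⟨hnn, hmono, -, hcont, -⟩ := tLip M μ (HF D μ) a b hF hcmp
  have hmm : ∀ φ e E, Eg a (b φ) e E → ∀ j, Ev a (b φ) j = E j :=
    fun φ e E hE j => Pool.Agent.Y592.QE.mm _ a (b φ) (hF φ) e E hE j
  have hAc : Continuous fun φ : C(M, ℝ) => ∫ x, Real.exp (φ x) ∂μ :=
    (Pool.Agent.Y689.QR.int_cont μ).comp Pool.Agent.Y689.QR.exp_cont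
  have hpi := Real.pi_pos
  have hXc : ∀ j, Continuous fun φ => Xl μ a b φ j := fun j =>
    (hAc.div_const _).mul (hcont j)
  have hXm : ∀ φ i j, i ≤ j → Xl μ a b φ i ≤ Xl μ a b φ j := fun φ i j hij =>
    mul_le_mul_of_nonneg_left (hmono φ i j hij) (by have := hpos φ; positivity)
  have h01 : ∀ φ, Xl μ a b φ 0 < Xl μ a b φ 1 := by
    intro φ
    obtain ⟨e, E, hE⟩ := tSp (HF D μ) a (b φ) (hF φ)
    have h1 := UC.pos1 hD hiso hi ha hB hE (le_refl 1)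
    have h2 := lam_zero hD hSf hi ha hB hF (hpos φ) hE
    show (∫ x, Real.exp (φ x) ∂μ) / (4 * π) * Ev a (b φ) 0 <
      (∫ x, Real.exp (φ x) ∂μ) / (4 * π) * Ev a (b φ) 1
    rw [hmm φ e E hE, hmm φ e E hE, h2]
    have := hpos φ
    refine mul_lt_mul_of_pos_left h1 (by positivity)
  refine ⟨fun j φ => Xl μ a b φ j, hXc, hXm, fun φ u lam hu j => ?_, h01, ?_⟩
  · obtain ⟨e', -, he'⟩ := tBr M μ D hD i a b hSf hi ha hB hF φ u lam hu
    show (∫ x, Real.exp (φ x) ∂μ) / (4 * π) * Ev a (b φ) j = _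
    rw [hmm φ e' lam he']
  intro Ω _ P _ ξ f φ hξ hind hφ hfd hup
  -- the local estimates
  have hloc : ∀ (l : ℕ) (ψ : C(M, ℝ)), Xl μ a b ψ l = Xl μ a b ψ (l + 2) →
      ∃ V ∈ 𝓝 ψ, (∃ C : ℝ, 0 ≤ C ∧ ∀ s : ℝ, 0 < s → s ≤ 1 →
        P {ω | φ ω ∈ V ∧ Xl μ a b (φ ω) (l + 2) - Xl μ a b (φ ω) l ≤ s} ≤
          ENNReal.ofReal (C * s ^ 5)) ∧
        ∃ δ₁ : ℝ, 0 < δ₁ ∧ ∃ C : ℝ, 0 ≤ C ∧ ∀ s δ : ℝ, 0 < s → 4 * s ≤ δ → δ ≤ δ₁ →
          P {ω | φ ω ∈ V ∧ Xl μ a b (φ ω) (l + 2) - Xl μ a b (φ ω) l ≤ s ∧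
            min (Xl μ a b (φ ω) (l + 3) - Xl μ a b (φ ω) l)
              (Xl μ a b (φ ω) (l + 2) - Xl μ a b (φ ω) (l - 1)) < δ} ≤
            ENNReal.ofReal (C * (√δ * s ^ 5)) := by
    intro l ψ hl
    obtain ⟨e, E, hE⟩ := tSp (HF D μ) a (b ψ) (hF ψ)
    have hEv : ∀ j, Xl μ a b ψ j = (∫ x, Real.exp (ψ x) ∂μ) / (4 * π) * E j := fun j => by
      show (∫ x, Real.exp (ψ x) ∂μ) / (4 * π) * Ev a (b ψ) j = _
      rw [hmm ψ e E hE]
    have hA0 : 0 < (∫ x, Real.exp (ψ x) ∂μ) / (4 * π) := by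
      have := hpos ψ
      positivity
    have hl0 : E l = E (l + 2) := by
      have h1 : Xl μ a b ψ l = Xl μ a b ψ (l + 2) := hl
      rw [hEv, hEv] at h1
      exact mul_left_cancel₀ hA0.ne' h1
    have hl1 : 1 ≤ l := by
      by_contra h
      have h1 : l = 0 := by omega
      have h2 := h01 ψ
      have h3 := hXm ψ 1 2 (by norm_num)
      rw [h1] at hl
      have h4 : Xl μ a b ψ 0 = Xl μ a b ψ 2 := hl
      linarith
    have hp0 : 0 < E l := UC.pos1 hD hiso hi ha hB hE hl1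
    obtain ⟨r, M', hM's, hr⟩ := loc5 hD hiso hSf hi ha hB hF hcont hmono
      (fun φ => tSp (HF D μ) a (b φ) (hF φ)) ψ (hpos ψ) hE l hp0 hl0 hl1
    obtain ⟨k, hk, hkinj⟩ := selk M' hM's hfd
    obtain ⟨ρ, hρ, ⟨C₁, hC₁, hvol₁⟩, δ₁, hδ₁, C, hC, hvol⟩ := hr (fun q => f (k q)) hkinj
    obtain ⟨C', hC', hser⟩ := ser_up hξ hind hφ hup hk
    obtain ⟨gp, hgp⟩ : ∃ gp : C(M, ℝ) → ℝ,
        gp = fun ψ => Xl μ a b ψ (l + 2) - Xl μ a b ψ l := ⟨_, rfl⟩
    obtain ⟨th, hth⟩ : ∃ th : C(M, ℝ) → ℝ,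
        th = fun ψ => min (Xl μ a b ψ (l + 3) - Xl μ a b ψ l)
          (Xl μ a b ψ (l + 2) - Xl μ a b ψ (l - 1)) := ⟨_, rfl⟩
    have hgc : Continuous gp := by
      rw [hgp]
      exact (hXc _).sub (hXc _)
    have htc : Continuous th := by
      rw [hth]
      exact ((hXc _).sub (hXc _)).min ((hXc _).sub (hXc _))
    have hbm : MeasurableSet {x : C(M, ℝ) | ‖x - ψ‖ < ρ} := by
      have h1 : Continuous fun x : C(M, ℝ) => ‖x - ψ‖ :=
        continuous_norm.comp (continuous_id.sub continuous_const)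
      exact (isOpen_lt h1 continuous_const).measurableSet
    refine ⟨Metric.ball ψ ρ, Metric.ball_mem_nhds _ hρ, ⟨C'.toReal * C₁, by positivity,
      fun s hs hs1 => ?_⟩, δ₁, hδ₁, C'.toReal * C, by positivity, fun s δ hs hsδ hδδ => ?_⟩
    · have hAm : MeasurableSet {x : C(M, ℝ) | ‖x - ψ‖ < ρ ∧ gp x ≤ s} :=
        hbm.inter (isClosed_le hgc continuous_const).measurableSet
      have h1 := hser _ hAm (ENNReal.ofReal (C₁ * s ^ 5)) fun x => by
        have := hvol₁ x s hs hs1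
        rw [hgp]
        exact this
      calc P {ω | φ ω ∈ Metric.ball ψ ρ ∧ Xl μ a b (φ ω) (l + 2) - Xl μ a b (φ ω) l ≤ s}
          ≤ P {ω | φ ω ∈ {x : C(M, ℝ) | ‖x - ψ‖ < ρ ∧ gp x ≤ s}} := by
            refine measure_mono fun ω hω => ?_
            obtain ⟨h2, h3⟩ := hω
            rw [mem_ball_iff_norm] at h2
            rw [hgp]
            exact ⟨h2, h3⟩
        _ ≤ _ := h1
        _ = _ := by
            rw [mul_assoc, ENNReal.ofReal_mul ENNReal.toReal_nonneg, ENNReal.ofReal_toReal hC']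
    · have hAm : MeasurableSet {x : C(M, ℝ) | ‖x - ψ‖ < ρ ∧ gp x ≤ s ∧ th x < δ} :=
        hbm.inter ((isClosed_le hgc continuous_const).measurableSet.inter
          (isOpen_lt htc continuous_const).measurableSet)
      have h1 := hser _ hAm (ENNReal.ofReal (C * (√δ * s ^ 5))) fun x => by
        refine le_trans (measure_mono ?_) (hvol x s δ hs hsδ hδδ)
        rintro t ⟨ht1, ht2, ht3⟩
        rw [hgp] at ht2
        rw [hth] at ht3
        exact ⟨ht1, ht2, min_lt_iff.1 ht3⟩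
      calc P {ω | φ ω ∈ Metric.ball ψ ρ ∧ Xl μ a b (φ ω) (l + 2) - Xl μ a b (φ ω) l ≤ s ∧
            min (Xl μ a b (φ ω) (l + 3) - Xl μ a b (φ ω) l)
              (Xl μ a b (φ ω) (l + 2) - Xl μ a b (φ ω) (l - 1)) < δ}
          ≤ P {ω | φ ω ∈ {x : C(M, ℝ) | ‖x - ψ‖ < ρ ∧ gp x ≤ s ∧ th x < δ}} := by
            refine measure_mono fun ω hω => ?_
            obtain ⟨h2, h3, h4⟩ := hω
            rw [mem_ball_iff_norm] at h2
            rw [hgp, hth]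
            exact ⟨h2, h3, h4⟩
        _ ≤ _ := h1
        _ = _ := by
            rw [mul_assoc, ENNReal.ofReal_mul ENNReal.toReal_nonneg, ENNReal.ofReal_toReal hC']
  refine ⟨fun l K hK => ?_, fun l ψ hl => ?_⟩
  · obtain ⟨gp, hgp⟩ : ∃ gp : C(M, ℝ) → ℝ,
        gp = fun ψ => Xl μ a b ψ (l + 2) - Xl μ a b ψ l := ⟨_, rfl⟩
    have hgc : Continuous gp := by
      rw [hgp]
      exact (hXc _).sub (hXc _)
    obtain ⟨C, hC, hbd⟩ : ∃ C : ℝ, 0 ≤ C ∧ ∀ s : ℝ, 0 < s → s ≤ 1 →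
        P {ω | φ ω ∈ K ∧ gp (φ ω) ≤ s} ≤ ENNReal.ofReal (C * s ^ 5) := by
      refine hK.induction_on (p := fun S => ∃ C : ℝ, 0 ≤ C ∧ ∀ s : ℝ, 0 < s → s ≤ 1 →
        P {ω | φ ω ∈ S ∧ gp (φ ω) ≤ s} ≤ ENNReal.ofReal (C * s ^ 5)) ?_ ?_ ?_ ?_
      · exact ⟨0, le_rfl, fun s _ _ => by simp⟩
      · rintro S T hST ⟨C, hC, h1⟩
        refine ⟨C, hC, fun s hs hs1 => le_trans (measure_mono ?_) (h1 s hs hs1)⟩
        rintro ω ⟨h2, h3⟩
        exact ⟨hST h2, h3⟩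
      · rintro S T ⟨C, hC, h1⟩ ⟨C', hC', h1'⟩
        refine ⟨C + C', by positivity, fun s hs hs1 => ?_⟩
        rw [add_mul, ENNReal.ofReal_add (by positivity) (by positivity)]
        refine (measure_mono ?_).trans ((measure_union_le {ω | φ ω ∈ S ∧ gp (φ ω) ≤ s}
          {ω | φ ω ∈ T ∧ gp (φ ω) ≤ s}).trans (add_le_add (h1 s hs hs1) (h1' s hs hs1)))
        rintro ω ⟨hω | hω, hω2⟩
        · exact Or.inl ⟨hω, hω2⟩
        · exact Or.inr ⟨hω, hω2⟩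
      · intro φ₀ _
        have hg0 : 0 ≤ gp φ₀ := by
          rw [hgp]
          exact sub_nonneg.2 (hXm _ _ _ (by omega))
        rcases hg0.lt_or_eq with hg | hg
        · refine ⟨{ψ | gp φ₀ / 2 < gp ψ}, mem_nhdsWithin_of_mem_nhds
            ((isOpen_lt continuous_const hgc).mem_nhds (by
              show gp φ₀ / 2 < gp φ₀
              linarith)), (2 / gp φ₀) ^ 5, by positivity, fun s hs _ => ?_⟩
          rcases le_or_gt s (gp φ₀ / 2) with h1 | h1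
          · have h2 : {ω | φ ω ∈ {ψ | gp φ₀ / 2 < gp ψ} ∧ gp (φ ω) ≤ s} = ∅ := by
              ext ω
              simp only [mem_ofPred_eq, mem_empty_iff_false, iff_false, not_and, not_le]
              intro h3
              linarith
            rw [h2, measure_empty]
            exact zero_le
          · refine prob_le_one.trans ?_
            rw [← ENNReal.ofReal_one]
            refine ENNReal.ofReal_le_ofReal ?_
            rw [← mul_pow]
            refine one_le_pow₀ ?_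
            rw [div_mul_eq_mul_div, le_div_iff₀ hg]
            linarith
        · have h1 : Xl μ a b φ₀ l = Xl μ a b φ₀ (l + 2) := by
            have h2 : (0 : ℝ) = Xl μ a b φ₀ (l + 2) - Xl μ a b φ₀ l := by rwa [hgp] at hg
            linarith
          obtain ⟨V, hV, ⟨C, hC, h2⟩, -⟩ := hloc l φ₀ h1
          refine ⟨V, mem_nhdsWithin_of_mem_nhds hV, C, hC, ?_⟩
          rw [hgp]
          exact h2
    refine ⟨max C 1, le_max_of_le_left hC, fun s hs => ?_⟩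
    rcases le_or_gt s 1 with h1 | h1
    · have h2 := hbd s hs h1
      rw [hgp] at h2
      refine h2.trans (ENNReal.ofReal_le_ofReal ?_)
      exact mul_le_mul_of_nonneg_right (le_max_left _ _) (by positivity)
    · refine prob_le_one.trans ?_
      rw [← ENNReal.ofReal_one]
      refine ENNReal.ofReal_le_ofReal ?_
      have h2 : 1 ≤ s ^ 5 := one_le_pow₀ h1.le
      calc (1 : ℝ) = 1 * 1 := (one_mul 1).symm
        _ ≤ max C 1 * s ^ 5 := mul_le_mul (le_max_right _ _) h2 zero_le_one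
            (le_max_of_le_left hC)
  · obtain ⟨V, hV, -, h⟩ := hloc l ψ hl
    exact ⟨V, hV, h⟩

end Pool.Agent.L5helper74.QR
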