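import Pool.Agent.L5helper74.QR.Main2
import Pool.Agent.L5helper74.QR.Main4
import Pool.Agent.L5helper74.QR.Main5
import Pool.Agent.L5helper74.QR.Glob5

/-!
# Random metrics: the law of two consecutive small gaps
-/

set_option autoImplicit false
set_option linter.unusedSectionVars false
set_option synthInstance.maxHeartbeats 400000

open Set Filter Topology MeasureTheory ProbabilityTheory
open scoped Real ENNReal
open Pool.Agent.Y262.QE Pool.Agent.Y264.QR Pool.Agent.Q233.GLV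
open Pool.Agent.L5helper74.LR Pool.Agent.L5helper74

noncomputable section

namespace Pool.Agent.L5helper74.QR

variable {M : Type} [MetricSpace M] [CompactSpace M] [MeasurableSpace M] [BorelSpace M]

/-- three eigenfunctions of the same eigenvalue satisfy no quadratic relation -/
theorem no3 [ConnectedSpace M] {μ : Measure M} {D : Data M} (hD : D.IsSurf μ)
    (hiso : ∀ l, ∀ z ∈ D.T l, ∃ c : ℝ, ∀ v, ‖D.A l z v‖ = c * ‖v‖) (φ : C(M, ℝ))
    (u : ℕ → M → ℝ) (lam : ℕ → ℝ)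
    (hu : EigBasis (D.conf fun y => Real.exp (φ y)) (wm μ fun y => Real.exp (φ y)) u lam)
    {p : Fin 3 → ℕ} (hp : Function.Injective p) (hl : ∀ k, lam (p k) = lam (p 0))
    {S : Fin 3 → Fin 3 → ℝ} (hS : ∀ i j, S i j = S j i)
    (h : ∀ᵐ x ∂μ, ∑ i, ∑ j, S i j * (u (p i) x * u (p j) x) = 0) : S = 0 := by
  obtain ⟨hf, -⟩ := tFin M μ D hD
  have := hf
  obtain ⟨i, a, hSf, hi, ha⟩ := tPackF M μ D hD inferInstance
  obtain ⟨b, hB, hF, hpos, hcmp, -⟩ := tFm M μ (HF D μ) i a hSf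
  obtain ⟨e, heu, hE⟩ := tBr M μ D hD i a b hSf hi ha hB hF φ u lam hu
  obtain ⟨l₀, m, hl₀, hlm, hEl₀, hcl⟩ := cluster hE.mono hE.tt (p 0)
  have hP : ∀ w w' : Fin (m + 1) → ℝ,
      (∀ᵐ x ∂μ, (∑ j, w j * (fun (j : Fin (m + 1)) => u (l₀ + j)) j x) *
        (∑ j, w' j * (fun (j : Fin (m + 1)) => u (l₀ + j)) j x) = 0) → w = 0 ∨ w' = 0 :=
    fun w w' h => propP hD hiso hi ha hB hE heu (l := l₀) (m := m)
      (fun j hj => (hcl (l₀ + j)).2 ⟨Nat.le_add_right _ _, by omega⟩) w w' h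
  have hQ : ∀ w₁ w₂ w₃ : Fin (m + 1) → ℝ,
      (∀ᵐ x ∂μ, (∑ j, w₁ j * (fun (j : Fin (m + 1)) => u (l₀ + j)) j x) *
        (∑ j, w₁ j * (fun (j : Fin (m + 1)) => u (l₀ + j)) j x) +
        (∑ j, w₂ j * (fun (j : Fin (m + 1)) => u (l₀ + j)) j x) *
        (∑ j, w₂ j * (fun (j : Fin (m + 1)) => u (l₀ + j)) j x) =
        (∑ j, w₃ j * (fun (j : Fin (m + 1)) => u (l₀ + j)) j x) *
        (∑ j, w₃ j * (fun (j : Fin (m + 1)) => u (l₀ + j)) j x)) →
      w₂ = 0 ∨ ∃ t : ℝ, w₁ = t • w₂ :=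
    fun w₁ w₂ w₃ h => propC hD hiso hi ha hB hE heu (l := l₀) (m := m)
      (fun j hj => (hcl (l₀ + j)).2 ⟨Nat.le_add_right _ _, by omega⟩) w₁ w₂ w₃ h
  have hmem : ∀ k, ∃ q : Fin (m + 1), l₀ + q = p k := by
    intro k
    have h1 := (hcl (p k)).1 (by rw [hl k, hEl₀])
    exact ⟨⟨p k - l₀, by omega⟩, by show l₀ + (p k - l₀) = p k; omega⟩
  choose q hq using hmem
  have hqi : Function.Injective q := by
    intro k k' hk
    refine hp ?_
    rw [← hq k, ← hq k', hk]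
  refine tri hP hQ (y := fun k => Pi.single (q k) 1) (fun c hc => ?_) hS ?_
  · funext k
    have h1 := congrFun hc (q k)
    rw [Finset.sum_apply, Finset.sum_eq_single k] at h1
    · simpa using h1
    · intro k' _ hk'
      rw [Pi.smul_apply, Pi.single_eq_of_ne (fun h => hk' (hqi h).symm), smul_zero]
    · intro h
      exact absurd (Finset.mem_univ _) h
  · filter_upwards [h] with x hx
    refine Eq.trans ?_ hx
    have h1 : ∀ k, ∑ j : Fin (m + 1), (Pi.single (q k) (1 : ℝ) : Fin (m + 1) → ℝ) j *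
        (fun (j : Fin (m + 1)) => u (l₀ + j)) j x = u (p k) x := by
      intro k
      rw [Finset.sum_eq_single (q k)]
      · rw [Pi.single_eq_same, one_mul]
        show u (l₀ + q k) x = _
        rw [hq]
      · intro j _ hj
        rw [Pi.single_eq_of_ne hj, zero_mul]
      · intro h
        exact absurd (Finset.mem_univ _) h
    simp only [h1]

/-- triple levels have no relation -/
theorem nr_two [ConnectedSpace M] {μ : Measure M} {D : Data M} (hD : D.IsSurf μ)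
    (hiso : ∀ l, ∀ z ∈ D.T l, ∃ c : ℝ, ∀ v, ‖D.A l z v‖ = c * ‖v‖) (φ : C(M, ℝ))
    (u : ℕ → M → ℝ) (lam : ℕ → ℝ)
    (hu : EigBasis (D.conf fun y => Real.exp (φ y)) (wm μ fun y => Real.exp (φ y)) u lam)
    {l : ℕ} (hl : ∀ k : Fin 3, lam (l + k) = lam l) : NR μ u l 2 := by
  intro S hS1 hS2 hS3
  exact no3 hD hiso φ u lam hu (p := fun k : Fin 3 => l + k)
    (fun k k' hk => Fin.ext (by
      have : l + (k : ℕ) = l + k' := hk
      omega)) (fun k => by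
      rw [hl k]
      simp) hS1 hS3

set_option maxHeartbeats 2000000 in
theorem surf6 [ConnectedSpace M] (μ : Measure M) (D : Data M) (hD : D.IsSurf μ)
    (hiso : ∀ l, ∀ z ∈ D.T l, ∃ c : ℝ, ∀ v, ‖D.A l z v‖ = c * ‖v‖) :
    ∃ X : ℕ → C(M, ℝ) → ℝ, (∀ j, Continuous (X j)) ∧ (∀ φ i j, i ≤ j → X i φ ≤ X j φ) ∧
      (∀ (φ : C(M, ℝ)) (u : ℕ → M → ℝ) (lam : ℕ → ℝ),
        EigBasis (D.conf fun y => Real.exp (φ y)) (wm μ fun y => Real.exp (φ y)) u lam →
        ∀ j, X j φ = (∫ x, Real.exp (φ x) ∂μ) / (4 * π) * lam j) ∧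
      (∀ {Ω : Type} [MeasurableSpace Ω] (P : Measure Ω) [IsProbabilityMeasure P] (ξ : ℕ → Ω → ℝ)
        (f : ℕ → C(M, ℝ)) (φ : Ω → C(M, ℝ)), (∀ k, Measurable (ξ k)) → iIndepFun ξ P →
        (∀ ω, Tendsto (fun n => ∑ k ∈ Finset.range n, ξ k ω • f k) atTop (𝓝 (φ ω))) →
        Dense (Submodule.span ℝ (range f) : Set C(M, ℝ)) →
        (∀ k, ∃ C : ℝ≥0∞, C ≠ ⊤ ∧ ∀ A : Set ℝ, MeasurableSet A →
          P {ω | ξ k ω ∈ A} ≤ C * volume A) →
        ∀ l : ℕ, ∀ K : Set C(M, ℝ), IsCompact K →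
          ∃ C : ℝ, 0 ≤ C ∧ ∀ s : ℝ, 0 < s →
            P {ω | φ ω ∈ K ∧ X (l + 2) (φ ω) - X l (φ ω) ≤ s} ≤ ENNReal.ofReal (C * s ^ 5)) ∧
      ∀ {Ω : Type} [MeasurableSpace Ω] (P : Measure Ω) [IsProbabilityMeasure P] (ξ : ℕ → Ω → ℝ)
        (f : ℕ → C(M, ℝ)) (φ : Ω → C(M, ℝ)) (ρ : ℕ → ℝ → ℝ), (∀ k, Measurable (ξ k)) →
        iIndepFun ξ P →
        (∀ ω, Tendsto (fun n => ∑ k ∈ Finset.range n, ξ k ω • f k) atTop (𝓝 (φ ω))) →
        Dense (Submodule.span ℝ (range f) : Set C(M, ℝ)) →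
        (∀ k, Continuous (ρ k)) → (∀ k t, 0 ≤ ρ k t) → (∀ k, ∃ B, ∀ t, ρ k t ≤ B) →
        (∀ k, P.map (ξ k) = volume.withDensity fun t => ENNReal.ofReal (ρ k t)) →
        ∀ K : Set C(M, ℝ), IsCompact K → (∀ᵐ ω ∂P, φ ω ∈ K) →
        ∀ (l : ℕ) (χ : C(M, ℝ) → ℝ), Continuous χ → (∀ y, 0 ≤ χ y) → (∃ B, ∀ y, χ y ≤ B) →
        ∃ c : ℝ≥0∞, c ≠ ⊤ ∧
          (∀ Γ : Set (Fin 2 → ℝ), MeasurableSet Γ → Bornology.IsBounded Γ →
            Tendsto (fun s : ℝ => (∫⁻ ω,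
              {ω | s⁻¹ • (fun i : Fin 2 => X (l + (i + 1)) (φ ω) - X l (φ ω)) ∈ Γ}.indicator
              (fun ω => ENNReal.ofReal (χ (φ ω))) ω ∂P) / ENNReal.ofReal (s ^ 5))
              (𝓝[>] 0) (𝓝 (c * volume (Wg 2 Γ)))) ∧
          ∀ (ψ : C(M, ℝ)) (a : ℕ → ℝ), 0 < χ ψ →
            Tendsto (fun n => ∑ k ∈ Finset.range n, a k • f k) atTop (𝓝 ψ) →
            (∀ k, 0 < ρ k (a k)) → X l ψ = X (l + 2) ψ → X (l - 1) ψ < X l ψ →
            X (l + 2) ψ < X (l + 3) ψ → c ≠ 0 := by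
  classical
  obtain ⟨X, hXc, hXm, hXe, hmain⟩ := surf2 μ D hD hiso
  obtain ⟨X', hXc', hXm', hXe', h01, hmain'⟩ := surf5 μ D hD hiso
  have hex : ∀ φ : C(M, ℝ), ∃ (u : ℕ → M → ℝ) (lam : ℕ → ℝ),
      EigBasis (D.conf fun y => Real.exp (φ y)) (wm μ fun y => Real.exp (φ y)) u lam := fun φ =>
    Pool.Agent.Y264.QR.tEx M μ D hD inferInstance φ
  have hXX : X' = X := by
    funext j φ
    obtain ⟨u, lam, h⟩ := hex φ
    rw [hXe φ u lam h, hXe' φ u lam h]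
  rw [hXX] at h01 hmain'
  let _ : MeasurableSpace C(M, ℝ) := borel _
  have : BorelSpace C(M, ℝ) := ⟨rfl⟩
  refine ⟨X, hXc, hXm, hXe, ?_, ?_⟩
  · intro Ω _ P _ ξ f φ hξ hind hφ hfd hup
    exact (hmain' P ξ f φ hξ hind hφ hfd hup).1
  intro Ω _ P _ ξ f φ ρ hξ hind hφ hfd hρc hρ0 hρb hρ K hK hφK l
  have hφm : Measurable φ := by
    have h1 := Yr_meas' hξ hφ ∅
    have h2 : Yr ξ f φ ∅ = φ := by
      funext ω
      simp [Yr]
    rwa [h2] at h1
  have hup : ∀ k, ∃ C : ℝ≥0∞, C ≠ ⊤ ∧ ∀ A : Set ℝ, MeasurableSet A →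
      P {ω | ξ k ω ∈ A} ≤ C * volume A := by
    intro k
    obtain ⟨B, hB⟩ := hρb k
    refine ⟨ENNReal.ofReal B, ENNReal.ofReal_ne_top, fun A hA => ?_⟩
    have h3 : P {ω | ξ k ω ∈ A} = P.map (ξ k) A := (Measure.map_apply (hξ k) hA).symm
    rw [h3, hρ k, withDensity_apply _ hA, ← setLIntegral_const]
    exact setLIntegral_mono' hA fun t _ => ENNReal.ofReal_le_ofReal (hB t)
  obtain ⟨sp, hsp⟩ : ∃ sp : C(M, ℝ) → ℝ, sp = fun ψ => X (l + 2) ψ - X l ψ := ⟨_, rfl⟩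
  obtain ⟨gp, hgp⟩ : ∃ gp : C(M, ℝ) → Fin 2 → ℝ,
      gp = fun ψ (i : Fin 2) => X (l + (i + 1)) ψ - X l ψ := ⟨_, rfl⟩
  obtain ⟨th, hth⟩ : ∃ th : C(M, ℝ) → ℝ,
      th = fun ψ => min (X (l + 3) ψ - X l ψ) (X (l + 2) ψ - X (l - 1) ψ) := ⟨_, rfl⟩
  have hsc : Continuous sp := by
    rw [hsp]
    exact (hXc _).sub (hXc _)
  have hgc : Continuous gp := by
    rw [hgp]
    exact continuous_pi fun j => (hXc _).sub (hXc _)
  have htc : Continuous th := by
    rw [hth]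
    exact ((hXc _).sub (hXc _)).min ((hXc _).sub (hXc _))
  have hs0 : ∀ ψ, 0 ≤ sp ψ := fun ψ => by
    rw [hsp]
    exact sub_nonneg.2 (hXm _ _ _ (by omega))
  have hspg : ∀ y, sp y ≤ ‖gp y‖ := by
    intro y
    have h1 := norm_le_pi_norm (gp y) 1
    have h2 : gp y 1 = sp y := by
      rw [hgp, hsp]
      rfl
    rw [h2, Real.norm_eq_abs] at h1
    exact (le_abs_self _).trans h1
  have hG0 : volume (Wg 2 (Metric.closedBall 0 1)) ≠ 0 := by
    refine ne_of_gt (lt_of_lt_of_le (pos_iff_ne_zero.2 (Wg_pos 2)) (measure_mono ?_))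
    rintro v ⟨y, hy, hv⟩
    exact ⟨y, Metric.ball_subset_closedBall hy, hv⟩
  -- the local law near a triple level
  have htri : ∀ ψ, X l ψ = X (l + 2) ψ → X (l - 1) ψ < X l ψ → X (l + 2) ψ < X (l + 3) ψ →
      ∃ U ∈ 𝓝 ψ, ∀ χ : C(M, ℝ) → ℝ, Continuous χ → (∀ y, 0 ≤ χ y) → (∃ B, ∀ y, χ y ≤ B) →
        (∀ y, y ∉ U → χ y = 0) → ∃ c : ℝ≥0∞, c ≠ ⊤ ∧
        (0 < χ ψ → ∀ a : ℕ → ℝ, Tendsto (fun n => ∑ k ∈ Finset.range n, a k • f k) atTop (𝓝 ψ) →
          (∀ k, 0 < ρ k (a k)) → c ≠ 0) ∧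
        ∀ Γ : Set (Fin 2 → ℝ), MeasurableSet Γ → Bornology.IsBounded Γ →
          Tendsto (Fv P φ gp 5 Γ χ) (𝓝[>] 0) (𝓝 (c * volume (Wg 2 Γ))) := by
    intro ψ h1 h2 h3
    obtain ⟨u, lam, hu⟩ := hex ψ
    have hx := hXe ψ u lam hu
    have hne : (∫ x, Real.exp (ψ x) ∂μ) / (4 * π) ≠ 0 := by
      intro h0
      rw [hx, hx, h0, zero_mul, zero_mul] at h3
      exact lt_irrefl _ h3
    have hcl : ∀ j, lam j = lam l ↔ l ≤ j ∧ j ≤ l + 2 := by
      intro j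
      have h4 : lam j = lam l ↔ X j ψ = X l ψ := by
        rw [hx, hx, mul_right_inj' hne]
      rw [h4]
      constructor
      · intro h5
        constructor
        · by_contra h6
          have h7 := hXm ψ j (l - 1) (by omega)
          linarith
        · by_contra h6
          have h7 := hXm ψ (l + 3) j (by omega)
          linarith
      · rintro ⟨h5, h6⟩
        have h7 := hXm ψ l j h5
        have h8 := hXm ψ j (l + 2) h6
        linarith
    have hNR := nr_two hD hiso ψ u lam hu (l := l) fun k =>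
      (hcl (l + k)).2 ⟨Nat.le_add_right _ _, by omega⟩
    obtain ⟨U, hU, hUg⟩ := hmain P ξ f φ ρ hξ hind hφ hfd hρc hρ0 hρb hρ ψ l 2 u lam hu
      (by norm_num) hcl hNR
    refine ⟨U, hU, fun χ g1 g2 g3 g4 => ?_⟩
    obtain ⟨c, hc, hcp, hct⟩ := hUg χ g1 g2 g3 g4
    refine ⟨c, hc, hcp, fun Γ hΓ hΓb => ?_⟩
    have h4 := hct Γ hΓ hΓb
    unfold Fv
    rw [hgp]
    exact h4
  intro χ hχ hχ0 hχB
  obtain ⟨c, hc, hct⟩ := globV (P := P) (N := 5) (w := fun Γ => volume (Wg 2 Γ)) (χ := χ) hφm hK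
    hφK hgc hsc hspg htc (fun Γ hΓ => Wg_fin hΓ) (Γ₀ := Metric.closedBall 0 1)
    measurableSet_closedBall Metric.isBounded_closedBall hG0 (fun ψ _ hψ => by
    rw [hth] at hψ
    obtain ⟨h1, h2⟩ := lt_min_iff.1 hψ
    rcases (hs0 ψ).lt_or_eq with hg | hg
    · refine ⟨{y | sp ψ / 2 < sp y}, hsc.continuousAt.eventually (lt_mem_nhds (by
        show sp ψ / 2 < sp ψ
        linarith)), fun χ g1 g2 g3 g4 => ⟨0, ENNReal.zero_ne_top, fun Γ hΓ hΓb => ?_⟩⟩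
      obtain ⟨R, hR⟩ := hΓb.exists_norm_le
      have hR1 : 0 < max R 1 := lt_max_of_lt_right one_pos
      rw [zero_mul]
      refine tendsto_const_nhds.congr' ?_
      filter_upwards [Ioo_mem_nhdsGT (show (0 : ℝ) < sp ψ / (2 * max R 1) by positivity)]
        with s hs
      have hs1 : 0 < s := hs.1
      have hs2 := hs.2
      rw [lt_div_iff₀ (by positivity)] at hs2
      have h3 : ∀ ω, {ω | s⁻¹ • gp (φ ω) ∈ Γ}.indicator
          (fun ω => ENNReal.ofReal (χ (φ ω))) ω = 0 := by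
        intro ω
        by_cases h4 : s⁻¹ • gp (φ ω) ∈ Γ
        · have h5 : ω ∈ {ω | s⁻¹ • gp (φ ω) ∈ Γ} := h4
          rw [indicator_of_mem h5, g4 _ (fun h6 => ?_), ENNReal.ofReal_zero]
          have h7 : sp ψ / 2 < sp (φ ω) := h6
          have h8 := (hR _ h4).trans (le_max_left R 1)
          rw [norm_smul, norm_inv, Real.norm_eq_abs, abs_of_pos hs1, inv_mul_le_iff₀ hs1] at h8
          have h9 := hspg (φ ω)
          linarith
        · have h5 : ω ∉ {ω | s⁻¹ • gp (φ ω) ∈ Γ} := h4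
          rw [indicator_of_notMem h5]
      unfold Fv
      simp only [h3, lintegral_zero, ENNReal.zero_div]
    · rw [hsp] at hg
      have h3 : X l ψ = X (l + 2) ψ := by
        have : (0 : ℝ) = X (l + 2) ψ - X l ψ := hg
        linarith
      obtain ⟨U, hU, hUg⟩ := htri ψ h3 (by linarith) (by linarith)
      refine ⟨U, hU, fun χ g1 g2 g3 g4 => ?_⟩
      obtain ⟨c, hc, -, hct⟩ := hUg χ g1 g2 g3 g4
      exact ⟨c, hc, hct⟩) (fun ψ _ hψ => by
    rw [hth] at hψ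
    have h1 := hXm ψ l (l + 2) (by omega)
    have h3 : X l ψ = X (l + 2) ψ := by
      rcases min_le_iff.1 hψ with h2 | h2
      · have := hXm ψ (l + 2) (l + 3) (by omega)
        linarith
      · have := hXm ψ (l - 1) l (Nat.sub_le _ _)
        linarith
    have h4 := (hmain' P ξ f φ hξ hind hφ hfd hup).2 l ψ h3
    rw [hsp, hth]
    exact h4) hχ hχ0 hχB
  refine ⟨c, hc, ?_, fun ψ a hψ ha hρa h1 h2 h3 => ?_⟩
  · intro Γ hΓ hΓb
    have h4 := hct Γ hΓ hΓb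
    unfold Fv at h4
    rw [hgp] at h4
    exact h4
  · obtain ⟨U, hU, hUg⟩ := htri ψ h1 h2 h3
    obtain ⟨r, hr, hrU⟩ := Metric.mem_nhds_iff.1 hU
    obtain ⟨θ, hθ⟩ : ∃ θ : C(M, ℝ) → ℝ, θ = fun y => max 0 (1 - dist y ψ / r) := ⟨_, rfl⟩
    have hθc : Continuous θ := by
      rw [hθ]
      fun_prop
    have hθ0 : ∀ y, 0 ≤ θ y := fun y => by
      rw [hθ]
      exact le_max_left _ _
    have hθ1 : ∀ y, θ y ≤ 1 := fun y => by
      rw [hθ]
      refine max_le zero_le_one ?_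
      have : 0 ≤ dist y ψ / r := by positivity
      linarith
    obtain ⟨B, hB⟩ := hχB
    obtain ⟨c', -, hc'p, hc't⟩ := hUg (fun y => χ y * θ y) (hχ.mul hθc)
      (fun y => mul_nonneg (hχ0 y) (hθ0 y))
      ⟨B, fun y => (mul_le_of_le_one_right (hχ0 y) (hθ1 y)).trans (hB y)⟩ (fun y hy => by
        have h4 : θ y = 0 := by
          rw [hθ]
          refine max_eq_left ?_
          have h5 : r ≤ dist y ψ := by
            by_contra h6
            exact hy (hrU (not_le.1 h6))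
          have : 1 ≤ dist y ψ / r := by rwa [one_le_div hr]
          linarith
        show χ y * θ y = 0
        rw [h4, mul_zero])
    have hc'0 := hc'p (by
      have h4 : θ ψ = 1 := by
        rw [hθ]
        simp
      show 0 < χ ψ * θ ψ
      rw [h4, mul_one]
      exact hψ) a ha hρa
    have hle : c' * volume (Wg 2 (Metric.closedBall 0 1)) ≤
        c * volume (Wg 2 (Metric.closedBall 0 1)) := by
      refine le_of_tendsto_of_tendsto' (hc't (Metric.closedBall 0 1) measurableSet_closedBall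
        Metric.isBounded_closedBall) (hct (Metric.closedBall 0 1) measurableSet_closedBall
        Metric.isBounded_closedBall) fun s => ?_
      unfold Fv
      refine ENNReal.div_le_div_right (lintegral_mono fun ω => ?_) _
      refine indicator_le_indicator (ENNReal.ofReal_le_ofReal ?_)
      exact mul_le_of_le_one_right (hχ0 _) (hθ1 _)
    intro h4
    rw [h4, zero_mul] at hle
    exact mul_ne_zero hc'0 hG0 (le_zero_iff.1 hle)

end Pool.Agent.L5helper74.QR
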