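import Pool.Agent.L5helper74.QR.Ser
import Mathlib.MeasureTheory.Measure.Tight

/-!
# Series with independent coefficients: tightness of small gaps
-/

set_option autoImplicit false
set_option linter.unusedSectionVars false

open Set Filter Topology MeasureTheory ProbabilityTheory
open scoped ENNReal NNReal

noncomputable section

namespace Pool.Agent.L5helper74.QR

variable {Ω : Type} [MeasurableSpace Ω] {P : Measure Ω} [IsProbabilityMeasure P] {X : Type}
  [NormedAddCommGroup X] [NormedSpace ℝ X] [MeasurableSpace X] [BorelSpace X]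
  [SecondCountableTopology X] {ξ : ℕ → Ω → ℝ} {f : ℕ → X} {φ : Ω → X}

/-- upper bound with a condition on the rest of the series -/
theorem ser_up2 (hξ : ∀ k, Measurable (ξ k)) (hind : iIndepFun ξ P)
    (hφ : ∀ ω, Tendsto (fun n => ∑ k ∈ Finset.range n, ξ k ω • f k) atTop (𝓝 (φ ω)))
    (hup : ∀ k, ∃ C : ℝ≥0∞, C ≠ ⊤ ∧ ∀ A : Set ℝ, MeasurableSet A →
      P {ω | ξ k ω ∈ A} ≤ C * volume A) {κ : Type} [Fintype κ] [DecidableEq κ]
    {k : κ → ℕ} (hk : Function.Injective k) : ∃ C : ℝ≥0∞, C ≠ ⊤ ∧ ∀ A B : Set X,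
      MeasurableSet A → MeasurableSet B → ∀ d : ℝ≥0∞,
      (∀ x, volume {t : κ → ℝ | x + ∑ q, t q • f (k q) ∈ A} ≤ d) →
      P {ω | φ ω ∈ A ∧ Yr ξ f φ (Finset.univ.image k) ω ∈ B} ≤
        C * d * P {ω | Yr ξ f φ (Finset.univ.image k) ω ∈ B} := by
  choose C hC hCA using fun q => hup (k q)
  obtain ⟨K, hK⟩ : ∃ K : ℝ≥0, ∀ q, C q ≤ K := by
    refine ⟨∑ q, (C q).toNNReal, fun q => ?_⟩
    rw [← ENNReal.coe_toNNReal (hC q), ENNReal.coe_le_coe]
    have := Finset.single_le_sum (f := fun q => (C q).toNNReal) (fun _ _ => zero_le)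
      (Finset.mem_univ q)
    simpa using this
  have hle : Measure.pi (fun q => P.map (ξ (k q))) ≤ K ^ Fintype.card κ • volume := by
    rw [← pi_smul']
    refine LR.pi_mono fun q => Measure.le_iff.2 fun A hA => ?_
    rw [Measure.map_apply (hξ _) hA, Measure.smul_apply, ENNReal.smul_def, smul_eq_mul]
    exact (hCA q A hA).trans (mul_le_mul_left (hK q) _)
  refine ⟨(K : ℝ≥0∞) ^ Fintype.card κ, ENNReal.pow_ne_top ENNReal.coe_ne_top,
    fun A B hA hBm d hd => ?_⟩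
  obtain ⟨S, hS⟩ : ∃ S, S = Finset.univ.image k := ⟨_, rfl⟩
  rw [← hS]
  have hY := Yr_meas' hξ hφ S
  have hX : Measurable (fun ω (q : κ) => ξ (k q) ω) := measurable_pi_lambda _ fun q => hξ _
  have hi := ind hξ hind hφ S (k := k) fun q => by
    rw [hS]
    exact Finset.mem_image_of_mem k (Finset.mem_univ q)
  have hB : MeasurableSet {p : X × (κ → ℝ) | p.1 + ∑ q, p.2 q • f (k q) ∈ A ∧ p.1 ∈ B} := by
    have hc : Continuous fun p : X × (κ → ℝ) => p.1 + ∑ q, p.2 q • f (k q) :=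
      continuous_fst.add (continuous_finsetSum _ fun q _ =>
        ((continuous_apply q).comp continuous_snd).smul continuous_const)
    exact (hc.measurable hA).inter (measurable_fst hBm)
  have h1 := (indepFun_iff_map_prod_eq_prod_map_map hY.aemeasurable hX.aemeasurable).1 hi
  have h2 : P.map (fun ω (q : κ) => ξ (k q) ω) = Measure.pi (fun q => P.map (ξ (k q))) :=
    (iIndepFun_iff_map_fun_eq_pi_map fun q => (hξ (k q)).aemeasurable).1 (hind.precomp hk)
  have h3 : P {ω | φ ω ∈ A ∧ Yr ξ f φ S ω ∈ B} =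
      P.map (fun ω => (Yr ξ f φ S ω, fun q => ξ (k q) ω))
      {p : X × (κ → ℝ) | p.1 + ∑ q, p.2 q • f (k q) ∈ A ∧ p.1 ∈ B} := by
    rw [Measure.map_apply (hY.prodMk hX) hB]
    congr 1
    ext ω
    simp only [mem_preimage, mem_ofPred_eq]
    rw [hS, phi_eq hk]
  rw [h3, h1, Measure.prod_apply hB, h2]
  calc _ ≤ ∫⁻ x, B.indicator (fun _ => (K : ℝ≥0∞) ^ Fintype.card κ * d) x
        ∂(P.map (Yr ξ f φ S)) := by
        refine lintegral_mono fun x => ?_
        by_cases hx : x ∈ B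
        · rw [indicator_of_mem hx]
          refine (measure_mono (t := {t : κ → ℝ | x + ∑ q, t q • f (k q) ∈ A})
            fun t ht => ht.1).trans ((hle _).trans ?_)
          rw [Measure.smul_apply, ENNReal.smul_def, smul_eq_mul, ENNReal.coe_pow]
          exact mul_le_mul_right (hd _) _
        · rw [indicator_of_notMem hx]
          have h4 : Prod.mk x ⁻¹' {p : X × (κ → ℝ) | p.1 + ∑ q, p.2 q • f (k q) ∈ A ∧ p.1 ∈ B} =
              ∅ := by
            ext t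
            simp only [mem_preimage, mem_ofPred_eq, mem_empty_iff_false, iff_false, not_and]
            exact fun _ => hx
          rw [h4, measure_empty]
    _ = _ := by
        rw [lintegral_indicator hBm, setLIntegral_const, Measure.map_apply hY hBm]
        rfl

variable [CompleteSpace X]

/-- the small gaps are tight locally -/
theorem tig (hξ : ∀ k, Measurable (ξ k)) (hind : iIndepFun ξ P)
    (hφ : ∀ ω, Tendsto (fun n => ∑ k ∈ Finset.range n, ξ k ω • f k) atTop (𝓝 (φ ω)))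
    (hup : ∀ k, ∃ C : ℝ≥0∞, C ≠ ⊤ ∧ ∀ A : Set ℝ, MeasurableSet A →
      P {ω | ξ k ω ∈ A} ≤ C * volume A) {κ : Type} [Fintype κ] [DecidableEq κ]
    {k : κ → ℕ} (hk : Function.Injective k)
    (hinj : ∀ t : κ → ℝ, ∑ q, t q • f (k q) = 0 → t = 0) {sp : X → ℝ} (hsp : Continuous sp)
    {ψ : X} {ρ : ℝ} {N : ℕ} {C₁ : ℝ} (hC₁ : 0 ≤ C₁)
    (h : ∀ (x : X) (s : ℝ), 0 < s → s ≤ 1 →
      volume {t : κ → ℝ | ‖x + ∑ q, t q • f (k q) - ψ‖ < ρ ∧ sp (x + ∑ q, t q • f (k q)) ≤ s} ≤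
        ENNReal.ofReal (C₁ * s ^ N)) {ε : ℝ} (hε : 0 < ε) :
    ∃ K : Set X, IsCompact K ∧ ∀ s : ℝ, 0 < s → s ≤ 1 →
      P {ω | φ ω ∈ Metric.ball ψ ρ ∧ φ ω ∉ K ∧ sp (φ ω) ≤ s} ≤ ENNReal.ofReal (ε * s ^ N) := by
  obtain ⟨C, hC, hCA⟩ := ser_up2 hξ hind hφ hup hk
  obtain ⟨S, hS⟩ : ∃ S, S = Finset.univ.image k := ⟨_, rfl⟩
  rw [← hS] at hCA
  have hY := Yr_meas' hξ hφ S
  have hη : (0 : ℝ≥0∞) < ENNReal.ofReal (ε / (C.toReal * C₁ + 1)) := by
    rw [ENNReal.ofReal_pos]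
    have : 0 ≤ C.toReal * C₁ := mul_nonneg ENNReal.toReal_nonneg hC₁
    positivity
  obtain ⟨K', hK', hK'2⟩ := isTightMeasureSet_iff_exists_isCompact_measure_compl_le.1
    (isTightMeasureSet_singleton (μ := P.map (Yr ξ f φ S))) _ hη
  have hK'3 := hK'2 _ rfl
  obtain ⟨T, hT⟩ : ∃ T : (κ → ℝ) →ₗ[ℝ] X, ∀ t, T t = ∑ q, t q • f (k q) :=
    ⟨{ toFun := fun t => ∑ q, t q • f (k q)
       map_add' := fun a b => by simp [add_smul, Finset.sum_add_distrib]
       map_smul' := fun a b => by simp [smul_smul, Finset.smul_sum] }, fun t => rfl⟩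
  obtain ⟨A, hA0, hA⟩ := T.exists_antilipschitzWith (LinearMap.ker_eq_bot'.2 fun t ht =>
    hinj t (by rw [← hT]; exact ht))
  obtain ⟨R', hR'⟩ := hK'.isBounded.exists_norm_le
  obtain ⟨R, hR⟩ : ∃ R : ℝ, R = A * (‖ψ‖ + ρ + R') := ⟨_, rfl⟩
  have hTc : Continuous fun p : X × (κ → ℝ) => p.1 + ∑ q, p.2 q • f (k q) :=
      continuous_fst.add (continuous_finsetSum _ fun q _ =>
        ((continuous_apply q).comp continuous_snd).smul continuous_const)
  refine ⟨(fun p : X × (κ → ℝ) => p.1 + ∑ q, p.2 q • f (k q)) ''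
    (K' ×ˢ Metric.closedBall 0 R), (hK'.prod (isCompact_closedBall _ _)).image hTc,
    fun s hs hs1 => ?_⟩
  have hAm : MeasurableSet {x : X | ‖x - ψ‖ < ρ ∧ sp x ≤ s} :=
    (isOpen_lt (continuous_norm.comp (continuous_id.sub continuous_const))
      continuous_const).measurableSet.inter (isClosed_le hsp continuous_const).measurableSet
  have h1 := hCA {x : X | ‖x - ψ‖ < ρ ∧ sp x ≤ s} K'ᶜ hAm hK'.isClosed.measurableSet.compl
    (ENNReal.ofReal (C₁ * s ^ N)) fun x => h x s hs hs1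
  have h2 : P {ω | Yr ξ f φ S ω ∈ K'ᶜ} ≤ ENNReal.ofReal (ε / (C.toReal * C₁ + 1)) := by
    have h3 : P {ω | Yr ξ f φ S ω ∈ K'ᶜ} = P.map (Yr ξ f φ S) K'ᶜ :=
      (Measure.map_apply hY hK'.isClosed.measurableSet.compl).symm
    rw [h3]
    exact hK'3
  calc P {ω | φ ω ∈ Metric.ball ψ ρ ∧ φ ω ∉ (fun p : X × (κ → ℝ) =>
        p.1 + ∑ q, p.2 q • f (k q)) '' (K' ×ˢ Metric.closedBall 0 R) ∧ sp (φ ω) ≤ s}
      ≤ P {ω | φ ω ∈ {x : X | ‖x - ψ‖ < ρ ∧ sp x ≤ s} ∧ Yr ξ f φ S ω ∈ K'ᶜ} := by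
        refine measure_mono fun ω hω => ?_
        obtain ⟨g1, g2, g3⟩ := hω
        rw [mem_ball_iff_norm] at g1
        refine ⟨⟨g1, g3⟩, fun g4 => g2 ?_⟩
        have g5 : Yr ξ f φ S ω + ∑ q, ξ (k q) ω • f (k q) = φ ω := by
          rw [hS]
          exact phi_eq hk ω
        refine ⟨(Yr ξ f φ S ω, fun q => ξ (k q) ω), ⟨g4, ?_⟩, g5⟩
        rw [mem_closedBall_zero_iff]
        have g6 := hA.le_mul_dist (fun q => ξ (k q) ω) 0
        rw [map_zero, dist_zero_right, dist_zero_right, hT] at g6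
        refine g6.trans ?_
        rw [hR]
        refine mul_le_mul_of_nonneg_left ?_ A.2
        have g7 : ∑ q, ξ (k q) ω • f (k q) = (φ ω - ψ) + ψ - Yr ξ f φ S ω := by
          rw [← g5]
          abel
        rw [g7]
        refine (norm_sub_le _ _).trans ?_
        have g8 := norm_add_le (φ ω - ψ) ψ
        have g9 := hR' _ g4
        linarith
    _ ≤ _ := h1
    _ ≤ C * ENNReal.ofReal (C₁ * s ^ N) * ENNReal.ofReal (ε / (C.toReal * C₁ + 1)) := by
        gcongr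
    _ ≤ ENNReal.ofReal (ε * s ^ N) := by
        have h0 : 0 ≤ C.toReal * C₁ := mul_nonneg ENNReal.toReal_nonneg hC₁
        nth_rewrite 1 [← ENNReal.ofReal_toReal hC]
        rw [← ENNReal.ofReal_mul ENNReal.toReal_nonneg, ← ENNReal.ofReal_mul (by positivity)]
        refine ENNReal.ofReal_le_ofReal ?_
        have h5 : C.toReal * (C₁ * s ^ N) * (ε / (C.toReal * C₁ + 1)) =
            (C.toReal * C₁) / (C.toReal * C₁ + 1) * (ε * s ^ N) := by
          field_simp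
        rw [h5]
        refine mul_le_of_le_one_left (by positivity) ?_
        rw [div_le_one (by positivity)]
        linarith

end Pool.Agent.L5helper74.QR
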