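import Pool.Agent.L5helper74.QR.Main7
import Pool.Agent.L5helper74.QR.Glob6
import Pool.Agent.L5helper74.QR.Tig

/-!
# Random metrics: the law of one or two consecutive small gaps near compact sets of metrics
-/

set_option autoImplicit false
set_option linter.unusedSectionVars false
set_option synthInstance.maxHeartbeats 400000

open Set Filter Topology MeasureTheory ProbabilityTheory
open scoped Real ENNReal
open Pool.Agent.Y262.QE Pool.Agent.Y264.QR Pool.Agent.Q233.GLV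
open Pool.Agent.L5helper74.LR Pool.Agent.L5helper74

noncomputable section

namespace Pool.Agent.L5helper74.QR

variable {M : Type} [MetricSpace M] [CompactSpace M] [MeasurableSpace M] [BorelSpace M]

set_option maxHeartbeats 2000000 in
theorem surfT [ConnectedSpace M] (μ : Measure M) (D : Data M) (hD : D.IsSurf μ)
    (hiso : ∀ l, ∀ z ∈ D.T l, ∃ c : ℝ, ∀ v, ‖D.A l z v‖ = c * ‖v‖) :
    ∃ X : ℕ → C(M, ℝ) → ℝ,
      (∀ (φ : C(M, ℝ)) (u : ℕ → M → ℝ) (lam : ℕ → ℝ),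
        EigBasis (D.conf fun y => Real.exp (φ y)) (wm μ fun y => Real.exp (φ y)) u lam →
        ∀ j, X j φ = (∫ x, Real.exp (φ x) ∂μ) / (4 * π) * lam j) ∧
      ∀ {Ω : Type} [MeasurableSpace Ω] (P : Measure Ω) [IsProbabilityMeasure P] (ξ : ℕ → Ω → ℝ)
        (f : ℕ → C(M, ℝ)) (φ : Ω → C(M, ℝ)), (∀ k, Measurable (ξ k)) → iIndepFun ξ P →
        (∀ ω, Tendsto (fun n => ∑ k ∈ Finset.range n, ξ k ω • f k) atTop (𝓝 (φ ω))) →
        Dense (Submodule.span ℝ (range f) : Set C(M, ℝ)) →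
        (∀ k, ∃ C : ℝ≥0∞, C ≠ ⊤ ∧ ∀ A : Set ℝ, MeasurableSet A →
          P {ω | ξ k ω ∈ A} ≤ C * volume A) →
        ∀ m : ℕ, m = 1 ∨ m = 2 → ∀ (l : ℕ) (ψ : C(M, ℝ)), X l ψ = X (l + m) ψ →
          ∃ r : ℝ, 0 < r ∧ ∀ ε : ℝ, 0 < ε → ∃ K : Set C(M, ℝ), IsCompact K ∧
            ∀ s : ℝ, 0 < s → s ≤ 1 →
            P {ω | φ ω ∈ Metric.ball ψ r ∧ φ ω ∉ K ∧ X (l + m) (φ ω) - X l (φ ω) ≤ s} ≤
              ENNReal.ofReal (ε * s ^ (m * (m + 3) / 2)) := by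
  obtain ⟨hf, -⟩ := tFin M μ D hD
  have := hf
  have : CompleteSpace (HF D μ) := by
    unfold HF
    exact (Submodule.isClosed_topologicalClosure _).completeSpace_coe
  let _ : MeasurableSpace C(M, ℝ) := borel _
  have : BorelSpace C(M, ℝ) := ⟨rfl⟩
  obtain ⟨i, a, hSf, hi, ha⟩ := tPackF M μ D hD inferInstance
  obtain ⟨b, hB, hF, hpos, hcmp, -⟩ := tFm M μ (HF D μ) i a hSf
  obtain ⟨hnn, hmono, -, hcont, -⟩ := tLip M μ (HF D μ) a b hF hcmp
  have hmm : ∀ φ e E, Eg a (b φ) e E → ∀ j, Ev a (b φ) j = E j :=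
    fun φ e E hE j => Pool.Agent.Y592.QE.mm _ a (b φ) (hF φ) e E hE j
  have hAc : Continuous fun φ : C(M, ℝ) => ∫ x, Real.exp (φ x) ∂μ :=
    (Pool.Agent.Y689.QR.int_cont μ).comp Pool.Agent.Y689.QR.exp_cont
  have hpi := Real.pi_pos
  have hXc : ∀ j, Continuous fun φ => Xl μ a b φ j := fun j =>
    (hAc.div_const _).mul (hcont j)
  have hXm : ∀ φ i j, i ≤ j → Xl μ a b φ i ≤ Xl μ a b φ j := fun φ i j hij =>
    mul_le_mul_of_nonneg_left (hmono φ i j hij) (by have := hpos φ; positivity)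
  have h01 : ∀ φ, Xl μ a b φ 0 < Xl μ a b φ 1 := by
    intro φ
    obtain ⟨e, E, hE⟩ := tSp (HF D μ) a (b φ) (hF φ)
    have h1 := UC.pos1 hD hiso hi ha hB hE (le_refl 1)
    have h2 := lam_zero hD hSf hi ha hB hF (hpos φ) hE
    show (∫ x, Real.exp (φ x) ∂μ) / (4 * π) * Ev a (b φ) 0 <
      (∫ x, Real.exp (φ x) ∂μ) / (4 * π) * Ev a (b φ) 1
    rw [hmm φ e E hE, hmm φ e E hE, h2]
    have := hpos φ
    refine mul_lt_mul_of_pos_left h1 (by positivity)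
  refine ⟨fun j φ => Xl μ a b φ j, fun φ u lam hu j => ?_, ?_⟩
  · obtain ⟨e', -, he'⟩ := tBr M μ D hD i a b hSf hi ha hB hF φ u lam hu
    show (∫ x, Real.exp (φ x) ∂μ) / (4 * π) * Ev a (b φ) j = _
    rw [hmm φ e' lam he']
  intro Ω _ P _ ξ f φ hξ hind hφ hfd hup m hm l ψ hl
  obtain ⟨e, E, hE⟩ := tSp (HF D μ) a (b ψ) (hF ψ)
  have hEv : ∀ j, Xl μ a b ψ j = (∫ x, Real.exp (ψ x) ∂μ) / (4 * π) * E j := fun j => by
    show (∫ x, Real.exp (ψ x) ∂μ) / (4 * π) * Ev a (b ψ) j = _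
    rw [hmm ψ e E hE]
  have hA0 : 0 < (∫ x, Real.exp (ψ x) ∂μ) / (4 * π) := by
    have := hpos ψ
    positivity
  have hl0 : E l = E (l + m) := by
    have h1 : Xl μ a b ψ l = Xl μ a b ψ (l + m) := hl
    rw [hEv, hEv] at h1
    exact mul_left_cancel₀ hA0.ne' h1
  have hl1 : 1 ≤ l := by
    by_contra h
    have h1 : l = 0 := by omega
    have h2 := h01 ψ
    have h3 := hXm ψ 1 (0 + m) (by omega)
    rw [h1] at hl
    have h4 : Xl μ a b ψ 0 = Xl μ a b ψ (0 + m) := hl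
    linarith
  have hp0 : 0 < E l := UC.pos1 hD hiso hi ha hB hE hl1
  have hsc : Continuous fun ψ => Xl μ a b ψ (l + m) - Xl μ a b ψ l := (hXc _).sub (hXc _)
  rcases hm with rfl | rfl
  · obtain ⟨r, M', hM's, hr⟩ := loc hD hiso hSf hi ha hB hF hcont hmono
      (fun φ => tSp (HF D μ) a (b φ) (hF φ)) ψ (hpos ψ) hE l hp0 hl0
    obtain ⟨k, hk, hkinj⟩ := selk M' hM's hfd
    obtain ⟨ρ, hρ, C₁, hC₁, hvol₁⟩ := hr (fun q => f (k q)) hkinj
    refine ⟨ρ, hρ, fun ε hε => ?_⟩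
    exact tig hξ hind hφ hup hk (fun t ht => hkinj t (by rw [ht, map_zero])) hsc hC₁ hvol₁ hε
  · obtain ⟨r, M', hM's, hr⟩ := loc5 hD hiso hSf hi ha hB hF hcont hmono
      (fun φ => tSp (HF D μ) a (b φ) (hF φ)) ψ (hpos ψ) hE l hp0 hl0 hl1
    obtain ⟨k, hk, hkinj⟩ := selk M' hM's hfd
    obtain ⟨ρ, hρ, ⟨C₁, hC₁, hvol₁⟩, -⟩ := hr (fun q => f (k q)) hkinj
    refine ⟨ρ, hρ, fun ε hε => ?_⟩
    exact tig hξ hind hφ hup hk (fun t ht => hkinj t (by rw [ht, map_zero])) hsc hC₁ hvol₁ hε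

set_option maxHeartbeats 2000000 in
theorem surf8 [ConnectedSpace M] (μ : Measure M) (D : Data M) (hD : D.IsSurf μ)
    (hiso : ∀ l, ∀ z ∈ D.T l, ∃ c : ℝ, ∀ v, ‖D.A l z v‖ = c * ‖v‖) :
    ∃ X : ℕ → C(M, ℝ) → ℝ, (∀ j, Continuous (X j)) ∧ (∀ φ i j, i ≤ j → X i φ ≤ X j φ) ∧
      (∀ (φ : C(M, ℝ)) (u : ℕ → M → ℝ) (lam : ℕ → ℝ),
        EigBasis (D.conf fun y => Real.exp (φ y)) (wm μ fun y => Real.exp (φ y)) u lam →
        ∀ j, X j φ = (∫ x, Real.exp (φ x) ∂μ) / (4 * π) * lam j) ∧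
      (∀ φ, X 0 φ < X 1 φ) ∧
      ∀ {Ω : Type} [MeasurableSpace Ω] (P : Measure Ω) [IsProbabilityMeasure P] (ξ : ℕ → Ω → ℝ)
        (f : ℕ → C(M, ℝ)) (φ : Ω → C(M, ℝ)) (ρ : ℕ → ℝ → ℝ), (∀ k, Measurable (ξ k)) →
        iIndepFun ξ P →
        (∀ ω, Tendsto (fun n => ∑ k ∈ Finset.range n, ξ k ω • f k) atTop (𝓝 (φ ω))) →
        Dense (Submodule.span ℝ (range f) : Set C(M, ℝ)) →
        (∀ k, Continuous (ρ k)) → (∀ k t, 0 ≤ ρ k t) → (∀ k, ∃ B, ∀ t, ρ k t ≤ B) →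
        (∀ k, P.map (ξ k) = volume.withDensity fun t => ENNReal.ofReal (ρ k t)) →
        ∀ m : ℕ, m = 1 ∨ m = 2 → ∀ (l : ℕ) (K : Set C(M, ℝ)), IsCompact K →
        ∃ O : Set C(M, ℝ), IsOpen O ∧ K ⊆ O ∧ ∀ χ : C(M, ℝ) → ℝ, Continuous χ → (∀ y, 0 ≤ χ y) →
        (∃ B, ∀ y, χ y ≤ B) → (∀ y, y ∉ O → χ y = 0) →
        ∃ c : ℝ≥0∞, c ≠ ⊤ ∧
          (∀ Γ : Set (Fin m → ℝ), MeasurableSet Γ → Bornology.IsBounded Γ →
            Tendsto (fun s : ℝ => (∫⁻ ω,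
              {ω | s⁻¹ • (fun i : Fin m => X (l + (i + 1)) (φ ω) - X l (φ ω)) ∈ Γ}.indicator
              (fun ω => ENNReal.ofReal (χ (φ ω))) ω ∂P) / ENNReal.ofReal (s ^ (m * (m + 3) / 2)))
              (𝓝[>] 0) (𝓝 (c * volume (Wg m Γ)))) ∧
          ∀ (ψ : C(M, ℝ)) (a : ℕ → ℝ), 0 < χ ψ →
            Tendsto (fun n => ∑ k ∈ Finset.range n, a k • f k) atTop (𝓝 ψ) →
            (∀ k, 0 < ρ k (a k)) → X l ψ = X (l + m) ψ → X (l - 1) ψ < X l ψ →
            X (l + m) ψ < X (l + m + 1) ψ → c ≠ 0 := by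
  classical
  obtain ⟨X, hXc, hXm, hXe, hmain⟩ := surf2 μ D hD hiso
  obtain ⟨X', hXc', hXm', hXe', h01, hmain'⟩ := surf5 μ D hD hiso
  obtain ⟨Y, hYc, hYm, hYe, -, hmainY⟩ := surf3 μ D hD hiso
  obtain ⟨Z, hZe, hmainZ⟩ := surfT μ D hD hiso
  have hex : ∀ φ : C(M, ℝ), ∃ (u : ℕ → M → ℝ) (lam : ℕ → ℝ),
      EigBasis (D.conf fun y => Real.exp (φ y)) (wm μ fun y => Real.exp (φ y)) u lam := fun φ =>
    Pool.Agent.Y264.QR.tEx M μ D hD inferInstance φ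
  have hXX : X' = X := by
    funext j φ
    obtain ⟨u, lam, h⟩ := hex φ
    rw [hXe φ u lam h, hXe' φ u lam h]
  have hYX : Y = X := by
    funext j φ
    obtain ⟨u, lam, h⟩ := hex φ
    rw [hXe φ u lam h, hYe φ u lam h]
  have hZX : Z = X := by
    funext j φ
    obtain ⟨u, lam, h⟩ := hex φ
    rw [hXe φ u lam h, hZe φ u lam h]
  rw [hXX] at h01 hmain'
  rw [hYX] at hmainY
  rw [hZX] at hmainZ
  let _ : MeasurableSpace C(M, ℝ) := borel _
  have : BorelSpace C(M, ℝ) := ⟨rfl⟩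
  refine ⟨X, hXc, hXm, hXe, h01, ?_⟩
  intro Ω _ P _ ξ f φ ρ hξ hind hφ hfd hρc hρ0 hρb hρ m hm l K hK
  have hφm : Measurable φ := by
    have h1 := Yr_meas' hξ hφ ∅
    have h2 : Yr ξ f φ ∅ = φ := by
      funext ω
      simp [Yr]
    rwa [h2] at h1
  have hup : ∀ k, ∃ C : ℝ≥0∞, C ≠ ⊤ ∧ ∀ A : Set ℝ, MeasurableSet A →
      P {ω | ξ k ω ∈ A} ≤ C * volume A := by
    intro k
    obtain ⟨B, hB⟩ := hρb k
    refine ⟨ENNReal.ofReal B, ENNReal.ofReal_ne_top, fun A hA => ?_⟩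
    have h3 : P {ω | ξ k ω ∈ A} = P.map (ξ k) A := (Measure.map_apply (hξ k) hA).symm
    rw [h3, hρ k, withDensity_apply _ hA, ← setLIntegral_const]
    exact setLIntegral_mono' hA fun t _ => ENNReal.ofReal_le_ofReal (hB t)
  have hm1 : 1 ≤ m := by omega
  -- no relations
  have hNRm : ∀ (ψ : C(M, ℝ)) (u : ℕ → M → ℝ) (lam : ℕ → ℝ),
      EigBasis (D.conf fun y => Real.exp (ψ y)) (wm μ fun y => Real.exp (ψ y)) u lam →
      (∀ j, lam j = lam l ↔ l ≤ j ∧ j ≤ l + m) → NR μ u l m := by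
    intro ψ u lam hu hcl
    rcases hm with rfl | rfl
    · exact nr_one hD hiso ψ u lam hu ((hcl (l + 1)).2 ⟨Nat.le_succ l, le_rfl⟩).symm
    · exact nr_two hD hiso ψ u lam hu (l := l) fun k =>
        (hcl (l + k)).2 ⟨Nat.le_add_right _ _, by omega⟩
  -- small gaps with another level nearby
  have hH2 : ∀ ψ : C(M, ℝ), X l ψ = X (l + m) ψ →
      ∃ V ∈ 𝓝 ψ, ∃ δ₁ : ℝ, 0 < δ₁ ∧ ∃ C : ℝ, 0 ≤ C ∧ ∀ s δ : ℝ, 0 < s → 4 * s ≤ δ → δ ≤ δ₁ →
        P {ω | φ ω ∈ V ∧ X (l + m) (φ ω) - X l (φ ω) ≤ s ∧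
          min (X (l + m + 1) (φ ω) - X l (φ ω)) (X (l + m) (φ ω) - X (l - 1) (φ ω)) < δ} ≤
          ENNReal.ofReal (C * (√δ * s ^ (m * (m + 3) / 2))) := by
    intro ψ hψ
    rcases hm with rfl | rfl
    · obtain ⟨V, hV, δ₁, hδ₁, C, hC, h⟩ := hmainY P ξ f φ hξ hind hφ hfd hup l ψ hψ
      refine ⟨V, hV, min δ₁ 1, lt_min hδ₁ one_pos, C, hC, fun s δ hs hsδ hδ =>
        (h s δ hs hsδ (hδ.trans (min_le_left _ _))).trans (ENNReal.ofReal_le_ofReal ?_)⟩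
      have h1 : δ ≤ 1 := hδ.trans (min_le_right _ _)
      have h0 : 0 ≤ δ := by linarith
      have h2 : δ ≤ √δ := by
        have h3 : √δ ≤ 1 := Real.sqrt_le_one.2 h1
        calc δ = √δ * √δ := (Real.mul_self_sqrt h0).symm
          _ ≤ √δ * 1 := mul_le_mul_of_nonneg_left h3 (Real.sqrt_nonneg _)
          _ = √δ := mul_one _
      have h4 : (1 * (1 + 3) / 2) = 2 := by norm_num
      rw [h4]
      exact mul_le_mul_of_nonneg_left (mul_le_mul_of_nonneg_right h2 (by positivity)) hC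
    · exact (hmain' P ξ f φ hξ hind hφ hfd hup).2 l ψ hψ
  obtain ⟨sp, hsp⟩ : ∃ sp : C(M, ℝ) → ℝ, sp = fun ψ => X (l + m) ψ - X l ψ := ⟨_, rfl⟩
  obtain ⟨gp, hgp⟩ : ∃ gp : C(M, ℝ) → Fin m → ℝ,
      gp = fun ψ (i : Fin m) => X (l + (i + 1)) ψ - X l ψ := ⟨_, rfl⟩
  obtain ⟨th, hth⟩ : ∃ th : C(M, ℝ) → ℝ,
      th = fun ψ => min (X (l + m + 1) ψ - X l ψ) (X (l + m) ψ - X (l - 1) ψ) := ⟨_, rfl⟩
  have hsc : Continuous sp := by
    rw [hsp]
    exact (hXc _).sub (hXc _)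
  have hgc : Continuous gp := by
    rw [hgp]
    exact continuous_pi fun j => (hXc _).sub (hXc _)
  have htc : Continuous th := by
    rw [hth]
    exact ((hXc _).sub (hXc _)).min ((hXc _).sub (hXc _))
  have hs0 : ∀ ψ, 0 ≤ sp ψ := fun ψ => by
    rw [hsp]
    exact sub_nonneg.2 (hXm _ _ _ (by omega))
  have hspg : ∀ y, sp y ≤ ‖gp y‖ := by
    intro y
    have h1 := norm_le_pi_norm (gp y) ⟨m - 1, by omega⟩
    have h2 : gp y ⟨m - 1, by omega⟩ = sp y := by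
      rw [hgp, hsp]
      have h3 : l + (m - 1 + 1) = l + m := by omega
      show X (l + (m - 1 + 1)) y - X l y = _
      rw [h3]
    rw [h2, Real.norm_eq_abs] at h1
    exact (le_abs_self _).trans h1
  have hG0 : volume (Wg m (Metric.closedBall 0 1)) ≠ 0 := by
    refine ne_of_gt (lt_of_lt_of_le (pos_iff_ne_zero.2 (Wg_pos m)) (measure_mono ?_))
    rintro v ⟨y, hy, hv⟩
    exact ⟨y, Metric.ball_subset_closedBall hy, hv⟩
  -- the local law near a level of multiplicity `m + 1`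
  have htri : ∀ ψ, X l ψ = X (l + m) ψ → X (l - 1) ψ < X l ψ → X (l + m) ψ < X (l + m + 1) ψ →
      ∃ U ∈ 𝓝 ψ, ∀ χ : C(M, ℝ) → ℝ, Continuous χ → (∀ y, 0 ≤ χ y) → (∃ B, ∀ y, χ y ≤ B) →
        (∀ y, y ∉ U → χ y = 0) → ∃ c : ℝ≥0∞, c ≠ ⊤ ∧
        (0 < χ ψ → ∀ a : ℕ → ℝ, Tendsto (fun n => ∑ k ∈ Finset.range n, a k • f k) atTop (𝓝 ψ) →
          (∀ k, 0 < ρ k (a k)) → c ≠ 0) ∧
        ∀ Γ : Set (Fin m → ℝ), MeasurableSet Γ → Bornology.IsBounded Γ →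
          Tendsto (Fv P φ gp (m * (m + 3) / 2) Γ χ) (𝓝[>] 0) (𝓝 (c * volume (Wg m Γ))) := by
    intro ψ h1 h2 h3
    obtain ⟨u, lam, hu⟩ := hex ψ
    have hx := hXe ψ u lam hu
    have hne : (∫ x, Real.exp (ψ x) ∂μ) / (4 * π) ≠ 0 := by
      intro h0
      rw [hx, hx, h0, zero_mul, zero_mul] at h3
      exact lt_irrefl _ h3
    have hcl : ∀ j, lam j = lam l ↔ l ≤ j ∧ j ≤ l + m := by
      intro j
      have h4 : lam j = lam l ↔ X j ψ = X l ψ := by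
        rw [hx, hx, mul_right_inj' hne]
      rw [h4]
      constructor
      · intro h5
        constructor
        · by_contra h6
          have h7 := hXm ψ j (l - 1) (by omega)
          linarith
        · by_contra h6
          have h7 := hXm ψ (l + m + 1) j (by omega)
          linarith
      · rintro ⟨h5, h6⟩
        have h7 := hXm ψ l j h5
        have h8 := hXm ψ j (l + m) h6
        linarith
    have hNR := hNRm ψ u lam hu hcl
    obtain ⟨U, hU, hUg⟩ := hmain P ξ f φ ρ hξ hind hφ hfd hρc hρ0 hρb hρ ψ l m u lam hu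
      hm1 hcl hNR
    refine ⟨U, hU, fun χ g1 g2 g3 g4 => ?_⟩
    obtain ⟨c, hc, hcp, hct⟩ := hUg χ g1 g2 g3 g4
    refine ⟨c, hc, hcp, fun Γ hΓ hΓb => ?_⟩
    have h4 := hct Γ hΓ hΓb
    unfold Fv
    rw [hgp]
    exact h4
  have hH1 : ∀ ψ, 0 < th ψ → ∃ U ∈ 𝓝 ψ, GoodV P φ gp (m * (m + 3) / 2)
      (fun Γ => volume (Wg m Γ)) U := by
    intro ψ hψ
    rw [hth] at hψ
    obtain ⟨h1, h2⟩ := lt_min_iff.1 hψ
    rcases (hs0 ψ).lt_or_eq with hg | hg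
    · refine ⟨{y | sp ψ / 2 < sp y}, hsc.continuousAt.eventually (lt_mem_nhds (by
        show sp ψ / 2 < sp ψ
        linarith)), fun χ g1 g2 g3 g4 => ⟨0, ENNReal.zero_ne_top, fun Γ hΓ hΓb => ?_⟩⟩
      obtain ⟨R, hR⟩ := hΓb.exists_norm_le
      have hR1 : 0 < max R 1 := lt_max_of_lt_right one_pos
      rw [zero_mul]
      refine tendsto_const_nhds.congr' ?_
      filter_upwards [Ioo_mem_nhdsGT (show (0 : ℝ) < sp ψ / (2 * max R 1) by positivity)]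
        with s hs
      have hs1 : 0 < s := hs.1
      have hs2 := hs.2
      rw [lt_div_iff₀ (by positivity)] at hs2
      have h3 : ∀ ω, {ω | s⁻¹ • gp (φ ω) ∈ Γ}.indicator
          (fun ω => ENNReal.ofReal (χ (φ ω))) ω = 0 := by
        intro ω
        by_cases h4 : s⁻¹ • gp (φ ω) ∈ Γ
        · have h5 : ω ∈ {ω | s⁻¹ • gp (φ ω) ∈ Γ} := h4
          rw [indicator_of_mem h5, g4 _ (fun h6 => ?_), ENNReal.ofReal_zero]
          have h7 : sp ψ / 2 < sp (φ ω) := h6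
          have h8 := (hR _ h4).trans (le_max_left R 1)
          rw [norm_smul, norm_inv, Real.norm_eq_abs, abs_of_pos hs1, inv_mul_le_iff₀ hs1] at h8
          have h9 := hspg (φ ω)
          linarith
        · have h5 : ω ∉ {ω | s⁻¹ • gp (φ ω) ∈ Γ} := h4
          rw [indicator_of_notMem h5]
      unfold Fv
      simp only [h3, lintegral_zero, ENNReal.zero_div]
    · rw [hsp] at hg
      have h3 : X l ψ = X (l + m) ψ := by
        have : (0 : ℝ) = X (l + m) ψ - X l ψ := hg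
        linarith
      obtain ⟨U, hU, hUg⟩ := htri ψ h3 (by linarith) (by linarith)
      refine ⟨U, hU, fun χ g1 g2 g3 g4 => ?_⟩
      obtain ⟨c, hc, -, hct⟩ := hUg χ g1 g2 g3 g4
      exact ⟨c, hc, hct⟩
  have hgood : ∀ ψ, ∃ U ∈ 𝓝 ψ, GoodV P φ gp (m * (m + 3) / 2) (fun Γ => volume (Wg m Γ)) U := by
    intro ψ
    rcases lt_or_ge 0 (th ψ) with hψ | hψ
    · exact hH1 ψ hψ
    · have h3 : X l ψ = X (l + m) ψ := by
        rw [hth] at hψ
        have h1 := hXm ψ l (l + m) (by omega)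
        rcases min_le_iff.1 hψ with h2 | h2
        · have := hXm ψ (l + m) (l + m + 1) (by omega)
          linarith
        · have := hXm ψ (l - 1) l (Nat.sub_le _ _)
          linarith
      obtain ⟨V, hV, δ₁, hδ₁, C, hC, hVb⟩ := hH2 ψ h3
      obtain ⟨r, hr, hT⟩ := hmainZ P ξ f φ hξ hind hφ hfd hup m hm l ψ h3
      refine ⟨interior V ∩ Metric.ball ψ r, Filter.inter_mem (interior_mem_nhds.2 hV)
        (Metric.ball_mem_nhds ψ hr), ?_⟩
      refine globL (P := P) (N := m * (m + 3) / 2) (w := fun Γ => volume (Wg m Γ)) hφm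
        (isOpen_interior.inter Metric.isOpen_ball) hgc hsc hspg htc (fun Γ hΓ => Wg_fin hΓ)
        (Γ₀ := Metric.closedBall 0 1) measurableSet_closedBall Metric.isBounded_closedBall hG0
        (fun ε hε => ?_) hH1 ⟨δ₁, hδ₁, C, hC, fun s δ hs hsδ hδ => ?_⟩
      · obtain ⟨K', hK', hb⟩ := hT ε hε
        refine ⟨K', hK', fun s hs hs1 => le_trans (measure_mono ?_) (hb s hs hs1)⟩
        rintro ω ⟨g1, g2, g3⟩
        rw [hsp] at g3
        exact ⟨g1.2, g2, g3⟩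
      · refine le_trans (measure_mono ?_) (hVb s δ hs hsδ hδ)
        rintro ω ⟨g1, g2, g3⟩
        rw [hsp] at g2
        rw [hth] at g3
        exact ⟨interior_subset g1.1, g2, g3⟩
  obtain ⟨O, hO, hKO, hOg⟩ := good_open (P := P) (N := m * (m + 3) / 2)
    (w := fun Γ => volume (Wg m Γ)) hφm hgc hK (fun ψ _ => hgood ψ)
  refine ⟨O, hO, hKO, fun χ hχ hχ0 hχB hχO => ?_⟩
  obtain ⟨c, hc, hct⟩ := hOg χ hχ hχ0 hχB hχO
  refine ⟨c, hc, ?_, fun ψ a hψ ha hρa h1 h2 h3 => ?_⟩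
  · intro Γ hΓ hΓb
    have h4 := hct Γ hΓ hΓb
    unfold Fv at h4
    rw [hgp] at h4
    exact h4
  · obtain ⟨U, hU, hUg⟩ := htri ψ h1 h2 h3
    obtain ⟨r, hr, hrU⟩ := Metric.mem_nhds_iff.1 hU
    obtain ⟨θ, hθ⟩ : ∃ θ : C(M, ℝ) → ℝ, θ = fun y => max 0 (1 - dist y ψ / r) := ⟨_, rfl⟩
    have hθc : Continuous θ := by
      rw [hθ]
      fun_prop
    have hθ0 : ∀ y, 0 ≤ θ y := fun y => by
      rw [hθ]
      exact le_max_left _ _
    have hθ1 : ∀ y, θ y ≤ 1 := fun y => by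
      rw [hθ]
      refine max_le zero_le_one ?_
      have : 0 ≤ dist y ψ / r := by positivity
      linarith
    obtain ⟨B, hB⟩ := hχB
    obtain ⟨c', -, hc'p, hc't⟩ := hUg (fun y => χ y * θ y) (hχ.mul hθc)
      (fun y => mul_nonneg (hχ0 y) (hθ0 y))
      ⟨B, fun y => (mul_le_of_le_one_right (hχ0 y) (hθ1 y)).trans (hB y)⟩ (fun y hy => by
        have h4 : θ y = 0 := by
          rw [hθ]
          refine max_eq_left ?_
          have h5 : r ≤ dist y ψ := by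
            by_contra h6
            exact hy (hrU (not_le.1 h6))
          have : 1 ≤ dist y ψ / r := by rwa [one_le_div hr]
          linarith
        show χ y * θ y = 0
        rw [h4, mul_zero])
    have hc'0 := hc'p (by
      have h4 : θ ψ = 1 := by
        rw [hθ]
        simp
      show 0 < χ ψ * θ ψ
      rw [h4, mul_one]
      exact hψ) a ha hρa
    have hle : c' * volume (Wg m (Metric.closedBall 0 1)) ≤
        c * volume (Wg m (Metric.closedBall 0 1)) := by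
      refine le_of_tendsto_of_tendsto' (hc't (Metric.closedBall 0 1) measurableSet_closedBall
        Metric.isBounded_closedBall) (hct (Metric.closedBall 0 1) measurableSet_closedBall
        Metric.isBounded_closedBall) fun s => ?_
      unfold Fv
      refine ENNReal.div_le_div_right (lintegral_mono fun ω => ?_) _
      refine indicator_le_indicator (ENNReal.ofReal_le_ofReal ?_)
      exact mul_le_of_le_one_right (hχ0 _) (hθ1 _)
    intro h4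
    rw [h4, zero_mul] at hle
    exact mul_ne_zero hc'0 hG0 (le_zero_iff.1 hle)

end Pool.Agent.L5helper74.QR
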