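import Pool.Agent.L5helper74.QR.Star

/-!
# Quadratic repulsion: compressions, uniform transversality
-/

set_option autoImplicit false
set_option linter.unusedSectionVars false

open Set Filter Topology
open Pool.Agent.L5helper74.LR

noncomputable section

namespace Pool.Agent.L5helper74.QR

variable {m k : ℕ}

/-- the compression of the matrix `u` to the eigenvectors with the indices `σ` -/
def Cm (σ : Fin (k + 1) → Fin (m + 1)) (V : Fin (m + 1) → Fin (m + 1) → ℝ) (u : Ix m → ℝ) :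
    Ix k → ℝ :=
  cI fun i j => Cv V u (σ i) (σ j)

lemma Cv_add (V : Fin (m + 1) → Fin (m + 1) → ℝ) (u v : Ix m → ℝ) (p q : Fin (m + 1)) :
    Cv V (u + v) p q = Cv V u p q + Cv V v p q := by
  unfold Cv
  simp only [mt_add, add_mul, mul_add, Finset.sum_add_distrib]

lemma Cv_smul (V : Fin (m + 1) → Fin (m + 1) → ℝ) (c : ℝ) (u : Ix m → ℝ) (p q : Fin (m + 1)) :
    Cv V (c • u) p q = c * Cv V u p q := by
  unfold Cv
  simp only [mt_smul, Finset.mul_sum]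
  exact Finset.sum_congr rfl fun i _ => Finset.sum_congr rfl fun j _ => by ring

lemma Cm_lin (σ : Fin (k + 1) → Fin (m + 1)) (V : Fin (m + 1) → Fin (m + 1) → ℝ) :
    ∃ P : (Ix m → ℝ) →L[ℝ] (Ix k → ℝ), ∀ u, P u = Cm σ V u := by
  obtain ⟨P, hP⟩ : ∃ P : (Ix m → ℝ) →ₗ[ℝ] (Ix k → ℝ), ∀ u, P u = Cm σ V u := by
    refine ⟨⟨⟨Cm σ V, fun u v => ?_⟩, fun c u => ?_⟩, fun _ => rfl⟩
    · unfold Cm
      simp only [Cv_add]
      rw [cI_add]
      rfl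
    · unfold Cm
      funext q
      rcases q with q | q
      · simp only [cI, Sum.elim_inl, Cv_smul, Pi.smul_apply, smul_eq_mul, RingHom.id_apply]
        ring
      · simp only [cI, Sum.elim_inr, Cv_smul, Pi.smul_apply, smul_eq_mul, RingHom.id_apply]
  exact ⟨LinearMap.toContinuousLinearMap P, hP⟩

lemma Cm_bd (σ : Fin (k + 1) → Fin (m + 1)) {V : Fin (m + 1) → Fin (m + 1) → ℝ} (hV : Ort V)
    {n : ℝ} (hn : n = ((m + 1 : ℕ) : ℝ)) (u : Ix m → ℝ) : ‖Cm σ V u‖ ≤ 2 * (n * (n * ‖u‖)) := by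
  refine cI_norm fun i j => ?_
  rw [hn]
  exact Ix_abs V V hV hV u (σ i) (σ j)

lemma Cm_star {V V' : Fin (m + 1) → Fin (m + 1) → ℝ} (hV : Ort V) (hV' : Ort V')
    {L L' : Fin (m + 1) → ℝ} (hL : Monotone L) (hL' : Monotone L') {n ξ : ℝ}
    (hn : n = ((m + 1 : ℕ) : ℝ)) (hξ : ξ = n * (n * ‖cI (Tc L' V') - cI (Tc L V)‖))
    {a b : Fin (m + 1)} {s δ : ℝ} (hδ : 0 < δ) (hs : L b - L a ≤ s)
    (hs' : L' b - L' a ≤ s) (h1 : ∀ q, q < a → δ ≤ L a - L q) (h2 : ∀ q, b < q → δ ≤ L q - L b)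
    (hsm : n * ξ + s ≤ δ / 2) {σ : Fin (k + 1) → Fin (m + 1)} (hσ : Function.Injective σ)
    (hσa : ∀ i, a ≤ σ i) (hσb : ∀ i, σ i ≤ b) :
    ‖Cm σ V (cI (Tc L' V') - cI (Tc L V))‖ ≤ 3 * n * s + 8 * n * ξ ^ 2 / δ := by
  have key := fun i j => star hV hV' hL hL' hn hξ hδ hs hs' h1 h2 hsm (hσa i) (hσb i) (hσa j)
    (hσb j)
  have h0 : 0 ≤ 3 * n * s + 8 * n * ξ ^ 2 / δ := (abs_nonneg _).trans (key 0 0).2
  refine (pi_norm_le_iff_of_nonneg h0).2 fun q => ?_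
  rcases q with q | q
  · exact (key q.succ 0).2
  · exact (key q.1.1 q.1.2).1 fun h => q.2.ne (hσ h)

lemma mt_cont (i j : Fin (m + 1)) : Continuous fun u : Ix m → ℝ => mt u i j := by
  obtain ⟨P, hP⟩ := Lz_lin (m := m)
  have h1 : Continuous fun u : Ix m → ℝ => Lz u i := by
    simp only [← hP]
    fun_prop
  unfold Pool.Agent.L5helper74.LR.mt
  split_ifs
  · fun_prop
  · fun_prop
  · exact h1

lemma Cm_cont (σ : Fin (k + 1) → Fin (m + 1)) :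
    Continuous fun p : (Fin (m + 1) → Fin (m + 1) → ℝ) × (Ix m → ℝ) => Cm σ p.1 p.2 := by
  obtain ⟨Q, hQ⟩ := cI_lin (m := k)
  unfold Cm
  simp only [← hQ]
  refine Q.continuous.comp (continuous_pi fun i => continuous_pi fun j => ?_)
  unfold Cv
  refine continuous_finsetSum _ fun a _ => continuous_finsetSum _ fun b _ => ?_
  have h1 := (mt_cont (m := m) a b).comp (continuous_snd (X := Fin (m + 1) → Fin (m + 1) → ℝ))
  have h2 : Continuous fun p : (Fin (m + 1) → Fin (m + 1) → ℝ) × (Ix m → ℝ) => mt p.2 a b := h1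
  fun_prop

/-- uniform transversality -/
theorem tr {ι κ : Type} [Fintype ι] [Fintype κ] (Λ : (ι → ℝ) →L[ℝ] (Ix m → ℝ))
    (σ : Fin (k + 1) → Fin (m + 1))
    (h : ∀ V, Ort V → ∃ ζ : (κ → ℝ) →L[ℝ] (ι → ℝ), ∀ z, Cm σ V (Λ (ζ z)) = 0 → z = 0) :
    ∃ (Z : Finset ((κ → ℝ) →L[ℝ] (ι → ℝ))) (c C : ℝ), 0 < c ∧ 0 < C ∧ (∀ ζ ∈ Z, ‖ζ‖ < C) ∧
      ∀ V, Ort V → ∃ ζ ∈ Z, ∀ z, c * ‖z‖ ≤ ‖Cm σ V (Λ (ζ z))‖ := by
  classical
  have hcomp := Ort_compact (m + 1)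
  obtain ⟨Z, hZ, c, hc, hZc⟩ : ∃ Z : Set ((κ → ℝ) →L[ℝ] (ι → ℝ)), Z.Finite ∧ ∃ c : ℝ, 0 < c ∧
      ∀ V ∈ {V : Fin (m + 1) → Fin (m + 1) → ℝ | Ort V}, ∃ ζ ∈ Z, ∀ z,
        c * ‖z‖ ≤ ‖Cm σ V (Λ (ζ z))‖ := by
    refine hcomp.induction_on (p := fun S => ∃ Z : Set ((κ → ℝ) →L[ℝ] (ι → ℝ)), Z.Finite ∧
      ∃ c : ℝ, 0 < c ∧ ∀ V ∈ S, ∃ ζ ∈ Z, ∀ z, c * ‖z‖ ≤ ‖Cm σ V (Λ (ζ z))‖) ?_ ?_ ?_ ?_
    · exact ⟨∅, finite_empty, 1, one_pos, fun V hV => absurd hV (notMem_empty V)⟩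
    · rintro s t hst ⟨Z, h1, c, h2, h3⟩
      exact ⟨Z, h1, c, h2, fun V hV => h3 V (hst hV)⟩
    · rintro s t ⟨Z, h1, c, h2, h3⟩ ⟨Z', h1', c', h2', h3'⟩
      refine ⟨Z ∪ Z', h1.union h1', min c c', lt_min h2 h2', ?_⟩
      rintro V (hV | hV)
      · obtain ⟨ζ, h4, h5⟩ := h3 V hV
        exact ⟨ζ, Or.inl h4, fun z =>
          (mul_le_mul_of_nonneg_right (min_le_left _ _) (norm_nonneg _)).trans (h5 z)⟩
      · obtain ⟨ζ, h4, h5⟩ := h3' V hV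
        exact ⟨ζ, Or.inr h4, fun z =>
          (mul_le_mul_of_nonneg_right (min_le_right _ _) (norm_nonneg _)).trans (h5 z)⟩
    · intro V₀ hV₀
      obtain ⟨ζ, hζ⟩ := h V₀ hV₀
      have hf : Continuous fun p : (Fin (m + 1) → Fin (m + 1) → ℝ) × (κ → ℝ) =>
          ‖Cm σ p.1 (Λ (ζ p.2))‖ := by
        have h1 : Continuous fun p : (Fin (m + 1) → Fin (m + 1) → ℝ) × (κ → ℝ) =>
            (p.1, Λ (ζ p.2)) := by fun_prop
        exact ((Cm_cont σ).comp h1).norm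
      obtain ⟨c, hc, hcz⟩ : ∃ c : ℝ, 0 < c ∧ ∀ z ∈ Metric.sphere (0 : κ → ℝ) 1,
          c < ‖Cm σ V₀ (Λ (ζ z))‖ := by
        rcases (Metric.sphere (0 : κ → ℝ) 1).eq_empty_or_nonempty with he | hne
        · exact ⟨1, one_pos, fun z hz => by rw [he] at hz; exact absurd hz (notMem_empty z)⟩
        · obtain ⟨z₀, hz₀, hmin⟩ := (isCompact_sphere (0 : κ → ℝ) 1).exists_isMinOn hne
            (f := fun z => ‖Cm σ V₀ (Λ (ζ z))‖)
            (hf.comp (Continuous.prodMk_right V₀)).continuousOn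
          have h1 : 0 < ‖Cm σ V₀ (Λ (ζ z₀))‖ := by
            refine norm_pos_iff.2 fun h0 => ?_
            have h2 := hζ z₀ h0
            rw [h2] at hz₀
            simp at hz₀
          refine ⟨‖Cm σ V₀ (Λ (ζ z₀))‖ / 2, by positivity, fun z hz => ?_⟩
          have h2 : ‖Cm σ V₀ (Λ (ζ z₀))‖ ≤ ‖Cm σ V₀ (Λ (ζ z))‖ := hmin hz
          linarith
      have hev : ∀ᶠ V in 𝓝 V₀, ∀ z ∈ Metric.sphere (0 : κ → ℝ) 1,
          c < ‖Cm σ V (Λ (ζ z))‖ := by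
        refine (isCompact_sphere (0 : κ → ℝ) 1).eventually_forall_of_forall_eventually
          fun z hz => ?_
        exact (continuousAt_const (y := c)).eventually_lt hf.continuousAt (hcz z hz)
      refine ⟨{V | ∀ z ∈ Metric.sphere (0 : κ → ℝ) 1, c < ‖Cm σ V (Λ (ζ z))‖},
        mem_nhdsWithin_of_mem_nhds hev, {ζ}, finite_singleton ζ, c, hc, fun V hV =>
          ⟨ζ, rfl, fun z => ?_⟩⟩
      by_cases hz : z = 0
      · rw [hz, norm_zero, mul_zero]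
        exact norm_nonneg _
      · have hz' : 0 < ‖z‖ := norm_pos_iff.2 hz
        obtain ⟨P, hP⟩ := Cm_lin σ V
        have h1 : (‖z‖⁻¹ • z) ∈ Metric.sphere (0 : κ → ℝ) 1 := by
          rw [mem_sphere_zero_iff_norm, norm_smul, norm_inv, norm_norm,
            inv_mul_cancel₀ hz'.ne']
        have h2 := (hV _ h1).le
        rw [← hP, map_smul, map_smul, map_smul, norm_smul, norm_inv, norm_norm, hP] at h2
        calc c * ‖z‖ ≤ (‖z‖⁻¹ * ‖Cm σ V (Λ (ζ z))‖) * ‖z‖ :=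
              mul_le_mul_of_nonneg_right h2 hz'.le
          _ = ‖Cm σ V (Λ (ζ z))‖ := by
              field_simp
  obtain ⟨C, hC⟩ : ∃ C : ℝ, ∀ ζ ∈ hZ.toFinset, ‖ζ‖ ≤ C := by
    refine ⟨∑ ζ ∈ hZ.toFinset, ‖ζ‖, fun ζ hζ => ?_⟩
    exact Finset.single_le_sum (f := fun ζ => ‖ζ‖) (fun _ _ => norm_nonneg _) hζ
  refine ⟨hZ.toFinset, c, |C| + 1, hc, by positivity, fun ζ hζ => ?_, fun V hV => ?_⟩
  · have := hC ζ hζ
    have := le_abs_self C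
    linarith
  · obtain ⟨ζ, h1, h2⟩ := hZc V hV
    exact ⟨ζ, (Set.Finite.mem_toFinset _).2 h1, h2⟩

end Pool.Agent.L5helper74.QR
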