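import Pool.Agent.L5helper74.QR.Alg
import Pool.Agent.L5helper74.QR.Lin
import Pool.Agent.L5helper74.QR.Tr
import Pool.Agent.L5helper74.LR.Pair

/-!
# Quadratic repulsion: transversality for the eigenfunctions of a surface
-/

set_option autoImplicit false
set_option linter.unusedSectionVars false
set_option synthInstance.maxHeartbeats 400000

open Set Filter Topology MeasureTheory
open Pool.Agent.Y262.QE Pool.Agent.Y264.QR Pool.Agent.Q233.GLV
open Pool.Agent.L5helper74.LR Pool.Agent.L5helper74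

noncomputable section

namespace Pool.Agent.L5helper74.QR

variable {M : Type} [MetricSpace M] [CompactSpace M] [MeasurableSpace M] [BorelSpace M]
  {μ : Measure M} [IsFiniteMeasure μ]

/-- the product of two eigenfunctions with the same eigenvalue does not vanish -/
lemma propP [PreconnectedSpace M] {D : Data M} (hD : D.IsSurf μ)
    (hiso : ∀ l, ∀ z ∈ D.T l, ∃ c : ℝ, ∀ v, ‖D.A l z v‖ = c * ‖v‖) {i : HF D μ →L[ℝ] Lp ℝ 2 μ}
    {a : HF D μ →L[ℝ] HF D μ →L[ℝ] ℝ}
    {b : C(M, ℝ) → HF D μ →L[ℝ] HF D μ →L[ℝ] ℝ} (hi : ∀ v, i v = v.1.fst)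
    (ha : ∀ u v, a u v = inner ℝ u.1.snd v.1.snd) (hB : IsB μ i b) {φ : C(M, ℝ)}
    {e : ℕ → HF D μ} {E : ℕ → ℝ} (hE : Eg a (b φ) e E) {u : ℕ → M → ℝ}
    (heu : ∀ j, (i (e j) : M → ℝ) =ᵐ[μ] u j) {l m : ℕ} (hcl : ∀ j, j ≤ m → E (l + j) = E l)
    (w w' : Fin (m + 1) → ℝ) (h : ∀ᵐ x ∂μ, (∑ j : Fin (m + 1), w j * u (l + j) x) *
      (∑ j : Fin (m + 1), w' j * u (l + j) x) = 0) : w = 0 ∨ w' = 0 := by
  by_contra hcon
  push Not at hcon
  have hvec : ∀ w : Fin (m + 1) → ℝ, w ≠ 0 → ∃ v : HF D μ,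
      (∀ z, a v z = E l * b φ v z) ∧
      (∀ᵐ x ∂μ, (i v : M → ℝ) x = ∑ j : Fin (m + 1), w j * u (l + j) x) ∧
      ¬ (i v : M → ℝ) =ᵐ[μ] 0 := by
    intro w hw
    obtain ⟨v, hv⟩ : ∃ v : HF D μ, v = ∑ j : Fin (m + 1), w j • e (l + j) := ⟨_, rfl⟩
    refine ⟨v, fun z => ?_, ?_, fun h0 => ?_⟩
    · rw [hv]
      simp only [map_sum, map_smul, _root_.sum_apply, _root_.smul_apply, smul_eq_mul, hE.eig]
      rw [Finset.mul_sum]
      refine Finset.sum_congr rfl fun j _ => ?_
      rw [hcl j (Nat.lt_succ_iff.1 j.2)]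
      ring
    · have h1 : ∀ s : Finset (Fin (m + 1)), ∀ᵐ x ∂μ,
          ((∑ j ∈ s, w j • i (e (l + j)) : Lp ℝ 2 μ) : M → ℝ) x =
            ∑ j ∈ s, w j * u (l + j) x := by
        intro s
        induction s using Finset.induction_on with
        | empty =>
          simp only [Finset.sum_empty]
          exact Lp.coeFn_zero ℝ 2 μ
        | insert j s hj ih =>
          rw [Finset.sum_insert hj]
          filter_upwards [ih, Lp.coeFn_add (w j • i (e (l + j)))
            (∑ j ∈ s, w j • i (e (l + j))), Lp.coeFn_smul (w j) (i (e (l + j))),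
            heu (l + j)] with x h2 h3 h4 h5
          rw [h3, Pi.add_apply, h4, Pi.smul_apply, h5, h2, Finset.sum_insert hj, smul_eq_mul]
      have h2 : (i v : Lp ℝ 2 μ) = ∑ j : Fin (m + 1), w j • i (e (l + j)) := by
        rw [hv, map_sum]
        simp only [map_smul]
      rw [h2]
      exact h1 _
    · have h1 : b φ v v = ∑ j, w j ^ 2 := by
        rw [hv]
        simp only [map_sum, map_smul, _root_.sum_apply, _root_.smul_apply, smul_eq_mul, hE.orth]
        refine Finset.sum_congr rfl fun j _ => ?_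
        rw [Finset.sum_eq_single j]
        · rw [if_pos rfl]
          ring
        · intro k _ hk
          rw [if_neg (fun h => hk (Fin.ext (by omega)))]
          ring
        · intro h
          exact absurd (Finset.mem_univ _) h
      have h2 : b φ v v = 0 := by
        rw [hB]
        refine integral_eq_zero_of_ae ?_
        filter_upwards [h0] with x hx
        rw [hx]
        simp
      rw [h2] at h1
      refine hw (funext fun j => ?_)
      have h3 := (Finset.sum_eq_zero_iff_of_nonneg fun j _ => sq_nonneg (w j)).1 h1.symm j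
        (Finset.mem_univ j)
      exact pow_eq_zero_iff two_ne_zero |>.1 h3
  obtain ⟨v, hv1, hv2, hv3⟩ := hvec w hcon.1
  obtain ⟨v', hv1', hv2', hv3'⟩ := hvec w' hcon.2
  obtain ⟨O, hO, hOn, hO2⟩ := UC.opn hD hiso hi ha hB hv1 hv3
  refine hv3' (UC.ucp hD hiso hi ha hB hv1' hO hOn ?_)
  filter_upwards [hO2, h, hv2, hv2'] with x h1 h2 h3 h4 h5
  have h6 := h1 h5
  rw [← h3, ← h4] at h2
  exact (mul_eq_zero.1 h2).resolve_left h6

variable {H : Type} [NormedAddCommGroup H]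
  [InnerProductSpace ℝ H] [CompleteSpace H] {i : H →L[ℝ] Lp ℝ 2 μ} {a : H →L[ℝ] H →L[ℝ] ℝ}
  {b : C(M, ℝ) → H →L[ℝ] H →L[ℝ] ℝ}

lemma rel_ae (hB : IsB μ i b) (φ₀ : C(M, ℝ)) {n : ℕ} {e : Fin (n + 1) → H}
    (S : Fin (n + 1) → Fin (n + 1) → ℝ)
    (h0 : ∀ h : C(M, ℝ), ∑ p, ∑ q, S p q * kf b (Pool.Agent.Q233.GLV.ex φ₀ * h) (e p) (e q) = 0) :
    ∀ᵐ x ∂μ, ∑ p, ∑ q, S p q * ((i (e p) : M → ℝ) x * (i (e q) : M → ℝ) x) = 0 := by
  obtain ⟨w, hw⟩ : ∃ w : M → ℝ, w = fun x => ∑ k : Fin (n + 1), ∑ j : Fin (n + 1),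
      S k j * (i (e k) x * i (e j) x) := ⟨_, rfl⟩
  have hint : ∀ k j : Fin (n + 1),
      Integrable (fun x => S k j * ((i (e k) : M → ℝ) x * (i (e j) : M → ℝ) x)) μ :=
    fun k j => ((Lp.memLp (i (e k))).integrable_mul (Lp.memLp (i (e j)))).const_mul _
  have hwi : Integrable w μ := by
    rw [hw]
    exact integrable_finsetSum _ fun k _ => integrable_finsetSum _ fun j _ => hint k j
  have h1 : (fun x => Pool.Agent.Q233.GLV.ex φ₀ x * w x) =ᵐ[μ] 0 := by
    refine Pool.Agent.Q233.RSP.zero_of_total μ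
      (Pool.Agent.Q233.RSP.cint μ (Pool.Agent.Q233.GLV.ex φ₀) hwi) univ ?_ fun h _ => ?_
    · rw [Submodule.span_univ]
      exact dense_univ
    · have h1 := h0 h
      have h2 : ∀ k j : Fin (n + 1), S k j * kf b (Pool.Agent.Q233.GLV.ex φ₀ * h) (e k)
          (e j) = ∫ x, h x * (Pool.Agent.Q233.GLV.ex φ₀ x *
            (S k j * (i (e k) x * i (e j) x))) ∂μ := by
        intro k j
        rw [kf_apply hB, ← integral_const_mul]
        refine integral_congr_ae (Eventually.of_forall fun x => ?_)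
        simp only [ContinuousMap.mul_apply]
        ring
      simp only [h2] at h1
      rw [← h1]
      have h3 : ∀ k j : Fin (n + 1), Integrable (fun x => h x * (Pool.Agent.Q233.GLV.ex φ₀ x *
            (S k j * ((i (e k) : M → ℝ) x * (i (e j) : M → ℝ) x)))) μ := fun k j =>
        Pool.Agent.Q233.RSP.cint μ h (Pool.Agent.Q233.RSP.cint μ _ (hint k j))
      have h4 : (fun x => h x * (Pool.Agent.Q233.GLV.ex φ₀ x * w x)) = fun x =>
          ∑ k : Fin (n + 1), ∑ j : Fin (n + 1), h x * (Pool.Agent.Q233.GLV.ex φ₀ x *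
            (S k j * (i (e k) x * i (e j) x))) := by
        funext x
        rw [hw]
        simp only [Finset.mul_sum]
      rw [h4, integral_finsetSum _ fun k _ => integrable_finsetSum _ fun j _ => h3 k j]
      exact Finset.sum_congr rfl fun k _ => integral_finsetSum _ fun j _ => h3 k j
  filter_upwards [h1] with x hx1
  have h6 : (Pool.Agent.Q233.GLV.ex φ₀ x) * w x = 0 := hx1
  have h7 : w x = 0 := (mul_eq_zero.1 h6).resolve_left (Real.exp_pos _).ne'
  rw [← h7, hw]

lemma Cv_cI {m : ℕ} {V : Fin (m + 1) → Fin (m + 1) → ℝ} (hV : Ort V)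
    {N : Fin (m + 1) → Fin (m + 1) → ℝ} (hN : ∀ i j, N i j = N j i) (p q : Fin (m + 1)) :
    Cv V (cI N) p q = ∑ i, ∑ j, V p i * (N i j * V q j) - if p = q then N 0 0 else 0 := by
  unfold Cv
  have h1 : ∀ i j, V p i * (mt (cI N) i j * V q j) = V p i * (N i j * V q j) -
      if i = j then N 0 0 * (V p i * V q i) else 0 := by
    intro i j
    have h2 := mt_cI hN i j
    have h3 : mt (cI N) i j = N i j - if i = j then N 0 0 else 0 := by linarith
    rw [h3]
    by_cases h : i = j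
    · subst h
      rw [if_pos rfl, if_pos rfl]
      ring
    · rw [if_neg h, if_neg h]
      ring
  simp only [h1, Finset.sum_sub_distrib, Finset.sum_ite_eq, Finset.mem_univ, if_true]
  rw [← Finset.mul_sum, V_row hV]
  by_cases h : p = q
  · rw [if_pos h, if_pos h, mul_one]
  · rw [if_neg h, if_neg h, mul_zero]

/-- functionals which vanish on the compressions of the derivative are relations -/
lemma ann (hB : IsB μ i b) (φ₀ : C(M, ℝ)) {e : ℕ → H} {u : ℕ → M → ℝ}
    (heu : ∀ j, (i (e j) : M → ℝ) =ᵐ[μ] u j) (l m : ℕ) {M' : C(M, ℝ) →L[ℝ] (Ix m → ℝ)} {s₀ : ℝ}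
    (hs₀ : s₀ ≠ 0) (hM' : ∀ h, M' h = s₀ • cI (fun i j : Fin (m + 1) =>
        kf b (Pool.Agent.Q233.GLV.ex φ₀ * h) (e (l + i)) (e (l + j))))
    {V : Fin (m + 1) → Fin (m + 1) → ℝ} (hV : Ort V) {k : ℕ} {σ : Fin (k + 1) → Fin (m + 1)}
    (hσ : Function.Injective σ) (c : Ix k → ℝ) (hc : ∀ h, ∑ q, c q * Cm σ V (M' h) q = 0) :
    ∃ S : Fin (k + 1) → Fin (k + 1) → ℝ, (∀ i j, S i j = S j i) ∧
      (∀ N : Fin (k + 1) → Fin (k + 1) → ℝ, (∀ i j, N i j = N j i) →
        ∑ q, c q * cI N q = ∑ i, ∑ j, S i j * N i j) ∧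
      ∀ᵐ x ∂μ, ∑ i, ∑ j, S i j * ((∑ p : Fin (m + 1), V (σ i) p * u (l + p) x) *
        (∑ p : Fin (m + 1), V (σ j) p * u (l + p) x)) = 0 := by
  obtain ⟨S, hS1, hS2, hS3, -⟩ := dual c
  refine ⟨S, hS1, hS3, ?_⟩
  obtain ⟨f, hf⟩ : ∃ f : Fin (k + 1) → H, f = fun q => ∑ p : Fin (m + 1), V (σ q) p • e (l + p) :=
    ⟨_, rfl⟩
  have hker : ∀ h : C(M, ℝ),
      ∑ p, ∑ q, S p q * kf b (Pool.Agent.Q233.GLV.ex φ₀ * h) (f p) (f q) = 0 := by
    intro h
    obtain ⟨N, hN⟩ : ∃ N : Fin (m + 1) → Fin (m + 1) → ℝ, N = fun i j : Fin (m + 1) =>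
        kf b (Pool.Agent.Q233.GLV.ex φ₀ * h) (e (l + i)) (e (l + j)) := ⟨_, rfl⟩
    have hNs : ∀ i j, N i j = N j i := fun i j => by
      rw [hN]
      exact kf_symm hB _ _ _
    obtain ⟨P, hP⟩ := Cm_lin σ V
    have h1 := hc h
    rw [hM', ← hN, ← hP, map_smul, hP] at h1
    have h2 : s₀ * ∑ q, c q * Cm σ V (cI N) q = 0 := by
      rw [← h1, Finset.mul_sum]
      refine Finset.sum_congr rfl fun q _ => ?_
      simp only [Pi.smul_apply, smul_eq_mul]
      ring
    have h3 := (mul_eq_zero.1 h2).resolve_left hs₀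
    unfold Cm at h3
    rw [hS3 _ fun p q => by
      unfold Cv
      rw [Finset.sum_comm]
      exact Finset.sum_congr rfl fun i' _ => Finset.sum_congr rfl fun j' _ => by
        rw [mt_symm (cI N) j' i']
        ring] at h3
    have h4 : ∀ p q : Fin (k + 1), kf b (Pool.Agent.Q233.GLV.ex φ₀ * h) (f p) (f q) =
        ∑ i', ∑ j', V (σ p) i' * (N i' j' * V (σ q) j') := by
      intro p q
      rw [hf, hN]
      simp only [map_sum, map_smul, _root_.sum_apply, _root_.smul_apply, smul_eq_mul,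
        Finset.mul_sum]
      rw [Finset.sum_comm]
      exact Finset.sum_congr rfl fun i' _ => Finset.sum_congr rfl fun j' _ => by ring
    have h5 : ∀ p q : Fin (k + 1), S p q * Cv V (cI N) (σ p) (σ q) =
        S p q * kf b (Pool.Agent.Q233.GLV.ex φ₀ * h) (f p) (f q) -
          if p = q then S p p * N 0 0 else 0 := by
      intro p q
      rw [Cv_cI hV hNs, h4]
      by_cases hpq : p = q
      · subst hpq
        rw [if_pos rfl, if_pos rfl]
        ring
      · rw [if_neg hpq, if_neg fun h => hpq (hσ h)]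
        ring
    simp only [h5, Finset.sum_sub_distrib, Finset.sum_ite_eq, Finset.mem_univ, if_true] at h3
    rw [← Finset.sum_mul, hS2, zero_mul, sub_zero] at h3
    exact h3
  have h1 := rel_ae hB φ₀ S hker
  have h2 : ∀ q : Fin (k + 1), ∀ᵐ x ∂μ, (i (f q) : M → ℝ) x =
      ∑ p : Fin (m + 1), V (σ q) p * u (l + p) x := by
    intro q
    have h3 : ∀ s : Finset (Fin (m + 1)), ∀ᵐ x ∂μ,
        ((∑ j ∈ s, V (σ q) j • i (e (l + j)) : Lp ℝ 2 μ) : M → ℝ) x =
          ∑ j ∈ s, V (σ q) j * u (l + j) x := by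
      intro s
      induction s using Finset.induction_on with
      | empty =>
        simp only [Finset.sum_empty]
        exact Lp.coeFn_zero ℝ 2 μ
      | insert j s hj ih =>
        rw [Finset.sum_insert hj]
        filter_upwards [ih, Lp.coeFn_add (V (σ q) j • i (e (l + j)))
          (∑ j ∈ s, V (σ q) j • i (e (l + j))), Lp.coeFn_smul (V (σ q) j) (i (e (l + j))),
          heu (l + j)] with x h2 h3 h4 h5
        rw [h3, Pi.add_apply, h4, Pi.smul_apply, h5, h2, Finset.sum_insert hj, smul_eq_mul]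
    have h4 : (i (f q) : Lp ℝ 2 μ) = ∑ j : Fin (m + 1), V (σ q) j • i (e (l + j)) := by
      rw [hf]
      simp only [map_sum, map_smul]
    rw [h4]
    exact h3 _
  filter_upwards [h1, ae_all_iff.2 h2] with x hx1 hx2
  simp only [hx2] at hx1
  exact hx1

end Pool.Agent.L5helper74.QR
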