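import Pool.Agent.L5helper74.QR.Scale
import Pool.Agent.L5helper74.LR.Core

/-!
# Quadratic repulsion: all scales
-/

set_option autoImplicit false
set_option linter.unusedSectionVars false

open Set Filter Topology MeasureTheory
open scoped ENNReal
open Pool.Agent.L5helper74.LR

noncomputable section

namespace Pool.Agent.L5helper74.QR

variable {m k : ℕ} {ι : Type} [Fintype ι]

/-- the bound for the volume of the set where the cluster `a, ..., b` has a small spread -/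
def Bd (Λ : (ι → ℝ) →L[ℝ] (Ix m → ℝ)) (ε K₀ ρ₀ : ℝ) (a b : Fin (m + 1)) (e : ℕ) (ρ : ℝ) : Prop :=
  ∃ C : ℝ, 0 ≤ C ∧ ∀ F V L d, Sl Λ ε K₀ ρ₀ F V L d → ∀ s : ℝ, 0 < s → s ≤ 1 →
    volume {t | d t < ρ ∧ L t b - L t a ≤ s} ≤ ENNReal.ofReal (C * s ^ e)

lemma vol_bd {Λ : (ι → ℝ) →L[ℝ] (Ix m → ℝ)} {ε K₀ ρ₀ : ℝ} {F : (ι → ℝ) → Ix m → ℝ}
    {V : (ι → ℝ) → Fin (m + 1) → Fin (m + 1) → ℝ} {L : (ι → ℝ) → Fin (m + 1) → ℝ}
    {d : (ι → ℝ) → ℝ} (h : Sl Λ ε K₀ ρ₀ F V L d) (hK₀ : 0 < K₀) :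
    volume {t | d t < ρ₀} ≤ ENNReal.ofReal ((2 * K₀) ^ Fintype.card ι) := by
  rcases {t | d t < ρ₀}.eq_empty_or_nonempty with he | ⟨t₀, ht₀⟩
  · rw [he, measure_empty]
    exact zero_le
  · have h1 : {t | d t < ρ₀} ⊆ Metric.closedBall t₀ K₀ := by
      intro t ht
      rw [mem_closedBall_iff_norm]
      exact h.bd t₀ t ht₀ ht
    refine (measure_mono h1).trans ?_
    rw [Real.volume_pi_closedBall _ hK₀.le]

lemma whole {Λ : (ι → ℝ) →L[ℝ] (Ix m → ℝ)} {K₁ : ℝ} (hK₁ : 0 < K₁)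
    (hΛ : ∀ t, ‖t‖ ≤ K₁ * ‖Λ t‖) {ε : ℝ} (hε : ε * K₁ ≤ 1 / 2) (K₀ ρ₀ : ℝ) {e : ℕ}
    (he : e ≤ Fintype.card ι) {ρ : ℝ} (hρ : ρ ≤ ρ₀) :
    Bd Λ ε K₀ ρ₀ (0 : Fin (m + 1)) (Fin.last m) e ρ := by
  obtain ⟨n, hn⟩ : ∃ n : ℝ, n = ((m + 1 : ℕ) : ℝ) := ⟨_, rfl⟩
  have hn1 : 1 ≤ n := by
    rw [hn]
    exact_mod_cast Nat.succ_le_succ (Nat.zero_le m)
  refine ⟨(16 * n * K₁) ^ Fintype.card ι, by positivity, fun F V L d h s hs hs1 => ?_⟩
  have hFb : ∀ t, d t < ρ₀ → L t (Fin.last m) - L t 0 ≤ s → ‖F t‖ ≤ 2 * (n * s) := by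
    intro t ht hts
    rw [h.eq t ht, ← cI_shift (h.ort t ht) (L t) (L t 0)]
    refine cI_norm fun i j => ?_
    unfold Tc
    refine (Finset.abs_sum_le_sum_abs _ _).trans ?_
    have h1 : ∀ q ∈ (Finset.univ : Finset (Fin (m + 1))),
        |(L t q - L t 0) * (V t q i * V t q j)| ≤ s := by
      intro q _
      have h2 := h.mon t ht (Fin.zero_le q)
      have h3 := h.mon t ht (Fin.le_last q)
      rw [abs_mul, abs_mul, abs_of_nonneg (by linarith : 0 ≤ L t q - L t 0)]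
      calc (L t q - L t 0) * (|V t q i| * |V t q j|) ≤ s * (1 * 1) :=
            mul_le_mul (by linarith) (mul_le_mul (Ort_le (h.ort t ht) q i)
              (Ort_le (h.ort t ht) q j) (abs_nonneg _) zero_le_one) (by positivity) hs.le
        _ = s := by ring
    refine (Finset.sum_le_sum h1).trans ?_
    rw [Finset.sum_const, Finset.card_univ, Fintype.card_fin, nsmul_eq_mul, ← hn]
  rcases {t | d t < ρ ∧ L t (Fin.last m) - L t 0 ≤ s}.eq_empty_or_nonempty with h0 | ⟨t₀, ht₀⟩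
  · rw [h0, measure_empty]
    exact zero_le
  · have h1 : {t | d t < ρ ∧ L t (Fin.last m) - L t 0 ≤ s} ⊆
        Metric.closedBall t₀ (8 * n * K₁ * s) := by
      rintro t ⟨ht1, ht2⟩
      rw [mem_closedBall_iff_norm]
      have h2 := hFb t (ht1.trans_le hρ) ht2
      have h3 := hFb t₀ (ht₀.1.trans_le hρ) ht₀.2
      have h4 := h.app t₀ t (ht₀.1.trans_le hρ) (ht1.trans_le hρ)
      have h5 : ‖Λ (t - t₀)‖ ≤ 4 * (n * s) + ε * ‖t - t₀‖ := by
        have h6 : Λ (t - t₀) = (F t - F t₀) - (F t - F t₀ - Λ (t - t₀)) := by abel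
        rw [h6]
        have h7 := norm_sub_le (F t - F t₀) (F t - F t₀ - Λ (t - t₀))
        have h8 := norm_sub_le (F t) (F t₀)
        linarith
      have h6 := hΛ (t - t₀)
      have h7 : K₁ * ‖Λ (t - t₀)‖ ≤ K₁ * (4 * (n * s) + ε * ‖t - t₀‖) :=
        mul_le_mul_of_nonneg_left h5 hK₁.le
      have h8 : K₁ * (ε * ‖t - t₀‖) ≤ 1 / 2 * ‖t - t₀‖ := by
        have := mul_le_mul_of_nonneg_right hε (norm_nonneg (t - t₀))
        linarith
      nlinarith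
    refine (measure_mono h1).trans ?_
    rw [Real.volume_pi_closedBall _ (by positivity)]
    refine ENNReal.ofReal_le_ofReal ?_
    have h2 : 2 * (8 * n * K₁ * s) = 16 * n * K₁ * s := by ring
    rw [h2, mul_pow]
    refine mul_le_mul_of_nonneg_left ?_ (by positivity)
    exact pow_le_pow_of_le_one hs.le hs1 he

lemma niso {L : Fin (m + 1) → ℝ} (hL : Monotone L) {a b : Fin (m + 1)} {δ : ℝ}
    (h : ¬ Iso L a b δ) : (∃ a' : Fin (m + 1), (a' : ℕ) + 1 = a ∧ L a - L a' < δ) ∨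
      ∃ b' : Fin (m + 1), (b' : ℕ) = b + 1 ∧ L b' - L b < δ := by
  unfold Iso at h
  rw [not_and_or] at h
  rcases h with h | h
  · left
    push Not at h
    obtain ⟨q, hq, hq2⟩ := h
    have h1 : (q : ℕ) < a := hq
    refine ⟨⟨(a : ℕ) - 1, by omega⟩, by simp only; omega, ?_⟩
    have h2 : q ≤ ⟨(a : ℕ) - 1, by omega⟩ := by
      rw [Fin.le_def]
      simp only
      omega
    have := hL h2
    linarith
  · right
    push Not at h
    obtain ⟨q, hq, hq2⟩ := h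
    have h1 : (b : ℕ) < q := hq
    have h3 := q.2
    refine ⟨⟨(b : ℕ) + 1, by omega⟩, rfl, ?_⟩
    have h2 : (⟨(b : ℕ) + 1, by omega⟩ : Fin (m + 1)) ≤ q := by
      rw [Fin.le_def]
      simp only
      omega
    have := hL h2
    linarith

/-- the weights -/
def Wt (κ k : ℕ) : ℝ := 1 + ∑ j ∈ Finset.range k, ((2 : ℝ) ^ j) ^ 3 / ((2 : ℝ) ^ j) ^ κ

lemma Wt_pos (κ k : ℕ) : 1 ≤ Wt κ k := by
  unfold Wt
  have : 0 ≤ ∑ j ∈ Finset.range k, ((2 : ℝ) ^ j) ^ 3 / ((2 : ℝ) ^ j) ^ κ :=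
    Finset.sum_nonneg fun j _ => by positivity
  linarith

lemma Wt_succ (κ k : ℕ) : Wt κ (k + 1) = Wt κ k + ((2 : ℝ) ^ k) ^ 3 / ((2 : ℝ) ^ k) ^ κ := by
  unfold Wt
  rw [Finset.sum_range_succ]
  ring

lemma Wt_two (k : ℕ) : Wt 2 k = 2 ^ k := by
  induction k with
  | zero => simp [Wt]
  | succ k ih =>
    rw [Wt_succ, ih]
    have h : ((2 : ℝ) ^ k) ^ 3 / ((2 : ℝ) ^ k) ^ 2 = 2 ^ k := by
      have h1 : (0 : ℝ) < 2 ^ k := by positivity
      field_simp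
    rw [h]
    ring

lemma Wt_four (k : ℕ) : Wt 4 k = 3 - 2 / 2 ^ k := by
  induction k with
  | zero => simp [Wt]; norm_num
  | succ k ih =>
    rw [Wt_succ, ih]
    have h : ((2 : ℝ) ^ k) ^ 3 / ((2 : ℝ) ^ k) ^ 4 = 1 / 2 ^ k := by
      have h1 : (0 : ℝ) < 2 ^ k := by positivity
      field_simp
    rw [h, pow_succ]
    have h1 : (0 : ℝ) < 2 ^ k := by positivity
    field_simp
    ring

end Pool.Agent.L5helper74.QR
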