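import Pool.Agent.L5helper74.QR.Tr
import Pool.Agent.L5helper74.QR.Fub

/-!
# Quadratic repulsion: one scale
-/

set_option autoImplicit false
set_option linter.unusedSectionVars false

open Set Filter Topology MeasureTheory
open scoped ENNReal
open Pool.Agent.L5helper74.LR

noncomputable section

namespace Pool.Agent.L5helper74.QR

variable {m k : ℕ} {ι : Type} [Fintype ι]

/-- a slice: `F` is nearly linear with the linear part `Λ` on `d < ρ₀`; `L t` are the ordered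
eigenvalues of the matrix with the coordinates `F t` -/
structure Sl (Λ : (ι → ℝ) →L[ℝ] (Ix m → ℝ)) (ε K₀ ρ₀ : ℝ) (F : (ι → ℝ) → Ix m → ℝ)
    (V : (ι → ℝ) → Fin (m + 1) → Fin (m + 1) → ℝ) (L : (ι → ℝ) → Fin (m + 1) → ℝ)
    (d : (ι → ℝ) → ℝ) : Prop where
  lip : ∀ t t', d t' ≤ d t + K₀ * ‖t' - t‖
  bd : ∀ t t', d t < ρ₀ → d t' < ρ₀ → ‖t' - t‖ ≤ K₀
  app : ∀ t t', d t < ρ₀ → d t' < ρ₀ → ‖F t' - F t - Λ (t' - t)‖ ≤ ε * ‖t' - t‖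
  ort : ∀ t, d t < ρ₀ → Ort (V t)
  mon : ∀ t, d t < ρ₀ → Monotone (L t)
  eq : ∀ t, d t < ρ₀ → F t = cI (Tc (L t) (V t))

/-- the cluster `a, ..., b` of `L` is isolated by `δ` -/
def Iso (L : Fin (m + 1) → ℝ) (a b : Fin (m + 1)) (δ : ℝ) : Prop :=
  (∀ q, q < a → δ ≤ L a - L q) ∧ ∀ q, b < q → δ ≤ L q - L b

/-- the estimate at one scale -/
def OS (Λ : (ι → ℝ) →L[ℝ] (Ix m → ℝ)) (ε : ℝ) (a b : Fin (m + 1)) (κ : ℕ) (c' K' : ℝ) : Prop :=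
  ∀ K₀ ρ₀ F V L d, Sl Λ ε K₀ ρ₀ F V L d → ∀ s δ : ℝ, 0 < s → 4 * s ≤ δ →
    ∀ S N : Set (ι → ℝ), (∀ t ∈ S, d t < ρ₀ ∧ L t b - L t a ≤ s ∧ Iso (L t) a b δ) →
      (∀ t ∈ S, ∀ x, ‖x - t‖ ≤ c' * δ → x ∈ N) →
      volume S ≤ ENNReal.ofReal (K' * (s / δ) ^ κ) * volume N

lemma F_lip {Λ : (ι → ℝ) →L[ℝ] (Ix m → ℝ)} {ε K₀ ρ₀ : ℝ} {F : (ι → ℝ) → Ix m → ℝ}
    {V : (ι → ℝ) → Fin (m + 1) → Fin (m + 1) → ℝ} {L : (ι → ℝ) → Fin (m + 1) → ℝ}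
    {d : (ι → ℝ) → ℝ} (h : Sl Λ ε K₀ ρ₀ F V L d) (hε : ε ≤ 1) {t t' : ι → ℝ} (ht : d t < ρ₀)
    (ht' : d t' < ρ₀) : ‖F t' - F t‖ ≤ (‖Λ‖ + 1) * ‖t' - t‖ := by
  have h1 : F t' - F t = (F t' - F t - Λ (t' - t)) + Λ (t' - t) := by abel
  rw [h1]
  calc ‖(F t' - F t - Λ (t' - t)) + Λ (t' - t)‖ ≤ ε * ‖t' - t‖ + ‖Λ‖ * ‖t' - t‖ :=
        (norm_add_le _ _).trans (add_le_add (h.app t t' ht ht') (Λ.le_opNorm _))
    _ ≤ (‖Λ‖ + 1) * ‖t' - t‖ := by nlinarith [norm_nonneg (t' - t)]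

set_option maxHeartbeats 1000000 in
theorem one_scale {κ : Type} [Fintype κ] (Λ : (ι → ℝ) →L[ℝ] (Ix m → ℝ))
    {σ : Fin (k + 1) → Fin (m + 1)} (hσ : Function.Injective σ) {a b : Fin (m + 1)}
    (hσa : ∀ i, a ≤ σ i) (hσb : ∀ i, σ i ≤ b)
    {Z : Finset ((κ → ℝ) →L[ℝ] (ι → ℝ))} {c C : ℝ} (hc : 0 < c) (hC : 0 < C)
    (hZC : ∀ ζ ∈ Z, ‖ζ‖ < C)
    (hZ : ∀ V, Ort V → ∃ ζ ∈ Z, ∀ z, c * ‖z‖ ≤ ‖Cm σ V (Λ (ζ z))‖) :
    ∃ ε₀ : ℝ, 0 < ε₀ ∧ ∀ c₁ : ℝ, 0 < c₁ → ∃ c' : ℝ, 0 < c' ∧ c' ≤ c₁ ∧ ∃ K' : ℝ, 0 ≤ K' ∧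
      ∀ ε, 0 ≤ ε → ε ≤ ε₀ → OS Λ ε a b (Fintype.card κ) c' K' := by
  obtain ⟨n, hn⟩ : ∃ n : ℝ, n = ((m + 1 : ℕ) : ℝ) := ⟨_, rfl⟩
  have hn1 : 1 ≤ n := by
    rw [hn]
    exact_mod_cast Nat.succ_le_succ (Nat.zero_le m)
  obtain ⟨lam, hlam⟩ : ∃ lam : ℝ, lam = ‖Λ‖ + 1 := ⟨_, rfl⟩
  have hlam1 : 1 ≤ lam := by
    rw [hlam]
    linarith [norm_nonneg Λ]
  refine ⟨min 1 (c / (8 * n ^ 2 * C)), lt_min one_pos (by positivity), fun c₁ hc₁ => ?_⟩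
  obtain ⟨c', hc'⟩ : ∃ c' : ℝ, c' = min c₁ (min (1 / (4 * n ^ 3 * lam))
    (c / (32 * n ^ 5 * lam ^ 2 * C))) := ⟨_, rfl⟩
  have hc'0 : 0 < c' := by
    rw [hc']
    positivity
  have hc'1 : c' ≤ c₁ := by
    rw [hc']
    exact min_le_left _ _
  have hc'2 : n ^ 3 * lam * c' ≤ 1 / 4 := by
    have h1 : c' ≤ 1 / (4 * n ^ 3 * lam) := by
      rw [hc']
      exact (min_le_right _ _).trans (min_le_left _ _)
    calc n ^ 3 * lam * c' ≤ n ^ 3 * lam * (1 / (4 * n ^ 3 * lam)) :=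
          mul_le_mul_of_nonneg_left h1 (by positivity)
      _ = 1 / 4 := by field_simp
  have hc'3 : 8 * n ^ 5 * lam ^ 2 * c' * C ≤ c / 4 := by
    have h1 : c' ≤ c / (32 * n ^ 5 * lam ^ 2 * C) := by
      rw [hc']
      exact (min_le_right _ _).trans (min_le_right _ _)
    calc 8 * n ^ 5 * lam ^ 2 * c' * C ≤ 8 * n ^ 5 * lam ^ 2 * (c / (32 * n ^ 5 * lam ^ 2 * C)) * C :=
          mul_le_mul_of_nonneg_right (mul_le_mul_of_nonneg_left h1 (by positivity)) hC.le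
      _ = c / 4 := by field_simp; norm_num
  obtain ⟨K, hK⟩ : ∃ K : ℝ, K = (6 * n / c) * (2 * C + 1) / c' := ⟨_, rfl⟩
  have hK0 : 0 ≤ K := by rw [hK]; positivity
  refine ⟨c', hc'0, hc'1, Z.card * K ^ Fintype.card κ, by positivity,
    fun ε hε0 hε K₀ ρ₀ F V L d hS s δ hs hsδ S N hSt hN => ?_⟩
  have hε1 : ε ≤ 1 := hε.trans (min_le_left _ _)
  have hε2 : 2 * n ^ 2 * ε * C ≤ c / 4 := by
    have h1 : ε ≤ c / (8 * n ^ 2 * C) := hε.trans (min_le_right _ _)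
    calc 2 * n ^ 2 * ε * C ≤ 2 * n ^ 2 * (c / (8 * n ^ 2 * C)) * C :=
          mul_le_mul_of_nonneg_right (mul_le_mul_of_nonneg_left h1 (by positivity)) hC.le
      _ = c / 4 := by field_simp; norm_num
  have hδ : 0 < δ := by linarith
  obtain ⟨r, hr⟩ : ∃ r : ℝ, r = c' * δ / (2 * C + 1) := ⟨_, rfl⟩
  have hr0 : 0 < r := by rw [hr]; positivity
  have hr1 : (2 * C + 1) * r = c' * δ := by
    rw [hr]
    field_simp
  have hCr : C * r ≤ c' * δ := by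
    rw [← hr1]
    nlinarith
  obtain ⟨α, hα⟩ : ∃ α : ℝ, α = 8 * n ^ 5 * lam ^ 2 * c' + 2 * n ^ 2 * ε := ⟨_, rfl⟩
  have hα0 : 0 ≤ α := by rw [hα]; positivity
  have hαC : α * C ≤ c / 2 := by
    rw [hα]
    nlinarith
  -- the pieces
  have hpiece : ∀ ζ ∈ Z, volume {t | t ∈ S ∧ ∀ z, c * ‖z‖ ≤ ‖Cm σ (V t) (Λ (ζ z))‖} ≤
      ENNReal.ofReal (K ^ Fintype.card κ * (s / δ) ^ Fintype.card κ) * volume N := by
    intro ζ hζ
    have hζC := hZC ζ hζ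
    have h1 : ∀ t ∈ {t | t ∈ S ∧ ∀ z, c * ‖z‖ ≤ ‖Cm σ (V t) (Λ (ζ z))‖},
        ∀ t' ∈ {t | t ∈ S ∧ ∀ z, c * ‖z‖ ≤ ‖Cm σ (V t) (Λ (ζ z))‖}, ∀ z, ‖z‖ ≤ 2 * r →
          ‖z‖ ≤ 6 * n / c * s + max 2 (2 * (α + 2 * n ^ 2 * ‖Λ‖) / c) * ‖t' - t - ζ z‖ := by
      rintro t ⟨ht, htz⟩ t' ⟨ht', -⟩ z hz
      obtain ⟨w, hw⟩ : ∃ w, w = t' - t - ζ z := ⟨_, rfl⟩
      rw [← hw]
      have hpos : 0 ≤ 6 * n / c * s := by positivity
      rcases lt_or_ge r ‖w‖ with hwr | hwr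
      · have h2 : 2 * ‖w‖ ≤ max 2 (2 * (α + 2 * n ^ 2 * ‖Λ‖) / c) * ‖w‖ :=
          mul_le_mul_of_nonneg_right (le_max_left _ _) (norm_nonneg _)
        linarith
      · obtain ⟨ht1, ht2, ht3, ht4⟩ := hSt t ht
        obtain ⟨ht1', ht2', -⟩ := hSt t' ht'
        have hV := hS.ort t ht1
        have hV' := hS.ort t' ht1'
        have hζz : ‖ζ z‖ ≤ C * ‖z‖ :=
          (ζ.le_opNorm z).trans (mul_le_mul_of_nonneg_right hζC.le (norm_nonneg _))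
        have htt : ‖t' - t‖ ≤ C * ‖z‖ + ‖w‖ := by
          have h2 : t' - t = ζ z + w := by
            rw [hw]
            abel
          rw [h2]
          exact (norm_add_le _ _).trans (add_le_add hζz le_rfl)
        have htt2 : ‖t' - t‖ ≤ c' * δ := by
          have h2 : C * ‖z‖ ≤ C * (2 * r) := mul_le_mul_of_nonneg_left hz hC.le
          rw [← hr1]
          linarith
        have hF := F_lip hS hε1 ht1 ht1'
        rw [← hlam] at hF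
        obtain ⟨ξ, hξ⟩ : ∃ ξ : ℝ, ξ = n * (n * ‖F t' - F t‖) := ⟨_, rfl⟩
        have hξ0 : 0 ≤ ξ := by rw [hξ]; positivity
        have hξ1 : ξ ≤ n ^ 2 * lam * ‖t' - t‖ := by
          rw [hξ]
          calc n * (n * ‖F t' - F t‖) ≤ n * (n * (lam * ‖t' - t‖)) := by gcongr
            _ = _ := by ring
        have hsm : n * ξ + s ≤ δ / 2 := by
          have h2 : n * ξ ≤ δ / 4 := by
            calc n * ξ ≤ n * (n ^ 2 * lam * (c' * δ)) := by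
                  refine mul_le_mul_of_nonneg_left (hξ1.trans ?_) (by linarith)
                  gcongr
              _ = (n ^ 3 * lam * c') * δ := by ring
              _ ≤ 1 / 4 * δ := mul_le_mul_of_nonneg_right hc'2 hδ.le
              _ = δ / 4 := by ring
          linarith
        have hst := Cm_star hV hV' (hS.mon t ht1) (hS.mon t' ht1') hn (ξ := ξ)
          (by rw [hξ, hS.eq t ht1, hS.eq t' ht1']) hδ ht2 ht2' ht3 ht4 hsm hσ hσa hσb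
        rw [← hS.eq t ht1, ← hS.eq t' ht1'] at hst
        have hξ2 : 8 * n * ξ ^ 2 / δ ≤ 8 * n ^ 5 * lam ^ 2 * c' * ‖t' - t‖ := by
          rw [div_le_iff₀ hδ]
          have h2 : ξ ^ 2 ≤ (n ^ 2 * lam * ‖t' - t‖) ^ 2 := by
            exact pow_le_pow_left₀ hξ0 hξ1 2
          calc 8 * n * ξ ^ 2 ≤ 8 * n * (n ^ 2 * lam * ‖t' - t‖) ^ 2 := by gcongr
            _ = 8 * n ^ 5 * lam ^ 2 * ‖t' - t‖ * ‖t' - t‖ := by ring
            _ ≤ 8 * n ^ 5 * lam ^ 2 * ‖t' - t‖ * (c' * δ) := by gcongr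
            _ = _ := by ring
        obtain ⟨P, hP⟩ := Cm_lin σ (V t)
        have hdec : Λ (ζ z) = (F t' - F t) - ((F t' - F t - Λ (t' - t)) + Λ w) := by
          rw [hw]
          simp only [map_sub]
          abel
        have h3 : ‖Cm σ (V t) (Λ (ζ z))‖ ≤ ‖Cm σ (V t) (F t' - F t)‖ +
            ‖Cm σ (V t) ((F t' - F t - Λ (t' - t)) + Λ w)‖ := by
          rw [hdec, ← hP, map_sub, hP, hP]
          exact norm_sub_le _ _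
        have h4 : ‖Cm σ (V t) ((F t' - F t - Λ (t' - t)) + Λ w)‖ ≤
            2 * n ^ 2 * (ε * ‖t' - t‖ + ‖Λ‖ * ‖w‖) := by
          refine (Cm_bd σ hV hn _).trans ?_
          have h5 : ‖(F t' - F t - Λ (t' - t)) + Λ w‖ ≤ ε * ‖t' - t‖ + ‖Λ‖ * ‖w‖ :=
            (norm_add_le _ _).trans (add_le_add (hS.app t t' ht1 ht1') (Λ.le_opNorm _))
          calc 2 * (n * (n * ‖(F t' - F t - Λ (t' - t)) + Λ w‖)) ≤
              2 * (n * (n * (ε * ‖t' - t‖ + ‖Λ‖ * ‖w‖))) := by gcongr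
            _ = _ := by ring
        have h5 : c * ‖z‖ ≤ 3 * n * s + α * ‖t' - t‖ + 2 * n ^ 2 * ‖Λ‖ * ‖w‖ := by
          have h6 := htz z
          have e1 : α * ‖t' - t‖ = 8 * n ^ 5 * lam ^ 2 * c' * ‖t' - t‖ +
              2 * n ^ 2 * (ε * ‖t' - t‖) := by
            rw [hα]
            ring
          have e2 : 2 * n ^ 2 * (ε * ‖t' - t‖ + ‖Λ‖ * ‖w‖) = 2 * n ^ 2 * (ε * ‖t' - t‖) +
              2 * n ^ 2 * ‖Λ‖ * ‖w‖ := by ring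
          linarith
        have h6 : α * ‖t' - t‖ ≤ c / 2 * ‖z‖ + α * ‖w‖ := by
          calc α * ‖t' - t‖ ≤ α * (C * ‖z‖ + ‖w‖) := mul_le_mul_of_nonneg_left htt hα0
            _ = (α * C) * ‖z‖ + α * ‖w‖ := by ring
            _ ≤ c / 2 * ‖z‖ + α * ‖w‖ := by
                have := mul_le_mul_of_nonneg_right hαC (norm_nonneg z)
                linarith
        have h7 : ‖z‖ ≤ 6 * n / c * s + 2 * (α + 2 * n ^ 2 * ‖Λ‖) / c * ‖w‖ := by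
          have h8 : 6 * n / c * s + 2 * (α + 2 * n ^ 2 * ‖Λ‖) / c * ‖w‖ =
              (6 * n * s + 2 * (α + 2 * n ^ 2 * ‖Λ‖) * ‖w‖) / c := by ring
          rw [h8, le_div_iff₀ hc]
          linarith
        refine h7.trans ?_
        have h8 := mul_le_mul_of_nonneg_right
          (le_max_right 2 (2 * (α + 2 * n ^ 2 * ‖Λ‖) / c)) (norm_nonneg w)
        linarith
    have h2 := fub ζ (S := {t | t ∈ S ∧ ∀ z, c * ‖z‖ ≤ ‖Cm σ (V t) (Λ (ζ z))‖}) (N := N) hr0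
      (by positivity) (le_trans zero_le_two (le_max_left _ _)) hζC h1 fun t ht x hx =>
        hN t ht.1 x (hx.trans hCr)
    have h3 : ENNReal.ofReal ((2 * (6 * n / c * s)) ^ Fintype.card κ) =
        ENNReal.ofReal (K ^ Fintype.card κ * (s / δ) ^ Fintype.card κ) *
          ENNReal.ofReal ((2 * r) ^ Fintype.card κ) := by
      rw [← ENNReal.ofReal_mul (by positivity), ← mul_pow, ← mul_pow]
      congr 2
      rw [hK, hr]
      field_simp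
    rw [h3, ← mul_assoc] at h2
    have h4 : ENNReal.ofReal ((2 * r) ^ Fintype.card κ) ≠ 0 := by
      rw [ENNReal.ofReal_ne_zero_iff]
      positivity
    have h5 := (ENNReal.mul_le_mul_iff_left h4 ENNReal.ofReal_ne_top).1 h2
    rwa [mul_comm] at h5
  have hcov : S ⊆ ⋃ ζ ∈ Z, {t | t ∈ S ∧ ∀ z, c * ‖z‖ ≤ ‖Cm σ (V t) (Λ (ζ z))‖} := by
    intro t ht
    obtain ⟨ζ, hζ, hz⟩ := hZ (V t) (hS.ort t (hSt t ht).1)
    exact mem_iUnion₂.2 ⟨ζ, hζ, ht, hz⟩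
  calc volume S ≤ ∑ ζ ∈ Z, volume {t | t ∈ S ∧ ∀ z, c * ‖z‖ ≤ ‖Cm σ (V t) (Λ (ζ z))‖} :=
        (measure_mono hcov).trans (measure_biUnion_finset_le _ _)
    _ ≤ ∑ _ζ ∈ Z, ENNReal.ofReal (K ^ Fintype.card κ * (s / δ) ^ Fintype.card κ) * volume N :=
        Finset.sum_le_sum hpiece
    _ = _ := by
        rw [Finset.sum_const, nsmul_eq_mul, ← mul_assoc, mul_assoc (Z.card : ℝ),
          ENNReal.ofReal_mul (p := (Z.card : ℝ)) (by positivity), ENNReal.ofReal_natCast]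

end Pool.Agent.L5helper74.QR
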