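import Pool.Agent.L5helper74.LR.Prob

/-!
# Exact local law: slices
-/

set_option autoImplicit false
set_option linter.unusedSectionVars false

open Set Filter Topology MeasureTheory
open scoped ENNReal NNReal Pointwise
open Pool.Agent.L5helper74.LR

noncomputable section

namespace Pool.Agent.L5helper74.QR

section uni

variable {Y : Type} [NormedAddCommGroup Y] [NormedSpace ℝ Y] {κ : Type} [Fintype κ]
  {Mf : Y → κ → ℝ} {M' : Y →L[ℝ] (κ → ℝ)} {ψ : Y} {Hm : (κ → ℝ) →L[ℝ] Y}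

/-- the inverse function theorem, uniformly on all slices -/
theorem uni (hM : HasStrictFDerivAt Mf M' ψ) (hinj : ∀ t, M' (Hm t) = 0 → t = 0) :
    ∃ ρ₀ : ℝ, 0 < ρ₀ ∧ ∃ C : ℝ, 0 < C ∧ ∀ ρ : ℝ, 0 < ρ → ρ ≤ ρ₀ →
      (∀ x t t', ‖x + Hm t - ψ‖ < ρ → ‖x + Hm t' - ψ‖ < ρ →
        ‖t - t'‖ ≤ C * ‖Mf (x + Hm t) - Mf (x + Hm t')‖) ∧
      ∃ r : ℝ, 0 < r ∧ ∀ x t u, ‖x + Hm t - ψ‖ < ρ / 2 → ‖u - Mf (x + Hm t)‖ < r →
        ∃ t', ‖t' - t‖ ≤ C * ‖u - Mf (x + Hm t)‖ ∧ ‖x + Hm t' - ψ‖ < ρ ∧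
          Mf (x + Hm t') = u := by
  obtain ⟨e, he⟩ := iso hinj
  have he1 : ∀ t, M' (Hm t) = e t := fun t => (DFunLike.congr_fun he t).symm
  obtain ⟨K, hK⟩ : ∃ K : ℝ≥0, K = ‖(e.symm : (κ → ℝ) →L[ℝ] (κ → ℝ))‖₊ + 1 := ⟨_, rfl⟩
  have hK0 : 0 < (K : ℝ) := by
    rw [hK]
    push_cast
    positivity
  have hes : ∀ y, ‖e.symm y‖ ≤ K * ‖y‖ := by
    intro y
    have h2 := (e.symm : (κ → ℝ) →L[ℝ] (κ → ℝ)).le_opNorm y
    refine h2.trans (mul_le_mul_of_nonneg_right ?_ (norm_nonneg _))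
    rw [hK]
    push_cast
    linarith
  have h1 : ∀ t, ‖t‖ ≤ K * ‖M' (Hm t)‖ := by
    intro t
    have h2 : e.symm (M' (Hm t)) = t := by rw [he1, ContinuousLinearEquiv.symm_apply_apply]
    calc ‖t‖ = ‖e.symm (M' (Hm t))‖ := by rw [h2]
      _ ≤ K * ‖M' (Hm t)‖ := hes _
  obtain ⟨c, hc⟩ : ∃ c : ℝ≥0, c = (2 * K * (‖Hm‖₊ + 1))⁻¹ := ⟨_, rfl⟩
  have hc0 : 0 < c := by
    rw [hc]
    have : 0 < K := by exact_mod_cast hK0
    positivity
  have hcH : (c : ℝ) * (‖Hm‖ + 1) = 1 / (2 * K) := by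
    rw [hc]
    push_cast
    field_simp
  obtain ⟨U, hU, hUa⟩ := hM.approximates_deriv_on_nhds (Or.inr hc0)
  obtain ⟨ρ₀, hρ₀, hρU⟩ := Metric.mem_nhds_iff.1 hU
  have hap : ∀ x t t', ‖x + Hm t - ψ‖ < ρ₀ → ‖x + Hm t' - ψ‖ < ρ₀ →
      ‖Mf (x + Hm t) - Mf (x + Hm t') - M' (Hm (t - t'))‖ ≤ 1 / (2 * K) * ‖t - t'‖ := by
    intro x t t' ht ht'
    have h2 := hUa _ (hρU (show x + Hm t ∈ Metric.ball ψ ρ₀ by rwa [mem_ball_iff_norm])) _
      (hρU (show x + Hm t' ∈ Metric.ball ψ ρ₀ by rwa [mem_ball_iff_norm]))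
    have h3 : x + Hm t - (x + Hm t') = Hm (t - t') := by
      rw [map_sub]
      abel
    rw [h3] at h2
    refine h2.trans ?_
    have h4 : ‖Hm (t - t')‖ ≤ (‖Hm‖ + 1) * ‖t - t'‖ :=
      (Hm.le_opNorm _).trans (mul_le_mul_of_nonneg_right (by linarith) (norm_nonneg _))
    calc (c : ℝ) * ‖Hm (t - t')‖ ≤ c * ((‖Hm‖ + 1) * ‖t - t'‖) :=
          mul_le_mul_of_nonneg_left h4 c.2
      _ = 1 / (2 * K) * ‖t - t'‖ := by rw [← mul_assoc, hcH]
  refine ⟨ρ₀, hρ₀, 2 * K, by positivity, fun ρ hρ hρρ => ⟨fun x t t' ht ht' => ?_, ?_⟩⟩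
  · have h2 := hap x t t' (ht.trans_le hρρ) (ht'.trans_le hρρ)
    have h3 := h1 (t - t')
    have h4 : ‖M' (Hm (t - t'))‖ ≤ ‖Mf (x + Hm t) - Mf (x + Hm t')‖ +
        ‖Mf (x + Hm t) - Mf (x + Hm t') - M' (Hm (t - t'))‖ := by
      have : M' (Hm (t - t')) = (Mf (x + Hm t) - Mf (x + Hm t')) -
          (Mf (x + Hm t) - Mf (x + Hm t') - M' (Hm (t - t'))) := by abel
      calc _ = ‖(Mf (x + Hm t) - Mf (x + Hm t')) -
          (Mf (x + Hm t) - Mf (x + Hm t') - M' (Hm (t - t')))‖ := by rw [← this]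
        _ ≤ _ := norm_sub_le _ _
    have h5 : (K : ℝ) * (1 / (2 * K) * ‖t - t'‖) = ‖t - t'‖ / 2 := by field_simp
    have h6 : ‖t - t'‖ ≤ K * (‖Mf (x + Hm t) - Mf (x + Hm t')‖ + 1 / (2 * K) * ‖t - t'‖) :=
      h3.trans (mul_le_mul_of_nonneg_left (h4.trans (by linarith)) hK0.le)
    rw [mul_add, h5] at h6
    linarith
  · refine ⟨ρ / (4 * K * (‖Hm‖ + 1)), by positivity, fun x t u ht hu => ?_⟩
    obtain ⟨ε, hε⟩ : ∃ ε : ℝ, ε = 2 * K * ‖u - Mf (x + Hm t)‖ := ⟨_, rfl⟩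
    have hε0 : 0 ≤ ε := by rw [hε]; positivity
    have hεH : ‖Hm‖ * ε < ρ / 2 := by
      rw [lt_div_iff₀ (by positivity)] at hu
      have h2 : (‖Hm‖ + 1) * ε < ρ / 2 ∨ ε = 0 := by
        rcases hε0.eq_or_lt with h | h
        · exact Or.inr h.symm
        · left
          rw [hε]
          nlinarith
      rcases h2 with h2 | h2
      · nlinarith
      · rw [h2, mul_zero]
        positivity
    have hsub : Metric.closedBall t ε ⊆ {t' | ‖x + Hm t' - ψ‖ < ρ} := by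
      intro t' ht'
      rw [mem_closedBall_iff_norm] at ht'
      have h2 : x + Hm t' - ψ = (x + Hm t - ψ) + Hm (t' - t) := by
        rw [map_sub]
        abel
      show ‖x + Hm t' - ψ‖ < ρ
      rw [h2]
      have h3 : ‖Hm (t' - t)‖ ≤ ‖Hm‖ * ε :=
        (Hm.le_opNorm _).trans (mul_le_mul_of_nonneg_left ht' (norm_nonneg _))
      calc _ ≤ ‖x + Hm t - ψ‖ + ‖Hm (t' - t)‖ := norm_add_le _ _
        _ < ρ := by linarith
    obtain ⟨c', hc'⟩ : ∃ c' : ℝ≥0, c' = (2 * K)⁻¹ := ⟨_, rfl⟩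
    have hc'1 : (c' : ℝ) = 1 / (2 * K) := by
      rw [hc']
      push_cast
      rw [one_div]
    have hA : ApproximatesLinearOn (fun t => Mf (x + Hm t)) (M'.comp Hm)
        {t' | ‖x + Hm t' - ψ‖ < ρ} c' := by
      intro t₁ h₁ t₂ h₂
      have h3 := hap x t₁ t₂ (lt_of_lt_of_le h₁ hρρ) (lt_of_lt_of_le h₂ hρρ)
      rw [hc'1]
      exact h3
    obtain ⟨N, hN⟩ : ∃ N : (M'.comp Hm).NonlinearRightInverse, N.nnnorm = K :=
      ⟨⟨e.symm, K, hes, fun y => by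
        show M' (Hm (e.symm y)) = y
        rw [he1, ContinuousLinearEquiv.apply_symm_apply]⟩, rfl⟩
    have h3 := hA.surjOn_closedBall_of_nonlinearRightInverse N hε0 hsub
    obtain ⟨t', ht', htu⟩ := h3 (show u ∈ Metric.closedBall (Mf (x + Hm t))
        (((N.nnnorm : ℝ)⁻¹ - c') * ε) by
      rw [mem_closedBall_iff_norm, hN, hc'1, hε]
      refine le_of_eq ?_
      field_simp
      ring)
    exact ⟨t', by rwa [mem_closedBall_iff_norm, hε] at ht', hsub ht', htu⟩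

end uni

section fx

variable {κ : Type} [Fintype κ]

/-- squeezing -/
lemma sq {J : ℝ → ℝ} {v D g₀ : ℝ} (hD : 0 < D)
    (h1 : ∀ ε : ℝ, 0 < ε → ε < D → ∀ᶠ s in 𝓝[>] (0 : ℝ), v * (g₀ - ε) ≤ (D + ε) * J s)
    (h2 : ∀ ε : ℝ, 0 < ε → ε < D → ∀ᶠ s in 𝓝[>] (0 : ℝ), (D - ε) * J s ≤ (g₀ + ε) * v) :
    Tendsto J (𝓝[>] 0) (𝓝 (g₀ * v / D)) := by
  have c1 : Tendsto (fun ε : ℝ => v * (g₀ - ε) / (D + ε)) (𝓝[>] 0) (𝓝 (g₀ * v / D)) := by
    have h3 : ContinuousAt (fun ε : ℝ => v * (g₀ - ε) / (D + ε)) 0 :=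
      ContinuousAt.div (by fun_prop) (by fun_prop) (by simpa using hD.ne')
    have h4 := h3.tendsto
    simp only [sub_zero, add_zero] at h4
    rw [mul_comm g₀ v]
    exact h4.mono_left nhdsWithin_le_nhds
  have c2 : Tendsto (fun ε : ℝ => (g₀ + ε) * v / (D - ε)) (𝓝[>] 0) (𝓝 (g₀ * v / D)) := by
    have h3 : ContinuousAt (fun ε : ℝ => (g₀ + ε) * v / (D - ε)) 0 :=
      ContinuousAt.div (by fun_prop) (by fun_prop) (by simpa using hD.ne')
    have h4 := h3.tendsto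
    simp only [sub_zero, add_zero] at h4
    exact h4.mono_left nhdsWithin_le_nhds
  have hpos : ∀ᶠ ε in 𝓝[>] (0 : ℝ), 0 < ε ∧ ε < D :=
    Ioo_mem_nhdsGT hD
  refine tendsto_order.2 ⟨fun b hb => ?_, fun b hb => ?_⟩
  · obtain ⟨ε, ⟨hε, hεD⟩, h3⟩ := (hpos.and (c1.eventually_const_lt hb)).exists
    filter_upwards [h1 ε hε hεD] with s hs
    refine h3.trans_le ?_
    rw [div_le_iff₀ (by positivity)]
    linarith
  · obtain ⟨ε, ⟨hε, hεD⟩, h3⟩ := (hpos.and (c2.eventually_lt_const hb)).exists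
    filter_upwards [h2 ε hε hεD] with s hs
    refine lt_of_le_of_lt ?_ h3
    rw [le_div_iff₀ (by linarith)]
    linarith

/-- the asymptotics on a single slice -/
theorem fx {F : (κ → ℝ) → (κ → ℝ)} {L : (κ → ℝ) →L[ℝ] (κ → ℝ)} {t₀ : κ → ℝ}
    (hF : HasStrictFDerivAt F L t₀) (hL : L.det ≠ 0) {C δ₀ r₀ : ℝ} (hC : 0 ≤ C) (hδ₀ : 0 < δ₀)
    (hr₀ : 0 < r₀) (hanti : ∀ t, ‖t - t₀‖ < δ₀ → ‖t - t₀‖ ≤ C * ‖F t‖)
    (hsurj : ∀ u, ‖u‖ < r₀ → ∃ t, ‖t - t₀‖ ≤ C * ‖u‖ ∧ F t = u)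
    {W : Set (κ → ℝ)} {R : ℝ} (hR : 0 < R) (hW : ∀ u ∈ W, ‖u‖ ≤ R) {g : (κ → ℝ) → ℝ}
    (hg : ContinuousAt g t₀) (hg0 : ∀ t, 0 ≤ g t) {A : ℝ → Set (κ → ℝ)}
    (hAm : ∀ s, 0 < s → MeasurableSet (A s))
    (hA : ∀ s, 0 < s → ∀ t, t ∈ A s ↔ ‖t - t₀‖ < δ₀ ∧ F t ∈ s • W) :
    Tendsto (fun s : ℝ => (∫⁻ t in A s, ENNReal.ofReal (g t)) /
      ENNReal.ofReal (s ^ Fintype.card κ)) (𝓝[>] 0)
      (𝓝 (ENNReal.ofReal (g t₀ / |L.det|) * volume W)) := by
  have hWf : volume W ≠ ⊤ := by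
    refine ne_top_of_le_ne_top (measure_closedBall_lt_top (x := (0 : κ → ℝ)) (r := R)).ne
      (measure_mono fun u hu => ?_)
    rw [mem_closedBall_zero_iff]
    exact hW u hu
  have hD : 0 < |L.det| := abs_pos.2 hL
  have hAf : ∀ s, 0 < s → volume (A s) ≠ ⊤ := by
    intro s hs
    refine ne_top_of_le_ne_top (measure_ball_lt_top (x := t₀) (r := δ₀)).ne
      (measure_mono fun t ht => ?_)
    rw [mem_ball_iff_norm]
    exact ((hA s hs t).1 ht).1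
  -- the basic estimate
  have key : ∀ ε : ℝ, 0 < ε → ε < |L.det| → ∀ᶠ s in 𝓝[>] (0 : ℝ), 0 < s ∧
      (∀ t ∈ A s, |g t - g t₀| ≤ ε) ∧
      s ^ Fintype.card κ * (volume W).toReal ≤ (|L.det| + ε) * (volume (A s)).toReal ∧
      (|L.det| - ε) * (volume (A s)).toReal ≤ s ^ Fintype.card κ * (volume W).toReal := by
    intro ε hε hεD
    obtain ⟨m₁, hm₁⟩ : ∃ m₁ : ℝ≥0, m₁ = Real.toNNReal (|L.det| + ε) := ⟨_, rfl⟩
    obtain ⟨m₂, hm₂⟩ : ∃ m₂ : ℝ≥0, m₂ = Real.toNNReal (|L.det| - ε) := ⟨_, rfl⟩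
    have h1 := addHaar_image_le_mul_of_det_lt (μ := volume) L (m := m₁) (by
      rw [hm₁]
      exact (ENNReal.ofReal_lt_ofReal_iff (by linarith)).2 (by linarith))
    have h2 := mul_le_addHaar_image_of_lt_det (μ := volume) L (m := m₂) (by
      rw [hm₂]
      exact (ENNReal.ofReal_lt_ofReal_iff (by linarith)).2 (by linarith))
    obtain ⟨δ, ⟨h3, h4⟩, hδ⟩ := ((h1.and h2).and self_mem_nhdsWithin).exists
    have hδ0 : (0 : ℝ≥0) < δ := hδ
    obtain ⟨U, hU, hUa⟩ := hF.approximates_deriv_on_nhds (Or.inr hδ0)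
    have hgε : ∀ᶠ t in 𝓝 t₀, |g t - g t₀| < ε := by
      have := hg (Metric.ball_mem_nhds (g t₀) hε)
      filter_upwards [this] with t ht
      have h5 : g t ∈ Metric.ball (g t₀) ε := ht
      rwa [mem_ball_iff_norm, Real.norm_eq_abs] at h5
    obtain ⟨δ₁, hδ₁, hδU⟩ := Metric.mem_nhds_iff.1 (inter_mem hU hgε)
    have hCR : 0 < C * R + 1 := by positivity
    have hs1 : ∀ᶠ s in 𝓝[>] (0 : ℝ), 0 < s ∧ s < min (min δ₀ δ₁ / (C * R + 1)) (r₀ / (R + 1)) :=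
      Ioo_mem_nhdsGT (by positivity)
    filter_upwards [hs1] with s hs
    obtain ⟨hs0, hs2⟩ := hs
    have hs3 : s * (C * R + 1) < min δ₀ δ₁ :=
      (lt_div_iff₀ hCR).1 (hs2.trans_le (min_le_left _ _))
    have hs4 : s * (R + 1) < r₀ := (lt_div_iff₀ (by positivity)).1 (hs2.trans_le (min_le_right _ _))
    have hCs : C * (s * R) < min δ₀ δ₁ := by
      refine lt_of_le_of_lt ?_ hs3
      nlinarith
    have hsR : ∀ u ∈ s • W, ‖u‖ ≤ s * R := by
      rintro _ ⟨w, hw, rfl⟩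
      show ‖s • w‖ ≤ s * R
      rw [norm_smul, Real.norm_eq_abs, abs_of_pos hs0]
      exact mul_le_mul_of_nonneg_left (hW w hw) hs0.le
    have hAδ : ∀ t ∈ A s, ‖t - t₀‖ < δ₁ := by
      intro t ht
      obtain ⟨h5, h6⟩ := (hA s hs0 t).1 ht
      calc ‖t - t₀‖ ≤ C * ‖F t‖ := hanti t h5
        _ ≤ C * (s * R) := mul_le_mul_of_nonneg_left (hsR _ h6) hC
        _ < δ₁ := hCs.trans_le (min_le_right _ _)
    have hAU : A s ⊆ U := fun t ht =>
      (hδU (show t ∈ Metric.ball t₀ δ₁ by rw [mem_ball_iff_norm]; exact hAδ t ht)).1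
    have hFA : F '' A s = s • W := by
      ext u
      constructor
      · rintro ⟨t, ht, rfl⟩
        exact ((hA s hs0 t).1 ht).2
      · intro hu
        have h5 := hsR u hu
        obtain ⟨t, ht, htu⟩ := hsurj u (lt_of_le_of_lt h5 (by nlinarith))
        refine ⟨t, (hA s hs0 t).2 ⟨?_, by rw [htu]; exact hu⟩, htu⟩
        calc ‖t - t₀‖ ≤ C * ‖u‖ := ht
          _ ≤ C * (s * R) := mul_le_mul_of_nonneg_left h5 hC
          _ < δ₀ := hCs.trans_le (min_le_left _ _)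
    have hvol : volume (s • W) = ENNReal.ofReal (s ^ Fintype.card κ) * volume W := by
      rw [Measure.addHaar_smul, Module.finrank_fintype_fun_eq_card, abs_of_pos (by positivity)]
    have h5 := h3 (A s) F (hUa.mono_set hAU)
    have h6 := h4 (A s) F (hUa.mono_set hAU)
    rw [hFA, hvol] at h5 h6
    refine ⟨hs0, fun t ht => ?_, ?_, ?_⟩
    · exact le_of_lt (hδU (show t ∈ Metric.ball t₀ δ₁ by
        rw [mem_ball_iff_norm]; exact hAδ t ht)).2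
    · have h7 := ENNReal.toReal_mono (ENNReal.mul_ne_top ENNReal.coe_ne_top (hAf s hs0)) h5
      rw [ENNReal.toReal_mul, ENNReal.toReal_mul, ENNReal.toReal_ofReal (by positivity),
        ENNReal.coe_toReal, hm₁, Real.coe_toNNReal _ (by positivity)] at h7
      exact h7
    · have h7 := ENNReal.toReal_mono (ENNReal.mul_ne_top ENNReal.ofReal_ne_top hWf) h6
      rw [ENNReal.toReal_mul, ENNReal.toReal_mul, ENNReal.toReal_ofReal (by positivity),
        ENNReal.coe_toReal, hm₂, Real.coe_toNNReal _ (by linarith)] at h7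
      exact h7
  -- the integrals
  obtain ⟨I, hI⟩ : ∃ I : ℝ → ℝ≥0∞, I = fun s => ∫⁻ t in A s, ENNReal.ofReal (g t) := ⟨_, rfl⟩
  obtain ⟨v, hv⟩ : ∃ v : ℝ, v = (volume W).toReal := ⟨_, rfl⟩
  have key2 : ∀ ε : ℝ, 0 < ε → ε < |L.det| → ∀ᶠ s in 𝓝[>] (0 : ℝ), 0 < s ∧ I s ≠ ⊤ ∧
      v * (g t₀ - ε) ≤ (|L.det| + ε) * ((I s).toReal / s ^ Fintype.card κ) ∧
      (|L.det| - ε) * ((I s).toReal / s ^ Fintype.card κ) ≤ (g t₀ + ε) * v := by
    intro ε hε hεD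
    filter_upwards [key ε hε hεD] with s hs
    obtain ⟨hs0, h1, h2, h3⟩ := hs
    rw [← hv] at h2 h3
    obtain ⟨a, ha⟩ : ∃ a : ℝ, a = (volume (A s)).toReal := ⟨_, rfl⟩
    rw [← ha] at h2 h3
    have ha0 : 0 ≤ a := by rw [ha]; exact ENNReal.toReal_nonneg
    have hv0 : 0 ≤ v := by rw [hv]; exact ENNReal.toReal_nonneg
    have hgp : 0 ≤ g t₀ + ε := by
      have := hg0 t₀
      linarith
    have hup : I s ≤ ENNReal.ofReal ((g t₀ + ε) * a) := by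
      rw [hI, ENNReal.ofReal_mul hgp, ha, ENNReal.ofReal_toReal (hAf s hs0), ← setLIntegral_const]
      refine setLIntegral_mono' (hAm s hs0) fun t ht => ENNReal.ofReal_le_ofReal ?_
      have := abs_le.1 (h1 t ht)
      linarith
    have hIf : I s ≠ ⊤ := ne_top_of_le_ne_top ENNReal.ofReal_ne_top hup
    have hup' : (I s).toReal ≤ (g t₀ + ε) * a := by
      have := ENNReal.toReal_mono ENNReal.ofReal_ne_top hup
      rwa [ENNReal.toReal_ofReal (by positivity)] at this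
    have hlo : (g t₀ - ε) * a ≤ (I s).toReal := by
      rcases le_or_gt (g t₀ - ε) 0 with h4 | h4
      · exact (mul_nonpos_of_nonpos_of_nonneg h4 ha0).trans ENNReal.toReal_nonneg
      · have h5 : ENNReal.ofReal ((g t₀ - ε) * a) ≤ I s := by
          rw [hI, ENNReal.ofReal_mul h4.le, ha, ENNReal.ofReal_toReal (hAf s hs0),
            ← setLIntegral_const]
          refine setLIntegral_mono' (hAm s hs0) fun t ht => ENNReal.ofReal_le_ofReal ?_
          have := abs_le.1 (h1 t ht)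
          linarith
        have := ENNReal.toReal_mono hIf h5
        rwa [ENNReal.toReal_ofReal (by positivity)] at this
    have hsd : 0 < s ^ Fintype.card κ := by positivity
    refine ⟨hs0, hIf, ?_, ?_⟩
    · rw [← mul_div_assoc, le_div_iff₀ hsd]
      have hI0 : 0 ≤ (I s).toReal := ENNReal.toReal_nonneg
      rcases le_or_gt (g t₀ - ε) 0 with h4 | h4
      · have e1 : v * (g t₀ - ε) * s ^ Fintype.card κ ≤ 0 :=
          mul_nonpos_of_nonpos_of_nonneg (mul_nonpos_of_nonneg_of_nonpos hv0 h4) hsd.le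
        exact e1.trans (by positivity)
      · calc v * (g t₀ - ε) * s ^ Fintype.card κ
            = (g t₀ - ε) * (s ^ Fintype.card κ * v) := by ring
          _ ≤ (g t₀ - ε) * ((|L.det| + ε) * a) := mul_le_mul_of_nonneg_left h2 h4.le
          _ = (|L.det| + ε) * ((g t₀ - ε) * a) := by ring
          _ ≤ (|L.det| + ε) * (I s).toReal := mul_le_mul_of_nonneg_left hlo (by positivity)
    · rw [← mul_div_assoc, div_le_iff₀ hsd]
      calc (|L.det| - ε) * (I s).toReal ≤ (|L.det| - ε) * ((g t₀ + ε) * a) :=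
            mul_le_mul_of_nonneg_left hup' (by linarith)
        _ = (g t₀ + ε) * ((|L.det| - ε) * a) := by ring
        _ ≤ (g t₀ + ε) * (s ^ Fintype.card κ * v) := mul_le_mul_of_nonneg_left h3 hgp
        _ = (g t₀ + ε) * v * s ^ Fintype.card κ := by ring
  have hlim := sq (J := fun s => (I s).toReal / s ^ Fintype.card κ) hD
    (fun ε hε hεD => (key2 ε hε hεD).mono fun s hs => hs.2.2.1)
    (fun ε hε hεD => (key2 ε hε hεD).mono fun s hs => hs.2.2.2)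
  have hlim2 := (ENNReal.continuous_ofReal.tendsto _).comp hlim
  have e1 : ENNReal.ofReal (g t₀ / |L.det|) * volume W =
      ENNReal.ofReal (g t₀ * v / |L.det|) := by
    rw [hv, mul_div_right_comm, ENNReal.ofReal_mul (div_nonneg (hg0 _) hD.le),
      ENNReal.ofReal_toReal hWf]
  rw [e1]
  refine hlim2.congr' ?_
  filter_upwards [key2 (|L.det| / 2) (by positivity) (by linarith)] with s hs
  obtain ⟨hs0, hIf, -, -⟩ := hs
  show ENNReal.ofReal ((I s).toReal / s ^ Fintype.card κ) = _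
  rw [ENNReal.ofReal_div_of_pos (by positivity), ENNReal.ofReal_toReal hIf, hI]

end fx

end Pool.Agent.L5helper74.QR
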