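import Pool.Agent.L5helper74.LR.Wey5

/-!
# Quadratic repulsion: perturbation of a cluster of eigenvalues of a symmetric matrix
-/

set_option autoImplicit false
set_option linter.unusedSectionVars false

open Set Filter Topology
open Pool.Agent.L5helper74.LR

noncomputable section

namespace Pool.Agent.L5helper74.QR

variable {m : ℕ}

/-- the matrix `u` in the basis `V` -/
def Cv (V : Fin (m + 1) → Fin (m + 1) → ℝ) (u : Ix m → ℝ) (p q : Fin (m + 1)) : ℝ :=
  ∑ i, ∑ j, V p i * (mt u i j * V q j)

lemma tcl {V : Fin (m + 1) → Fin (m + 1) → ℝ} (hV : Ort V) (L : Fin (m + 1) → ℝ)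
    (p j : Fin (m + 1)) : ∑ i, V p i * Tc L V i j = L p * V p j := by
  have hr := V_row hV
  unfold Tc
  calc ∑ i, V p i * ∑ k, L k * (V k i * V k j)
      = ∑ k, (∑ i, V p i * V k i) * (L k * V k j) := by
        simp only [Finset.mul_sum, Finset.sum_mul]
        rw [Finset.sum_comm]
        exact Finset.sum_congr rfl fun k _ => Finset.sum_congr rfl fun i _ => by ring
    _ = L p * V p j := by simp [hr]

lemma Tc_symm (L : Fin (m + 1) → ℝ) (V : Fin (m + 1) → Fin (m + 1) → ℝ) (i j : Fin (m + 1)) :
    Tc L V i j = Tc L V j i := by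
  unfold Tc
  exact Finset.sum_congr rfl fun k _ => by ring

lemma Ix_abs (V W : Fin (m + 1) → Fin (m + 1) → ℝ) (hV : Ort V) (hW : Ort W) (u : Ix m → ℝ)
    (p q : Fin (m + 1)) : |∑ i, ∑ j, W p i * (mt u i j * V q j)| ≤
      ((m + 1 : ℕ) : ℝ) * (((m + 1 : ℕ) : ℝ) * ‖u‖) := by
  refine (Finset.abs_sum_le_sum_abs _ _).trans ?_
  have h1 : ∀ i ∈ (Finset.univ : Finset (Fin (m + 1))),
      |∑ j, W p i * (mt u i j * V q j)| ≤ ((m + 1 : ℕ) : ℝ) * ‖u‖ := by
    intro i _
    refine (Finset.abs_sum_le_sum_abs _ _).trans ?_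
    have h2 : ∀ j ∈ (Finset.univ : Finset (Fin (m + 1))),
        |W p i * (mt u i j * V q j)| ≤ ‖u‖ := by
      intro j _
      rw [abs_mul, abs_mul]
      calc |W p i| * (|mt u i j| * |V q j|) ≤ 1 * (‖u‖ * 1) :=
            mul_le_mul (Ort_le hW p i) (mul_le_mul (mt_abs u i j) (Ort_le hV q j)
              (abs_nonneg _) (norm_nonneg _)) (by positivity) zero_le_one
        _ = ‖u‖ := by ring
    refine (Finset.sum_le_sum h2).trans ?_
    simp
  refine (Finset.sum_le_sum h1).trans ?_
  simp

/-- the two eigenbases -/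
lemma st1 {V V' : Fin (m + 1) → Fin (m + 1) → ℝ} (hV : Ort V) (hV' : Ort V')
    (L L' : Fin (m + 1) → ℝ) : ∃ (γ : ℝ) (W : Fin (m + 1) → Fin (m + 1) → ℝ), Ort W ∧
      (∀ p q, |(L' p - γ - L q) * W p q| ≤
        ((m + 1 : ℕ) : ℝ) * (((m + 1 : ℕ) : ℝ) * ‖cI (Tc L' V') - cI (Tc L V)‖)) ∧
      ∀ q q', Cv V (cI (Tc L' V') - cI (Tc L V)) q q' =
        ∑ p, (L' p - γ) * (W p q * W p q') - if q = q' then L q else 0 := by
  obtain ⟨u, hu⟩ : ∃ u, u = cI (Tc L' V') - cI (Tc L V) := ⟨_, rfl⟩
  obtain ⟨γ, hγ⟩ : ∃ γ : ℝ, γ = Tc L' V' 0 0 - Tc L V 0 0 := ⟨_, rfl⟩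
  obtain ⟨W, hW⟩ : ∃ W : Fin (m + 1) → Fin (m + 1) → ℝ, W = fun p q => ∑ i, V' p i * V q i :=
    ⟨_, rfl⟩
  have hWo : Ort W := by
    rw [hW]
    exact Ort_mul hV' (fun i k => V_row hV i k : Ort fun i j => V j i)
  have hmt : ∀ i j, mt u i j = Tc L' V' i j - Tc L V i j - if i = j then γ else 0 := by
    intro i j
    have h1 : u = cI (Tc L' V') + (-1 : ℝ) • cI (Tc L V) := by
      rw [hu]
      simp [sub_eq_add_neg]
    rw [h1, mt_add, mt_smul, mt_cI (Tc_symm L' V') i j, mt_cI (Tc_symm L V) i j, hγ]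
    split_ifs <;> ring
  refine ⟨γ, W, hWo, fun p q => ?_, fun q q' => ?_⟩
  · have h1 : ∑ i, ∑ j, V' p i * (mt u i j * V q j) = (L' p - γ - L q) * W p q := by
      have h2 : ∑ i, ∑ j, V' p i * (Tc L' V' i j * V q j) = L' p * W p q := by
        rw [Finset.sum_comm]
        calc ∑ j, ∑ i, V' p i * (Tc L' V' i j * V q j)
            = ∑ j, (∑ i, V' p i * Tc L' V' i j) * V q j := by
              refine Finset.sum_congr rfl fun j _ => ?_
              rw [Finset.sum_mul]
              exact Finset.sum_congr rfl fun i _ => by ring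
          _ = L' p * W p q := by
              simp only [tcl hV', hW, Finset.mul_sum]
              exact Finset.sum_congr rfl fun j _ => by ring
      have h3 : ∑ i, ∑ j, V' p i * (Tc L V i j * V q j) = L q * W p q := by
        calc ∑ i, ∑ j, V' p i * (Tc L V i j * V q j)
            = ∑ i, V' p i * ∑ j, V q j * Tc L V j i := by
              refine Finset.sum_congr rfl fun i _ => ?_
              rw [Finset.mul_sum]
              refine Finset.sum_congr rfl fun j _ => ?_
              rw [Tc_symm L V i j]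
              ring
          _ = L q * W p q := by
              simp only [tcl hV, hW, Finset.mul_sum]
              exact Finset.sum_congr rfl fun j _ => by ring
      have h4 : ∀ i j, V' p i * (mt u i j * V q j) = V' p i * (Tc L' V' i j * V q j) -
          V' p i * (Tc L V i j * V q j) - if i = j then γ * (V' p i * V q i) else 0 := by
        intro i j
        rw [hmt]
        by_cases hij : i = j
        · subst hij
          rw [if_pos rfl, if_pos rfl]
          ring
        · rw [if_neg hij, if_neg hij]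
          ring
      simp only [h4, Finset.sum_sub_distrib, Finset.sum_ite_eq, Finset.mem_univ, if_true]
      rw [h2, h3, ← Finset.mul_sum, hW]
      simp only
      ring
    rw [← h1, ← hu]
    exact Ix_abs V V' hV hV' u p q
  · rw [← hu]
    have h2 : ∑ i, ∑ j, V q i * (Tc L' V' i j * V q' j) = ∑ p, L' p * (W p q * W p q') := by
      unfold Tc
      calc ∑ i, ∑ j, V q i * ((∑ k, L' k * (V' k i * V' k j)) * V q' j)
          = ∑ i, ∑ j, ∑ k, L' k * ((V' k i * V q i) * (V' k j * V q' j)) := by
            refine Finset.sum_congr rfl fun i _ => Finset.sum_congr rfl fun j _ => ?_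
            rw [Finset.sum_mul, Finset.mul_sum]
            exact Finset.sum_congr rfl fun k _ => by ring
        _ = ∑ k, ∑ i, ∑ j, L' k * ((V' k i * V q i) * (V' k j * V q' j)) := by
            rw [Finset.sum_comm]
            rw [Finset.sum_comm (f := fun k i => ∑ j, L' k * ((V' k i * V q i) *
              (V' k j * V q' j)))]
            rw [Finset.sum_comm]
            refine Finset.sum_congr rfl fun i _ => ?_
            rw [Finset.sum_comm]
        _ = ∑ p, L' p * (W p q * W p q') := by
            refine Finset.sum_congr rfl fun k _ => ?_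
            rw [hW]
            simp only
            rw [Finset.sum_mul_sum, Finset.mul_sum]
            exact Finset.sum_congr rfl fun i _ => by rw [Finset.mul_sum]
    have h3 : ∑ i, ∑ j, V q i * (Tc L V i j * V q' j) = if q = q' then L q else 0 := by
      calc ∑ i, ∑ j, V q i * (Tc L V i j * V q' j)
          = ∑ i, V q i * ∑ j, V q' j * Tc L V j i := by
            refine Finset.sum_congr rfl fun i _ => ?_
            rw [Finset.mul_sum]
            refine Finset.sum_congr rfl fun j _ => ?_
            rw [Tc_symm L V i j]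
            ring
        _ = L q' * ∑ i, V q i * V q' i := by
            simp only [tcl hV, Finset.mul_sum]
            exact Finset.sum_congr rfl fun j _ => by ring
        _ = _ := by
            rw [V_row hV]
            by_cases h : q = q'
            · rw [if_pos h, if_pos h, h, mul_one]
            · rw [if_neg h, if_neg h, mul_zero]
    have h5 : ∑ i, ∑ j, (if i = j then γ * (V q i * V q' i) else 0) =
        ∑ p, γ * (W p q * W p q') := by
      simp only [Finset.sum_ite_eq, Finset.mem_univ, if_true]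
      rw [← Finset.mul_sum, ← Finset.mul_sum, V_row hV, hWo]
    have h4 : ∀ i j, V q i * (mt u i j * V q' j) = V q i * (Tc L' V' i j * V q' j) -
        V q i * (Tc L V i j * V q' j) - if i = j then γ * (V q i * V q' i) else 0 := by
      intro i j
      rw [hmt]
      by_cases hij : i = j
      · subst hij
        rw [if_pos rfl, if_pos rfl]
        ring
      · rw [if_neg hij, if_neg hij]
        ring
    unfold Cv
    simp only [h4, Finset.sum_sub_distrib]
    rw [h2, h3, h5]
    simp only [sub_mul, Finset.sum_sub_distrib]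
    ring

/-- Weyl's inequality -/
lemma wey {W : Fin (m + 1) → Fin (m + 1) → ℝ} (hW : Ort W) {L L' : Fin (m + 1) → ℝ}
    (hL : Monotone L) (hL' : Monotone L') {ξ : ℝ}
    (h : ∀ p q, |(L' p - L q) * W p q| ≤ ξ) (k : Fin (m + 1)) :
    L' k - L k ≤ ((m + 1 : ℕ) : ℝ) * ξ := by
  by_contra hcon
  push Not at hcon
  obtain ⟨n, hn⟩ : ∃ n : ℝ, n = ((m + 1 : ℕ) : ℝ) := ⟨_, rfl⟩
  have hn1 : 1 ≤ n := by
    rw [hn]
    exact_mod_cast Nat.succ_le_succ (Nat.zero_le m)
  rw [← hn] at hcon
  have hξ : 0 ≤ ξ := (abs_nonneg _).trans (h 0 0)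
  obtain ⟨η, hη⟩ : ∃ η : ℝ, η = L' k - L k := ⟨_, rfl⟩
  rw [← hη] at hcon
  have hη0 : 0 < η := by nlinarith
  have h0 : ∀ p q, k ≤ p → q ≤ k → |W p q| * η ≤ ξ := by
    intro p q hp hq
    have h1 : η ≤ L' p - L q := by
      have := hL' hp
      have := hL hq
      rw [hη]
      linarith
    have h2 := h p q
    rw [abs_mul, abs_of_pos (hη0.trans_le h1)] at h2
    have h3 := mul_le_mul_of_nonneg_right h1 (abs_nonneg (W p q))
    linarith
  have h0' : ∀ p q, k ≤ p → q ≤ k → W p q * W p q ≤ (ξ / η) ^ 2 := by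
    intro p q hp hq
    have h1 := h0 p q hp hq
    have h2 : |W p q| ≤ ξ / η := by rwa [le_div_iff₀ hη0]
    have h3 := mul_self_le_mul_self (abs_nonneg _) h2
    rw [abs_mul_abs_self] at h3
    rw [sq]
    exact h3
  obtain ⟨A, hA⟩ : ∃ A, A = Finset.univ.filter (fun q : Fin (m + 1) => q ≤ k) := ⟨_, rfl⟩
  obtain ⟨B, hB⟩ : ∃ B, B = Finset.univ.filter (fun p : Fin (m + 1) => p < k) := ⟨_, rfl⟩
  have h1 : ∑ q ∈ A, ∑ p, W p q * W p q = A.card := by
    rw [Finset.sum_congr rfl fun q _ => show ∑ p, W p q * W p q = (1 : ℝ) by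
      rw [hW q q, if_pos rfl]]
    simp
  have hcard : (A.card : ℝ) = B.card + 1 := by
    have h3 : A = insert k B := by
      rw [hA, hB]
      ext p
      simp only [Finset.mem_filter, Finset.mem_univ, true_and, Finset.mem_insert]
      exact le_iff_eq_or_lt
    rw [h3, Finset.card_insert_of_notMem (by rw [hB]; simp)]
    push_cast
    ring
  have h2 : ∑ q ∈ A, ∑ p, W p q * W p q ≤ B.card + n * (n * (ξ / η) ^ 2) := by
    calc ∑ q ∈ A, ∑ p, W p q * W p q
        = ∑ q ∈ A, (∑ p ∈ B, W p q * W p q + ∑ p ∈ Bᶜ, W p q * W p q) := by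
          refine Finset.sum_congr rfl fun q _ => ?_
          rw [Finset.sum_add_sum_compl]
      _ = ∑ q ∈ A, ∑ p ∈ B, W p q * W p q + ∑ q ∈ A, ∑ p ∈ Bᶜ, W p q * W p q :=
          Finset.sum_add_distrib
      _ ≤ B.card + n * (n * (ξ / η) ^ 2) := by
          refine add_le_add ?_ ?_
          · rw [Finset.sum_comm]
            calc ∑ p ∈ B, ∑ q ∈ A, W p q * W p q ≤ ∑ p ∈ B, (1 : ℝ) := by
                  refine Finset.sum_le_sum fun p _ => ?_
                  have h3 := V_row hW p p
                  rw [if_pos rfl] at h3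
                  rw [← h3]
                  exact Finset.sum_le_sum_of_subset_of_nonneg (Finset.subset_univ _)
                    fun q _ _ => mul_self_nonneg _
              _ = B.card := by simp
          · calc ∑ q ∈ A, ∑ p ∈ Bᶜ, W p q * W p q
                ≤ ∑ q ∈ A, ∑ p ∈ Bᶜ, (ξ / η) ^ 2 := by
                  refine Finset.sum_le_sum fun q hq => Finset.sum_le_sum fun p hp => ?_
                  refine h0' p q ?_ ?_
                  · rw [hB] at hp
                    simpa using hp
                  · rw [hA] at hq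
                    simpa using hq
              _ = A.card * (Bᶜ.card * (ξ / η) ^ 2) := by simp
              _ ≤ n * (n * (ξ / η) ^ 2) := by
                  have h3 : (A.card : ℝ) ≤ n := by
                    rw [hn]
                    exact_mod_cast (Finset.card_le_univ A).trans (by simp)
                  have h4 : (Bᶜ.card : ℝ) ≤ n := by
                    rw [hn]
                    exact_mod_cast (Finset.card_le_univ Bᶜ).trans (by simp)
                  have h5 : 0 ≤ (ξ / η) ^ 2 := sq_nonneg _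
                  exact mul_le_mul h3 (mul_le_mul_of_nonneg_right h4 h5) (by positivity)
                    (by linarith)
  rw [h1, hcard] at h2
  have h3 : n * (ξ / η) < 1 := by
    rw [← mul_div_assoc, div_lt_one hη0]
    exact hcon
  have h4 : 0 ≤ n * (ξ / η) := by positivity
  have h5 : n * (n * (ξ / η) ^ 2) = (n * (ξ / η)) ^ 2 := by ring
  nlinarith

/-- the eigenvalues up to a shift -/
lemma shift {V V' : Fin (m + 1) → Fin (m + 1) → ℝ} (hV : Ort V) (hV' : Ort V')
    {L L' : Fin (m + 1) → ℝ} (hL : Monotone L) (hL' : Monotone L') {n ξ : ℝ}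
    (hn : n = ((m + 1 : ℕ) : ℝ)) (hξ : ξ = n * (n * ‖cI (Tc L' V') - cI (Tc L V)‖)) :
    ∃ (γ : ℝ) (W : Fin (m + 1) → Fin (m + 1) → ℝ), Ort W ∧
      (∀ p q, |(L' p - γ - L q) * W p q| ≤ ξ) ∧
      (∀ q q', Cv V (cI (Tc L' V') - cI (Tc L V)) q q' =
        ∑ p, (L' p - γ) * (W p q * W p q') - if q = q' then L q else 0) ∧
      ∀ k, |L' k - γ - L k| ≤ n * ξ := by
  obtain ⟨γ, W, hW, h1, h2⟩ := st1 hV hV' L L'
  rw [← hn, ← hξ] at h1
  refine ⟨γ, W, hW, h1, h2, fun k => abs_le.2 ⟨?_, ?_⟩⟩
  · have h3 := wey (W := fun p q => W q p) (fun i k => V_row hW i k)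
      (L := fun p => L' p - γ) (L' := L) (fun p q h => sub_le_sub_right (hL' h) _) hL
      (ξ := ξ) (fun p q => by
        have h4 := h1 q p
        rw [abs_mul] at h4 ⊢
        rwa [abs_sub_comm]) k
    rw [← hn] at h3
    linarith
  · have h3 := wey hW (L := L) (L' := fun p => L' p - γ) hL
      (fun p q h => sub_le_sub_right (hL' h) _) h1 k
    rw [← hn] at h3
    exact h3

lemma spr {V V' : Fin (m + 1) → Fin (m + 1) → ℝ} (hV : Ort V) (hV' : Ort V')
    {L L' : Fin (m + 1) → ℝ} (hL : Monotone L) (hL' : Monotone L') {n : ℝ}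
    (hn : n = ((m + 1 : ℕ) : ℝ)) (a b : Fin (m + 1)) :
    |(L' b - L' a) - (L b - L a)| ≤ 2 * n ^ 3 * ‖cI (Tc L' V') - cI (Tc L V)‖ := by
  obtain ⟨γ, W, hW, h1, h2, h3⟩ := shift hV hV' hL hL' hn rfl
  have h4 : (L' b - L' a) - (L b - L a) = (L' b - γ - L b) - (L' a - γ - L a) := by ring
  rw [h4]
  refine (abs_sub _ _).trans ?_
  have h5 := h3 a
  have h6 := h3 b
  nlinarith

/-- a cluster of eigenvalues -/
theorem star {V V' : Fin (m + 1) → Fin (m + 1) → ℝ} (hV : Ort V) (hV' : Ort V')
    {L L' : Fin (m + 1) → ℝ} (hL : Monotone L) (hL' : Monotone L') {n ξ : ℝ}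
    (hn : n = ((m + 1 : ℕ) : ℝ)) (hξ : ξ = n * (n * ‖cI (Tc L' V') - cI (Tc L V)‖))
    {a b : Fin (m + 1)} {s δ : ℝ} (hδ : 0 < δ) (hs : L b - L a ≤ s)
    (hs' : L' b - L' a ≤ s) (h1 : ∀ q, q < a → δ ≤ L a - L q) (h2 : ∀ q, b < q → δ ≤ L q - L b)
    (hsm : n * ξ + s ≤ δ / 2) {q q' : Fin (m + 1)} (hqa : a ≤ q) (hqb : q ≤ b) (hqa' : a ≤ q')
    (hqb' : q' ≤ b) :
    (q ≠ q' → |Cv V (cI (Tc L' V') - cI (Tc L V)) q q'| ≤ 3 * n * s + 8 * n * ξ ^ 2 / δ) ∧
    |Cv V (cI (Tc L' V') - cI (Tc L V)) q q - Cv V (cI (Tc L' V') - cI (Tc L V)) q' q'| ≤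
      3 * n * s + 8 * n * ξ ^ 2 / δ := by
  obtain ⟨γ, W, hW, h3, h4, h5⟩ := shift hV hV' hL hL' hn hξ
  have hn1 : 1 ≤ n := by
    rw [hn]
    exact_mod_cast Nat.succ_le_succ (Nat.zero_le m)
  have hξ0 : 0 ≤ ξ := (abs_nonneg _).trans (h3 0 0)
  have hs0 : 0 ≤ s := by
    have := hL (hqa.trans hqb)
    linarith
  obtain ⟨R, hR⟩ : ∃ R : Fin (m + 1) → Fin (m + 1) → ℝ, R = fun q q' =>
      ∑ p, (L' p - L' a) * (W p q * W p q') := ⟨_, rfl⟩
  have hRb : ∀ q q', a ≤ q → q ≤ b → a ≤ q' → q' ≤ b → |R q q'| ≤ n * (s + 4 * ξ ^ 2 / δ) := by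
    intro q q' hqa hqb hqa' hqb'
    rw [hR]
    refine (Finset.abs_sum_le_sum_abs _ _).trans ?_
    have h6 : ∀ p ∈ (Finset.univ : Finset (Fin (m + 1))),
        |(L' p - L' a) * (W p q * W p q')| ≤ s + 4 * ξ ^ 2 / δ := by
      intro p _
      have h7 : 0 ≤ 4 * ξ ^ 2 / δ := by positivity
      by_cases hp : a ≤ p ∧ p ≤ b
      · have h8 : |L' p - L' a| ≤ s := by
          have := hL' hp.1
          have := hL' hp.2
          rw [abs_of_nonneg (by linarith)]
          linarith
        rw [abs_mul, abs_mul]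
        calc |L' p - L' a| * (|W p q| * |W p q'|) ≤ s * (1 * 1) :=
              mul_le_mul h8 (mul_le_mul (Ort_le hW p q) (Ort_le hW p q') (abs_nonneg _)
                zero_le_one) (by positivity) hs0
          _ ≤ s + 4 * ξ ^ 2 / δ := by linarith
      · have hfar : ∀ q, a ≤ q → q ≤ b → δ ≤ |L p - L q| := by
          intro q hqa hqb
          rcases lt_or_ge p a with h8 | h8
          · have h9 := h1 p h8
            have h10 := hL hqa
            rw [abs_sub_comm, abs_of_nonneg (by linarith)]
            linarith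
          · have h9 : b < p := not_le.1 fun h9 => hp ⟨h8, h9⟩
            have h10 := h2 p h9
            have h11 := hL hqb
            rw [abs_of_nonneg (by linarith)]
            linarith
        have hD : ∀ q, a ≤ q → q ≤ b → δ / 2 ≤ |L' p - γ - L q| := by
          intro q hqa hqb
          have h8 := hfar q hqa hqb
          have h9 := h5 p
          have h10 : |L p - L q| ≤ |L' p - γ - L q| + |L' p - γ - L p| := by
            have h11 : L p - L q = (L' p - γ - L q) - (L' p - γ - L p) := by ring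
            rw [h11]
            exact abs_sub _ _
          linarith
        have h8 := hD q hqa hqb
        have h9 := hD q' hqa' hqb'
        have h10 : |W p q| * |L' p - γ - L q| ≤ ξ := by
          have := h3 p q
          rw [abs_mul] at this
          linarith
        have h11 : |W p q'| * (δ / 2) ≤ ξ := by
          have := h3 p q'
          rw [abs_mul] at this
          calc |W p q'| * (δ / 2) ≤ |W p q'| * |L' p - γ - L q'| :=
                mul_le_mul_of_nonneg_left h9 (abs_nonneg _)
            _ ≤ ξ := by linarith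
        have h12 : |L' p - L' a| ≤ 2 * |L' p - γ - L q| := by
          have h13 : L' p - L' a = (L' p - γ - L q) + (L q - L a) - (L' a - γ - L a) := by ring
          have h14 : |L q - L a| ≤ s := by
            have := hL hqa
            have := hL hqb
            rw [abs_of_nonneg (by linarith)]
            linarith
          have h15 := h5 a
          rw [h13]
          have h16 := abs_sub ((L' p - γ - L q) + (L q - L a)) (L' a - γ - L a)
          have h17 := abs_add_le (L' p - γ - L q) (L q - L a)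
          linarith
        rw [abs_mul, abs_mul]
        have h18 : |W p q'| ≤ 2 * ξ / δ := by
          rw [le_div_iff₀ hδ]
          linarith
        calc |L' p - L' a| * (|W p q| * |W p q'|)
            ≤ 2 * |L' p - γ - L q| * (|W p q| * |W p q'|) :=
              mul_le_mul_of_nonneg_right h12 (by positivity)
          _ = 2 * (|W p q| * |L' p - γ - L q|) * |W p q'| := by ring
          _ ≤ 2 * ξ * (2 * ξ / δ) :=
              mul_le_mul (by linarith) h18 (abs_nonneg _) (by positivity)
          _ ≤ s + 4 * ξ ^ 2 / δ := by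
              have : 2 * ξ * (2 * ξ / δ) = 4 * ξ ^ 2 / δ := by ring
              rw [this]
              linarith
    refine (Finset.sum_le_sum h6).trans ?_
    rw [Finset.sum_const, Finset.card_univ, Fintype.card_fin, nsmul_eq_mul, ← hn]
  have hform : ∀ q q', Cv V (cI (Tc L' V') - cI (Tc L V)) q q' =
      R q q' + if q = q' then L' a - γ - L q else 0 := by
    intro q q'
    have h6 : ∑ p, (L' p - γ) * (W p q * W p q') = R q q' + (L' a - γ) * if q = q' then 1 else 0 := by
      rw [hR, ← hW q q', Finset.mul_sum]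
      simp only
      rw [← Finset.sum_add_distrib]
      exact Finset.sum_congr rfl fun p _ => by ring
    rw [h4, h6]
    split_ifs <;> ring
  have h8 : n * (s + 4 * ξ ^ 2 / δ) = n * s + (4 * n * ξ ^ 2) / δ := by ring
  have h9 : 8 * n * ξ ^ 2 / δ = 2 * ((4 * n * ξ ^ 2) / δ) := by ring
  have h10 : 0 ≤ (4 * n * ξ ^ 2) / δ := by positivity
  have h11 : s ≤ n * s := le_mul_of_one_le_left hs0 hn1
  refine ⟨fun hne => ?_, ?_⟩
  · rw [hform, if_neg hne, add_zero]
    have := hRb q q' hqa hqb hqa' hqb'
    linarith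
  · rw [hform, hform, if_pos rfl, if_pos rfl]
    have h12 := hRb q q hqa hqb hqa hqb
    have h13 := hRb q' q' hqa' hqb' hqa' hqb'
    have h14 : |L q' - L q| ≤ s := by
      have h15 := hL hqa
      have h16 := hL hqb
      have h17 := hL hqa'
      have h18 := hL hqb'
      rw [abs_le]
      constructor <;> linarith
    have h15 : R q q + (L' a - γ - L q) - (R q' q' + (L' a - γ - L q')) =
        (R q q - R q' q') + (L q' - L q) := by ring
    rw [h15]
    have h16 := abs_add_le (R q q - R q' q') (L q' - L q)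
    have h17 := abs_sub (R q q) (R q' q')
    linarith

end Pool.Agent.L5helper74.QR
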