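import Pool.Agent.L5helper74.QR.Rec

/-!
# Quadratic repulsion: the induction step
-/

set_option autoImplicit false
set_option linter.unusedSectionVars false

open Set Filter Topology MeasureTheory
open scoped ENNReal
open Pool.Agent.L5helper74.LR

noncomputable section

namespace Pool.Agent.L5helper74.QR

variable {m : ℕ} {ι : Type} [Fintype ι]

/-- the points where one of the two clusters with one more eigenvalue has a small spread -/
def Nb (L : (ι → ℝ) → Fin (m + 1) → ℝ) (d : (ι → ℝ) → ℝ) (a b : Fin (m + 1)) (ρ' η : ℝ) :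
    Set (ι → ℝ) :=
  {t | d t < ρ' ∧ ((∃ a' : Fin (m + 1), (a' : ℕ) + 1 = a ∧ L t b - L t a' ≤ η) ∨
    ∃ b' : Fin (m + 1), (b' : ℕ) = b + 1 ∧ L t b' - L t a ≤ η)}

lemma Nb_vol {Λ : (ι → ℝ) →L[ℝ] (Ix m → ℝ)} {ε K₀ ρ₀ : ℝ} {a b : Fin (m + 1)} {ρ' : ℝ}
    (hl : ∀ a' : Fin (m + 1), (a' : ℕ) + 1 = a → Bd Λ ε K₀ ρ₀ a' b 3 ρ')
    (hr : ∀ b' : Fin (m + 1), (b' : ℕ) = b + 1 → Bd Λ ε K₀ ρ₀ a b' 3 ρ') :
    ∃ C : ℝ, 0 ≤ C ∧ ∀ F V L d, Sl Λ ε K₀ ρ₀ F V L d → ∀ η : ℝ, 0 < η → η ≤ 1 →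
      volume (Nb L d a b ρ' η) ≤ ENNReal.ofReal (C * η ^ 3) := by
  obtain ⟨C₁, hC₁, h1⟩ : ∃ C : ℝ, 0 ≤ C ∧ ∀ F V L d, Sl Λ ε K₀ ρ₀ F V L d → ∀ η : ℝ, 0 < η →
      η ≤ 1 → volume {t | d t < ρ' ∧ ∃ a' : Fin (m + 1), (a' : ℕ) + 1 = a ∧ L t b - L t a' ≤ η} ≤
        ENNReal.ofReal (C * η ^ 3) := by
    by_cases ha : ∃ a' : Fin (m + 1), (a' : ℕ) + 1 = a
    · obtain ⟨a', ha'⟩ := ha
      obtain ⟨C, hC, h⟩ := hl a' ha'
      refine ⟨C, hC, fun F V L d hS η hη hη1 => (measure_mono ?_).trans (h F V L d hS η hη hη1)⟩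
      rintro t ⟨ht, a'', ha'', hta⟩
      have : a'' = a' := Fin.ext (by omega)
      rw [this] at hta
      exact ⟨ht, hta⟩
    · refine ⟨0, le_rfl, fun F V L d hS η hη hη1 => ?_⟩
      have : {t | d t < ρ' ∧ ∃ a' : Fin (m + 1), (a' : ℕ) + 1 = a ∧ L t b - L t a' ≤ η} = ∅ := by
        ext t
        simp only [mem_ofPred_eq, mem_empty_iff_false, iff_false]
        rintro ⟨-, a', ha', -⟩
        exact ha ⟨a', ha'⟩
      rw [this, measure_empty]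
      exact zero_le
  obtain ⟨C₂, hC₂, h2⟩ : ∃ C : ℝ, 0 ≤ C ∧ ∀ F V L d, Sl Λ ε K₀ ρ₀ F V L d → ∀ η : ℝ, 0 < η →
      η ≤ 1 → volume {t | d t < ρ' ∧ ∃ b' : Fin (m + 1), (b' : ℕ) = b + 1 ∧ L t b' - L t a ≤ η} ≤
        ENNReal.ofReal (C * η ^ 3) := by
    by_cases hb : ∃ b' : Fin (m + 1), (b' : ℕ) = b + 1
    · obtain ⟨b', hb'⟩ := hb
      obtain ⟨C, hC, h⟩ := hr b' hb'
      refine ⟨C, hC, fun F V L d hS η hη hη1 => (measure_mono ?_).trans (h F V L d hS η hη hη1)⟩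
      rintro t ⟨ht, b'', hb'', htb⟩
      have : b'' = b' := Fin.ext (by omega)
      rw [this] at htb
      exact ⟨ht, htb⟩
    · refine ⟨0, le_rfl, fun F V L d hS η hη hη1 => ?_⟩
      have : {t | d t < ρ' ∧ ∃ b' : Fin (m + 1), (b' : ℕ) = b + 1 ∧ L t b' - L t a ≤ η} = ∅ := by
        ext t
        simp only [mem_ofPred_eq, mem_empty_iff_false, iff_false]
        rintro ⟨-, b', hb', -⟩
        exact hb ⟨b', hb'⟩
      rw [this, measure_empty]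
      exact zero_le
  refine ⟨C₁ + C₂, add_nonneg hC₁ hC₂, fun F V L d hS η hη hη1 => ?_⟩
  have h3 : Nb L d a b ρ' η ⊆
      {t | d t < ρ' ∧ ∃ a' : Fin (m + 1), (a' : ℕ) + 1 = a ∧ L t b - L t a' ≤ η} ∪
      {t | d t < ρ' ∧ ∃ b' : Fin (m + 1), (b' : ℕ) = b + 1 ∧ L t b' - L t a ≤ η} := by
    rintro t ⟨ht, h | h⟩
    · exact Or.inl ⟨ht, h⟩
    · exact Or.inr ⟨ht, h⟩
  refine (measure_mono h3).trans ((measure_union_le _ _).trans ?_)
  rw [add_mul, ENNReal.ofReal_add (by positivity) (by positivity)]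
  exact add_le_add (h1 F V L d hS η hη hη1) (h2 F V L d hS η hη hη1)

set_option maxHeartbeats 1000000 in
theorem step {Λ : (ι → ℝ) →L[ℝ] (Ix m → ℝ)} {ε K₀ ρ₀ : ℝ} (hε : ε ≤ 1) (hK₀ : 0 < K₀)
    {a b : Fin (m + 1)} {κ e : ℕ} (hκe : (κ = 2 ∧ e = 2) ∨ (κ = 4 ∧ e = 3)) {c' K' : ℝ}
    (hc' : 0 < c') (hc'2 : 2 * ((m + 1 : ℕ) : ℝ) ^ 3 * (‖Λ‖ + 1) * c' ≤ 1) (hK' : 0 ≤ K')
    (hOS : OS Λ ε a b κ c' K') {ρ ρ' : ℝ} (hρ : ρ < ρ') (hρ' : ρ' ≤ ρ₀)
    (hl : ∀ a' : Fin (m + 1), (a' : ℕ) + 1 = a → Bd Λ ε K₀ ρ₀ a' b 3 ρ')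
    (hr : ∀ b' : Fin (m + 1), (b' : ℕ) = b + 1 → Bd Λ ε K₀ ρ₀ a b' 3 ρ') :
    Bd Λ ε K₀ ρ₀ a b e ρ := by
  obtain ⟨C₀, hC₀, hNb⟩ := Nb_vol hl hr
  obtain ⟨δ₁, hδ₁⟩ : ∃ δ₁ : ℝ, δ₁ = min (1 / 4) ((ρ' - ρ) / (K₀ * c')) := ⟨_, rfl⟩
  have hδ₁0 : 0 < δ₁ := by
    rw [hδ₁]
    have : 0 < ρ' - ρ := by linarith
    positivity
  have hδ₁1 : δ₁ ≤ 1 / 4 := by
    rw [hδ₁]
    exact min_le_left _ _
  have hδ₁2 : K₀ * (c' * δ₁) ≤ ρ' - ρ := by
    have h1 : δ₁ ≤ (ρ' - ρ) / (K₀ * c') := by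
      rw [hδ₁]
      exact min_le_right _ _
    rw [le_div_iff₀ (by positivity)] at h1
    linarith
  obtain ⟨Cv, hCv⟩ : ∃ Cv : ℝ, Cv = (2 * K₀) ^ Fintype.card ι := ⟨_, rfl⟩
  have hCv0 : 0 ≤ Cv := by rw [hCv]; positivity
  obtain ⟨A, hA⟩ : ∃ A : ℝ, A = 125 * C₀ + 4096 * K' * C₀ := ⟨_, rfl⟩
  have hA0 : 0 ≤ A := by rw [hA]; positivity
  refine ⟨Cv * (4 / δ₁) ^ e + 3 * A + K' * (2 / δ₁) ^ κ * Cv, by positivity,
    fun F V L d hS s hs hs1 => ?_⟩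
  -- membership in the set `Nb`
  have hmem : ∀ δ : ℝ, 0 < δ → 4 * s ≤ δ → δ ≤ δ₁ → ∀ t, d t < ρ → L t b - L t a ≤ s →
      ¬ Iso (L t) a b (2 * δ) → ∀ x, ‖x - t‖ ≤ c' * δ → x ∈ Nb L d a b ρ' (4 * δ) := by
    intro δ hδ hsδ hδδ t ht hts hiso x hx
    have hdx : d x < ρ' := by
      have h1 := hS.lip t x
      have h2 : K₀ * ‖x - t‖ ≤ K₀ * (c' * δ₁) :=
        mul_le_mul_of_nonneg_left (hx.trans (mul_le_mul_of_nonneg_left hδδ hc'.le)) hK₀.le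
      linarith
    have hx0 := hdx.trans_le hρ'
    have ht0 : d t < ρ₀ := by linarith
    have hdiff : ∀ p q : Fin (m + 1), L x q - L x p ≤ (L t q - L t p) + δ := by
      intro p q
      have h1 := spr (hS.ort t ht0) (hS.ort x hx0) (hS.mon t ht0) (hS.mon x hx0) rfl p q
      rw [← hS.eq t ht0, ← hS.eq x hx0] at h1
      have h2 := F_lip hS hε ht0 hx0
      have h3 : 2 * ((m + 1 : ℕ) : ℝ) ^ 3 * ‖F x - F t‖ ≤ δ := by
        calc 2 * ((m + 1 : ℕ) : ℝ) ^ 3 * ‖F x - F t‖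
            ≤ 2 * ((m + 1 : ℕ) : ℝ) ^ 3 * ((‖Λ‖ + 1) * (c' * δ)) := by
              refine mul_le_mul_of_nonneg_left (h2.trans ?_) (by positivity)
              exact mul_le_mul_of_nonneg_left hx (by positivity)
          _ = (2 * ((m + 1 : ℕ) : ℝ) ^ 3 * (‖Λ‖ + 1) * c') * δ := by ring
          _ ≤ 1 * δ := mul_le_mul_of_nonneg_right hc'2 hδ.le
          _ = δ := one_mul _
      have h4 := (abs_le.1 h1).2
      linarith
    refine ⟨hdx, ?_⟩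
    rcases niso (hS.mon t ht0) hiso with ⟨a', ha', h1⟩ | ⟨b', hb', h1⟩
    · refine Or.inl ⟨a', ha', ?_⟩
      have := hdiff a' b
      linarith
    · refine Or.inr ⟨b', hb', ?_⟩
      have := hdiff a b'
      linarith
  -- the recursion
  have hrec : ∀ k : ℕ, 2 ^ k * (4 * s) ≤ δ₁ →
      volume {t | d t < ρ ∧ L t b - L t a ≤ s ∧ ¬ Iso (L t) a b (2 ^ k * (4 * s))} ≤
        ENNReal.ofReal (A * s ^ 3 * Wt κ k) := by
    intro k
    induction k with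
    | zero =>
      intro hk
      rw [pow_zero, one_mul] at hk ⊢
      have h1 : {t | d t < ρ ∧ L t b - L t a ≤ s ∧ ¬ Iso (L t) a b (4 * s)} ⊆
          Nb L d a b ρ' (5 * s) := by
        rintro t ⟨ht, hts, hiso⟩
        have ht0 : d t < ρ₀ := by linarith
        refine ⟨ht.trans hρ, ?_⟩
        rcases niso (hS.mon t ht0) hiso with ⟨a', ha', h1⟩ | ⟨b', hb', h1⟩
        · exact Or.inl ⟨a', ha', by linarith⟩
        · exact Or.inr ⟨b', hb', by linarith⟩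
      refine (measure_mono h1).trans ((hNb F V L d hS (5 * s) (by linarith) (by linarith)).trans ?_)
      refine ENNReal.ofReal_le_ofReal ?_
      have h2 : C₀ * (5 * s) ^ 3 = (125 * C₀) * s ^ 3 := by ring
      have h3 : Wt κ 0 = 1 := by simp [Wt]
      rw [h2, h3, mul_one]
      refine mul_le_mul_of_nonneg_right ?_ (by positivity)
      rw [hA]
      have : 0 ≤ 4096 * K' * C₀ := by positivity
      linarith
    | succ k ih =>
      intro hk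
      obtain ⟨δ, hδ⟩ : ∃ δ : ℝ, δ = 2 ^ k * (4 * s) := ⟨_, rfl⟩
      have h2k : (1 : ℝ) ≤ 2 ^ k := one_le_pow₀ (by norm_num)
      have hδ0 : 0 < δ := by rw [hδ]; positivity
      have h4s : 4 * s ≤ δ := by
        rw [hδ]
        nlinarith
      have h2δ : 2 ^ (k + 1) * (4 * s) = 2 * δ := by
        rw [hδ, pow_succ]
        ring
      rw [h2δ] at hk ⊢
      have ih' := ih (by rw [← hδ]; linarith)
      rw [← hδ] at ih'
      have h1 : {t | d t < ρ ∧ L t b - L t a ≤ s ∧ ¬ Iso (L t) a b (2 * δ)} ⊆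
          {t | d t < ρ ∧ L t b - L t a ≤ s ∧ ¬ Iso (L t) a b δ} ∪
          {t | d t < ρ ∧ L t b - L t a ≤ s ∧ Iso (L t) a b δ ∧ ¬ Iso (L t) a b (2 * δ)} := by
        rintro t ⟨ht, hts, hiso⟩
        by_cases h : Iso (L t) a b δ
        · exact Or.inr ⟨ht, hts, h, hiso⟩
        · exact Or.inl ⟨ht, hts, h⟩
      have h2 := hOS K₀ ρ₀ F V L d hS s δ hs h4s
        {t | d t < ρ ∧ L t b - L t a ≤ s ∧ Iso (L t) a b δ ∧ ¬ Iso (L t) a b (2 * δ)}
        (Nb L d a b ρ' (4 * δ)) (fun t ht => ⟨by linarith [ht.1], ht.2.1, ht.2.2.1⟩)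
        fun t ht x hx => hmem δ hδ0 h4s (by linarith) t ht.1 ht.2.1 ht.2.2.2 x hx
      have h3 := hNb F V L d hS (4 * δ) (by linarith) (by linarith)
      refine (measure_mono h1).trans ((measure_union_le _ _).trans
        ((add_le_add ih' (h2.trans (mul_le_mul_right h3 _))).trans ?_))
      rw [← ENNReal.ofReal_mul (by positivity), ← ENNReal.ofReal_add (by
        have := Wt_pos κ k
        positivity) (by positivity)]
      refine ENNReal.ofReal_le_ofReal ?_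
      rw [Wt_succ, mul_add]
      refine add_le_add le_rfl ?_
      have h5 : K' * (s / δ) ^ κ * (C₀ * (4 * δ) ^ 3) =
          (4096 * K' * C₀) * s ^ 3 * (((2 : ℝ) ^ k) ^ 3 / ((2 : ℝ) ^ k) ^ κ) * (1 / 4) ^ κ := by
        have h6 : s / δ = 1 / 2 ^ k * (1 / 4) := by
          rw [hδ]
          field_simp
        rw [h6, mul_pow, div_pow, one_pow, hδ]
        ring
      rw [h5]
      have h6 : (0 : ℝ) ≤ ((2 : ℝ) ^ k) ^ 3 / ((2 : ℝ) ^ k) ^ κ := by positivity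
      have h7 : ((1 : ℝ) / 4) ^ κ ≤ 1 := pow_le_one₀ (by norm_num) (by norm_num)
      calc (4096 * K' * C₀) * s ^ 3 * (((2 : ℝ) ^ k) ^ 3 / ((2 : ℝ) ^ k) ^ κ) * (1 / 4) ^ κ
          ≤ (4096 * K' * C₀) * s ^ 3 * (((2 : ℝ) ^ k) ^ 3 / ((2 : ℝ) ^ k) ^ κ) * 1 :=
            mul_le_mul_of_nonneg_left h7 (by positivity)
        _ ≤ A * s ^ 3 * (((2 : ℝ) ^ k) ^ 3 / ((2 : ℝ) ^ k) ^ κ) := by
            rw [mul_one]
            refine mul_le_mul_of_nonneg_right (mul_le_mul_of_nonneg_right ?_ (by positivity)) h6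
            rw [hA]
            have : 0 ≤ 125 * C₀ := by positivity
            linarith
  -- conclusion
  have hvol := vol_bd hS hK₀
  rw [← hCv] at hvol
  have he1 : 0 < s ^ e := by positivity
  rcases lt_or_ge δ₁ (4 * s) with hlt | hge
  · have h1 : {t | d t < ρ ∧ L t b - L t a ≤ s} ⊆ {t | d t < ρ₀} := fun t ht =>
      lt_of_lt_of_le (ht.1.trans hρ) hρ'
    refine (measure_mono h1).trans (hvol.trans (ENNReal.ofReal_le_ofReal ?_))
    have h2 : 1 ≤ (4 / δ₁) ^ e * s ^ e := by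
      rw [← mul_pow]
      refine one_le_pow₀ ?_
      rw [div_mul_eq_mul_div, le_div_iff₀ hδ₁0]
      linarith
    have h3 : Cv * 1 ≤ Cv * ((4 / δ₁) ^ e * s ^ e) := mul_le_mul_of_nonneg_left h2 hCv0
    have h4 : 0 ≤ (3 * A + K' * (2 / δ₁) ^ κ * Cv) * s ^ e := by positivity
    nlinarith
  · obtain ⟨k, hk1, hk2⟩ := exists_nat_pow_near (x := δ₁ / (4 * s)) (y := (2 : ℝ))
      (by rw [le_div_iff₀ (by positivity)]; linarith) (by norm_num)
    rw [le_div_iff₀ (by positivity)] at hk1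
    rw [div_lt_iff₀ (by positivity)] at hk2
    obtain ⟨δ, hδ⟩ : ∃ δ : ℝ, δ = 2 ^ k * (4 * s) := ⟨_, rfl⟩
    have h2k : (1 : ℝ) ≤ 2 ^ k := one_le_pow₀ (by norm_num)
    have hδ0 : 0 < δ := by rw [hδ]; positivity
    have h4s : 4 * s ≤ δ := by
      rw [hδ]
      nlinarith
    have hδ2 : δ₁ / 2 < δ := by
      rw [hδ]
      rw [pow_succ] at hk2
      linarith
    have hδ3 : δ ≤ δ₁ := by rw [hδ]; exact hk1
    have h1 : {t | d t < ρ ∧ L t b - L t a ≤ s} ⊆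
        {t | d t < ρ ∧ L t b - L t a ≤ s ∧ ¬ Iso (L t) a b δ} ∪
        {t | d t < ρ ∧ L t b - L t a ≤ s ∧ Iso (L t) a b δ} := by
      rintro t ⟨ht, hts⟩
      by_cases h : Iso (L t) a b δ
      · exact Or.inr ⟨ht, hts, h⟩
      · exact Or.inl ⟨ht, hts, h⟩
    have h2 := hOS K₀ ρ₀ F V L d hS s δ hs h4s
      {t | d t < ρ ∧ L t b - L t a ≤ s ∧ Iso (L t) a b δ} {t | d t < ρ₀}
      (fun t ht => ⟨by linarith [ht.1], ht.2.1, ht.2.2⟩) fun t ht x hx => by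
        have h3 := hS.lip t x
        have h4 : K₀ * ‖x - t‖ ≤ K₀ * (c' * δ₁) :=
          mul_le_mul_of_nonneg_left (hx.trans (mul_le_mul_of_nonneg_left hδ3 hc'.le)) hK₀.le
        have h5 : d t < ρ := ht.1
        show d x < ρ₀
        linarith
    have h3 := hrec k hk1
    rw [← hδ] at h3
    refine (measure_mono h1).trans ((measure_union_le _ _).trans
      ((add_le_add h3 (h2.trans (mul_le_mul_right hvol _))).trans ?_))
    rw [← ENNReal.ofReal_mul (by positivity), ← ENNReal.ofReal_add (by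
      have := Wt_pos κ k
      positivity) (by positivity)]
    refine ENNReal.ofReal_le_ofReal ?_
    have h5 : A * s ^ 3 * Wt κ k ≤ 3 * A * s ^ e := by
      rcases hκe with ⟨rfl, rfl⟩ | ⟨rfl, rfl⟩
      · rw [Wt_two]
        have h6 : 2 ^ k * s ≤ 1 := by linarith
        calc A * s ^ 3 * 2 ^ k = A * s ^ 2 * (2 ^ k * s) := by ring
          _ ≤ A * s ^ 2 * 1 := mul_le_mul_of_nonneg_left h6 (by positivity)
          _ ≤ 3 * A * s ^ 2 := by nlinarith [mul_nonneg hA0 (sq_nonneg s)]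
      · rw [Wt_four]
        have h6 : (0 : ℝ) ≤ 2 / 2 ^ k := by positivity
        calc A * s ^ 3 * (3 - 2 / 2 ^ k) ≤ A * s ^ 3 * 3 :=
              mul_le_mul_of_nonneg_left (by linarith) (by positivity)
          _ = 3 * A * s ^ 3 := by ring
    have h6 : K' * (s / δ) ^ κ * Cv ≤ K' * (2 / δ₁) ^ κ * Cv * s ^ e := by
      have h7 : s / δ ≤ 2 / δ₁ * s := by
        rw [div_le_iff₀ hδ0, div_mul_eq_mul_div, div_mul_eq_mul_div, le_div_iff₀ hδ₁0]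
        nlinarith
      have h8 : (s / δ) ^ κ ≤ (2 / δ₁) ^ κ * s ^ κ := by
        rw [← mul_pow]
        exact pow_le_pow_left₀ (by positivity) h7 κ
      have h9 : s ^ κ ≤ s ^ e := by
        refine pow_le_pow_of_le_one hs.le hs1 ?_
        rcases hκe with ⟨rfl, rfl⟩ | ⟨rfl, rfl⟩ <;> norm_num
      calc K' * (s / δ) ^ κ * Cv ≤ K' * ((2 / δ₁) ^ κ * s ^ e) * Cv := by
            refine mul_le_mul_of_nonneg_right (mul_le_mul_of_nonneg_left (h8.trans ?_) hK') hCv0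
            exact mul_le_mul_of_nonneg_left h9 (by positivity)
        _ = _ := by ring
    have h7 : 0 ≤ Cv * (4 / δ₁) ^ e * s ^ e := by positivity
    nlinarith

end Pool.Agent.L5helper74.QR
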