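import Pool.Agent.L5helper74.QR.FinDim

/-!
# Quadratic repulsion: small gaps with a third level nearby
-/

set_option autoImplicit false
set_option linter.unusedSectionVars false

open Set Filter Topology MeasureTheory
open scoped ENNReal
open Pool.Agent.L5helper74.LR

noncomputable section

namespace Pool.Agent.L5helper74.QR

variable {m : ℕ} {ι : Type} [Fintype ι]

/-- the bound for the volume of the set where the gap `a, b` is small and a third eigenvalue is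
near -/
def Bd3 (Λ : (ι → ℝ) →L[ℝ] (Ix m → ℝ)) (ε K₀ ρ₀ : ℝ) (a b : Fin (m + 1)) (ρ : ℝ) : Prop :=
  ∃ δ₁ : ℝ, 0 < δ₁ ∧ ∃ C : ℝ, 0 ≤ C ∧ ∀ F V L d, Sl Λ ε K₀ ρ₀ F V L d → ∀ s δ : ℝ, 0 < s →
    4 * s ≤ δ → δ ≤ δ₁ →
    volume {t | d t < ρ ∧ L t b - L t a ≤ s ∧ ¬ Iso (L t) a b δ} ≤ ENNReal.ofReal (C * (δ * s ^ 2))

set_option maxHeartbeats 1000000 in
theorem step3 {Λ : (ι → ℝ) →L[ℝ] (Ix m → ℝ)} {ε K₀ ρ₀ : ℝ} (hε : ε ≤ 1) (hK₀ : 0 < K₀)
    {a b : Fin (m + 1)} {c' K' : ℝ}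
    (hc' : 0 < c') (hc'2 : 2 * ((m + 1 : ℕ) : ℝ) ^ 3 * (‖Λ‖ + 1) * c' ≤ 1) (hK' : 0 ≤ K')
    (hOS : OS Λ ε a b 2 c' K') {ρ ρ' : ℝ} (hρ : ρ < ρ') (hρ' : ρ' ≤ ρ₀)
    (hl : ∀ a' : Fin (m + 1), (a' : ℕ) + 1 = a → Bd Λ ε K₀ ρ₀ a' b 3 ρ')
    (hr : ∀ b' : Fin (m + 1), (b' : ℕ) = b + 1 → Bd Λ ε K₀ ρ₀ a b' 3 ρ') :
    Bd3 Λ ε K₀ ρ₀ a b ρ := by
  obtain ⟨C₀, hC₀, hNb⟩ := Nb_vol hl hr
  obtain ⟨δ₁, hδ₁⟩ : ∃ δ₁ : ℝ, δ₁ = min (1 / 4) ((ρ' - ρ) / (K₀ * c')) := ⟨_, rfl⟩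
  have hδ₁0 : 0 < δ₁ := by
    rw [hδ₁]
    have : 0 < ρ' - ρ := by linarith
    positivity
  have hδ₁1 : δ₁ ≤ 1 / 4 := by
    rw [hδ₁]
    exact min_le_left _ _
  have hδ₁2 : K₀ * (c' * δ₁) ≤ ρ' - ρ := by
    have h1 : δ₁ ≤ (ρ' - ρ) / (K₀ * c') := by
      rw [hδ₁]
      exact min_le_right _ _
    rw [le_div_iff₀ (by positivity)] at h1
    linarith
  obtain ⟨A, hA⟩ : ∃ A : ℝ, A = 125 * C₀ + 4096 * K' * C₀ := ⟨_, rfl⟩
  have hA0 : 0 ≤ A := by rw [hA]; positivity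
  refine ⟨δ₁ / 2, by positivity, A, hA0, fun F V L d hS s δ₂ hs hsδ hδδ₁ => ?_⟩
  -- membership in the set `Nb`
  have hmem : ∀ δ : ℝ, 0 < δ → 4 * s ≤ δ → δ ≤ δ₁ → ∀ t, d t < ρ → L t b - L t a ≤ s →
      ¬ Iso (L t) a b (2 * δ) → ∀ x, ‖x - t‖ ≤ c' * δ → x ∈ Nb L d a b ρ' (4 * δ) := by
    intro δ hδ hsδ hδδ t ht hts hiso x hx
    have hdx : d x < ρ' := by
      have h1 := hS.lip t x
      have h2 : K₀ * ‖x - t‖ ≤ K₀ * (c' * δ₁) :=
        mul_le_mul_of_nonneg_left (hx.trans (mul_le_mul_of_nonneg_left hδδ hc'.le)) hK₀.le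
      linarith
    have hx0 := hdx.trans_le hρ'
    have ht0 : d t < ρ₀ := by linarith
    have hdiff : ∀ p q : Fin (m + 1), L x q - L x p ≤ (L t q - L t p) + δ := by
      intro p q
      have h1 := spr (hS.ort t ht0) (hS.ort x hx0) (hS.mon t ht0) (hS.mon x hx0) rfl p q
      rw [← hS.eq t ht0, ← hS.eq x hx0] at h1
      have h2 := F_lip hS hε ht0 hx0
      have h3 : 2 * ((m + 1 : ℕ) : ℝ) ^ 3 * ‖F x - F t‖ ≤ δ := by
        calc 2 * ((m + 1 : ℕ) : ℝ) ^ 3 * ‖F x - F t‖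
            ≤ 2 * ((m + 1 : ℕ) : ℝ) ^ 3 * ((‖Λ‖ + 1) * (c' * δ)) := by
              refine mul_le_mul_of_nonneg_left (h2.trans ?_) (by positivity)
              exact mul_le_mul_of_nonneg_left hx (by positivity)
          _ = (2 * ((m + 1 : ℕ) : ℝ) ^ 3 * (‖Λ‖ + 1) * c') * δ := by ring
          _ ≤ 1 * δ := mul_le_mul_of_nonneg_right hc'2 hδ.le
          _ = δ := one_mul _
      have h4 := (abs_le.1 h1).2
      linarith
    refine ⟨hdx, ?_⟩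
    rcases niso (hS.mon t ht0) hiso with ⟨a', ha', h1⟩ | ⟨b', hb', h1⟩
    · refine Or.inl ⟨a', ha', ?_⟩
      have := hdiff a' b
      linarith
    · refine Or.inr ⟨b', hb', ?_⟩
      have := hdiff a b'
      linarith
  -- the recursion
  have hrec : ∀ k : ℕ, 2 ^ k * (4 * s) ≤ δ₁ →
      volume {t | d t < ρ ∧ L t b - L t a ≤ s ∧ ¬ Iso (L t) a b (2 ^ k * (4 * s))} ≤
        ENNReal.ofReal (A * s ^ 3 * Wt 2 k) := by
    intro k
    induction k with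
    | zero =>
      intro hk
      rw [pow_zero, one_mul] at hk ⊢
      have h1 : {t | d t < ρ ∧ L t b - L t a ≤ s ∧ ¬ Iso (L t) a b (4 * s)} ⊆
          Nb L d a b ρ' (5 * s) := by
        rintro t ⟨ht, hts, hiso⟩
        have ht0 : d t < ρ₀ := by linarith
        refine ⟨ht.trans hρ, ?_⟩
        rcases niso (hS.mon t ht0) hiso with ⟨a', ha', h1⟩ | ⟨b', hb', h1⟩
        · exact Or.inl ⟨a', ha', by linarith⟩
        · exact Or.inr ⟨b', hb', by linarith⟩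
      refine (measure_mono h1).trans ((hNb F V L d hS (5 * s) (by linarith) (by linarith)).trans ?_)
      refine ENNReal.ofReal_le_ofReal ?_
      have h2 : C₀ * (5 * s) ^ 3 = (125 * C₀) * s ^ 3 := by ring
      have h3 : Wt 2 0 = 1 := by simp [Wt]
      rw [h2, h3, mul_one]
      refine mul_le_mul_of_nonneg_right ?_ (by positivity)
      rw [hA]
      have : 0 ≤ 4096 * K' * C₀ := by positivity
      linarith
    | succ k ih =>
      intro hk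
      obtain ⟨δ, hδ⟩ : ∃ δ : ℝ, δ = 2 ^ k * (4 * s) := ⟨_, rfl⟩
      have h2k : (1 : ℝ) ≤ 2 ^ k := one_le_pow₀ (by norm_num)
      have hδ0 : 0 < δ := by rw [hδ]; positivity
      have h4s : 4 * s ≤ δ := by
        rw [hδ]
        nlinarith
      have h2δ : 2 ^ (k + 1) * (4 * s) = 2 * δ := by
        rw [hδ, pow_succ]
        ring
      rw [h2δ] at hk ⊢
      have ih' := ih (by rw [← hδ]; linarith)
      rw [← hδ] at ih'
      have h1 : {t | d t < ρ ∧ L t b - L t a ≤ s ∧ ¬ Iso (L t) a b (2 * δ)} ⊆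
          {t | d t < ρ ∧ L t b - L t a ≤ s ∧ ¬ Iso (L t) a b δ} ∪
          {t | d t < ρ ∧ L t b - L t a ≤ s ∧ Iso (L t) a b δ ∧ ¬ Iso (L t) a b (2 * δ)} := by
        rintro t ⟨ht, hts, hiso⟩
        by_cases h : Iso (L t) a b δ
        · exact Or.inr ⟨ht, hts, h, hiso⟩
        · exact Or.inl ⟨ht, hts, h⟩
      have h2 := hOS K₀ ρ₀ F V L d hS s δ hs h4s
        {t | d t < ρ ∧ L t b - L t a ≤ s ∧ Iso (L t) a b δ ∧ ¬ Iso (L t) a b (2 * δ)}
        (Nb L d a b ρ' (4 * δ)) (fun t ht => ⟨by linarith [ht.1], ht.2.1, ht.2.2.1⟩)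
        fun t ht x hx => hmem δ hδ0 h4s (by linarith) t ht.1 ht.2.1 ht.2.2.2 x hx
      have h3 := hNb F V L d hS (4 * δ) (by linarith) (by linarith)
      refine (measure_mono h1).trans ((measure_union_le _ _).trans
        ((add_le_add ih' (h2.trans (mul_le_mul_right h3 _))).trans ?_))
      rw [← ENNReal.ofReal_mul (by positivity), ← ENNReal.ofReal_add (by
        have := Wt_pos 2 k
        positivity) (by positivity)]
      refine ENNReal.ofReal_le_ofReal ?_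
      rw [Wt_succ, mul_add]
      refine add_le_add le_rfl ?_
      have h5 : K' * (s / δ) ^ 2 * (C₀ * (4 * δ) ^ 3) =
          (4096 * K' * C₀) * s ^ 3 * (((2 : ℝ) ^ k) ^ 3 / ((2 : ℝ) ^ k) ^ 2) * (1 / 4) ^ 2 := by
        have h6 : s / δ = 1 / 2 ^ k * (1 / 4) := by
          rw [hδ]
          field_simp
        rw [h6, mul_pow, div_pow, one_pow, hδ]
        ring
      rw [h5]
      have h6 : (0 : ℝ) ≤ ((2 : ℝ) ^ k) ^ 3 / ((2 : ℝ) ^ k) ^ 2 := by positivity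
      have h7 : ((1 : ℝ) / 4) ^ 2 ≤ 1 := pow_le_one₀ (by norm_num) (by norm_num)
      calc (4096 * K' * C₀) * s ^ 3 * (((2 : ℝ) ^ k) ^ 3 / ((2 : ℝ) ^ k) ^ 2) * (1 / 4) ^ 2
          ≤ (4096 * K' * C₀) * s ^ 3 * (((2 : ℝ) ^ k) ^ 3 / ((2 : ℝ) ^ k) ^ 2) * 1 :=
            mul_le_mul_of_nonneg_left h7 (by positivity)
        _ ≤ A * s ^ 3 * (((2 : ℝ) ^ k) ^ 3 / ((2 : ℝ) ^ k) ^ 2) := by
            rw [mul_one]
            refine mul_le_mul_of_nonneg_right (mul_le_mul_of_nonneg_right ?_ (by positivity)) h6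
            rw [hA]
            have : 0 ≤ 125 * C₀ := by positivity
            linarith
  -- conclusion
  obtain ⟨k, hk1, hk2⟩ := exists_nat_pow_near (x := δ₂ / (4 * s)) (y := (2 : ℝ))
    (by rw [le_div_iff₀ (by positivity)]; linarith) (by norm_num)
  rw [le_div_iff₀ (by positivity)] at hk1
  rw [div_lt_iff₀ (by positivity)] at hk2
  have hk3 : (2 : ℝ) ^ (k + 1) * (4 * s) ≤ 2 * δ₂ := by
    rw [pow_succ]
    linarith
  have h3 := hrec (k + 1) (by linarith)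
  refine (measure_mono ?_).trans (h3.trans (ENNReal.ofReal_le_ofReal ?_))
  · rintro t ⟨ht, hts, hiso⟩
    refine ⟨ht, hts, fun h => hiso ?_⟩
    exact ⟨fun q hq => hk2.le.trans (h.1 q hq), fun q hq => hk2.le.trans (h.2 q hq)⟩
  · rw [Wt_two]
    have h5 : A * s ^ 3 * 2 ^ (k + 1) = A * s ^ 2 * (2 ^ (k + 1) * (4 * s)) / 4 := by ring
    rw [h5]
    have h6 : A * s ^ 2 * (2 ^ (k + 1) * (4 * s)) ≤ A * s ^ 2 * (2 * δ₂) :=
      mul_le_mul_of_nonneg_left hk3 (by positivity)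
    have h7 : 0 ≤ A * s ^ 2 * δ₂ := by
      have : 0 ≤ δ₂ := by linarith
      positivity
    nlinarith

end Pool.Agent.L5helper74.QR
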