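import Pool.Agent.L5helper74.QR.Step3

/-!
# Three levels: the induction step
-/

set_option autoImplicit false
set_option linter.unusedSectionVars false

open Set Filter Topology MeasureTheory
open scoped ENNReal
open Pool.Agent.L5helper74.LR

noncomputable section

namespace Pool.Agent.L5helper74.QR

variable {m : ℕ} {ι : Type} [Fintype ι]

/-- the bound for clusters of four or more eigenvalues -/
def Bdh (Λ : (ι → ℝ) →L[ℝ] (Ix m → ℝ)) (ε K₀ ρ₀ : ℝ) (a b : Fin (m + 1)) (ρ : ℝ) : Prop :=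
  ∃ C : ℝ, 0 ≤ C ∧ ∀ F V L d, Sl Λ ε K₀ ρ₀ F V L d → ∀ s : ℝ, 0 < s → s ≤ 1 →
    volume {t | d t < ρ ∧ L t b - L t a ≤ s} ≤ ENNReal.ofReal (C * (s ^ 5 * √s))

/-- the bound for the volume of the set where the spread of `a, b` is small and another eigenvalue
is near -/
def Bd5 (Λ : (ι → ℝ) →L[ℝ] (Ix m → ℝ)) (ε K₀ ρ₀ : ℝ) (a b : Fin (m + 1)) (ρ : ℝ) : Prop :=
  ∃ δ₁ : ℝ, 0 < δ₁ ∧ ∃ C : ℝ, 0 ≤ C ∧ ∀ F V L d, Sl Λ ε K₀ ρ₀ F V L d → ∀ s δ : ℝ, 0 < s →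
    4 * s ≤ δ → δ ≤ δ₁ →
    volume {t | d t < ρ ∧ L t b - L t a ≤ s ∧ ¬ Iso (L t) a b δ} ≤
      ENNReal.ofReal (C * (√δ * s ^ 5))

lemma Nb_vol5 {Λ : (ι → ℝ) →L[ℝ] (Ix m → ℝ)} {ε K₀ ρ₀ : ℝ} {a b : Fin (m + 1)} {ρ' : ℝ}
    (hl : ∀ a' : Fin (m + 1), (a' : ℕ) + 1 = a → Bdh Λ ε K₀ ρ₀ a' b ρ')
    (hr : ∀ b' : Fin (m + 1), (b' : ℕ) = b + 1 → Bdh Λ ε K₀ ρ₀ a b' ρ') :
    ∃ C : ℝ, 0 ≤ C ∧ ∀ F V L d, Sl Λ ε K₀ ρ₀ F V L d → ∀ η : ℝ, 0 < η → η ≤ 1 →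
      volume (Nb L d a b ρ' η) ≤ ENNReal.ofReal (C * (η ^ 5 * √η)) := by
  obtain ⟨C₁, hC₁, h1⟩ : ∃ C : ℝ, 0 ≤ C ∧ ∀ F V L d, Sl Λ ε K₀ ρ₀ F V L d → ∀ η : ℝ, 0 < η →
      η ≤ 1 → volume {t | d t < ρ' ∧ ∃ a' : Fin (m + 1), (a' : ℕ) + 1 = a ∧ L t b - L t a' ≤ η} ≤
        ENNReal.ofReal (C * (η ^ 5 * √η)) := by
    by_cases ha : ∃ a' : Fin (m + 1), (a' : ℕ) + 1 = a
    · obtain ⟨a', ha'⟩ := ha
      obtain ⟨C, hC, h⟩ := hl a' ha'
      refine ⟨C, hC, fun F V L d hS η hη hη1 => (measure_mono ?_).trans (h F V L d hS η hη hη1)⟩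
      rintro t ⟨ht, a'', ha'', hta⟩
      have : a'' = a' := Fin.ext (by omega)
      rw [this] at hta
      exact ⟨ht, hta⟩
    · refine ⟨0, le_rfl, fun F V L d hS η hη hη1 => ?_⟩
      have : {t | d t < ρ' ∧ ∃ a' : Fin (m + 1), (a' : ℕ) + 1 = a ∧ L t b - L t a' ≤ η} = ∅ := by
        ext t
        simp only [mem_ofPred_eq, mem_empty_iff_false, iff_false]
        rintro ⟨-, a', ha', -⟩
        exact ha ⟨a', ha'⟩
      rw [this, measure_empty]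
      exact zero_le
  obtain ⟨C₂, hC₂, h2⟩ : ∃ C : ℝ, 0 ≤ C ∧ ∀ F V L d, Sl Λ ε K₀ ρ₀ F V L d → ∀ η : ℝ, 0 < η →
      η ≤ 1 → volume {t | d t < ρ' ∧ ∃ b' : Fin (m + 1), (b' : ℕ) = b + 1 ∧ L t b' - L t a ≤ η} ≤
        ENNReal.ofReal (C * (η ^ 5 * √η)) := by
    by_cases hb : ∃ b' : Fin (m + 1), (b' : ℕ) = b + 1
    · obtain ⟨b', hb'⟩ := hb
      obtain ⟨C, hC, h⟩ := hr b' hb'
      refine ⟨C, hC, fun F V L d hS η hη hη1 => (measure_mono ?_).trans (h F V L d hS η hη hη1)⟩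
      rintro t ⟨ht, b'', hb'', htb⟩
      have : b'' = b' := Fin.ext (by omega)
      rw [this] at htb
      exact ⟨ht, htb⟩
    · refine ⟨0, le_rfl, fun F V L d hS η hη hη1 => ?_⟩
      have : {t | d t < ρ' ∧ ∃ b' : Fin (m + 1), (b' : ℕ) = b + 1 ∧ L t b' - L t a ≤ η} = ∅ := by
        ext t
        simp only [mem_ofPred_eq, mem_empty_iff_false, iff_false]
        rintro ⟨-, b', hb', -⟩
        exact hb ⟨b', hb'⟩
      rw [this, measure_empty]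
      exact zero_le
  refine ⟨C₁ + C₂, add_nonneg hC₁ hC₂, fun F V L d hS η hη hη1 => ?_⟩
  have h3 : Nb L d a b ρ' η ⊆
      {t | d t < ρ' ∧ ∃ a' : Fin (m + 1), (a' : ℕ) + 1 = a ∧ L t b - L t a' ≤ η} ∪
      {t | d t < ρ' ∧ ∃ b' : Fin (m + 1), (b' : ℕ) = b + 1 ∧ L t b' - L t a ≤ η} := by
    rintro t ⟨ht, h | h⟩
    · exact Or.inl ⟨ht, h⟩
    · exact Or.inr ⟨ht, h⟩
  refine (measure_mono h3).trans ((measure_union_le _ _).trans ?_)
  rw [add_mul, ENNReal.ofReal_add (by positivity) (by positivity)]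
  exact add_le_add (h1 F V L d hS η hη hη1) (h2 F V L d hS η hη hη1)

lemma sqrt4 (x : ℝ) : √(4 * x) = 2 * √x := by
  rw [Real.sqrt_mul (by norm_num) x, show (4 : ℝ) = 2 ^ 2 by norm_num,
    Real.sqrt_sq (by norm_num)]

lemma sqrt5 {x : ℝ} (hx : 0 ≤ x) : √(5 * x) ≤ 3 * √x := by
  have h1 : √(9 * x) = 3 * √x := by
    rw [Real.sqrt_mul (by norm_num) x, show (9 : ℝ) = 3 ^ 2 by norm_num,
      Real.sqrt_sq (by norm_num)]
  rw [← h1]
  exact Real.sqrt_le_sqrt (by linarith)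

/-- the weights -/
def Wh (κ k : ℕ) : ℝ := 1 + ∑ j ∈ Finset.range k, ((2 : ℝ) ^ j) ^ 5 * √((2 : ℝ) ^ j) / ((2 : ℝ) ^ j) ^ κ

lemma Wh_pos (κ k : ℕ) : 1 ≤ Wh κ k := by
  unfold Wh
  have : 0 ≤ ∑ j ∈ Finset.range k, ((2 : ℝ) ^ j) ^ 5 * √((2 : ℝ) ^ j) / ((2 : ℝ) ^ j) ^ κ :=
    Finset.sum_nonneg fun j _ => by positivity
  linarith

lemma Wh_succ (κ k : ℕ) : Wh κ (k + 1) = Wh κ k +
    ((2 : ℝ) ^ k) ^ 5 * √((2 : ℝ) ^ k) / ((2 : ℝ) ^ k) ^ κ := by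
  unfold Wh
  rw [Finset.sum_range_succ]
  ring

lemma sqrt2k (k : ℕ) : √((2 : ℝ) ^ (k + 1)) = √2 * √((2 : ℝ) ^ k) := by
  rw [pow_succ, mul_comm, Real.sqrt_mul (by norm_num)]

lemma Wh_five (k : ℕ) : Wh 5 k ≤ 3 * √((2 : ℝ) ^ k) - 2 := by
  induction k with
  | zero => simp [Wh]; norm_num
  | succ k ih =>
    rw [Wh_succ, sqrt2k]
    have h : ((2 : ℝ) ^ k) ^ 5 * √((2 : ℝ) ^ k) / ((2 : ℝ) ^ k) ^ 5 = √((2 : ℝ) ^ k) := by
      have h1 : (0 : ℝ) < 2 ^ k := by positivity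
      field_simp
    rw [h]
    have h1 : (0 : ℝ) ≤ √((2 : ℝ) ^ k) := Real.sqrt_nonneg _
    have h2 : (4 : ℝ) / 3 ≤ √2 := by
      rw [Real.le_sqrt (by norm_num) (by norm_num)]
      norm_num
    nlinarith

lemma Wh_six (k : ℕ) : Wh 6 k ≤ 5 := by
  have key : ∀ k : ℕ, Wh 6 k ≤ 5 - 4 / √((2 : ℝ) ^ k) := by
    intro k
    induction k with
    | zero => simp [Wh]; norm_num
    | succ k ih =>
      have h1 : (0 : ℝ) < √((2 : ℝ) ^ k) := Real.sqrt_pos.2 (by positivity)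
      rw [Wh_succ, sqrt2k]
      have h : ((2 : ℝ) ^ k) ^ 5 * √((2 : ℝ) ^ k) / ((2 : ℝ) ^ k) ^ 6 = 1 / √((2 : ℝ) ^ k) := by
        have h3 : (0 : ℝ) < 2 ^ k := by positivity
        have h4 : √((2 : ℝ) ^ k) * √((2 : ℝ) ^ k) = 2 ^ k := Real.mul_self_sqrt h3.le
        rw [div_eq_div_iff (by positivity) h1.ne']
        calc ((2 : ℝ) ^ k) ^ 5 * √((2 : ℝ) ^ k) * √((2 : ℝ) ^ k)
            = ((2 : ℝ) ^ k) ^ 5 * (√((2 : ℝ) ^ k) * √((2 : ℝ) ^ k)) := by ring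
          _ = 1 * ((2 : ℝ) ^ k) ^ 6 := by
              rw [h4]
              ring
      rw [h]
      have h2 : (4 : ℝ) / 3 ≤ √2 := by
        rw [Real.le_sqrt (by norm_num) (by norm_num)]
        norm_num
      have h5 : 4 / (√2 * √((2 : ℝ) ^ k)) ≤ 3 / √((2 : ℝ) ^ k) := by
        rw [div_le_div_iff₀ (by positivity) h1]
        nlinarith
      have h6 : 3 / √((2 : ℝ) ^ k) = 4 / √((2 : ℝ) ^ k) - 1 / √((2 : ℝ) ^ k) := by ring
      linarith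
  have h1 : (0 : ℝ) < √((2 : ℝ) ^ k) := Real.sqrt_pos.2 (by positivity)
  have h2 : 0 < 4 / √((2 : ℝ) ^ k) := by positivity
  linarith [key k]

set_option maxHeartbeats 1000000 in
theorem step5 {Λ : (ι → ℝ) →L[ℝ] (Ix m → ℝ)} {ε K₀ ρ₀ : ℝ} (hε : ε ≤ 1) (hK₀ : 0 < K₀)
    {a b : Fin (m + 1)} {κ : ℕ} (hκe : κ = 5 ∨ κ = 6) {c' K' : ℝ}
    (hc' : 0 < c') (hc'2 : 2 * ((m + 1 : ℕ) : ℝ) ^ 3 * (‖Λ‖ + 1) * c' ≤ 1) (hK' : 0 ≤ K')
    (hOS : OS Λ ε a b κ c' K') {ρ ρ' : ℝ} (hρ : ρ < ρ') (hρ' : ρ' ≤ ρ₀)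
    (hl : ∀ a' : Fin (m + 1), (a' : ℕ) + 1 = a → Bdh Λ ε K₀ ρ₀ a' b ρ')
    (hr : ∀ b' : Fin (m + 1), (b' : ℕ) = b + 1 → Bdh Λ ε K₀ ρ₀ a b' ρ') :
    (κ = 5 → Bd Λ ε K₀ ρ₀ a b 5 ρ) ∧ (κ = 6 → Bdh Λ ε K₀ ρ₀ a b ρ) ∧
      (κ = 5 → Bd5 Λ ε K₀ ρ₀ a b ρ) := by
  obtain ⟨C₀, hC₀, hNb⟩ := Nb_vol5 hl hr
  obtain ⟨δ₁, hδ₁⟩ : ∃ δ₁ : ℝ, δ₁ = min (1 / 4) ((ρ' - ρ) / (K₀ * c')) := ⟨_, rfl⟩
  have hδ₁0 : 0 < δ₁ := by
    rw [hδ₁]
    have : 0 < ρ' - ρ := by linarith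
    positivity
  have hδ₁1 : δ₁ ≤ 1 / 4 := by
    rw [hδ₁]
    exact min_le_left _ _
  have hδ₁2 : K₀ * (c' * δ₁) ≤ ρ' - ρ := by
    have h1 : δ₁ ≤ (ρ' - ρ) / (K₀ * c') := by
      rw [hδ₁]
      exact min_le_right _ _
    rw [le_div_iff₀ (by positivity)] at h1
    linarith
  obtain ⟨Cv, hCv⟩ : ∃ Cv : ℝ, Cv = (2 * K₀) ^ Fintype.card ι := ⟨_, rfl⟩
  have hCv0 : 0 ≤ Cv := by rw [hCv]; positivity
  obtain ⟨A, hA⟩ : ∃ A : ℝ, A = 9375 * C₀ + 4194304 * K' * C₀ := ⟨_, rfl⟩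
  have hA0 : 0 ≤ A := by rw [hA]; positivity
  -- the recursion
  have hrec : ∀ F V L d, Sl Λ ε K₀ ρ₀ F V L d → ∀ s : ℝ, 0 < s → ∀ k : ℕ,
      2 ^ k * (4 * s) ≤ δ₁ →
      volume {t | d t < ρ ∧ L t b - L t a ≤ s ∧ ¬ Iso (L t) a b (2 ^ k * (4 * s))} ≤
        ENNReal.ofReal (A * (s ^ 5 * √s) * Wh κ k) := by
   intro F V L d hS s hs
   -- membership in the set `Nb`
   have hmem : ∀ δ : ℝ, 0 < δ → 4 * s ≤ δ → δ ≤ δ₁ → ∀ t, d t < ρ → L t b - L t a ≤ s →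
       ¬ Iso (L t) a b (2 * δ) → ∀ x, ‖x - t‖ ≤ c' * δ → x ∈ Nb L d a b ρ' (4 * δ) := by
     intro δ hδ hsδ hδδ t ht hts hiso x hx
     have hdx : d x < ρ' := by
       have h1 := hS.lip t x
       have h2 : K₀ * ‖x - t‖ ≤ K₀ * (c' * δ₁) :=
         mul_le_mul_of_nonneg_left (hx.trans (mul_le_mul_of_nonneg_left hδδ hc'.le)) hK₀.le
       linarith
     have hx0 := hdx.trans_le hρ'
     have ht0 : d t < ρ₀ := by linarith
     have hdiff : ∀ p q : Fin (m + 1), L x q - L x p ≤ (L t q - L t p) + δ := by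
       intro p q
       have h1 := spr (hS.ort t ht0) (hS.ort x hx0) (hS.mon t ht0) (hS.mon x hx0) rfl p q
       rw [← hS.eq t ht0, ← hS.eq x hx0] at h1
       have h2 := F_lip hS hε ht0 hx0
       have h3 : 2 * ((m + 1 : ℕ) : ℝ) ^ 3 * ‖F x - F t‖ ≤ δ := by
         calc 2 * ((m + 1 : ℕ) : ℝ) ^ 3 * ‖F x - F t‖
             ≤ 2 * ((m + 1 : ℕ) : ℝ) ^ 3 * ((‖Λ‖ + 1) * (c' * δ)) := by
               refine mul_le_mul_of_nonneg_left (h2.trans ?_) (by positivity)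
               exact mul_le_mul_of_nonneg_left hx (by positivity)
           _ = (2 * ((m + 1 : ℕ) : ℝ) ^ 3 * (‖Λ‖ + 1) * c') * δ := by ring
           _ ≤ 1 * δ := mul_le_mul_of_nonneg_right hc'2 hδ.le
           _ = δ := one_mul _
       have h4 := (abs_le.1 h1).2
       linarith
     refine ⟨hdx, ?_⟩
     rcases niso (hS.mon t ht0) hiso with ⟨a', ha', h1⟩ | ⟨b', hb', h1⟩
     · refine Or.inl ⟨a', ha', ?_⟩
       have := hdiff a' b
       linarith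
     · refine Or.inr ⟨b', hb', ?_⟩
       have := hdiff a b'
       linarith
   intro k
   induction k with
   | zero =>
     intro hk
     rw [pow_zero, one_mul] at hk ⊢
     have h1 : {t | d t < ρ ∧ L t b - L t a ≤ s ∧ ¬ Iso (L t) a b (4 * s)} ⊆
         Nb L d a b ρ' (5 * s) := by
       rintro t ⟨ht, hts, hiso⟩
       have ht0 : d t < ρ₀ := by linarith
       refine ⟨ht.trans hρ, ?_⟩
       rcases niso (hS.mon t ht0) hiso with ⟨a', ha', h1⟩ | ⟨b', hb', h1⟩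
       · exact Or.inl ⟨a', ha', by linarith⟩
       · exact Or.inr ⟨b', hb', by linarith⟩
     refine (measure_mono h1).trans ((hNb F V L d hS (5 * s) (by linarith) (by linarith)).trans ?_)
     refine ENNReal.ofReal_le_ofReal ?_
     have h2 : C₀ * ((5 * s) ^ 5 * √(5 * s)) ≤ (9375 * C₀) * (s ^ 5 * √s) := by
       have h4 := sqrt5 hs.le
       calc C₀ * ((5 * s) ^ 5 * √(5 * s)) ≤ C₀ * ((5 * s) ^ 5 * (3 * √s)) := by gcongr
         _ = _ := by ring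
     have h3 : Wh κ 0 = 1 := by simp [Wh]
     rw [h3, mul_one]
     refine h2.trans (mul_le_mul_of_nonneg_right ?_ (by positivity))
     rw [hA]
     have : 0 ≤ 4194304 * K' * C₀ := by positivity
     linarith
   | succ k ih =>
     intro hk
     obtain ⟨δ, hδ⟩ : ∃ δ : ℝ, δ = 2 ^ k * (4 * s) := ⟨_, rfl⟩
     have h2k : (1 : ℝ) ≤ 2 ^ k := one_le_pow₀ (by norm_num)
     have hδ0 : 0 < δ := by rw [hδ]; positivity
     have h4s : 4 * s ≤ δ := by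
       rw [hδ]
       nlinarith
     have h2δ : 2 ^ (k + 1) * (4 * s) = 2 * δ := by
       rw [hδ, pow_succ]
       ring
     rw [h2δ] at hk ⊢
     have ih' := ih (by rw [← hδ]; linarith)
     rw [← hδ] at ih'
     have h1 : {t | d t < ρ ∧ L t b - L t a ≤ s ∧ ¬ Iso (L t) a b (2 * δ)} ⊆
         {t | d t < ρ ∧ L t b - L t a ≤ s ∧ ¬ Iso (L t) a b δ} ∪
         {t | d t < ρ ∧ L t b - L t a ≤ s ∧ Iso (L t) a b δ ∧ ¬ Iso (L t) a b (2 * δ)} := by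
       rintro t ⟨ht, hts, hiso⟩
       by_cases h : Iso (L t) a b δ
       · exact Or.inr ⟨ht, hts, h, hiso⟩
       · exact Or.inl ⟨ht, hts, h⟩
     have h2 := hOS K₀ ρ₀ F V L d hS s δ hs h4s
       {t | d t < ρ ∧ L t b - L t a ≤ s ∧ Iso (L t) a b δ ∧ ¬ Iso (L t) a b (2 * δ)}
       (Nb L d a b ρ' (4 * δ)) (fun t ht => ⟨by linarith [ht.1], ht.2.1, ht.2.2.1⟩)
       fun t ht x hx => hmem δ hδ0 h4s (by linarith) t ht.1 ht.2.1 ht.2.2.2 x hx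
     have h3 := hNb F V L d hS (4 * δ) (by linarith) (by linarith)
     refine (measure_mono h1).trans ((measure_union_le _ _).trans
       ((add_le_add ih' (h2.trans (mul_le_mul_right h3 _))).trans ?_))
     rw [← ENNReal.ofReal_mul (by positivity), ← ENNReal.ofReal_add (by
       have := Wh_pos κ k
       positivity) (by positivity)]
     refine ENNReal.ofReal_le_ofReal ?_
     rw [Wh_succ, mul_add]
     refine add_le_add le_rfl ?_
     have h5 : K' * (s / δ) ^ κ * (C₀ * ((4 * δ) ^ 5 * √(4 * δ))) =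
         (4194304 * K' * C₀) * (s ^ 5 * √s) *
           (((2 : ℝ) ^ k) ^ 5 * √((2 : ℝ) ^ k) / ((2 : ℝ) ^ k) ^ κ) * (1 / 4) ^ κ := by
       have h6 : s / δ = 1 / 2 ^ k * (1 / 4) := by
         rw [hδ]
         field_simp
       have h7 : √δ = √((2 : ℝ) ^ k) * (2 * √s) := by
         rw [hδ, Real.sqrt_mul (by positivity), sqrt4]
       rw [h6, mul_pow, div_pow, one_pow, sqrt4, h7, hδ]
       ring
     rw [h5]
     have h6 : (0 : ℝ) ≤ ((2 : ℝ) ^ k) ^ 5 * √((2 : ℝ) ^ k) / ((2 : ℝ) ^ k) ^ κ := by positivity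
     have h7 : ((1 : ℝ) / 4) ^ κ ≤ 1 := pow_le_one₀ (by norm_num) (by norm_num)
     calc (4194304 * K' * C₀) * (s ^ 5 * √s) *
           (((2 : ℝ) ^ k) ^ 5 * √((2 : ℝ) ^ k) / ((2 : ℝ) ^ k) ^ κ) * (1 / 4) ^ κ
         ≤ (4194304 * K' * C₀) * (s ^ 5 * √s) *
           (((2 : ℝ) ^ k) ^ 5 * √((2 : ℝ) ^ k) / ((2 : ℝ) ^ k) ^ κ) * 1 :=
           mul_le_mul_of_nonneg_left h7 (by positivity)
       _ ≤ A * (s ^ 5 * √s) * (((2 : ℝ) ^ k) ^ 5 * √((2 : ℝ) ^ k) / ((2 : ℝ) ^ k) ^ κ) := by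
           rw [mul_one]
           refine mul_le_mul_of_nonneg_right (mul_le_mul_of_nonneg_right ?_ (by positivity)) h6
           rw [hA]
           have : 0 ≤ 9375 * C₀ := by positivity
           linarith
  -- the total volume
  have htot : ∀ F V L d, Sl Λ ε K₀ ρ₀ F V L d → ∀ s : ℝ, 0 < s → s ≤ 1 →
      (δ₁ < 4 * s → volume {t | d t < ρ ∧ L t b - L t a ≤ s} ≤ ENNReal.ofReal Cv) ∧
      (4 * s ≤ δ₁ → ∃ k : ℕ, 2 ^ k * (4 * s) ≤ δ₁ ∧ δ₁ / 2 < 2 ^ k * (4 * s) ∧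
        volume {t | d t < ρ ∧ L t b - L t a ≤ s} ≤
        ENNReal.ofReal (A * (s ^ 5 * √s) * Wh κ k + K' * (2 / δ₁) ^ κ * Cv * s ^ κ)) := by
    intro F V L d hS s hs hs1
    have hvol := vol_bd hS hK₀
    rw [← hCv] at hvol
    refine ⟨fun _ => ?_, fun hge => ?_⟩
    · have h1 : {t | d t < ρ ∧ L t b - L t a ≤ s} ⊆ {t | d t < ρ₀} := fun t ht =>
        lt_of_lt_of_le (ht.1.trans hρ) hρ'
      exact (measure_mono h1).trans hvol
    · obtain ⟨k, hk1, hk2⟩ := exists_nat_pow_near (x := δ₁ / (4 * s)) (y := (2 : ℝ))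
        (by rw [le_div_iff₀ (by positivity)]; linarith) (by norm_num)
      rw [le_div_iff₀ (by positivity)] at hk1
      rw [div_lt_iff₀ (by positivity)] at hk2
      obtain ⟨δ, hδ⟩ : ∃ δ : ℝ, δ = 2 ^ k * (4 * s) := ⟨_, rfl⟩
      have h2k : (1 : ℝ) ≤ 2 ^ k := one_le_pow₀ (by norm_num)
      have hδ0 : 0 < δ := by rw [hδ]; positivity
      have h4s : 4 * s ≤ δ := by
        rw [hδ]
        nlinarith
      have hδ2 : δ₁ / 2 < δ := by
        rw [hδ]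
        rw [pow_succ] at hk2
        linarith
      have hδ3 : δ ≤ δ₁ := by rw [hδ]; exact hk1
      refine ⟨k, hk1, by rw [← hδ]; exact hδ2, ?_⟩
      have h1 : {t | d t < ρ ∧ L t b - L t a ≤ s} ⊆
          {t | d t < ρ ∧ L t b - L t a ≤ s ∧ ¬ Iso (L t) a b δ} ∪
          {t | d t < ρ ∧ L t b - L t a ≤ s ∧ Iso (L t) a b δ} := by
        rintro t ⟨ht, hts⟩
        by_cases h : Iso (L t) a b δ
        · exact Or.inr ⟨ht, hts, h⟩
        · exact Or.inl ⟨ht, hts, h⟩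
      have h2 := hOS K₀ ρ₀ F V L d hS s δ hs h4s
        {t | d t < ρ ∧ L t b - L t a ≤ s ∧ Iso (L t) a b δ} {t | d t < ρ₀}
        (fun t ht => ⟨by linarith [ht.1], ht.2.1, ht.2.2⟩) fun t ht x hx => by
          have h3 := hS.lip t x
          have h4 : K₀ * ‖x - t‖ ≤ K₀ * (c' * δ₁) :=
            mul_le_mul_of_nonneg_left (hx.trans (mul_le_mul_of_nonneg_left hδ3 hc'.le)) hK₀.le
          have h5 : d t < ρ := ht.1
          show d x < ρ₀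
          linarith
      have h3 := hrec F V L d hS s hs k hk1
      rw [← hδ] at h3
      refine (measure_mono h1).trans ((measure_union_le _ _).trans
        ((add_le_add h3 (h2.trans (mul_le_mul_right hvol _))).trans ?_))
      rw [← ENNReal.ofReal_mul (by positivity), ← ENNReal.ofReal_add (by
        have := Wh_pos κ k
        positivity) (by positivity)]
      refine ENNReal.ofReal_le_ofReal (add_le_add le_rfl ?_)
      have h7 : s / δ ≤ 2 / δ₁ * s := by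
        rw [div_le_iff₀ hδ0, div_mul_eq_mul_div, div_mul_eq_mul_div, le_div_iff₀ hδ₁0]
        nlinarith
      have h8 : (s / δ) ^ κ ≤ (2 / δ₁) ^ κ * s ^ κ := by
        rw [← mul_pow]
        exact pow_le_pow_left₀ (by positivity) h7 κ
      calc K' * (s / δ) ^ κ * Cv ≤ K' * ((2 / δ₁) ^ κ * s ^ κ) * Cv := by
            exact mul_le_mul_of_nonneg_right (mul_le_mul_of_nonneg_left h8 hK') hCv0
        _ = _ := by ring
  refine ⟨fun hκ => ?_, fun hκ => ?_, fun hκ => ?_⟩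
  · refine ⟨Cv * (4 / δ₁) ^ 5 + 3 * A + K' * (2 / δ₁) ^ 5 * Cv, by positivity,
      fun F V L d hS s hs hs1 => ?_⟩
    obtain ⟨h1, h2⟩ := htot F V L d hS s hs hs1
    rcases lt_or_ge δ₁ (4 * s) with hlt | hge
    · refine (h1 hlt).trans (ENNReal.ofReal_le_ofReal ?_)
      have h3 : 1 ≤ (4 / δ₁) ^ 5 * s ^ 5 := by
        rw [← mul_pow]
        refine one_le_pow₀ ?_
        rw [div_mul_eq_mul_div, le_div_iff₀ hδ₁0]
        linarith
      have h4 : Cv * 1 ≤ Cv * ((4 / δ₁) ^ 5 * s ^ 5) := mul_le_mul_of_nonneg_left h3 hCv0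
      have h5 : 0 ≤ (3 * A + K' * (2 / δ₁) ^ 5 * Cv) * s ^ 5 := by positivity
      nlinarith
    · obtain ⟨k, hk1, hk2, h3⟩ := h2 hge
      refine h3.trans (ENNReal.ofReal_le_ofReal ?_)
      subst hκ
      have h4 : √s * Wh 5 k ≤ 3 := by
        have h5 := Wh_five k
        have h6 : √s * √((2 : ℝ) ^ k) ≤ 1 := by
          rw [← Real.sqrt_mul hs.le]
          rw [Real.sqrt_le_one]
          have : (0 : ℝ) < 2 ^ k := by positivity
          nlinarith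
        have h7 : 0 ≤ √s := Real.sqrt_nonneg _
        nlinarith
      have h5 : A * (s ^ 5 * √s) * Wh 5 k ≤ 3 * A * s ^ 5 := by
        calc A * (s ^ 5 * √s) * Wh 5 k = A * s ^ 5 * (√s * Wh 5 k) := by ring
          _ ≤ A * s ^ 5 * 3 := mul_le_mul_of_nonneg_left h4 (by positivity)
          _ = _ := by ring
      have h6 : 0 ≤ Cv * (4 / δ₁) ^ 5 * s ^ 5 := by positivity
      nlinarith
  · refine ⟨Cv * (4 / δ₁) ^ 6 + 5 * A + K' * (2 / δ₁) ^ 6 * Cv, by positivity,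
      fun F V L d hS s hs hs1 => ?_⟩
    have hss : s ^ 6 ≤ s ^ 5 * √s := by
      have h3 : s ≤ √s := by
        rw [Real.le_sqrt hs.le hs.le]
        nlinarith
      calc s ^ 6 = s ^ 5 * s := by ring
        _ ≤ s ^ 5 * √s := mul_le_mul_of_nonneg_left h3 (by positivity)
    obtain ⟨h1, h2⟩ := htot F V L d hS s hs hs1
    rcases lt_or_ge δ₁ (4 * s) with hlt | hge
    · refine (h1 hlt).trans (ENNReal.ofReal_le_ofReal ?_)
      have h3 : 1 ≤ (4 / δ₁) ^ 6 * s ^ 6 := by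
        rw [← mul_pow]
        refine one_le_pow₀ ?_
        rw [div_mul_eq_mul_div, le_div_iff₀ hδ₁0]
        linarith
      have h4 : Cv * 1 ≤ Cv * ((4 / δ₁) ^ 6 * s ^ 6) := mul_le_mul_of_nonneg_left h3 hCv0
      have h5 : 0 ≤ (5 * A + K' * (2 / δ₁) ^ 6 * Cv) * (s ^ 5 * √s) := by positivity
      have h6 : Cv * (4 / δ₁) ^ 6 * s ^ 6 ≤ Cv * (4 / δ₁) ^ 6 * (s ^ 5 * √s) :=
        mul_le_mul_of_nonneg_left hss (by positivity)
      nlinarith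
    · obtain ⟨k, hk1, hk2, h3⟩ := h2 hge
      refine h3.trans (ENNReal.ofReal_le_ofReal ?_)
      subst hκ
      have h5 : A * (s ^ 5 * √s) * Wh 6 k ≤ A * (s ^ 5 * √s) * 5 :=
        mul_le_mul_of_nonneg_left (Wh_six k) (by positivity)
      have h6 : 0 ≤ Cv * (4 / δ₁) ^ 6 * (s ^ 5 * √s) := by positivity
      have h7 : K' * (2 / δ₁) ^ 6 * Cv * s ^ 6 ≤ K' * (2 / δ₁) ^ 6 * Cv * (s ^ 5 * √s) :=
        mul_le_mul_of_nonneg_left hss (by positivity)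
      nlinarith
  · refine ⟨δ₁ / 2, by positivity, 3 * A, by positivity, fun F V L d hS s δ₂ hs hsδ hδδ₁ => ?_⟩
    subst hκ
    obtain ⟨k, hk1, hk2⟩ := exists_nat_pow_near (x := δ₂ / (4 * s)) (y := (2 : ℝ))
      (by rw [le_div_iff₀ (by positivity)]; linarith) (by norm_num)
    rw [le_div_iff₀ (by positivity)] at hk1
    rw [div_lt_iff₀ (by positivity)] at hk2
    have hk3 : (2 : ℝ) ^ (k + 1) * (4 * s) ≤ 2 * δ₂ := by
      rw [pow_succ]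
      linarith
    have h3 := hrec F V L d hS s hs (k + 1) (by linarith)
    refine (measure_mono ?_).trans (h3.trans (ENNReal.ofReal_le_ofReal ?_))
    · rintro t ⟨ht, hts, hiso⟩
      refine ⟨ht, hts, fun h => hiso ?_⟩
      exact ⟨fun q hq => hk2.le.trans (h.1 q hq), fun q hq => hk2.le.trans (h.2 q hq)⟩
    · have h4 : √s * Wh 5 (k + 1) ≤ 3 * √δ₂ := by
        have h5 := Wh_five (k + 1)
        have h6 : √s * √((2 : ℝ) ^ (k + 1)) ≤ √δ₂ := by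
          rw [← Real.sqrt_mul hs.le]
          refine Real.sqrt_le_sqrt ?_
          have : (0 : ℝ) < 2 ^ (k + 1) := by positivity
          nlinarith
        have h7 : 0 ≤ √s := Real.sqrt_nonneg _
        nlinarith
      calc A * (s ^ 5 * √s) * Wh 5 (k + 1) = A * s ^ 5 * (√s * Wh 5 (k + 1)) := by ring
        _ ≤ A * s ^ 5 * (3 * √δ₂) := mul_le_mul_of_nonneg_left h4 (by positivity)
        _ = _ := by ring

end Pool.Agent.L5helper74.QR
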