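import Pool.Agent.L5helper74.QR.Exb
import Pool.Agent.L5helper74.QR.Star

/-!
# The exact volume of the set of symmetric matrices with given eigenvalues: preparations
-/

set_option autoImplicit false
set_option linter.unusedSectionVars false

open Set Filter Topology MeasureTheory
open scoped ENNReal
open Pool.Agent.L5helper74.LR

noncomputable section

namespace Pool.Agent.L5helper74.QR

variable {m : ℕ}

/-- the orthonormal eigenvectors of a simple symmetric matrix are determined up to signs -/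
lemma uniq {V V' : Fin (m + 1) → Fin (m + 1) → ℝ} (hV : Ort V) (hV' : Ort V')
    {L : Fin (m + 1) → ℝ} (hL : Function.Injective L) (h : cI (Tc L V) = cI (Tc L V')) :
    ∃ D : Fin (m + 1) → ℝ, (∀ i, D i = 1 ∨ D i = -1) ∧ ∀ i j, V' i j = D i * V i j := by
  have hr := V_row hV
  have hr' := V_row hV'
  obtain ⟨c, hc⟩ : ∃ c : ℝ, c = Tc L V 0 0 - Tc L V' 0 0 := ⟨_, rfl⟩
  have h1 : ∀ i j, Tc L V i j = Tc L V' i j + if i = j then c else 0 := by
    intro i j
    rw [mt_cI (Tc_symm L V) i j, mt_cI (Tc_symm L V') i j, h, hc]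
    split_ifs <;> ring
  have hT : ∀ {V : Fin (m + 1) → Fin (m + 1) → ℝ}, Ort V → ∑ i, Tc L V i i = ∑ k, L k := by
    intro V hV
    have hr := V_row hV
    unfold Tc
    rw [Finset.sum_comm]
    refine Finset.sum_congr rfl fun k _ => ?_
    rw [← Finset.mul_sum, hr k k, if_pos rfl, mul_one]
  have hc0 : c = 0 := by
    have h2 : ∑ i, Tc L V i i = ∑ i, (Tc L V' i i + c) := Finset.sum_congr rfl fun i _ => by
      rw [h1 i i, if_pos rfl]
    rw [Finset.sum_add_distrib, hT hV, hT hV', Finset.sum_const, Finset.card_univ,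
      Fintype.card_fin, nsmul_eq_mul] at h2
    have h3 : ((m + 1 : ℕ) : ℝ) * c = 0 := by linarith
    have h4 : ((m + 1 : ℕ) : ℝ) ≠ 0 := by positivity
    exact (mul_eq_zero.1 h3).resolve_left h4
  have h1' : ∀ i j, Tc L V i j = Tc L V' i j := by
    intro i j
    rw [h1 i j, hc0]
    simp
  obtain ⟨W, hW⟩ : ∃ W : Fin (m + 1) → Fin (m + 1) → ℝ, W = fun p q => ∑ i, V' p i * V q i :=
    ⟨_, rfl⟩
  have h2 : ∀ p q, L q * W p q = L p * W p q := by
    intro p q
    have h3 : ∑ i, ∑ j, V' p i * Tc L V i j * V q j = L q * W p q := by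
      have h4 : ∀ i, ∑ j, V' p i * Tc L V i j * V q j = L q * (V' p i * V q i) := by
        intro i
        unfold Tc
        calc ∑ j, V' p i * (∑ k, L k * (V k i * V k j)) * V q j
            = ∑ k, V' p i * L k * V k i * ∑ j, V k j * V q j := by
              simp only [Finset.sum_mul, Finset.mul_sum]
              rw [Finset.sum_comm]
              exact Finset.sum_congr rfl fun k _ => Finset.sum_congr rfl fun j _ => by ring
          _ = L q * (V' p i * V q i) := by
              simp [hr]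
              ring
      simp only [h4, hW, ← Finset.mul_sum]
    have h5 : ∑ i, ∑ j, V' p i * Tc L V i j * V q j = L p * W p q := by
      rw [Finset.sum_comm]
      have h4 : ∀ j, ∑ i, V' p i * Tc L V i j * V q j = L p * (V' p j * V q j) := by
        intro j
        have h6 : ∑ i, V' p i * Tc L V' i j = L p * V' p j := by
          unfold Tc
          calc ∑ i, V' p i * (∑ k, L k * (V' k i * V' k j))
              = ∑ k, L k * V' k j * ∑ i, V' p i * V' k i := by
                simp only [Finset.mul_sum]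
                rw [Finset.sum_comm]
                exact Finset.sum_congr rfl fun k _ => Finset.sum_congr rfl fun i _ => by ring
            _ = _ := by simp [hr']
        rw [← Finset.sum_mul]
        simp only [h1' _ j]
        rw [h6]
        ring
      simp only [h4, hW, ← Finset.mul_sum]
    rw [← h3, h5]
  have h3 : ∀ p q, q ≠ p → W p q = 0 := by
    intro p q hpq
    have h4 : (L q - L p) * W p q = 0 := by linarith [h2 p q]
    refine (mul_eq_zero.1 h4).resolve_left fun h5 => hpq (hL ?_)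
    linarith
  have h4 : ∀ p j, V' p j = W p p * V p j := by
    intro p j
    have h5 : ∑ q, W p q * V q j = V' p j := by
      rw [hW]
      calc ∑ q, (∑ i, V' p i * V q i) * V q j = ∑ i, V' p i * ∑ q, V q i * V q j := by
            simp only [Finset.sum_mul, Finset.mul_sum]
            rw [Finset.sum_comm]
            exact Finset.sum_congr rfl fun i _ => Finset.sum_congr rfl fun q _ => by ring
        _ = V' p j := by simp [hV _ _]
    rw [← h5, Finset.sum_eq_single p (fun q _ hq => by rw [h3 p q hq, zero_mul])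
      fun h => absurd (Finset.mem_univ _) h]
  refine ⟨fun p => W p p, fun p => ?_, h4⟩
  have h5 := hr' p p
  rw [if_pos rfl] at h5
  have h6 : ∑ j, V' p j * V' p j = W p p * W p p * ∑ j, V p j * V p j := by
    rw [Finset.mul_sum]
    exact Finset.sum_congr rfl fun j _ => by rw [h4 p j]; ring
  rw [h6, hr p p, if_pos rfl, mul_one] at h5
  rcases mul_self_eq_one_iff.1 h5 with h7 | h7
  · exact Or.inl h7
  · exact Or.inr h7

/-- signs do not matter -/
lemma Tc_sign {D : Fin (m + 1) → ℝ} (hD : ∀ i, D i = 1 ∨ D i = -1) (L : Fin (m + 1) → ℝ)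
    (V : Fin (m + 1) → Fin (m + 1) → ℝ) : Tc L (fun i j => D i * V i j) = Tc L V := by
  funext i j
  unfold Tc
  refine Finset.sum_congr rfl fun k _ => ?_
  have h1 : D k * D k = 1 := by
    rcases hD k with h | h <;> rw [h] <;> norm_num
  calc L k * (D k * V k i * (D k * V k j)) = L k * ((D k * D k) * (V k i * V k j)) := by ring
    _ = _ := by rw [h1, one_mul]

lemma Ort_sign {D : Fin (m + 1) → ℝ} (hD : ∀ i, D i = 1 ∨ D i = -1)
    {V : Fin (m + 1) → Fin (m + 1) → ℝ} (hV : Ort V) : Ort fun i j => D i * V i j := by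
  intro i k
  rw [← hV i k]
  refine Finset.sum_congr rfl fun j _ => ?_
  have h1 : D j * D j = 1 := by
    rcases hD j with h | h <;> rw [h] <;> norm_num
  calc D j * V j i * (D j * V j k) = (D j * D j) * (V j i * V j k) := by ring
    _ = _ := by rw [h1, one_mul]

/-- the skew matrix with the entries `x` above the diagonal -/
def Xx (x : Off m → ℝ) : Fin (m + 1) → Fin (m + 1) → ℝ := Xz (Sum.elim 0 x)

lemma Xx_eq (z : Ix m → ℝ) : Xx (fun q => z (Sum.inr q)) = Xz z := by
  funext i j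
  rfl

lemma Xx_norm (x : Off m → ℝ) : ‖Xx x‖ ≤ ‖x‖ := Xz_norm _

/-- the rotated chart -/
def Vc (s : (Fin (m + 1) → Fin (m + 1) → ℝ) → Fin (m + 1) → Fin (m + 1) → ℝ)
    (U : Fin (m + 1) → Fin (m + 1) → ℝ) (x : Off m → ℝ) : Fin (m + 1) → Fin (m + 1) → ℝ :=
  fun i j => ∑ l, s (Xx x) i l * U l j

/-- the Jacobian of the parametrization by the eigenvalues and a chart of the orthogonal group -/
theorem jac {s : (Fin (m + 1) → Fin (m + 1) → ℝ) → Fin (m + 1) → Fin (m + 1) → ℝ} {r : ℝ}
    (h1 : ∀ X, ‖X‖ < r → DifferentiableAt ℝ s X)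
    (h2 : ∀ X, ‖X‖ < r → (∀ i j, X i j = - X j i) → Ort (s X))
    {U : Fin (m + 1) → Fin (m + 1) → ℝ} (hU : Ort U) :
    ∃ j : (Off m → ℝ) → ℝ, (∀ x, 0 ≤ j x) ∧ ∀ z : Ix m → ℝ, ‖fun q => z (Sum.inr q)‖ < r →
      ∃ F' : (Ix m → ℝ) →L[ℝ] (Ix m → ℝ),
        HasFDerivAt (fun z : Ix m → ℝ => cI (Tc (Lz z) (Vc s U fun q => z (Sum.inr q)))) F' z ∧
        |F'.det| = (Vd m fun i => z (Sum.inl i)) * j fun q => z (Sum.inr q) := by
  obtain ⟨Xl, hXl⟩ := Xz_lin (m := m)
  obtain ⟨R, hR⟩ : ∃ R : (Fin (m + 1) → Fin (m + 1) → ℝ) →L[ℝ]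
      (Fin (m + 1) → Fin (m + 1) → ℝ), ∀ A, R A = fun i j => ∑ l, A i l * U l j := by
    obtain ⟨P, hP⟩ : ∃ P : (Fin (m + 1) → Fin (m + 1) → ℝ) →ₗ[ℝ]
      (Fin (m + 1) → Fin (m + 1) → ℝ), ∀ A, P A = fun i j => ∑ l, A i l * U l j := by
      refine ⟨⟨⟨fun A => fun i j => ∑ l, A i l * U l j, ?_⟩, ?_⟩, fun _ => rfl⟩
      · intro x y
        funext i j
        simp only [Pi.add_apply, add_mul, Finset.sum_add_distrib]
      · intro c x
        funext i j
        simp only [Pi.smul_apply, smul_eq_mul, RingHom.id_apply, mul_assoc, Finset.mul_sum]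
    exact ⟨LinearMap.toContinuousLinearMap P, hP⟩
  -- the derivative of the matrices
  have hV : ∀ z : Ix m → ℝ, ‖fun q => z (Sum.inr q)‖ < r →
      HasFDerivAt (fun z : Ix m → ℝ => Vc s U fun q => z (Sum.inr q))
        (R.comp ((fderiv ℝ s (Xz z)).comp Xl)) z ∧
      ∀ᶠ z' in 𝓝 z, Ort (Vc s U fun q => z' (Sum.inr q)) := by
    intro z hz
    have hXr : ‖Xz z‖ < r := (Xz_norm z).trans_lt hz
    have h3 : HasFDerivAt (fun z => s (Xz z)) ((fderiv ℝ s (Xz z)).comp Xl) z := by
      have h4 : HasFDerivAt s (fderiv ℝ s (Xz z)) (Xl z) := by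
        rw [hXl]
        exact (h1 _ hXr).hasFDerivAt
      have h5 := h4.comp z Xl.hasFDerivAt
      have h6 : (s ∘ Xl) = fun z => s (Xz z) := funext fun z => by
        rw [Function.comp_apply, hXl]
      rwa [h6] at h5
    constructor
    · have h5 := R.hasFDerivAt.comp z h3
      have h6 : (R ∘ fun z => s (Xz z)) = fun z : Ix m → ℝ => Vc s U fun q => z (Sum.inr q) :=
        funext fun z => by
          rw [Function.comp_apply, hR]
          rfl
      rwa [h6] at h5
    · have h7 : ∀ᶠ z' in 𝓝 z, ‖Xz z'‖ < r := by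
        have h8 : ContinuousAt (fun z => ‖Xl z‖) z := by fun_prop
        simp only [hXl] at h8
        exact h8.eventually_lt continuousAt_const hXr
      filter_upwards [h7] with z' hz'
      exact Ort_mul (h2 _ hz' (Xz_skew z')) hU
  have key : ∀ x : Off m → ℝ, ∃ c : ℝ, 0 ≤ c ∧ ∀ z : Ix m → ℝ, ‖fun q => z (Sum.inr q)‖ < r →
      (fun q => z (Sum.inr q)) = x → ∃ F' : (Ix m → ℝ) →L[ℝ] (Ix m → ℝ),
        HasFDerivAt (fun z : Ix m → ℝ => cI (Tc (Lz z) (Vc s U fun q => z (Sum.inr q)))) F' z ∧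
        |F'.det| = (Vd m fun i => z (Sum.inl i)) * c := by
    intro x
    by_cases hx : ‖x‖ < r
    · obtain ⟨hV1, hV2⟩ := hV (Sum.elim 0 x) hx
      obtain ⟨A₀, D₀, B₀, -, hA₀, -, hB₀⟩ := Tc_der hV1 hV2
      refine ⟨|LinearMap.det (A₀ : (Ix m → ℝ) →ₗ[ℝ] (Ix m → ℝ))| *
        |LinearMap.det (B₀ : (Ix m → ℝ) →ₗ[ℝ] (Ix m → ℝ))|, by positivity, fun z hz hzx => ?_⟩
      obtain ⟨hV1', hV2'⟩ := hV z hz
      obtain ⟨A, D, B, hd, hA, hD, hB⟩ := Tc_der hV1' hV2'
      have hXz : Xz z = Xz (Sum.elim 0 x : Ix m → ℝ) := by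
        rw [← Xx_eq, hzx]
        rfl
      have hVz : (Vc s U fun q => z (Sum.inr q)) =
          Vc s U fun q => (Sum.elim 0 x : Ix m → ℝ) (Sum.inr q) := by
        rw [hzx]
        rfl
      have hAA : A = A₀ := by
        refine ContinuousLinearMap.ext fun u => ?_
        rw [hA, hA₀, hVz]
      have hBB : B = B₀ := by
        refine ContinuousLinearMap.ext fun u => ?_
        rw [hB, hB₀, hVz, hXz]
      refine ⟨_, hd, ?_⟩
      have h3 : (A.comp (D.comp B)).det = LinearMap.det (A : (Ix m → ℝ) →ₗ[ℝ] (Ix m → ℝ)) *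
          (LinearMap.det (D : (Ix m → ℝ) →ₗ[ℝ] (Ix m → ℝ)) *
            LinearMap.det (B : (Ix m → ℝ) →ₗ[ℝ] (Ix m → ℝ))) := by
        rw [← LinearMap.det_comp, ← LinearMap.det_comp]
        rfl
      rw [h3, abs_mul, abs_mul, det_D hD, hAA, hBB]
      ring
    · refine ⟨0, le_rfl, fun z hz hzx => absurd ?_ hx⟩
      rw [← hzx]
      exact hz
  choose j hj0 hj using key
  exact ⟨j, hj0, fun z hz => hj _ z hz rfl⟩

end Pool.Agent.L5helper74.QR
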