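import Pool.Agent.L5helper74.QR.Wq1

/-!
# The exact volume of the set of symmetric matrices with given eigenvalues: one piece
-/

set_option autoImplicit false
set_option linter.unusedSectionVars false

open Set Filter Topology MeasureTheory
open scoped ENNReal
open Pool.Agent.L5helper74.LR

noncomputable section

namespace Pool.Agent.L5helper74.QR

variable {m : ℕ}

/-- the product sets in the coordinates -/
def Pr (Γ : Set (Fin m → ℝ)) (E : Set (Off m → ℝ)) : Set (Ix m → ℝ) :=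
  {z | (fun i => z (Sum.inl i)) ∈ Γ ∧ (fun q => z (Sum.inr q)) ∈ E}

lemma Pr_meas {Γ : Set (Fin m → ℝ)} {E : Set (Off m → ℝ)} (hΓ : MeasurableSet Γ)
    (hE : MeasurableSet E) : MeasurableSet (Pr Γ E) := by
  refine MeasurableSet.inter ?_ ?_
  · exact (measurable_pi_lambda _ fun i => measurable_pi_apply _) hΓ
  · exact (measurable_pi_lambda _ fun i => measurable_pi_apply _) hE

theorem piece {F : (Ix m → ℝ) → Ix m → ℝ} {j : (Off m → ℝ) → ℝ}
    {Γ : Set (Fin m → ℝ)} {E : Set (Off m → ℝ)} (hΓ : MeasurableSet Γ) (hE : MeasurableSet E)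
    (hF : ∀ z ∈ Pr Γ E, ∃ F' : (Ix m → ℝ) →L[ℝ] (Ix m → ℝ), HasFDerivAt F F' z ∧
      |F'.det| = (Vd m fun i => z (Sum.inl i)) * j fun q => z (Sum.inr q))
    (hinj : InjOn F (Pr Γ E)) :
    MeasurableSet (F '' Pr Γ E) ∧ volume (F '' Pr Γ E) =
      (∫⁻ x in E, ENNReal.ofReal (j x)) * ∫⁻ y in Γ, ENNReal.ofReal (Vd m y) := by
  have hS := Pr_meas hΓ hE
  choose! F' hF'1 hF'2 using hF
  have hw : ∀ z ∈ Pr Γ E, HasFDerivWithinAt F (F' z) (Pr Γ E) z := fun z hz =>
    (hF'1 z hz).hasFDerivWithinAt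
  refine ⟨measurable_image_of_fderivWithin hS hw hinj, ?_⟩
  rw [← lintegral_abs_det_fderiv_eq_addHaar_image volume hS hw hinj]
  have hae := aemeasurable_ofReal_abs_det_fderivWithin (volume : Measure (Ix m → ℝ)) hS hw
  obtain ⟨G, hG⟩ : ∃ G : (Fin m → ℝ) × (Off m → ℝ) → ℝ≥0∞,
      G = fun w => ENNReal.ofReal (Vd m w.1) * ENNReal.ofReal (j w.2) := ⟨_, rfl⟩
  obtain ⟨e, he⟩ : ∃ e : (Ix m → ℝ) ≃ᵐ (Fin m → ℝ) × (Off m → ℝ),
      e = MeasurableEquiv.sumPiEquivProdPi (fun _ : Ix m => ℝ) := ⟨_, rfl⟩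
  have hmp : MeasurePreserving e (volume : Measure (Ix m → ℝ)) volume := by
    rw [he]
    exact volume_measurePreserving_sumPiEquivProdPi (fun _ : Ix m => ℝ)
  have hSe : Pr Γ E = e ⁻¹' (Γ ×ˢ E) := by
    rw [he]
    ext z
    rfl
  have hGe : ∀ z ∈ Pr Γ E, ENNReal.ofReal |(F' z).det| = G (e z) := by
    intro z hz
    have h0 : 0 ≤ Vd m fun i => z (Sum.inl i) := Finset.prod_nonneg fun _ _ => abs_nonneg _
    rw [hF'2 z hz, hG, he, ENNReal.ofReal_mul h0]
    rfl
  have hmr : MeasurePreserving e (volume.restrict (Pr Γ E)) (volume.restrict (Γ ×ˢ E)) := by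
    rw [hSe]
    exact hmp.restrict_preimage_emb e.measurableEmbedding (Γ ×ˢ E)
  have hGm : AEMeasurable G (volume.restrict (Γ ×ˢ E)) := by
    rw [← hmr.map_eq, e.measurableEmbedding.aemeasurable_map_iff]
    refine hae.congr ?_
    filter_upwards [ae_restrict_mem hS] with z hz
    exact hGe z hz
  have h1 : ∫⁻ z in Pr Γ E, ENNReal.ofReal |(F' z).det| = ∫⁻ w in Γ ×ˢ E, G w := by
    rw [← hmr.map_eq, e.measurableEmbedding.lintegral_map]
    exact setLIntegral_congr_fun hS hGe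
  rw [h1, Measure.volume_eq_prod, ← Measure.prod_restrict]
  rw [Measure.volume_eq_prod, ← Measure.prod_restrict] at hGm
  rw [lintegral_prod _ hGm]
  have h2 : ∀ y, ∫⁻ x in E, G (y, x) =
      ENNReal.ofReal (Vd m y) * ∫⁻ x in E, ENNReal.ofReal (j x) := by
    intro y
    rw [hG]
    exact lintegral_const_mul' (ENNReal.ofReal (Vd m y)) (fun x => ENNReal.ofReal (j x))
      ENNReal.ofReal_ne_top
  simp only [h2]
  rw [lintegral_mul_const _ (Vd_meas m).ennreal_ofReal, mul_comm]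

end Pool.Agent.L5helper74.QR
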