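import Pool.Agent.L5helper74.QR.Wq2
import Pool.Agent.L5helper74.LR.Cpt
import Pool.Agent.L5helper74.LR.Top

/-!
# The exact volume of the set of symmetric matrices with given eigenvalues: Weyl's formula
-/

set_option autoImplicit false
set_option linter.unusedSectionVars false

open Set Filter Topology MeasureTheory
open scoped ENNReal
open Pool.Agent.L5helper74.LR

noncomputable section

namespace Pool.Agent.L5helper74.QR

variable {m : ℕ}

/-- the matrices which are covered by the chart at `U` up to signs -/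
def Bs (s : (Fin (m + 1) → Fin (m + 1) → ℝ) → Fin (m + 1) → Fin (m + 1) → ℝ) (ρ : ℝ)
    (U : Fin (m + 1) → Fin (m + 1) → ℝ) : Set (Fin (m + 1) → Fin (m + 1) → ℝ) :=
  {V | ∃ D : Fin (m + 1) → ℝ, (∀ i, D i = 1 ∨ D i = -1) ∧ ∃ x : Off m → ℝ, ‖x‖ ≤ ρ ∧
    V = fun i j => D i * Vc s U x i j}

lemma Vc_cont {s : (Fin (m + 1) → Fin (m + 1) → ℝ) → Fin (m + 1) → Fin (m + 1) → ℝ} {r : ℝ}
    (h1 : ∀ X, ‖X‖ < r → DifferentiableAt ℝ s X) (U : Fin (m + 1) → Fin (m + 1) → ℝ)
    {x : Off m → ℝ} (hx : ‖x‖ < r) : ContinuousAt (Vc s U) x := by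
  obtain ⟨Xl, hXl⟩ := Xz_lin (m := m)
  have h2 : Continuous fun x : Off m → ℝ => (Sum.elim 0 x : Ix m → ℝ) := by
    refine continuous_pi fun q => ?_
    rcases q with q | q
    · exact continuous_const
    · exact continuous_apply q
  have h3 : Continuous fun x : Off m → ℝ => Xx x := by
    have h4 := Xl.continuous.comp h2
    have h5 : (Xl ∘ fun x : Off m → ℝ => (Sum.elim 0 x : Ix m → ℝ)) = fun x => Xx x := by
      funext x
      exact hXl _
    rwa [h5] at h4
  have h4 : ContinuousAt (fun x : Off m → ℝ => s (Xx x)) x :=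
    ContinuousAt.comp (f := fun x : Off m → ℝ => Xx x) (g := s)
      (h1 _ ((Xx_norm x).trans_lt hx)).continuousAt h3.continuousAt
  have h5 : Continuous fun A : Fin (m + 1) → Fin (m + 1) → ℝ => fun i j => ∑ l, A i l * U l j := by
    fun_prop
  exact ContinuousAt.comp (f := fun x : Off m → ℝ => s (Xx x))
    (g := fun A : Fin (m + 1) → Fin (m + 1) → ℝ => fun i j => ∑ l, A i l * U l j)
    h5.continuousAt h4

lemma Bs_closed {s : (Fin (m + 1) → Fin (m + 1) → ℝ) → Fin (m + 1) → Fin (m + 1) → ℝ} {r ρ : ℝ}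
    (h1 : ∀ X, ‖X‖ < r → DifferentiableAt ℝ s X) (hρ : ρ < r)
    (U : Fin (m + 1) → Fin (m + 1) → ℝ) : IsClosed (Bs s ρ U) := by
  have h2 : IsCompact (Set.pi univ fun _ : Fin (m + 1) => ({1, -1} : Set ℝ)) :=
    isCompact_univ_pi fun _ => (Set.toFinite _).isCompact
  have h3 := h2.prod (isCompact_closedBall (0 : Off m → ℝ) ρ)
  have h4 : ContinuousOn (fun p : (Fin (m + 1) → ℝ) × (Off m → ℝ) =>
      fun i j : Fin (m + 1) => p.1 i * Vc s U p.2 i j)
      ((Set.pi univ fun _ : Fin (m + 1) => ({1, -1} : Set ℝ)) ×ˢ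
        Metric.closedBall (0 : Off m → ℝ) ρ) := by
    rintro ⟨D, x⟩ ⟨-, hx⟩
    refine ContinuousAt.continuousWithinAt ?_
    have h5 : ContinuousAt (fun p : (Fin (m + 1) → ℝ) × (Off m → ℝ) => Vc s U p.2) (D, x) :=
      ContinuousAt.comp (f := fun p : (Fin (m + 1) → ℝ) × (Off m → ℝ) => p.2) (g := Vc s U)
        (Vc_cont h1 U ((mem_closedBall_zero_iff.1 hx).trans_lt hρ)) continuousAt_snd
    refine continuousAt_pi.2 fun i => continuousAt_pi.2 fun j => ?_
    refine ContinuousAt.mul ?_ ?_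
    · exact (continuous_apply i).continuousAt.comp continuousAt_fst
    · exact (continuousAt_pi.1 (continuousAt_pi.1 h5 i) j)
  have h5 := (h3.image_of_continuousOn h4).isClosed
  have h6 : Bs s ρ U = (fun p : (Fin (m + 1) → ℝ) × (Off m → ℝ) =>
      fun i j : Fin (m + 1) => p.1 i * Vc s U p.2 i j) ''
      ((Set.pi univ fun _ : Fin (m + 1) => ({1, -1} : Set ℝ)) ×ˢ
        Metric.closedBall (0 : Off m → ℝ) ρ) := by
    ext V
    constructor
    · rintro ⟨D, hD, x, hx, rfl⟩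
      exact ⟨(D, x), ⟨fun i _ => hD i, mem_closedBall_zero_iff.2 hx⟩, rfl⟩
    · rintro ⟨⟨D, x⟩, ⟨hD, hx⟩, rfl⟩
      exact ⟨D, fun i => hD i (mem_univ i), x, mem_closedBall_zero_iff.1 hx, rfl⟩
  rw [h6]
  exact h5

lemma Vd_zero {y : Fin m → ℝ} (h : ¬ Function.Injective (Fin.cons 0 y : Fin (m + 1) → ℝ)) :
    Vd m y = 0 := by
  obtain ⟨a, b, hab, hne⟩ : ∃ a b : Fin (m + 1), (Fin.cons 0 y : Fin (m + 1) → ℝ) a =
      (Fin.cons 0 y : Fin (m + 1) → ℝ) b ∧ a ≠ b := by
    simp only [Function.Injective] at h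
    push Not at h
    exact h
  unfold Vd
  rcases lt_or_gt_of_ne hne with h1 | h1
  · exact Finset.prod_eq_zero (Finset.mem_univ ⟨(a, b), h1⟩) (by simp [hab])
  · exact Finset.prod_eq_zero (Finset.mem_univ ⟨(b, a), h1⟩) (by simp [hab])

/-- Weyl's formula for strictly ordered eigenvalues -/
theorem weyl_strict (m : ℕ) : ∃ κ : ℝ≥0∞, ∀ Γ : Set (Fin m → ℝ), MeasurableSet Γ →
    (∀ y ∈ Γ, StrictMono (Fin.cons 0 y : Fin (m + 1) → ℝ)) →
    volume (Wg m Γ) = κ * ∫⁻ y in Γ, ENNReal.ofReal (Vd m y) := by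
  classical
  obtain ⟨s, r, B, δ, hr, hδ, h1', h2, h3, hG, hs0⟩ := chart (m + 1)
  have h1 : ∀ X, ‖X‖ < r → DifferentiableAt ℝ s X := fun X hX => (h1' X hX).1
  obtain ⟨n, hn⟩ : ∃ n : ℝ, n = ((m + 1 : ℕ) : ℝ) := ⟨_, rfl⟩
  have hn0 : 0 < n := by rw [hn]; positivity
  have hsc : ContinuousAt s 0 := (h1 0 (by rwa [norm_zero])).continuousAt
  obtain ⟨r₁, hr₁, hr₁s⟩ : ∃ r₁ : ℝ, 0 < r₁ ∧ ∀ X, ‖X‖ < r₁ → ‖s X - I1‖ < 1 / (4 * n ^ 2) := by
    have h3 := Metric.continuousAt_iff.1 hsc (1 / (4 * n ^ 2)) (by positivity)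
    obtain ⟨r₁, hr₁, h4⟩ := h3
    refine ⟨r₁, hr₁, fun X hX => ?_⟩
    have := h4 (x := X) (by rwa [dist_zero_right])
    rwa [hs0, dist_eq_norm] at this
  obtain ⟨ρ, hρ⟩ : ∃ ρ : ℝ, ρ = min r r₁ / 2 := ⟨_, rfl⟩
  have hρ0 : 0 < ρ := by
    rw [hρ]
    have := lt_min hr hr₁
    positivity
  have hρr : ρ < r := by
    rw [hρ]
    have h3 := lt_min hr hr₁
    have h4 := min_le_left r r₁
    linarith
  have hρr₁ : ρ < r₁ := by
    rw [hρ]
    have h3 := lt_min hr hr₁
    have h4 := min_le_right r r₁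
    linarith
  obtain ⟨t, ht1, ht2, ht3⟩ := (Ort_compact (m + 1)).finite_cover_balls
    (show 0 < min δ (ρ / 2) / n by positivity)
  -- the enumeration
  obtain ⟨N, U, hU, hcov⟩ : ∃ (N : ℕ) (U : Fin N → Fin (m + 1) → Fin (m + 1) → ℝ),
      (∀ k, Ort (U k)) ∧ ∀ V, Ort V → ∃ k, ‖V - U k‖ < min δ (ρ / 2) / n := by
    obtain ⟨e⟩ : Nonempty (ht2.toFinset ≃ Fin ht2.toFinset.card) := ⟨ht2.toFinset.equivFin⟩
    refine ⟨ht2.toFinset.card, fun k => (e.symm k).1, fun k => ?_, fun V hV => ?_⟩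
    · exact ht1 ((Set.Finite.mem_toFinset _).1 (e.symm k).2)
    · obtain ⟨W, hW, hWV⟩ := mem_iUnion₂.1 (ht3 hV)
      rw [mem_ball_iff_norm] at hWV
      refine ⟨e ⟨W, (Set.Finite.mem_toFinset _).2 hW⟩, ?_⟩
      show ‖V - (e.symm (e ⟨W, (Set.Finite.mem_toFinset _).2 hW⟩)).1‖ < _
      rw [Equiv.symm_apply_apply]
      exact hWV
  have hOrt : ∀ (k : Fin N) (x : Off m → ℝ), ‖x‖ < r → Ort (Vc s (U k) x) := fun k x hx =>
    Ort_mul (h2 _ ((Xx_norm x).trans_lt hx) (Xz_skew _)) (hU k)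
  -- every orthogonal matrix is in a chart
  have hin : ∀ V, Ort V → ∃ k, V ∈ Bs s ρ (U k) := by
    intro V hV
    obtain ⟨k, hk⟩ := hcov V hV
    obtain ⟨A, hA⟩ : ∃ A : Fin (m + 1) → Fin (m + 1) → ℝ, A = fun i j => ∑ l, V i l * U k j l :=
      ⟨_, rfl⟩
    have hUo := hU k
    have hUt : Ort (fun i j => U k j i) := fun i j => V_row hUo i j
    have hAo : Ort A := by
      rw [hA]
      exact Ort_mul hV hUt
    have hAd : ‖A - I1‖ < min δ (ρ / 2) := by
      have h4 : ∀ i j, |(A - (I1 : Fin (m + 1) → Fin (m + 1) → ℝ)) i j| ≤ n * ‖V - U k‖ := by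
        intro i j
        have h5 : (A - (I1 : Fin (m + 1) → Fin (m + 1) → ℝ)) i j =
            ∑ l, (V - U k) i l * U k j l := by
          have h6 := V_row hUo i j
          simp only [Pi.sub_apply, hA, I1, sub_mul, Finset.sum_sub_distrib, h6]
        rw [h5]
        refine (Finset.abs_sum_le_sum_abs _ _).trans ?_
        have h7 : ∀ l ∈ (Finset.univ : Finset (Fin (m + 1))),
            |(V - U k) i l * U k j l| ≤ ‖V - U k‖ := by
          intro l _
          rw [abs_mul]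
          have h8 : |(V - U k) i l| ≤ ‖V - U k‖ := by
            rw [← Real.norm_eq_abs]
            exact (norm_le_pi_norm ((V - U k) i) l).trans (norm_le_pi_norm (V - U k) i)
          exact (mul_le_mul h8 (Ort_le hUo j l) (abs_nonneg _) (norm_nonneg _)).trans
            (by rw [mul_one])
        refine (Finset.sum_le_sum h7).trans ?_
        simp [hn]
      have h5 : ‖A - I1‖ ≤ n * ‖V - U k‖ := by
        refine (pi_norm_le_iff_of_nonneg (by positivity)).2 fun i => ?_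
        exact (pi_norm_le_iff_of_nonneg (by positivity)).2 fun j => h4 i j
      refine h5.trans_lt ?_
      rw [lt_div_iff₀ hn0] at hk
      linarith
    obtain ⟨-, h5⟩ := h3 A hAo (hAd.trans_le (min_le_left _ _))
    have hAρ : ‖A - I1‖ < ρ / 2 := hAd.trans_le (min_le_right _ _)
    refine ⟨k, fun _ => 1, fun _ => Or.inl rfl, fun q => A q.1.1 q.1.2 - A q.1.2 q.1.1, ?_, ?_⟩
    · refine (pi_norm_le_iff_of_nonneg hρ0.le).2 fun q => ?_
      have h6 : ∀ i j, |A i j - (I1 : Fin (m + 1) → Fin (m + 1) → ℝ) i j| ≤ ρ / 2 := by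
        intro i j
        rw [← Real.norm_eq_abs]
        exact ((norm_le_pi_norm ((A - (I1 : Fin (m + 1) → Fin (m + 1) → ℝ)) i) j).trans
          (norm_le_pi_norm (A - (I1 : Fin (m + 1) → Fin (m + 1) → ℝ)) i)).trans hAρ.le
      have h7 := h6 q.1.1 q.1.2
      have h8 := h6 q.1.2 q.1.1
      have h9 : (I1 : Fin (m + 1) → Fin (m + 1) → ℝ) q.1.1 q.1.2 = 0 := by
        unfold I1
        rw [if_neg q.2.ne]
      have h10 : (I1 : Fin (m + 1) → Fin (m + 1) → ℝ) q.1.2 q.1.1 = 0 := by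
        unfold I1
        rw [if_neg q.2.ne']
      rw [h9, sub_zero] at h7
      rw [h10, sub_zero] at h8
      rw [Real.norm_eq_abs]
      refine (abs_sub _ _).trans ?_
      linarith
    · have h6 : Xx (fun q : Off m => A q.1.1 q.1.2 - A q.1.2 q.1.1) =
          fun i j => A i j - A j i := by
        funext i j
        unfold Xx Xz
        rcases lt_trichotomy i j with h | h | h
        · rw [dif_pos h]
          rfl
        · subst h
          simp
        · rw [dif_neg h.not_gt, dif_pos h]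
          simp only [Sum.elim_inr]
          ring
      funext i j
      simp only [Vc, h6, h5, one_mul]
      rw [hA]
      calc V i j = ∑ p, V i p * ∑ l, U k l p * U k l j := by simp [hUo _ _]
        _ = ∑ l, (∑ p, V i p * U k l p) * U k l j := by
            simp only [Finset.sum_mul, Finset.mul_sum]
            rw [Finset.sum_comm]
            exact Finset.sum_congr rfl fun p _ => Finset.sum_congr rfl fun l _ => by ring
  -- the pieces
  obtain ⟨E, hE⟩ : ∃ E : Fin N → Set (Off m → ℝ), E = fun k =>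
      {x | ‖x‖ ≤ ρ ∧ ∀ i < k, Vc s (U k) x ∉ Bs s ρ (U i)} := ⟨_, rfl⟩
  have hEm : ∀ k, MeasurableSet (E k) := by
    intro k
    have h4 : ContinuousOn (Vc s (U k)) (Metric.closedBall 0 ρ) := fun x hx =>
      (Vc_cont h1 (U k) ((mem_closedBall_zero_iff.1 hx).trans_lt hρr)).continuousWithinAt
    have h5 : E k = Metric.closedBall 0 ρ ∩ ⋂ i : {i : Fin N // i < k},
        (Metric.closedBall 0 ρ ∩ (Vc s (U k)) ⁻¹' Bs s ρ (U i.1))ᶜ := by
      rw [hE]
      ext x
      simp only [mem_ofPred_eq, mem_inter_iff, mem_closedBall_zero_iff, mem_iInter, mem_compl_iff,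
        mem_preimage, not_and, Subtype.forall]
      constructor
      · rintro ⟨h6, h7⟩
        exact ⟨h6, fun i hi _ => h7 i hi⟩
      · rintro ⟨h6, h7⟩
        exact ⟨h6, fun i hi => h7 i hi h6⟩
    rw [h5]
    refine measurableSet_closedBall.inter (MeasurableSet.iInter fun i => ?_)
    exact (h4.preimage_isClosed_of_isClosed Metric.isClosed_closedBall
      (Bs_closed h1 hρr _)).measurableSet.compl
  have hEρ : ∀ k, ∀ x ∈ E k, ‖x‖ ≤ ρ := by
    intro k x hx
    rw [hE] at hx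
    exact hx.1
  choose j hj0 hj using fun k => jac h1 h2 (hU k)
  obtain ⟨F, hF⟩ : ∃ F : Fin N → (Ix m → ℝ) → Ix m → ℝ, F = fun k z =>
      cI (Tc (Lz z) (Vc s (U k) fun q => z (Sum.inr q))) := ⟨_, rfl⟩
  refine ⟨∑ k, ∫⁻ x in E k, ENNReal.ofReal (j k x), fun Γ hΓ hΓs => ?_⟩
  have hFd : ∀ k, ∀ z ∈ Pr Γ (E k), ∃ F' : (Ix m → ℝ) →L[ℝ] (Ix m → ℝ),
      HasFDerivAt (F k) F' z ∧
      |F'.det| = (Vd m fun i => z (Sum.inl i)) * j k fun q => z (Sum.inr q) := by
    intro k z hz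
    have h4 := hj k z ((hEρ k _ hz.2).trans_lt hρr)
    rw [hF]
    exact h4
  have hFi : ∀ k, InjOn (F k) (Pr Γ (E k)) := by
    intro k z hz z' hz' he
    have hx := hEρ k _ hz.2
    have hx' := hEρ k _ hz'.2
    have hX := (Xx_norm _).trans hx
    have hX' := (Xx_norm _).trans hx'
    have h4 := hr₁s _ (hX.trans_lt hρr₁)
    have h5 := hr₁s _ (hX'.trans_lt hρr₁)
    have hUo := hU k
    obtain ⟨h6, h7⟩ := inj_near (hOrt k _ (hx.trans_lt hρr)) (hOrt k _ (hx'.trans_lt hρr))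
      (fun i j => by
        have h8 : ∀ i l, |s (Xx fun q => z' (Sum.inr q)) i l - s (Xx fun q => z (Sum.inr q)) i l| ≤
            2 * (1 / (4 * n ^ 2)) := by
          intro i l
          have h9 : |s (Xx fun q => z' (Sum.inr q)) i l - s (Xx fun q => z (Sum.inr q)) i l| ≤
              ‖s (Xx fun q => z' (Sum.inr q)) - s (Xx fun q => z (Sum.inr q))‖ := by
            rw [← Real.norm_eq_abs]
            exact (norm_le_pi_norm ((s (Xx fun q => z' (Sum.inr q)) -
              s (Xx fun q => z (Sum.inr q))) i) l).trans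
              (norm_le_pi_norm (s (Xx fun q => z' (Sum.inr q)) - s (Xx fun q => z (Sum.inr q))) i)
          have h10 : s (Xx fun q => z' (Sum.inr q)) - s (Xx fun q => z (Sum.inr q)) =
              (s (Xx fun q => z' (Sum.inr q)) - I1) - (s (Xx fun q => z (Sum.inr q)) - I1) := by
            abel
          rw [h10] at h9
          have h11 := norm_sub_le (s (Xx fun q => z' (Sum.inr q)) - I1)
            (s (Xx fun q => z (Sum.inr q)) - I1)
          linarith
        have h9 : |Vc s (U k) (fun q => z' (Sum.inr q)) i j -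
            Vc s (U k) (fun q => z (Sum.inr q)) i j| ≤ n * (2 * (1 / (4 * n ^ 2))) := by
          have h10 : Vc s (U k) (fun q => z' (Sum.inr q)) i j -
              Vc s (U k) (fun q => z (Sum.inr q)) i j =
              ∑ l, (s (Xx fun q => z' (Sum.inr q)) i l - s (Xx fun q => z (Sum.inr q)) i l) *
                U k l j := by
            unfold Vc
            rw [← Finset.sum_sub_distrib]
            exact Finset.sum_congr rfl fun l _ => by ring
          rw [h10]
          refine (Finset.abs_sum_le_sum_abs _ _).trans ?_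
          have h11 : ∀ l ∈ (Finset.univ : Finset (Fin (m + 1))),
              |(s (Xx fun q => z' (Sum.inr q)) i l - s (Xx fun q => z (Sum.inr q)) i l) *
                U k l j| ≤ 2 * (1 / (4 * n ^ 2)) := by
            intro l _
            rw [abs_mul]
            exact (mul_le_mul (h8 i l) (Ort_le hUo l j) (abs_nonneg _) (by positivity)).trans
              (by rw [mul_one])
          refine (Finset.sum_le_sum h11).trans ?_
          rw [Finset.sum_const, Finset.card_univ, Fintype.card_fin, nsmul_eq_mul, ← hn]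
        rw [← hn]
        calc _ ≤ n * (2 * (1 / (4 * n ^ 2))) * n := mul_le_mul_of_nonneg_right h9 hn0.le
          _ = 1 / 2 := by field_simp; norm_num) (L := Lz z) (L' := Lz z')
      (by simp [Lz]) (by simp [Lz]) (hΓs _ hz.1).injective (by
        rw [hF] at he
        exact he)
    have h8 : s (Xx fun q => z (Sum.inr q)) = s (Xx fun q => z' (Sum.inr q)) := by
      have h9 : ∀ x : Off m → ℝ, ∀ i l, ∑ j, Vc s (U k) x i j * U k l j = s (Xx x) i l := by
        intro x i l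
        unfold Vc
        calc ∑ j, (∑ p, s (Xx x) i p * U k p j) * U k l j =
              ∑ p, s (Xx x) i p * ∑ j, U k p j * U k l j := by
              simp only [Finset.sum_mul, Finset.mul_sum]
              rw [Finset.sum_comm]
              exact Finset.sum_congr rfl fun p _ => Finset.sum_congr rfl fun j _ => by ring
          _ = s (Xx x) i l := by simp [V_row hUo _ _]
      funext i l
      rw [← h9, ← h9, h7]
    have h9 : Xx (fun q => z (Sum.inr q)) = Xx fun q => z' (Sum.inr q) := by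
      rw [← hG _ (hX.trans_lt hρr), ← hG _ (hX'.trans_lt hρr), h8]
    funext q
    rcases q with q | q
    · have := congrFun h6 q.succ
      simpa [Lz] using this
    · have := congrFun (congrFun h9 q.1.1) q.1.2
      unfold Xx Xz at this
      rwa [dif_pos q.2, dif_pos q.2] at this
  have hpc := fun k => piece hΓ (hEm k) (hFd k) (hFi k)
  have hlt : ∀ i k : Fin N, i < k → Disjoint (F i '' Pr Γ (E i)) (F k '' Pr Γ (E k)) := by
    intro i k hik
    rw [Set.disjoint_left]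
    rintro u ⟨z', hz', rfl⟩ ⟨z, hz, he⟩
    have hx := hEρ k _ hz.2
    have hx' := hEρ i _ hz'.2
    have ho := hOrt k _ (hx.trans_lt hρr)
    have ho' := hOrt i _ (hx'.trans_lt hρr)
    rw [hF] at he
    have he' : cI (Tc (Lz z) (Vc s (U k) fun q => z (Sum.inr q))) =
        cI (Tc (Lz z') (Vc s (U i) fun q => z' (Sum.inr q))) := he
    have hL : Lz z = Lz z' := sorted_eq ho ho' (hΓs _ hz.1).monotone (hΓs _ hz'.1).monotone
      (by simp [Lz]) (by simp [Lz]) he'
    rw [hL] at he'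
    obtain ⟨D, hD, hD2⟩ := uniq ho' ho (hΓs _ hz'.1).injective he'.symm
    have h4 := hz.2
    rw [hE] at h4
    exact h4.2 i hik ⟨D, hD, _, hx', funext fun a => funext fun b => hD2 a b⟩
  have hdis : Pairwise (Function.onFun Disjoint fun k => F k '' Pr Γ (E k)) := by
    intro i k hik
    rcases lt_or_gt_of_ne hik with h4 | h4
    · exact hlt i k h4
    · exact (hlt k i h4).symm
  have hWu : Wg m Γ = ⋃ k, F k '' Pr Γ (E k) := by
    refine Subset.antisymm ?_ ?_
    · rintro u ⟨y, hy, -, V, hV, rfl⟩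
      obtain ⟨k, hk, hkm⟩ := WellFounded.has_min (wellFounded_lt (α := Fin N))
        {k | V ∈ Bs s ρ (U k)} (hin V hV)
      obtain ⟨D, hD, x, hx, hVx⟩ : V ∈ Bs s ρ (U k) := hk
      refine mem_iUnion.2 ⟨k, Sum.elim y x, ⟨hy, ?_⟩, ?_⟩
      · rw [hE]
        refine ⟨hx, fun i hi hB => ?_⟩
        obtain ⟨D', hD', x', hx', hV'⟩ := hB
        have hV'' : Vc s (U k) x = fun i' j' => D' i' * Vc s (U i) x' i' j' := hV'
        refine hkm i ⟨fun p => D p * D' p, fun p => ?_, x', hx', ?_⟩ hi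
        · show D p * D' p = 1 ∨ D p * D' p = -1
          rcases hD p with h4 | h4 <;> rcases hD' p with h5 | h5 <;> rw [h4, h5] <;> norm_num
        · rw [hVx, hV'']
          funext a b
          ring
      · rw [hF]
        show cI (Tc (Fin.cons 0 y) (Vc s (U k) x)) = cI (Tc (Fin.cons 0 y) V)
        rw [hVx, Tc_sign hD]
    · refine iUnion_subset fun k => ?_
      rintro _ ⟨z, hz, rfl⟩
      refine ⟨fun i => z (Sum.inl i), hz.1, (hΓs _ hz.1).monotone,
        Vc s (U k) fun q => z (Sum.inr q), hOrt k _ ((hEρ k _ hz.2).trans_lt hρr), ?_⟩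
      rw [hF]
      rfl
  rw [hWu, measure_iUnion hdis fun k => (hpc k).1, tsum_fintype, Finset.sum_mul]
  exact Finset.sum_congr rfl fun k _ => (hpc k).2

/-- Weyl's formula -/
theorem weyl_eq (m : ℕ) : ∃ κ : ℝ≥0∞, κ ≠ 0 ∧ κ ≠ ⊤ ∧ ∀ Γ : Set (Fin m → ℝ), MeasurableSet Γ →
    volume (Wg m Γ) = κ * ∫⁻ y in Γ ∩ {y | Monotone (Fin.cons 0 y : Fin (m + 1) → ℝ)},
      ENNReal.ofReal (Vd m y) := by
  obtain ⟨κ, hκ⟩ := weyl_strict m
  obtain ⟨C, hC, hw⟩ := weyl m
  obtain ⟨hSm, hMm⟩ := goe_meas m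
  obtain ⟨c, hc, hwl⟩ := weyl_low m
  obtain ⟨c₀, hc₀, hp⟩ := low_pow m
  obtain ⟨Γ₁, hΓ₁, h1, h2⟩ := hp 1 one_pos
  have h3 := hκ Γ₁ hΓ₁ fun y hy => (h1 y hy).2
  have h4 := hwl Γ₁ hΓ₁ fun y hy => (h1 y hy).2.injective
  have h5 : {u : Ix m → ℝ | ∃ y ∈ Γ₁, ∃ V, Ort V ∧ u = cI (Tc (Fin.cons 0 y) V)} ⊆ Wg m Γ₁ := by
    rintro u ⟨y, hy, V, hV, hu⟩
    exact ⟨y, hy, (h1 y hy).2.monotone, V, hV, hu⟩
  have h6 := h4.trans (measure_mono h5)
  have hI0 : ∫⁻ y in Γ₁, ENNReal.ofReal (Vd m y) ≠ 0 := by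
    refine ne_of_gt (lt_of_lt_of_le ?_ h2)
    rw [ENNReal.ofReal_pos]
    positivity
  have hWf : volume (Wg m Γ₁) ≠ ⊤ := by
    refine ne_top_of_le_ne_top (measure_closedBall_lt_top (x := (0 : Ix m → ℝ))
      (r := 2 * (((m + 1 : ℕ) : ℝ) * 1))).ne (measure_mono fun u hu => ?_)
    rw [mem_closedBall_zero_iff]
    exact Wg_bd (fun y hy => (h1 y hy).1.le) u hu
  refine ⟨κ, fun h => ?_, fun h => ?_, fun Γ hΓ => ?_⟩
  · rw [h, zero_mul] at h3
    rw [h3] at h6
    rcases mul_eq_zero.1 (le_zero_iff.1 h6) with h7 | h7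
    · exact hc h7
    · exact hI0 h7
  · rw [h, ENNReal.top_mul hI0] at h3
    exact hWf h3
  · rw [← goe_eq m hΓ, ← hκ _ (hΓ.inter hSm) fun y hy => hy.2]
    refine le_antisymm ?_ (measure_mono ?_)
    · have h7 : Wg m Γ ⊆ Wg m (Γ ∩ {y | StrictMono (Fin.cons 0 y : Fin (m + 1) → ℝ)}) ∪
          {u : Ix m → ℝ | ∃ y ∈ Γ ∩ {y | Monotone (Fin.cons 0 y : Fin (m + 1) → ℝ)} ∩
            {y | StrictMono (Fin.cons 0 y : Fin (m + 1) → ℝ)}ᶜ, ∃ V, Ort V ∧
              u = cI (Tc (Fin.cons 0 y) V)} := by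
        rintro u ⟨y, hy, hm, V, hV, hu⟩
        by_cases h8 : StrictMono (Fin.cons 0 y : Fin (m + 1) → ℝ)
        · exact Or.inl ⟨y, ⟨hy, h8⟩, hm, V, hV, hu⟩
        · exact Or.inr ⟨y, ⟨⟨hy, hm⟩, h8⟩, V, hV, hu⟩
      refine (measure_mono h7).trans ((measure_union_le _ _).trans ?_)
      have h8 := hw _ ((hΓ.inter hMm).inter hSm.compl)
      have h9 : ∫⁻ y in Γ ∩ {y | Monotone (Fin.cons 0 y : Fin (m + 1) → ℝ)} ∩
            {y | StrictMono (Fin.cons 0 y : Fin (m + 1) → ℝ)}ᶜ, ENNReal.ofReal (Vd m y) = 0 := by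
        rw [setLIntegral_congr_fun (g := fun _ => 0) ((hΓ.inter hMm).inter hSm.compl)]
        · simp
        · rintro y ⟨⟨-, hy1⟩, hy2⟩
          have h10 : ¬ Function.Injective (Fin.cons 0 y : Fin (m + 1) → ℝ) := fun h11 =>
            hy2 (hy1.strictMono_of_injective h11)
          simp only [Vd_zero h10, ENNReal.ofReal_zero]
      rw [h9, mul_zero] at h8
      rw [le_zero_iff.1 h8, add_zero]
    · rintro u ⟨y, hy, hm, V, hV, hu⟩
      exact ⟨y, hy.1, hm, V, hV, hu⟩

end Pool.Agent.L5helper74.QR
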